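import Mathlib

/-!
# An invariant measure of a flow (MP_ac4f8b, Theorem P, row R5)

`Y` is a vector field with `D • Y = a • l1 + b • l2`, where `l1`, `l2` are fields without divergence
with respect to a measure `μ` and `l1 a + l2 b = 0`. Then the flow of `Y` preserves `D μ`.
-/

set_option autoImplicit false
set_option linter.unusedSectionVars false

open Set Filter Topology MeasureTheory

namespace Pool.Agent.P85.FI

section inv

variable {V : Type} [NormedAddCommGroup V] [NormedSpace ℝ V] [FiniteDimensional ℝ V]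
  [MeasurableSpace V] [BorelSpace V]

theorem aesm_of_continuousOn {W : Type} [NormedAddCommGroup W] [SecondCountableTopology W]
    {μ : Measure V} {St : Set V} (hSt : IsCompact St)
    (hμ : ∀ᵐ M ∂μ, M ∈ St) {g : V → W} (hg : ContinuousOn g St) : AEStronglyMeasurable g μ := by
  have h1 : μ.restrict St = μ := Measure.restrict_eq_self_of_ae_mem hμ
  rw [← h1]
  exact hg.aestronglyMeasurable hSt.measurableSet

theorem integrable_of_continuousOn {μ : Measure V} [IsFiniteMeasure μ] {St : Set V}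
    (hSt : IsCompact St) (hμ : ∀ᵐ M ∂μ, M ∈ St) {g : V → ℝ} (hg : ContinuousOn g St) :
    Integrable g μ := by
  obtain ⟨C, hC⟩ := hSt.exists_bound_of_continuousOn hg
  exact Integrable.of_bound (aesm_of_continuousOn hSt hμ hg) C (hμ.mono fun M hM => hC M hM)

/-- The data of a flow with an invariant measure. -/
structure InvData (μ : Measure V) (St O : Set V) (φ : ℝ → V → V) (Y l1 l2 : V → V)
    (a b D : V → ℝ) : Prop where
  compact : IsCompact St
  supp : ∀ᵐ M ∂μ, M ∈ St
  smooth : ContDiff ℝ 1 (fun p : ℝ × V => φ p.1 p.2)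
  zero : ∀ M, φ 0 M = M
  add : ∀ s t M, φ (s + t) M = φ s (φ t M)
  maps : ∀ t, ∀ M ∈ St, φ t M ∈ St
  deriv : ∀ M ∈ St, ∀ t, HasDerivAt (fun t => φ t M) (Y (φ t M)) t
  isOpen : IsOpen O
  sub : St ⊆ O
  ha : ContDiffOn ℝ 1 a O
  hb : ContDiffOn ℝ 1 b O
  hD : ContinuousOn D St
  hl1 : ContinuousOn l1 St
  hl2 : ContinuousOn l2 St
  rel : ∀ M ∈ St, D M • Y M = a M • l1 M + b M • l2 M
  div : ∀ M ∈ St, fderiv ℝ a M (l1 M) + fderiv ℝ b M (l2 M) = 0
  E1 : ∀ F : V → ℝ, ContDiffOn ℝ 1 F O → ∫ M, fderiv ℝ F M (l1 M) ∂μ = 0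
  E2 : ∀ F : V → ℝ, ContDiffOn ℝ 1 F O → ∫ M, fderiv ℝ F M (l2 M) ∂μ = 0

variable {μ : Measure V} [IsFiniteMeasure μ] {St O : Set V} {φ : ℝ → V → V} {Y l1 l2 : V → V}
  {a b D : V → ℝ}

theorem InvData.contDiff_flow (h : InvData μ St O φ Y l1 l2 a b D) (t : ℝ) :
    ContDiff ℝ 1 (φ t) :=
  h.smooth.comp (contDiff_prodMk_right t)

theorem InvData.chain (h : InvData μ St O φ Y l1 l2 a b D) {F : V → ℝ} (hF : ContDiff ℝ 1 F)
    (t : ℝ) {M : V} (hM : M ∈ St) :
    fderiv ℝ F (φ t M) (Y (φ t M)) = fderiv ℝ (fun M => F (φ t M)) M (Y M) := by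
  have hFd : Differentiable ℝ F := hF.differentiable one_ne_zero
  have hφd : Differentiable ℝ (φ t) := (h.contDiff_flow t).differentiable one_ne_zero
  have h1 : HasDerivAt (fun s => F (φ (t + s) M)) (fderiv ℝ F (φ t M) (Y (φ t M))) 0 := by
    have h2 : HasDerivAt (fun s => φ (t + s) M) (Y (φ t M)) 0 := by
      have h3 := h.deriv M hM (t + 0)
      rw [add_zero] at h3
      have h4 : HasDerivAt (fun s : ℝ => t + s) 1 0 := (hasDerivAt_id 0).const_add t
      have h5 : HasDerivAt (fun s => φ s M) (Y (φ t M)) (t + 0) := by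
        rw [add_zero]
        exact h3
      have h6 := h5.scomp (0 : ℝ) h4
      rw [one_smul] at h6
      exact h6
    have h7 : HasFDerivAt F (fderiv ℝ F (φ t M)) (φ (t + 0) M) := by
      rw [add_zero]
      exact (hFd _).hasFDerivAt
    exact h7.comp_hasDerivAt (0 : ℝ) h2
  have h2 : HasDerivAt (fun s => F (φ (t + s) M)) (fderiv ℝ (fun M => F (φ t M)) M (Y M)) 0 := by
    have h3 : (fun s => F (φ (t + s) M)) = fun s => (fun M => F (φ t M)) (φ s M) := by
      funext s
      rw [h.add]
    rw [h3]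
    have h4 := h.deriv M hM 0
    rw [h.zero] at h4
    have h5 : HasFDerivAt (fun M => F (φ t M)) (fderiv ℝ (fun M => F (φ t M)) M) (φ 0 M) := by
      rw [h.zero]
      exact ((hFd.comp hφd) M).hasFDerivAt
    exact HasFDerivAt.comp_hasDerivAt (l := fun M => F (φ t M)) (f := fun s => φ s M) (0 : ℝ) h5 h4
  exact h1.unique h2

theorem InvData.integral_zero (h : InvData μ St O φ Y l1 l2 a b D) {f : V → ℝ}
    (hf : ContDiff ℝ 1 f) : ∫ M, D M * fderiv ℝ f M (Y M) ∂μ = 0 := by
  have hfd : Differentiable ℝ f := hf.differentiable one_ne_zero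
  have haf : ContDiffOn ℝ 1 (fun M => a M * f M) O := h.ha.mul hf.contDiffOn
  have hbf : ContDiffOn ℝ 1 (fun M => b M * f M) O := h.hb.mul hf.contDiffOn
  have hc : ∀ {g : V → ℝ} {l : V → V}, ContDiffOn ℝ 1 g O → ContinuousOn l St →
      ContinuousOn (fun M => fderiv ℝ g M (l M)) St := by
    intro g l hg hl
    have h1 : ContinuousOn (fderiv ℝ g) O := hg.continuousOn_fderiv_of_isOpen h.isOpen le_rfl
    exact (h1.mono h.sub).clm_apply hl
  have key : ∀ M ∈ St, D M * fderiv ℝ f M (Y M) =
      fderiv ℝ (fun M => a M * f M) M (l1 M) + fderiv ℝ (fun M => b M * f M) M (l2 M) := by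
    intro M hM
    have hO : O ∈ 𝓝 M := h.isOpen.mem_nhds (h.sub hM)
    have ha : DifferentiableAt ℝ a M :=
      (h.ha.differentiableOn one_ne_zero M (h.sub hM)).differentiableAt hO
    have hb : DifferentiableAt ℝ b M :=
      (h.hb.differentiableOn one_ne_zero M (h.sub hM)).differentiableAt hO
    have h1 : D M * fderiv ℝ f M (Y M) = fderiv ℝ f M (D M • Y M) := by
      rw [map_smul, smul_eq_mul]
    rw [h1, h.rel M hM, map_add, map_smul, map_smul]
    have h2 := fderiv_fun_mul ha (hfd M)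
    have h3 := fderiv_fun_mul hb (hfd M)
    rw [h2, h3]
    simp only [add_apply, smul_apply, smul_eq_mul]
    linear_combination -f M * h.div M hM
  rw [integral_congr_ae (h.supp.mono fun M hM => key M hM), integral_add, h.E1 _ haf, h.E2 _ hbf,
    add_zero]
  · exact integrable_of_continuousOn h.compact h.supp (hc haf h.hl1)
  · exact integrable_of_continuousOn h.compact h.supp (hc hbf h.hl2)

theorem InvData.hasDerivAt (h : InvData μ St O φ Y l1 l2 a b D) {F : V → ℝ} (hF : ContDiff ℝ 1 F)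
    (t : ℝ) : HasDerivAt (fun t => ∫ M, D M * F (φ t M) ∂μ) 0 t := by
  have hFd : Differentiable ℝ F := hF.differentiable one_ne_zero
  let ψ : ℝ × V → V := fun p => φ p.1 p.2
  have hψ : ContDiff ℝ 1 ψ := h.smooth
  have hψ' : Continuous (fderiv ℝ ψ) := hψ.continuous_fderiv one_ne_zero
  let G : ℝ × V → ℝ := fun p => D p.2 * fderiv ℝ F (ψ p) (fderiv ℝ ψ p (1, 0))
  have hG : ContinuousOn G (Icc (t - 1) (t + 1) ×ˢ St) := by
    apply ContinuousOn.mul
    · exact h.hD.comp continuousOn_snd fun p hp => hp.2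
    · apply Continuous.continuousOn
      exact ((hF.continuous_fderiv one_ne_zero).comp hψ.continuous).clm_apply
        (hψ'.clm_apply continuous_const)
  have hderiv : ∀ M ∈ St, ∀ s, fderiv ℝ ψ (s, M) (1, 0) = Y (φ s M) := by
    intro M hM s
    have h1 : HasFDerivAt ψ (fderiv ℝ ψ (s, M)) (s, M) :=
      (hψ.differentiable one_ne_zero _).hasFDerivAt
    have h2 : HasDerivAt (fun r : ℝ => (r, M)) ((1 : ℝ), (0 : V)) s :=
      (hasDerivAt_id s).prodMk (hasDerivAt_const s M)
    have h3 := h1.comp_hasDerivAt s h2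
    exact h3.unique (h.deriv M hM s)
  obtain ⟨C, hC⟩ := ((isCompact_Icc (a := t - 1) (b := t + 1)).prod h.compact)
    |>.exists_bound_of_continuousOn hG
  have main := hasDerivAt_integral_of_dominated_loc_of_deriv_le (μ := μ) (x₀ := t)
    (s := Icc (t - 1) (t + 1)) (F := fun s M => D M * F (φ s M))
    (F' := fun s M => D M * fderiv ℝ F (φ s M) (Y (φ s M))) (bound := fun _ => C)
    (Icc_mem_nhds (by linarith) (by linarith))
    (Eventually.of_forall fun s => aesm_of_continuousOn h.compact h.supp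
      (h.hD.mul (hF.continuous.comp (h.contDiff_flow s).continuous).continuousOn))
    (integrable_of_continuousOn h.compact h.supp
      (h.hD.mul (hF.continuous.comp (h.contDiff_flow t).continuous).continuousOn))
    (by
      have h1 : ContinuousOn (fun M => G (t, M)) St :=
        hG.comp (by fun_prop) fun M hM => ⟨⟨by linarith, by linarith⟩, hM⟩
      have h2 := aesm_of_continuousOn h.compact h.supp h1
      refine h2.congr (h.supp.mono fun M hM => ?_)
      change D M * fderiv ℝ F (ψ (t, M)) (fderiv ℝ ψ (t, M) (1, 0)) = _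
      rw [hderiv M hM t])
    (h.supp.mono fun M hM s hs => by
      have h1 := hC (s, M) ⟨hs, hM⟩
      change ‖D M * fderiv ℝ F (ψ (s, M)) (fderiv ℝ ψ (s, M) (1, 0))‖ ≤ C at h1
      rw [hderiv M hM s] at h1
      exact h1)
    (integrable_const C)
    (h.supp.mono fun M hM s _ => by
      have h1 : HasDerivAt (fun s => F (φ s M)) (fderiv ℝ F (φ s M) (Y (φ s M))) s :=
        (hFd _).hasFDerivAt.comp_hasDerivAt s (h.deriv M hM s)
      exact h1.const_mul (D M))
  have h0 : ∫ M, D M * fderiv ℝ F (φ t M) (Y (φ t M)) ∂μ = 0 := by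
    rw [← h.integral_zero (hF.comp (h.contDiff_flow t))]
    refine integral_congr_ae (h.supp.mono fun M hM => ?_)
    change D M * fderiv ℝ F (φ t M) (Y (φ t M)) = D M * fderiv ℝ (fun M => F (φ t M)) M (Y M)
    rw [h.chain hF t hM]
  have h1 := main.2
  rw [h0] at h1
  exact h1

/-- Step (1) for `C¹` functions. -/
theorem InvData.integral_eq (h : InvData μ St O φ Y l1 l2 a b D) {F : V → ℝ}
    (hF : ContDiff ℝ 1 F) (t : ℝ) : ∫ M, D M * F (φ t M) ∂μ = ∫ M, D M * F M ∂μ := by
  have h1 := is_const_of_deriv_eq_zero (f := fun t => ∫ M, D M * F (φ t M) ∂μ)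
    (fun t => (h.hasDerivAt hF t).differentiableAt) (fun t => (h.hasDerivAt hF t).deriv) t 0
  simp only [h.zero] at h1
  exact h1

/-- the measure `D μ` -/
noncomputable def Dmeas (μ : Measure V) (D : V → ℝ) : Measure V :=
  μ.withDensity fun M => ENNReal.ofReal (D M)

theorem integral_Dmeas {W : Type} [NormedAddCommGroup W] [NormedSpace ℝ W] [CompleteSpace W]
    {μ : Measure V} {St : Set V} (hSt : IsCompact St) (hμ : ∀ᵐ M ∂μ, M ∈ St) {D : V → ℝ}
    (hD : ContinuousOn D St) (h0 : ∀ M ∈ St, 0 ≤ D M) (F : V → W) :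
    ∫ M, F M ∂(Dmeas μ D) = ∫ M, D M • F M ∂μ := by
  rw [Dmeas, integral_withDensity_eq_integral_toReal_smul₀]
  · refine integral_congr_ae (hμ.mono fun M hM => ?_)
    change (ENNReal.ofReal (D M)).toReal • F M = D M • F M
    rw [ENNReal.toReal_ofReal (h0 M hM)]
  · exact (aesm_of_continuousOn hSt hμ hD).aemeasurable.ennreal_ofReal
  · exact Eventually.of_forall fun M => ENNReal.ofReal_lt_top

theorem finite_Dmeas {μ : Measure V} [IsFiniteMeasure μ] {St : Set V} (hSt : IsCompact St)
    (hμ : ∀ᵐ M ∂μ, M ∈ St) {D : V → ℝ} (hD : ContinuousOn D St) : IsFiniteMeasure (Dmeas μ D) := by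
  apply isFiniteMeasure_withDensity_ofReal
  exact (integrable_of_continuousOn hSt hμ hD).2

/-- The flow preserves the measure `D μ`. -/
theorem InvData.map_eq (h : InvData μ St O φ Y l1 l2 a b D) (h0 : ∀ M ∈ St, 0 ≤ D M) (t : ℝ) :
    (Dmeas μ D).map (φ t) = Dmeas μ D := by
  have hfin := finite_Dmeas (μ := μ) h.compact h.supp h.hD
  have hfin2 : IsFiniteMeasure ((Dmeas μ D).map (φ t)) := inferInstance
  apply Measure.ext_of_charFunDual
  funext L
  rw [charFunDual_apply, charFunDual_apply]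
  have hc : Continuous fun v : V => Complex.exp ((L v : ℂ) * Complex.I) := by fun_prop
  rw [integral_map (h.contDiff_flow t).continuous.aemeasurable hc.aestronglyMeasurable,
    integral_Dmeas h.compact h.supp h.hD h0, integral_Dmeas h.compact h.supp h.hD h0]
  have e : ∀ v : V, Complex.exp ((L v : ℂ) * Complex.I) =
      ((Real.cos (L v) : ℝ) : ℂ) + ((Real.sin (L v) : ℝ) : ℂ) * Complex.I := by
    intro v
    rw [Complex.exp_mul_I, Complex.ofReal_cos, Complex.ofReal_sin]
  have key : ∀ ψ : V → V, Continuous ψ →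
      ∫ M, D M • Complex.exp ((L (ψ M) : ℂ) * Complex.I) ∂μ =
        ((∫ M, D M * Real.cos (L (ψ M)) ∂μ : ℝ) : ℂ) +
          ((∫ M, D M * Real.sin (L (ψ M)) ∂μ : ℝ) : ℂ) * Complex.I := by
    intro ψ hψ
    have i1 : Integrable (fun M => D M * Real.cos (L (ψ M))) μ :=
      integrable_of_continuousOn h.compact h.supp
        (h.hD.mul (by fun_prop : Continuous fun M => Real.cos (L (ψ M))).continuousOn)
    have i2 : Integrable (fun M => D M * Real.sin (L (ψ M))) μ :=
      integrable_of_continuousOn h.compact h.supp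
        (h.hD.mul (by fun_prop : Continuous fun M => Real.sin (L (ψ M))).continuousOn)
    rw [← integral_complex_ofReal, ← integral_complex_ofReal, ← integral_mul_const,
      ← integral_add i1.ofReal (i2.ofReal.mul_const _)]
    refine integral_congr_ae (Eventually.of_forall fun M => ?_)
    change D M • Complex.exp ((L (ψ M) : ℂ) * Complex.I) = _
    rw [e, Complex.real_smul]
    push_cast
    ring
  have k1 := key (φ t) (h.contDiff_flow t).continuous
  have k2 := key id continuous_id
  simp only [id] at k2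
  rw [k1, k2]
  have c1 : ContDiff ℝ 1 fun M : V => Real.cos (L M) := by fun_prop
  have c2 : ContDiff ℝ 1 fun M : V => Real.sin (L M) := by fun_prop
  rw [h.integral_eq c1 t, h.integral_eq c2 t]

/-- Step (1): `E[D F ∘ φ_t] = E[D F]` for measurable `F`. -/
theorem InvData.integral_comp (h : InvData μ St O φ Y l1 l2 a b D) (h0 : ∀ M ∈ St, 0 ≤ D M)
    (t : ℝ) {F : V → ℝ} (hF : AEStronglyMeasurable F (Dmeas μ D)) :
    ∫ M, D M * F (φ t M) ∂μ = ∫ M, D M * F M ∂μ := by
  have h1 := integral_Dmeas h.compact h.supp h.hD h0 (fun M => F (φ t M))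
  have h2 := integral_Dmeas h.compact h.supp h.hD h0 F
  simp only [smul_eq_mul] at h1 h2
  rw [← h1, ← h2]
  have h3 := h.map_eq h0 t
  conv_rhs => rw [← h3]
  rw [integral_map (h.contDiff_flow t).continuous.aemeasurable]
  rw [h3]
  exact hF

end inv

end Pool.Agent.P85.FI
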