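import Pool.Agent.P85.Defs
import Pool.Agent.P85.Inv

/-!
# The flow preserves the measure (row R5)
-/

set_option autoImplicit false
open scoped ContDiff
open Real Set MeasureTheory Filter Topology

namespace Pool.Agent.P85.FI

variable {H : E3 → ℝ} {w : ℝ} {φ : ℝ → Fr → Fr} {μ : Measure Fr}

theorem isOpen_compl_zero : IsOpen ({0}ᶜ : Set E3) := isOpen_compl_singleton

theorem sContDiffAt (hS : Supp H w) {u : E3} (hu : u ≠ 0) : ContDiffAt ℝ ∞ H u :=
  hS.smooth.contDiffAt (isOpen_compl_zero.mem_nhds hu)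

theorem sContDiffAt_fderiv (hS : Supp H w) {u : E3} (hu : u ≠ 0) :
    ContDiffAt ℝ ∞ (fderiv ℝ H) u :=
  (sContDiffAt hS hu).fderiv_right (m := ∞) (by simp)

theorem sContDiffAt_fderiv2 (hS : Supp H w) {u : E3} (hu : u ≠ 0) :
    ContDiffAt ℝ ∞ (fderiv ℝ (fderiv ℝ H)) u :=
  (sContDiffAt_fderiv hS hu).fderiv_right (m := ∞) (by simp)

/-- Euler's relation. -/
theorem sEuler (hS : Supp H w) {u : E3} (hu : u ≠ 0) : fderiv ℝ H u u = H u := by
  have h1 : HasDerivAt (fun t : ℝ => H (t • u)) (fderiv ℝ H u u) 1 := by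
    have h2 : HasDerivAt (fun t : ℝ => t • u) ((1 : ℝ) • u) 1 := (hasDerivAt_id 1).smul_const u
    rw [one_smul] at h2
    have h3 : HasFDerivAt H (fderiv ℝ H u) ((1 : ℝ) • u) := by
      rw [one_smul]
      exact ((sContDiffAt hS hu).differentiableAt (by simp)).hasFDerivAt
    exact h3.comp_hasDerivAt (1 : ℝ) h2
  have h2 : HasDerivAt (fun t : ℝ => t * H u) (H u) 1 := by
    have h3 := (hasDerivAt_id (1 : ℝ)).mul_const (H u)
    rw [one_mul] at h3
    exact h3
  have h3 : (fun t : ℝ => H (t • u)) =ᶠ[𝓝 1] fun t : ℝ => t * H u := by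
    filter_upwards [lt_mem_nhds (show (0 : ℝ) < 1 by norm_num)] with t ht
    exact hS.hom t ht u
  exact h1.unique (h2.congr_of_eventuallyEq h3)

theorem sD2_self (hS : Supp H w) {u : E3} (hu : u ≠ 0) (v : E3) : D2 H u v u = 0 := by
  have h1 : HasFDerivAt (fun x : E3 => fderiv ℝ H x x) (fderiv ℝ H u) u := by
    have h2 : HasFDerivAt H (fderiv ℝ H u) u :=
      ((sContDiffAt hS hu).differentiableAt (by simp)).hasFDerivAt
    refine h2.congr_of_eventuallyEq ?_
    filter_upwards [isOpen_compl_zero.mem_nhds hu] with x hx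
    exact sEuler hS hx
  have h2 : HasFDerivAt (fderiv ℝ H) (fderiv ℝ (fderiv ℝ H) u) u :=
    ((sContDiffAt_fderiv hS hu).differentiableAt (by simp)).hasFDerivAt
  have h3 := h2.clm_apply (hasFDerivAt_id u)
  have h4 := h1.unique h3
  have h5 := congrArg (fun L : E3 →L[ℝ] ℝ => L v) h4
  simp at h5
  exact h5

theorem contDiff_bb : ContDiff ℝ ∞ bb := by
  unfold bb cr pt
  rw [contDiff_euclidean]
  intro i
  fin_cases i
  · simp
    fun_prop
  · simp
    fun_prop
  · simp
    fun_prop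

theorem cr_add_left (a b c : E3) : cr (a + b) c = cr a c + cr b c := by
  ext i
  fin_cases i <;> simp [cr] <;> ring

theorem cr_add_right (a b c : E3) : cr a (b + c) = cr a b + cr a c := by
  ext i
  fin_cases i <;> simp [cr] <;> ring

theorem cr_smul_left (t : ℝ) (a b : E3) : cr (t • a) b = t • cr a b := by
  ext i
  fin_cases i <;> simp [cr] <;> ring

theorem cr_smul_right (t : ℝ) (a b : E3) : cr a (t • b) = t • cr a b := by
  ext i
  fin_cases i <;> simp [cr] <;> ring

theorem cr_self (a : E3) : cr a a = 0 := by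
  ext i
  fin_cases i <;> simp [cr] <;> ring

theorem cr_cr (M : Fr) (hM : M ∈ St) : cr (bb M) M.2 = -M.1 := by
  obtain ⟨h1, h2, h3⟩ := hM
  have h4 := norm_sq_eq M.2
  rw [h2] at h4
  rw [inner_eq] at h3
  ext i
  fin_cases i
  · simp [cr, bb]
    linear_combination (M.1 0) * h4 + M.2 0 * h3
  · simp [cr, bb]
    linear_combination (M.1 1) * h4 + M.2 1 * h3
  · simp [cr, bb]
    linear_combination (M.1 2) * h4 + M.2 2 * h3

theorem St_ne_zero {M : Fr} (hM : M ∈ St) : M.1 ≠ 0 := by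
  intro h
  have h1 := hM.1
  rw [h, norm_zero] at h1
  exact zero_ne_one h1

theorem isCompact_St : IsCompact St := by
  have hcl : IsClosed St := by
    have h1 : St = {M : Fr | ‖M.1‖ = 1} ∩ ({M : Fr | ‖M.2‖ = 1} ∩
        {M : Fr | inner ℝ M.1 M.2 = 0}) := by
      ext M
      exact Iff.rfl
    rw [h1]
    refine (isClosed_eq (by fun_prop) (by fun_prop)).inter
      ((isClosed_eq (by fun_prop) (by fun_prop)).inter (isClosed_eq (by fun_prop) (by fun_prop)))
  apply (isCompact_closedBall (0 : Fr) 1).of_isClosed_subset hcl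
  intro M hM
  rw [mem_closedBall_zero_iff, Prod.norm_def, hM.1, hM.2.1, max_self]

/-- The open set on which the fields are smooth. -/
def OO : Set Fr := {M | M.1 ≠ 0}

theorem isOpen_OO : IsOpen OO := isOpen_compl_zero.preimage continuous_fst

theorem contDiffOn_R (hS : Supp H w) {f g : Fr → E3} (hf : ContDiff ℝ ∞ f) (hg : ContDiff ℝ ∞ g) :
    ContDiffOn ℝ ∞ (fun M : Fr => D2 H M.1 (f M) (g M)) OO := by
  intro M hM
  apply ContDiffAt.contDiffWithinAt
  have h1 : ContDiffAt ℝ ∞ (fun M : Fr => fderiv ℝ (fderiv ℝ H) M.1) M :=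
    (sContDiffAt_fderiv2 hS hM).comp M contDiffAt_fst
  exact (h1.clm_apply hf.contDiffAt).clm_apply hg.contDiffAt

/-- The derivative of `D2 H M.1 (f M) (g M)` along a line. -/
theorem deriv_R (hS : Supp H w) {f g : Fr → E3} (hf : ContDiff ℝ ∞ f) (hg : ContDiff ℝ ∞ g)
    {M : Fr} (hM : M ∈ OO) (v : Fr) :
    fderiv ℝ (fun M : Fr => D2 H M.1 (f M) (g M)) M v =
      fderiv ℝ (fderiv ℝ (fderiv ℝ H)) M.1 v.1 (f M) (g M) +
        D2 H M.1 (fderiv ℝ f M v) (g M) + D2 H M.1 (f M) (fderiv ℝ g M v) := by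
  have h0 : HasFDerivAt (fun M : Fr => fderiv ℝ (fderiv ℝ H) M.1)
      ((fderiv ℝ (fderiv ℝ (fderiv ℝ H)) M.1).comp (ContinuousLinearMap.fst ℝ E3 E3)) M :=
    (((sContDiffAt_fderiv2 hS hM).differentiableAt (by simp)).hasFDerivAt).comp M hasFDerivAt_fst
  have hf' : HasFDerivAt f (fderiv ℝ f M) M := (hf.differentiable (by simp) M).hasFDerivAt
  have hg' : HasFDerivAt g (fderiv ℝ g M) M := (hg.differentiable (by simp) M).hasFDerivAt
  have h1 := (h0.clm_apply hf').clm_apply hg'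
  have h2 : fderiv ℝ (fun M : Fr => D2 H M.1 (f M) (g M)) M = _ := h1.fderiv
  rw [h2]
  simp [D2]
  ring

theorem fderiv_bb (M v : Fr) : fderiv ℝ bb M v = cr v.1 M.2 + cr M.1 v.2 := by
  have h1 : HasDerivAt (fun t : ℝ => bb (M + t • v)) (fderiv ℝ bb M v) 0 := by
    have h2 : HasDerivAt (fun t : ℝ => M + t • v) v 0 := by
      have h3 := ((hasDerivAt_id (0 : ℝ)).smul_const v).const_add M
      rw [one_smul] at h3
      exact h3
    have h3 : HasFDerivAt bb (fderiv ℝ bb M) (M + (0 : ℝ) • v) := by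
      rw [zero_smul, add_zero]
      exact (contDiff_bb.differentiable (by simp) M).hasFDerivAt
    exact h3.comp_hasDerivAt (0 : ℝ) h2
  have h2 : HasDerivAt (fun t : ℝ => bb (M + t • v)) (cr v.1 M.2 + cr M.1 v.2) 0 := by
    have h3 : (fun t : ℝ => bb (M + t • v)) = fun t : ℝ => bb M +
        t • (cr v.1 M.2 + cr M.1 v.2) + t ^ 2 • cr v.1 v.2 := by
      funext t
      change cr (M.1 + t • v.1) (M.2 + t • v.2) = cr M.1 M.2 + _ + _
      rw [cr_add_left, cr_add_right, cr_add_right, cr_smul_left, cr_smul_left, cr_smul_right,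
        cr_smul_right]
      module
    rw [h3]
    have h4 := (((hasDerivAt_id (0 : ℝ)).smul_const (cr v.1 M.2 + cr M.1 v.2)).const_add
      (bb M)).add (((hasDerivAt_id (0 : ℝ)).pow 2).smul_const (cr v.1 v.2))
    have h5 : (fun t : ℝ => bb M + t • (cr v.1 M.2 + cr M.1 v.2) + t ^ 2 • cr v.1 v.2) =
        (fun x : ℝ => bb M + id x • (cr v.1 M.2 + cr M.1 v.2)) +
          fun y : ℝ => (id ^ 2 : ℝ → ℝ) y • cr v.1 v.2 := by
      funext t
      simp
    rw [h5]
    refine h4.congr_deriv ?_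
    simp
  exact h1.unique h2

theorem div_zero (hS : Supp H w) {M : Fr} (hM : M ∈ St) :
    fderiv ℝ (Rbb H) M (M.2, -M.1) + fderiv ℝ (fun M => -Reb H M) M (bb M, 0) = 0 := by
  have hO : M ∈ OO := St_ne_zero hM
  have h1 : fderiv ℝ (Rbb H) M (M.2, -M.1) =
      fderiv ℝ (fderiv ℝ (fderiv ℝ H)) M.1 M.2 (bb M) (bb M) := by
    have h2 := deriv_R hS contDiff_bb contDiff_bb hO (M.2, -M.1)
    rw [fderiv_bb] at h2
    have h3 : cr M.2 M.2 + cr M.1 (-M.1) = 0 := by
      rw [cr_self, zero_add, ← neg_one_smul ℝ M.1, cr_smul_right, cr_self, smul_zero]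
    simp only at h2
    rw [h3] at h2
    have h4 : ∀ v : E3, D2 H M.1 0 v = 0 := by
      intro v
      simp [D2]
    have h5 : ∀ v : E3, D2 H M.1 v 0 = 0 := by
      intro v
      simp [D2]
    rw [h4, h5, add_zero, add_zero] at h2
    exact h2
  have h2 : fderiv ℝ (fun M => -Reb H M) M (bb M, 0) =
      -fderiv ℝ (fderiv ℝ (fderiv ℝ H)) M.1 (bb M) M.2 (bb M) := by
    have h3 : fderiv ℝ (fun M => -Reb H M) M = -fderiv ℝ (Reb H) M := fderiv_fun_neg
    rw [h3, neg_apply, neg_inj]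
    have h4 := deriv_R hS (f := fun M : Fr => M.2) contDiff_snd contDiff_bb hO (bb M, 0)
    rw [fderiv_bb] at h4
    have h5 : cr (bb M) M.2 + cr M.1 0 = -M.1 := by
      rw [cr_cr M hM]
      have h6 : cr M.1 0 = 0 := by
        have h7 := cr_smul_right 0 M.1 (0 : E3)
        rwa [zero_smul, zero_smul] at h7
      rw [h6, add_zero]
    simp only at h4
    rw [h5] at h4
    have h6 : fderiv ℝ (fun M : Fr => M.2) M (bb M, 0) = 0 := by
      have h7 : fderiv ℝ (fun M : Fr => M.2) M = ContinuousLinearMap.snd ℝ E3 E3 := fderiv_snd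
      rw [h7]
      rfl
    rw [h6] at h4
    have h7 : D2 H M.1 0 (bb M) = 0 := by simp [D2]
    have h8 : D2 H M.1 M.2 (-M.1) = 0 := by
      have h9 := sD2_self hS (St_ne_zero hM) M.2
      rw [D2] at h9 ⊢
      rw [map_neg, h9, neg_zero]
    rw [h7, h8, add_zero, add_zero] at h4
    exact h4
  rw [h1, h2]
  have h3 : fderiv ℝ (fderiv ℝ (fderiv ℝ H)) M.1 M.2 (bb M) =
      fderiv ℝ (fderiv ℝ (fderiv ℝ H)) M.1 (bb M) M.2 := by
    have h4 : IsSymmSndFDerivAt ℝ (fderiv ℝ H) M.1 := by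
      apply (sContDiffAt_fderiv hS (St_ne_zero hM)).isSymmSndFDerivAt
      simp only [minSmoothness_of_isRCLikeNormedField]
      exact WithTop.coe_le_coe.mpr (le_top : (2 : ℕ∞) ≤ ⊤)
    exact h4 M.2 (bb M)
  rw [h3]
  ring

theorem Dn_continuousOn (hS : Supp H w) : ContinuousOn (Dn H) OO := by
  have h1 := (contDiffOn_R hS (f := fun M : Fr => M.2) (g := fun M : Fr => M.2) contDiff_snd
    contDiff_snd).continuousOn
  have h2 := (contDiffOn_R hS contDiff_bb contDiff_bb).continuousOn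
  have h3 := (contDiffOn_R hS (f := fun M : Fr => M.2) contDiff_snd contDiff_bb).continuousOn
  exact (h1.mul h2).sub (h3.pow 2)

theorem bb_sq {M : Fr} (hM : M ∈ St) : (bb M) 0 ^ 2 + (bb M) 1 ^ 2 + (bb M) 2 ^ 2 = 1 := by
  obtain ⟨h1, h2, h3⟩ := hM
  have h4 := norm_sq_eq M.1
  have h5 := norm_sq_eq M.2
  rw [h1] at h4
  rw [h2] at h5
  rw [inner_eq] at h3
  simp only [bb, cr, pt_zero, pt_one, pt_two]
  have h6 : (M.1 1 * M.2 2 - M.1 2 * M.2 1) ^ 2 + (M.1 2 * M.2 0 - M.1 0 * M.2 2) ^ 2 +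
      (M.1 0 * M.2 1 - M.1 1 * M.2 0) ^ 2 = (M.1 0 ^ 2 + M.1 1 ^ 2 + M.1 2 ^ 2) *
      (M.2 0 ^ 2 + M.2 1 ^ 2 + M.2 2 ^ 2) -
      (M.1 0 * M.2 0 + M.1 1 * M.2 1 + M.1 2 * M.2 2) ^ 2 := by ring
  rw [h6, h3, ← h4, ← h5]
  norm_num

theorem inner_bb (M : Fr) : inner ℝ M.1 (bb M) = 0 ∧ inner ℝ M.2 (bb M) = 0 := by
  constructor
  · rw [inner_eq]
    simp only [bb, cr, pt_zero, pt_one, pt_two]
    ring
  · rw [inner_eq]
    simp only [bb, cr, pt_zero, pt_one, pt_two]
    ring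

theorem D2_symm (hS : Supp H w) {u : E3} (hu : u ≠ 0) (v v' : E3) : D2 H u v v' = D2 H u v' v := by
  have h4 : IsSymmSndFDerivAt ℝ H u := by
    apply (sContDiffAt hS hu).isSymmSndFDerivAt
    simp only [minSmoothness_of_isRCLikeNormedField]
    exact WithTop.coe_le_coe.mpr (le_top : (2 : ℕ∞) ≤ ⊤)
  exact h4 v v'

/-- The determinant of the radii of curvature is positive. -/
theorem det_pos (hS : Supp H w) {M : Fr} (hM : M ∈ St) : 0 < Dn H M := by
  have hb1 := bb_sq hM
  obtain ⟨hb2, hb3⟩ := inner_bb M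
  have hM' := hM
  obtain ⟨h1, h2, h3⟩ := hM'
  have hu := St_ne_zero hM
  have he : 0 < Ree H M := by
    refine hS.pos M.1 M.2 h1 h3 ?_
    intro h
    rw [h, norm_zero] at h2
    exact zero_ne_one h2
  let v : E3 := Reb H M • M.2 - Ree H M • bb M
  have hv : inner ℝ M.1 v = 0 := by
    rw [inner_sub_right, inner_smul_right, inner_smul_right, h3, hb2]
    ring
  have hv0 : v ≠ 0 := by
    intro h
    have h5 : inner ℝ (bb M) v = -Ree H M := by
      rw [inner_sub_right, inner_smul_right, inner_smul_right, real_inner_comm M.2 (bb M), hb3,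
        real_inner_self_eq_norm_sq, norm_sq_eq, hb1]
      ring
    rw [h, inner_zero_right] at h5
    linarith
  have h5 := hS.pos M.1 v h1 hv hv0
  have h6 : D2 H M.1 v v = Ree H M * Dn H M := by
    have h7 : D2 H M.1 (bb M) M.2 = Reb H M := D2_symm hS hu _ _
    have h8 : D2 H M.1 v v = Reb H M ^ 2 * D2 H M.1 M.2 M.2 -
        Reb H M * Ree H M * D2 H M.1 M.2 (bb M) - Ree H M * Reb H M * D2 H M.1 (bb M) M.2 +
        Ree H M ^ 2 * D2 H M.1 (bb M) (bb M) := by
      simp only [v, D2, map_sub, map_smul, sub_apply, smul_apply, smul_eq_mul]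
      ring
    rw [h8, h7]
    simp only [Dn, Ree, Reb, Rbb]
    ring
  rw [h6] at h5
  exact (mul_pos_iff_of_pos_left he).mp h5

end Pool.Agent.P85.FI

namespace Pool.Agent.P85

open FI

variable {H : E3 → ℝ} {w : ℝ} {φ : ℝ → Fr → Fr} {μ : Measure Fr}

/-- R5: the flow preserves the measure. -/
theorem flow_inv (hS : Supp H w) (hΦ : Flow H φ) (hμ : Inv μ) (t : ℝ) :
    MeasurePreserving (φ t) (dm H μ) (dm H μ) := by
  have hp := hμ.prob
  have hat : ∀ F : Fr → ℝ, ContDiffOn ℝ 1 F OO → ∀ M ∈ St, ContDiffAt ℝ 1 F M :=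
    fun F hF M hM => hF.contDiffAt (isOpen_OO.mem_nhds (St_ne_zero hM))
  have hbb : Continuous bb := contDiff_bb.continuous
  have h : InvData μ St OO φ (Y H) (fun M => (M.2, -M.1)) (fun M => (bb M, 0)) (Rbb H)
      (fun M => -Reb H M) (Dn H) :=
    { compact := isCompact_St
      supp := hμ.st
      smooth := hΦ.smooth
      zero := hΦ.zero
      add := hΦ.add
      maps := fun t M hM => hΦ.st t M hM
      deriv := fun M hM t => hΦ.ode t M hM
      isOpen := isOpen_OO
      sub := fun M hM => St_ne_zero hM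
      ha := (contDiffOn_R hS contDiff_bb contDiff_bb).of_le (by
        exact WithTop.coe_le_coe.mpr (le_top : (1 : ℕ∞) ≤ ⊤))
      hb := ((contDiffOn_R hS (f := fun M : Fr => M.2) contDiff_snd contDiff_bb).of_le (by
        exact WithTop.coe_le_coe.mpr (le_top : (1 : ℕ∞) ≤ ⊤))).neg
      hD := (Dn_continuousOn hS).mono fun M hM => St_ne_zero hM
      hl1 := by fun_prop
      hl2 := by fun_prop
      rel := by
        intro M hM
        have hd := (det_pos hS hM).ne'
        have e1 : Dn H M * kap H M = Rbb H M := by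
          rw [kap, mul_div_cancel₀ _ hd]
        have e2 : Dn H M * tau H M = -Reb H M := by
          rw [tau, mul_div_cancel₀ _ hd]
        apply Prod.ext
        · simp only [Y, Prod.smul_fst, Prod.fst_add, smul_add, smul_smul, e1, e2]
        · simp only [Y, Prod.smul_snd, Prod.snd_add, smul_neg, smul_smul, e1, smul_zero, add_zero]
      div := fun M hM => div_zero hS hM
      E1 := fun F hF => hμ.l1 F (hat F hF)
      E2 := fun F hF => hμ.l2 F (hat F hF) }
  exact ⟨(h.contDiff_flow t).continuous.measurable,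
    h.map_eq (fun M hM => (det_pos hS hM).le) t⟩

end Pool.Agent.P85
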