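import Pool.Agent.P85.Mean
import Pool.Agent.P85.FlowInv

/-!
# The area of the surface (step (7))
-/

set_option autoImplicit false
open scoped ContDiff
open Real Set MeasureTheory

namespace Pool.Agent.P85

variable {H : E3 → ℝ} {w c : ℝ} {φ : ℝ → Fr → Fr} {μ : Measure Fr} {K : Set E3} {f : E3 → ℝ}

namespace Ar

lemma measurable_D2 (H : E3 → ℝ) {g1 g2 g3 : Fr → E3} (h1 : Measurable g1) (h2 : Measurable g2)
    (h3 : Measurable g3) : Measurable (fun M => D2 H (g1 M) (g2 M) (g3 M)) := by
  unfold D2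
  have h := (measurable_fderiv ℝ (fderiv ℝ H)).comp h1
  have h4 : Measurable (fun M => (fderiv ℝ (fderiv ℝ H) (g1 M)) (g2 M)) := by
    have hc : Measurable (fun p : (E3 →L[ℝ] E3 →L[ℝ] ℝ) × E3 => p.1 p.2) :=
      isBoundedBilinearMap_apply.continuous.measurable
    exact hc.comp (h.prodMk h2)
  have hc : Measurable (fun p : (E3 →L[ℝ] ℝ) × E3 => p.1 p.2) :=
    isBoundedBilinearMap_apply.continuous.measurable
  exact hc.comp (h4.prodMk h3)

lemma measurable_Ree (H : E3 → ℝ) : Measurable (Ree H) :=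
  measurable_D2 H measurable_fst measurable_snd measurable_snd

lemma measurable_Reb (H : E3 → ℝ) : Measurable (Reb H) :=
  measurable_D2 H measurable_fst measurable_snd continuous_bb.measurable

lemma measurable_Rbb (H : E3 → ℝ) : Measurable (Rbb H) :=
  measurable_D2 H measurable_fst continuous_bb.measurable continuous_bb.measurable

lemma measurable_Dn (H : E3 → ℝ) : Measurable (Dn H) :=
  ((measurable_Ree H).mul (measurable_Rbb H)).sub ((measurable_Reb H).pow_const 2)

lemma measurable_kap (H : E3 → ℝ) : Measurable (kap H) := (measurable_Rbb H).div (measurable_Dn H)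

lemma measurable_tau (H : E3 → ℝ) : Measurable (tau H) :=
  (measurable_Reb H).neg.div (measurable_Dn H)

lemma continuous_b3 : Continuous (fun M : Fr => bb M 2) := by
  unfold bb cr pt
  fun_prop

lemma measurable_om (H : E3 → ℝ) : Measurable (om H) := by
  unfold om
  refine (measurable_kap H).sub (((measurable_tau H).mul ?_).div (measurable_const.add
    continuous_b3.measurable))
  exact (by fun_prop : Continuous (fun M : Fr => M.2 2)).measurable

end Ar

/-- The area of the surface. -/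
theorem area (hS : Supp H w) (hΦ : Flow H φ) (hμ : Inv μ) {L : ℝ} (hL : 0 < L)
    (hbound : ∃ C : ℝ, ∀ M ∈ St, bb M 2 ≠ -1 → |om H M| ≤ C)
    (hnever : ∀ M ∈ St, bb M 2 ≠ -1 → ∀ t, bb (φ t M) 2 ≠ -1)
    (hwind : ∀ M ∈ St, bb M 2 ≠ -1 → ∫ t in (0 : ℝ)..L, om H (φ t M) = 2 * L / w) :
    ∫ M, Dn H M ∂μ = w ^ 2 / 4 := by
  have := hμ.prob
  have hw := hS.wpos
  obtain ⟨C, hC⟩ := hbound
  have hC0 : 0 ≤ C := by
    have hM0 : (pt 1 0 0, pt 0 1 0) ∈ St := by
      refine ⟨?_, ?_, ?_⟩
      · rw [← pow_eq_one_iff_of_nonneg (norm_nonneg _) two_ne_zero, norm_sq_eq]; simp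
      · rw [← pow_eq_one_iff_of_nonneg (norm_nonneg _) two_ne_zero, norm_sq_eq]; simp
      · rw [inner_eq]; simp
    exact (abs_nonneg _).trans (hC _ hM0 (by simp [bb, cr]; norm_num))
  -- the density is integrable
  have hDint : Integrable (Dn H) μ := hμ.integrable_cont hS.Dn_cont
  have hDpos : ∀ᵐ M ∂μ, 0 ≤ Dn H M := hμ.st.mono fun M hM => (hS.Dn_pos hM).le
  set m := dm H μ with hm
  have hmac : m ≪ μ := withDensity_absolutelyContinuous _ _
  have hmfin : IsFiniteMeasure m := by
    refine isFiniteMeasure_withDensity_ofReal hDint.2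
  have hint : ∀ g : Fr → ℝ, ∫ M, g M ∂m = ∫ M, Dn H M * g M ∂μ := by
    intro g
    rw [hm, dm, integral_withDensity_eq_integral_toReal_smul
      (Ar.measurable_Dn H).ennreal_ofReal (by simp)]
    refine integral_congr_ae (hDpos.mono fun M hM => ?_)
    simp only [smul_eq_mul]
    rw [ENNReal.toReal_ofReal hM]
  have hnull : ∀ᵐ M ∂μ, bb M 2 ≠ -1 := by
    rw [ae_iff]; simpa using hμ.null
  have hst : ∀ᵐ M ∂m, M ∈ St ∧ bb M 2 ≠ -1 := hmac.ae_le (hμ.st.and hnull)
  have hb : ∀ᵐ M ∂m, ∀ t, |om H (φ t M)| ≤ C := by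
    refine hst.mono fun M hM t => ?_
    exact hC _ (hΦ.st t M hM.1) (hnever M hM.1 hM.2 t)
  -- the total mass
  have htot : (m univ).toReal = ∫ M, Dn H M ∂μ := by
    have := hint (fun _ => 1)
    simp only [mul_one, integral_const, smul_eq_mul] at this
    rw [← this]; rfl
  -- the mean of `om`
  have hom : ∫ M, om H M ∂m = w / 2 := by
    rw [hint]
    have h1 : ∫ M, Dn H M * om H M ∂μ =
        ∫ M, (Rbb H M + Reb H M * M.2 2 / (1 + bb M 2)) ∂μ :=
      integral_congr_ae (hμ.st.mono fun M hM => hS.Dn_om hM)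
    have hi1 : Integrable (fun M => Dn H M * om H M) μ :=
      hDint.mul_bdd (Ar.measurable_om H).aestronglyMeasurable
        ((hμ.st.and hnull).mono fun M hM => hC M hM.1 hM.2)
    have hi2 : Integrable (Rbb H) μ := hμ.integrable_cont hS.Rbb_cont
    have hi3 : Integrable (fun M => Reb H M * M.2 2 / (1 + bb M 2)) μ := by
      refine (hi1.sub hi2).congr (hμ.st.mono fun M hM => ?_)
      simp only [Pi.sub_apply]
      rw [hS.Dn_om hM]; ring
    rw [h1, integral_add hi2 hi3, int_Rbb hS hμ, int_cross hS hμ, add_zero]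
  have hφ : ∀ t, ∫ M, om H (φ t M) ∂m = w / 2 := by
    intro t
    have hmp := flow_inv hS hΦ hμ t
    rw [← hom]
    rw [← hm] at hmp
    have h2 := hmp.map_eq
    conv_rhs => rw [← h2]
    rw [integral_map hmp.measurable.aemeasurable (Ar.measurable_om H).aestronglyMeasurable]
  have hjoint : Measurable (fun q : Fr × ℝ => om H (φ q.2 q.1)) := by
    have : Continuous (fun q : Fr × ℝ => φ q.2 q.1) :=
      hΦ.smooth.continuous.comp (continuous_snd.prodMk continuous_fst)
    exact (Ar.measurable_om H).comp this.measurable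
  have hfub : ∫ M, (∫ t in (0 : ℝ)..L, om H (φ t M)) ∂m =
      ∫ t in (0 : ℝ)..L, (∫ M, om H (φ t M) ∂m) := by
    simp only [intervalIntegral.integral_of_le hL.le]
    rw [integral_integral_swap]
    refine Integrable.of_bound (hjoint.aestronglyMeasurable) C ?_
    have h2 : ∀ᵐ q ∂(m.prod (volume.restrict (Ioc 0 L))), ∀ t, |om H (φ t q.1)| ≤ C :=
      Measure.quasiMeasurePreserving_fst.ae hb
    exact h2.mono fun q hq => hq q.2
  have h1 : ∫ M, (∫ t in (0 : ℝ)..L, om H (φ t M)) ∂m = 2 * L / w * (m univ).toReal := by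
    rw [integral_congr_ae (g := fun _ => 2 * L / w)
      (hst.mono fun M hM => hwind M hM.1 hM.2)]
    rw [integral_const, smul_eq_mul, mul_comm]; rfl
  rw [hfub] at h1
  simp only [hφ, intervalIntegral.integral_const, smul_eq_mul, sub_zero] at h1
  rw [htot] at h1
  field_simp at h1
  nlinarith [h1]

end Pool.Agent.P85
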