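import Pool.Agent.P85.Supp

/-!
# Cases in which a plane cuts the surface orthogonally

(a) a geodesic which is a plane curve, (b) a plane of symmetry, (c) a body of revolution.
-/

set_option autoImplicit false
open scoped ContDiff
open Real Set

namespace Pool.Agent.P85

open Pool.Agent.P85.Sp

variable {K : Set E3} {f : E3 → ℝ} {w c : ℝ}

/-- A vector of three-space orthogonal to an orthonormal triple is zero. -/
theorem eq_zero_of_perp {x a b d : E3} (ha : ‖a‖ = 1) (hb : ‖b‖ = 1) (hd : ‖d‖ = 1)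
    (hab : inner ℝ a b = (0 : ℝ)) (had : inner ℝ a d = (0 : ℝ)) (hbd : inner ℝ b d = (0 : ℝ))
    (hxa : inner ℝ x a = (0 : ℝ)) (hxb : inner ℝ x b = (0 : ℝ)) (hxd : inner ℝ x d = (0 : ℝ)) :
    x = 0 := by
  by_contra hx
  have h0 : ∀ y : E3, ‖y‖ = 1 → y ≠ 0 := by
    intro y hy h
    rw [h, norm_zero] at hy
    norm_num at hy
  have h1 : LinearIndependent ℝ ![x, a, b, d] := by
    apply linearIndependent_of_ne_zero_of_inner_eq_zero
    · intro i
      fin_cases i
      · exact hx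
      · exact h0 a ha
      · exact h0 b hb
      · exact h0 d hd
    · intro i j hij
      fin_cases i <;> fin_cases j <;> simp at hij ⊢ <;>
        first
          | assumption
          | (rw [real_inner_comm]; assumption)
  have h2 := h1.fintype_card_le_finrank
  simp at h2

/-- A unit vector orthogonal to a given one. -/
theorem exists_unit_perp (v : E3) : ∃ u : E3, ‖u‖ = 1 ∧ inner ℝ u v = (0 : ℝ) := by
  by_cases h : v 0 = 0 ∧ v 1 = 0
  · refine ⟨pt 1 0 0, ?_, ?_⟩
    · have h1 : ‖pt 1 0 0‖ ^ 2 = 1 := by rw [norm_sq_eq]; simp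
      exact (pow_eq_one_iff_of_nonneg (norm_nonneg _) two_ne_zero).mp h1
    · rw [inner_eq]
      simp [h.1]
  · have h3 : pt (-v 1) (v 0) 0 ≠ 0 := by
      intro h4
      apply h
      have h5 := congrArg (fun y : E3 => y 0) h4
      have h6 := congrArg (fun y : E3 => y 1) h4
      simp at h5 h6
      exact ⟨h6, h5⟩
    have h4 : 0 < ‖pt (-v 1) (v 0) 0‖ := norm_pos_iff.2 h3
    refine ⟨‖pt (-v 1) (v 0) 0‖⁻¹ • pt (-v 1) (v 0) 0, ?_, ?_⟩
    · rw [norm_smul, norm_inv, norm_norm, inv_mul_cancel₀ h4.ne']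
    · rw [real_inner_smul_left, inner_eq]
      simp
      right
      ring

/-- If all boundary points with normal orthogonal to `v` lie in the plane `⟨x, v⟩ = c`, then this
plane cuts the surface orthogonally. -/
theorem orth_of_nor (hB : Hyp K f w) {v : E3} (hv : ‖v‖ = 1)
    (hp : ∀ p u, Nor K p u → inner ℝ u v = (0 : ℝ) → inner ℝ p v = c) : OrthPlane f v c := by
  obtain ⟨u₀, hu₀, hu₀v⟩ := exists_unit_perp v
  obtain ⟨p₀, hp₀⟩ := nor_exists hB hu₀
  refine ⟨⟨p₀, (nor_grad hB hp₀).1, hp _ _ hp₀ hu₀v⟩, ?_⟩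
  intro x hx hxc
  obtain ⟨n, hn⟩ : ∃ n : E3, Nor K x n := ⟨_, grad_nor hB hx⟩
  have hvv : inner ℝ v v = (1 : ℝ) := by rw [real_inner_self_eq_norm_sq, hv]; norm_num
  obtain ⟨u', hu', hu'v, m, hm, hnm⟩ : ∃ u' : E3, ‖u'‖ = 1 ∧ inner ℝ u' v = (0 : ℝ) ∧
      ∃ m : ℝ, 0 ≤ m ∧ n = (inner ℝ n v : ℝ) • v + m • u' := by
    by_cases h0 : n - (inner ℝ n v : ℝ) • v = 0
    · refine ⟨u₀, hu₀, hu₀v, 0, le_rfl, ?_⟩
      rw [zero_smul, add_zero]
      exact sub_eq_zero.1 h0
    · have h1 : 0 < ‖n - (inner ℝ n v : ℝ) • v‖ := norm_pos_iff.2 h0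
      refine ⟨‖n - (inner ℝ n v : ℝ) • v‖⁻¹ • (n - (inner ℝ n v : ℝ) • v), ?_, ?_,
        ‖n - (inner ℝ n v : ℝ) • v‖, h1.le, ?_⟩
      · rw [norm_smul, norm_inv, norm_norm, inv_mul_cancel₀ h1.ne']
      · rw [real_inner_smul_left, inner_sub_left, real_inner_smul_left, hvv]
        ring
      · rw [smul_smul, mul_inv_cancel₀ h1.ne', one_smul]
        abel
  obtain ⟨y, hy⟩ := nor_exists hB hu'
  have hyc := hp y u' hy hu'v
  have h1 : inner ℝ x n ≤ (inner ℝ y n : ℝ) := by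
    rw [hnm, inner_add_right, inner_add_right, real_inner_smul_right, real_inner_smul_right,
      real_inner_smul_right, real_inner_smul_right, hxc, hyc]
    have h2 := mul_le_mul_of_nonneg_left (hy.2.2 x hn.1) hm
    linarith
  have h2 : Nor K y n := ⟨hy.1, hn.2.1, fun q hq => (hn.2.2 q hq).trans h1⟩
  have h3 : y = x := nor_unique hB h2 hn
  rw [h3] at hy
  rw [(nor_grad hB hy).2, real_inner_smul_left, hu'v, mul_zero]

/-- (b) A plane of symmetry cuts the surface orthogonally. -/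
theorem orth_of_symm (hB : Hyp K f w) {v : E3} (hv : ‖v‖ = 1)
    (hs : ∀ x ∈ K, x - (2 * ((inner ℝ x v : ℝ) - c)) • v ∈ K) : OrthPlane f v c := by
  refine orth_of_nor hB hv ?_
  intro p u hp hu
  have h1 : Nor K (p - (2 * ((inner ℝ p v : ℝ) - c)) • v) u := by
    refine ⟨hs p hp.1, hp.2.1, ?_⟩
    intro q hq
    rw [inner_sub_left, real_inner_smul_left, real_inner_comm u v, hu, mul_zero, sub_zero]
    exact hp.2.2 q hq
  have h2 := nor_unique hB h1 hp
  have h3 : (2 * ((inner ℝ p v : ℝ) - c)) • v = 0 := by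
    have h4 : p - (p - (2 * ((inner ℝ p v : ℝ) - c)) • v) = 0 := by rw [h2, sub_self]
    rwa [sub_sub_cancel] at h4
  rcases smul_eq_zero.1 h3 with h4 | h4
  · linarith
  · rw [h4, norm_zero] at hv
    norm_num at hv

/-- (c) For a body of revolution every plane through the axis cuts the surface orthogonally. -/
theorem orth_of_rev (hB : Hyp K f w)
    (hrev : ∃ q v : E3, ‖v‖ = 1 ∧ ∀ x ∈ K, ∀ y : E3,
      inner ℝ (y - q) v = inner ℝ (x - q) v → ‖y - q‖ = ‖x - q‖ → y ∈ K) :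
    ∃ (v : E3) (c : ℝ), ‖v‖ = 1 ∧ OrthPlane f v c := by
  obtain ⟨q, a, -, h⟩ := hrev
  obtain ⟨v, hv, hva⟩ := exists_unit_perp a
  have hvv : inner ℝ v v = (1 : ℝ) := by rw [real_inner_self_eq_norm_sq, hv]; norm_num
  refine ⟨v, inner ℝ q v, hv, orth_of_symm hB hv ?_⟩
  intro x hx
  have e : x - (2 * ((inner ℝ x v : ℝ) - inner ℝ q v)) • v - q =
      (x - q) - (2 * (inner ℝ (x - q) v : ℝ)) • v := by
    rw [inner_sub_left]
    abel
  apply h x hx
  · rw [e, inner_sub_left, real_inner_smul_left, hva, mul_zero, sub_zero]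
  · rw [e]
    have h1 : ‖(x - q) - (2 * (inner ℝ (x - q) v : ℝ)) • v‖ ^ 2 = ‖x - q‖ ^ 2 := by
      rw [norm_sub_sq_real, real_inner_smul_right, norm_smul, hv, Real.norm_eq_abs, mul_one,
        sq_abs]
      ring
    exact (pow_left_inj₀ (norm_nonneg _) (norm_nonneg _) two_ne_zero).1 h1

/-- (a) The plane of a plane geodesic cuts the surface orthogonally. -/
theorem orth_of_geodesic (hB : Hyp K f w) (hcl : AllClosed f) {v : E3} (hv : ‖v‖ = 1)
    {γ : ℝ → E3} (hγ : ContDiff ℝ ∞ γ) (h0 : ∀ t, f (γ t) = 0) (h1 : ∀ t, ‖deriv γ t‖ = 1)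
    (h2 : ∀ t, ∃ l : ℝ, iteratedDeriv 2 γ t = l • gradient f (γ t))
    (hp : ∀ t, inner ℝ (γ t) v = c) : OrthPlane f v c := by
  have hd : ∀ t, HasDerivAt γ (deriv γ t) t := fun t =>
    (hγ.differentiable (by simp) t).hasDerivAt
  have hγ1 : ContDiff ℝ ∞ (deriv γ) := by
    have := hγ.iterate_deriv 1
    simpa using this
  have hd2 : ∀ t, HasDerivAt (deriv γ) (iteratedDeriv 2 γ t) t := by
    intro t
    rw [iteratedDeriv_succ, iteratedDeriv_one]
    exact (hγ1.differentiable (by simp) t).hasDerivAt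
  have hgs := grad_smooth hB
  -- the velocity is tangent
  have e1 : ∀ t, inner ℝ (gradient f (γ t)) (deriv γ t) = (0 : ℝ) := by
    intro t
    have h3 := hasDeriv_comp hB (hd t)
    have h4 : (fun s => f (γ s)) = fun _ => (0 : ℝ) := by
      funext s
      exact h0 s
    rw [h4] at h3
    exact h3.unique (hasDerivAt_const t (0 : ℝ))
  -- the velocity is in the plane
  have e2 : ∀ t, inner ℝ (deriv γ t) v = (0 : ℝ) := by
    intro t
    have h3 : HasDerivAt (fun s => (inner ℝ (γ s) v : ℝ)) (inner ℝ (deriv γ t) v) t := by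
      have := (hd t).inner ℝ (hasDerivAt_const t v)
      simpa using this
    have h4 : (fun s => (inner ℝ (γ s) v : ℝ)) = fun _ => c := by
      funext s
      exact hp s
    rw [h4] at h3
    exact h3.unique (hasDerivAt_const t c)
  have e3 : ∀ t, inner ℝ (iteratedDeriv 2 γ t) v = (0 : ℝ) := by
    intro t
    have h3 : HasDerivAt (fun s => (inner ℝ (deriv γ s) v : ℝ))
        (inner ℝ (iteratedDeriv 2 γ t) v) t := by
      have := (hd2 t).inner ℝ (hasDerivAt_const t v)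
      simpa using this
    have h4 : (fun s => (inner ℝ (deriv γ s) v : ℝ)) = fun _ => (0 : ℝ) := by
      funext s
      exact e2 s
    rw [h4] at h3
    exact h3.unique (hasDerivAt_const t (0 : ℝ))
  -- the curvature does not vanish
  have e4 : ∀ t, ∃ l : ℝ, l ≠ 0 ∧ iteratedDeriv 2 γ t = l • gradient f (γ t) := by
    intro t
    obtain ⟨l, hl⟩ := h2 t
    refine ⟨l, ?_, hl⟩
    rintro rfl
    rw [zero_smul] at hl
    have hn := grad_nor hB (h0 t)
    have hg : 0 < ‖gradient f (γ t)‖ := norm_pos_iff.2 (hB.reg _ (h0 t))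
    have h3 := second_order hB hn (v := deriv γ t) (by
      rw [real_inner_smul_left, e1, mul_zero])
    have h4 : HasDerivAt (fun s => gradient f (γ s))
        (fderiv ℝ (gradient f) (γ t) (deriv γ t)) t :=
      ((hgs.differentiable (by simp)) (γ t)).hasFDerivAt.comp_hasDerivAt t (hd t)
    have h5 := h4.inner ℝ (hd2 t)
    have h6 : (fun s => (inner ℝ (gradient f (γ s)) (deriv γ s) : ℝ)) = fun _ => (0 : ℝ) := by
      funext s
      exact e1 s
    rw [h6] at h5
    have h7 := h5.unique (hasDerivAt_const t (0 : ℝ))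
    rw [hl, inner_zero_right, zero_add] at h7
    rw [h7, h1 t] at h3
    have h8 : 0 < ‖gradient f (γ t)‖ * 1 ^ 2 / w := by
      have := hB.wpos
      positivity
    linarith
  -- the normals are in the plane
  have e5 : ∀ t, inner ℝ (gradient f (γ t)) v = (0 : ℝ) := by
    intro t
    obtain ⟨l, hl, h3⟩ := e4 t
    have h4 := e3 t
    rw [h3, real_inner_smul_left] at h4
    exact (mul_eq_zero.1 h4).resolve_left hl
  obtain ⟨T, hT, hper⟩ := hcl γ hγ h0 h1 h2
  refine orth_of_nor hB hv ?_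
  intro p u hpu huv
  -- the highest point of the geodesic in the direction `u`
  have hcont : Continuous (fun s => (inner ℝ (γ s) u : ℝ)) :=
    hγ.continuous.inner continuous_const
  obtain ⟨t₀, -, hmax⟩ := isCompact_Icc.exists_isMaxOn (nonempty_Icc.2 hT.le)
    hcont.continuousOn
  have hmax' : ∀ s, (inner ℝ (γ s) u : ℝ) ≤ inner ℝ (γ t₀) u := by
    intro s
    have hP : Function.Periodic γ T := hper
    obtain ⟨s', hs', hss⟩ := hP.exists_mem_Ico₀ hT s
    rw [hss]
    exact hmax (Ico_subset_Icc_self hs')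
  have hdu : ∀ t, HasDerivAt (fun s => (inner ℝ (γ s) u : ℝ)) (inner ℝ (deriv γ t) u) t := by
    intro t
    have := (hd t).inner ℝ (hasDerivAt_const t u)
    simpa using this
  have hdu2 : ∀ t, HasDerivAt (fun s => (inner ℝ (deriv γ s) u : ℝ))
      (inner ℝ (iteratedDeriv 2 γ t) u) t := by
    intro t
    have := (hd2 t).inner ℝ (hasDerivAt_const t u)
    simpa using this
  have e6 : inner ℝ (deriv γ t₀) u = (0 : ℝ) := by
    have h3 : IsLocalMax (fun s => (inner ℝ (γ s) u : ℝ)) t₀ :=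
      Filter.Eventually.of_forall hmax'
    exact h3.hasDerivAt_eq_zero (hdu t₀)
  have hn := grad_nor hB (h0 t₀)
  have hg : 0 < ‖gradient f (γ t₀)‖ := norm_pos_iff.2 (hB.reg _ (h0 t₀))
  set n : E3 := ‖gradient f (γ t₀)‖⁻¹ • gradient f (γ t₀) with hndef
  have hnn : inner ℝ n n = (1 : ℝ) := by
    rw [real_inner_self_eq_norm_sq, hn.2.1]; norm_num
  have hnγ : inner ℝ n (deriv γ t₀) = (0 : ℝ) := by
    rw [hndef, real_inner_smul_left, e1, mul_zero]
  have hnv : inner ℝ n v = (0 : ℝ) := by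
    rw [hndef, real_inner_smul_left, e5, mul_zero]
  have hu0 : u - (inner ℝ u n : ℝ) • n = 0 := by
    refine eq_zero_of_perp hn.2.1 (h1 t₀) hv hnγ hnv (e2 t₀) ?_ ?_ ?_
    · rw [inner_sub_left, real_inner_smul_left, hnn, mul_one, sub_self]
    · rw [inner_sub_left, real_inner_smul_left, hnγ, mul_zero, sub_zero, real_inner_comm]
      exact e6
    · rw [inner_sub_left, real_inner_smul_left, hnv, mul_zero, sub_zero]
      exact huv
  have hu1 : u = (inner ℝ u n : ℝ) • n := sub_eq_zero.1 hu0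
  have hu2 : |(inner ℝ u n : ℝ)| = 1 := by
    have h3 : ‖u‖ = |(inner ℝ u n : ℝ)| * ‖n‖ := by
      conv_lhs => rw [hu1]
      rw [norm_smul, Real.norm_eq_abs]
    rw [hpu.2.1, hn.2.1, mul_one] at h3
    exact h3.symm
  rcases (abs_eq zero_le_one).1 hu2 with h3 | h3
  · rw [h3, one_smul] at hu1
    rw [← hu1] at hn
    rw [nor_unique hB hpu hn]
    exact hp t₀
  · exfalso
    rw [h3, neg_smul, one_smul] at hu1
    have h4 : ∀ s, (inner ℝ (γ s) u : ℝ) = inner ℝ (γ t₀) u := by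
      intro s
      refine le_antisymm (hmax' s) ?_
      have h5 := hn.2.2 (γ s) (by rw [hB.eq]; exact (h0 s).le)
      rw [hu1, inner_neg_right, inner_neg_right]
      linarith
    have h5 : ∀ s, (inner ℝ (deriv γ s) u : ℝ) = 0 := by
      intro s
      have h6 := hdu s
      have h7 : (fun s => (inner ℝ (γ s) u : ℝ)) = fun _ => (inner ℝ (γ t₀) u : ℝ) := by
        funext s
        exact h4 s
      rw [h7] at h6
      exact h6.unique (hasDerivAt_const s _)
    have h6 := hdu2 t₀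
    have h7 : (fun s => (inner ℝ (deriv γ s) u : ℝ)) = fun _ => (0 : ℝ) := by
      funext s
      exact h5 s
    rw [h7] at h6
    have h8 := h6.unique (hasDerivAt_const t₀ (0 : ℝ))
    obtain ⟨l, hl, h9⟩ := e4 t₀
    have h10 : gradient f (γ t₀) = ‖gradient f (γ t₀)‖ • n := by
      rw [hndef, smul_smul, mul_inv_cancel₀ hg.ne', one_smul]
    rw [h9, h10, hu1, real_inner_smul_left, real_inner_smul_left, inner_neg_right, hnn] at h8
    have h11 := mul_ne_zero hl hg.ne'
    apply h11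
    linarith

/-- (a) without normalisation of the plane. -/
theorem exists_orth_of_geodesic (hB : Hyp K f w) (hcl : AllClosed f)
    (hpl : ∃ (γ : ℝ → E3) (v : E3) (c : ℝ), ContDiff ℝ ∞ γ ∧ (∀ t, f (γ t) = 0) ∧
      (∀ t, ‖deriv γ t‖ = 1) ∧ (∀ t, ∃ l : ℝ, iteratedDeriv 2 γ t = l • gradient f (γ t)) ∧
      v ≠ 0 ∧ ∀ t, inner ℝ (γ t) v = c) :
    ∃ (v : E3) (c : ℝ), ‖v‖ = 1 ∧ OrthPlane f v c := by
  obtain ⟨γ, v, c, hγ, h0, h1, h2, hv, hp⟩ := hpl
  have hn : 0 < ‖v‖ := norm_pos_iff.2 hv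
  have hv1 : ‖‖v‖⁻¹ • v‖ = 1 := by
    rw [norm_smul, norm_inv, norm_norm, inv_mul_cancel₀ hn.ne']
  refine ⟨‖v‖⁻¹ • v, ‖v‖⁻¹ * c, hv1, orth_of_geodesic hB hcl hv1 hγ h0 h1 h2 ?_⟩
  intro t
  rw [real_inner_smul_right, hp]

/-- (b) without normalisation: the plane is given by a point and a normal unit vector. -/
theorem exists_orth_of_symm (hB : Hyp K f w)
    (hs : ∃ (v : E3) (c : ℝ), ‖v‖ = 1 ∧ ∀ x ∈ K, x - (2 * ((inner ℝ x v : ℝ) - c)) • v ∈ K) :
    ∃ (v : E3) (c : ℝ), ‖v‖ = 1 ∧ OrthPlane f v c := by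
  obtain ⟨v, c, hv, h⟩ := hs
  exact ⟨v, c, hv, orth_of_symm hB hv h⟩

end Pool.Agent.P85
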