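import Mathlib

/-!
Row R9 (chart): the page of frames `(u, e)` with `u 2 = 0`, `0 < e 2` is `C - {0}` by stereographic projection of
`b = u × e`.
-/

namespace Pool.Agent.P85.R9

open Set

/-- third coordinate of the stereographic inverse -/
noncomputable def stB (ζ : ℂ) : ℝ := (1 - ‖ζ‖ ^ 2) / (1 + ‖ζ‖ ^ 2)

/-- first vector of the frame -/
noncomputable def chU (ζ : ℂ) : EuclideanSpace ℝ (Fin 3) := !₂[-ζ.im / ‖ζ‖, ζ.re / ‖ζ‖, 0]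

/-- second vector of the frame -/
noncomputable def chE (ζ : ℂ) : EuclideanSpace ℝ (Fin 3) :=
  !₂[-(stB ζ) * (ζ.re / ‖ζ‖), -(stB ζ) * (ζ.im / ‖ζ‖), 2 * ‖ζ‖ / (1 + ‖ζ‖ ^ 2)]

/-- the chart `C - {0} → page` -/
noncomputable def ch (ζ : ℂ) : EuclideanSpace ℝ (Fin 3) × EuclideanSpace ℝ (Fin 3) := (chU ζ, chE ζ)

/-- the inverse chart -/
noncomputable def chq (M : EuclideanSpace ℝ (Fin 3) × EuclideanSpace ℝ (Fin 3)) : ℂ :=
  ⟨(M.1 1 * M.2 2 - M.1 2 * M.2 1) / (1 + (M.1 0 * M.2 1 - M.1 1 * M.2 0)),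
    (M.1 2 * M.2 0 - M.1 0 * M.2 2) / (1 + (M.1 0 * M.2 1 - M.1 1 * M.2 0))⟩

@[simp] theorem chU_0 (ζ : ℂ) : chU ζ 0 = -ζ.im / ‖ζ‖ := rfl
@[simp] theorem chU_1 (ζ : ℂ) : chU ζ 1 = ζ.re / ‖ζ‖ := rfl
@[simp] theorem chU_2 (ζ : ℂ) : chU ζ 2 = 0 := rfl
@[simp] theorem chE_0 (ζ : ℂ) : chE ζ 0 = -(stB ζ) * (ζ.re / ‖ζ‖) := rfl
@[simp] theorem chE_1 (ζ : ℂ) : chE ζ 1 = -(stB ζ) * (ζ.im / ‖ζ‖) := rfl
@[simp] theorem chE_2 (ζ : ℂ) : chE ζ 2 = 2 * ‖ζ‖ / (1 + ‖ζ‖ ^ 2) := rfl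

theorem norm_sq_re_im (ζ : ℂ) : ζ.re ^ 2 + ζ.im ^ 2 = ‖ζ‖ ^ 2 := by
  rw [← Complex.normSq_eq_norm_sq, Complex.normSq_apply]; ring

theorem norm_sq3 (v : EuclideanSpace ℝ (Fin 3)) : ‖v‖ ^ 2 = v 0 ^ 2 + v 1 ^ 2 + v 2 ^ 2 := by
  rw [EuclideanSpace.norm_sq_eq, Fin.sum_univ_three]
  simp [Real.norm_eq_abs, sq_abs]

theorem norm_one3 (v : EuclideanSpace ℝ (Fin 3)) : ‖v‖ = 1 ↔ v 0 ^ 2 + v 1 ^ 2 + v 2 ^ 2 = 1 := by
  rw [← norm_sq3]
  constructor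
  · intro h; rw [h]; norm_num
  · intro h
    have h0 := norm_nonneg v
    nlinarith

theorem inner3 (v w : EuclideanSpace ℝ (Fin 3)) :
    inner ℝ v w = v 0 * w 0 + v 1 * w 1 + v 2 * w 2 := by
  rw [PiLp.inner_apply, Fin.sum_univ_three]
  simp [mul_comm]

section props
variable {ζ : ℂ}

theorem stB_sq (ζ : ℂ) : (stB ζ) ^ 2 + (2 * ‖ζ‖ / (1 + ‖ζ‖ ^ 2)) ^ 2 = 1 := by
  unfold stB
  have : (1 + ‖ζ‖ ^ 2) ≠ 0 := by positivity
  field_simp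
  ring

theorem unit_sq (h : ζ ≠ 0) : (ζ.re / ‖ζ‖) ^ 2 + (ζ.im / ‖ζ‖) ^ 2 = 1 := by
  have h1 := norm_sq_re_im ζ
  have h2 : ‖ζ‖ ≠ 0 := norm_ne_zero_iff.2 h
  field_simp
  linarith

theorem ch_u_norm (h : ζ ≠ 0) : ‖(ch ζ).1‖ = 1 := by
  rw [norm_one3]
  have := unit_sq h
  simp only [ch, chU_0, chU_1, chU_2]
  rw [neg_div]
  linarith

theorem ch_e_norm (h : ζ ≠ 0) : ‖(ch ζ).2‖ = 1 := by
  rw [norm_one3]
  have h1 := unit_sq h
  have h2 := stB_sq ζ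
  simp only [ch, chE_0, chE_1, chE_2]
  linear_combination (stB ζ) ^ 2 * h1 + h2

theorem ch_inner (ζ : ℂ) : inner ℝ (ch ζ).1 (ch ζ).2 = 0 := by
  rw [inner3]
  simp only [ch, chU_0, chU_1, chU_2, chE_0, chE_1, chE_2]
  ring

theorem ch_u2 (ζ : ℂ) : (ch ζ).1 2 = 0 := rfl

theorem ch_e2 (h : ζ ≠ 0) : 0 < (ch ζ).2 2 := by
  show 0 < 2 * ‖ζ‖ / (1 + ‖ζ‖ ^ 2)
  have := norm_pos_iff.2 h
  positivity

theorem ch_b2 (h : ζ ≠ 0) : (ch ζ).1 0 * (ch ζ).2 1 - (ch ζ).1 1 * (ch ζ).2 0 = stB ζ := by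
  have h1 := unit_sq h
  simp only [ch, chU_0, chU_1, chE_0, chE_1]
  linear_combination (stB ζ) * h1

theorem one_add_stB (ζ : ℂ) : 1 + stB ζ = 2 / (1 + ‖ζ‖ ^ 2) := by
  unfold stB
  have : (1 + ‖ζ‖ ^ 2) ≠ 0 := by positivity
  field_simp
  ring

theorem chq_ch (h : ζ ≠ 0) : chq (ch ζ) = ζ := by
  have h2 : ‖ζ‖ ≠ 0 := norm_ne_zero_iff.2 h
  have h3 : (1 + ‖ζ‖ ^ 2) ≠ 0 := by positivity
  have hb := ch_b2 h
  unfold chq
  rw [hb, one_add_stB]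
  apply Complex.ext
  · simp only [ch, chU_1, chU_2, chE_1, chE_2]
    field_simp
    ring
  · simp only [ch, chU_0, chU_2, chE_0, chE_2]
    field_simp
    ring

end props

/-- identities on the page -/
theorem page_b {u0 u1 e0 e1 e2 : ℝ} (hu : u0 ^ 2 + u1 ^ 2 = 1) (he : e0 ^ 2 + e1 ^ 2 + e2 ^ 2 = 1)
    (hue : u0 * e0 + u1 * e1 = 0) (h2 : 0 < e2) : 0 < 1 + (u0 * e1 - u1 * e0) ∧
      (u0 * e1 - u1 * e0) ^ 2 + e2 ^ 2 = 1 := by
  have h1 : (u0 * e1 - u1 * e0) ^ 2 + e2 ^ 2 = 1 := by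
    have : (u0 * e1 - u1 * e0) ^ 2 + (u0 * e0 + u1 * e1) ^ 2 = (u0 ^ 2 + u1 ^ 2) * (e0 ^ 2 + e1 ^ 2) := by
      ring
    rw [hue, hu] at this
    nlinarith
  refine ⟨?_, h1⟩
  nlinarith [sq_nonneg (u0 * e1 - u1 * e0 + 1), mul_pos h2 h2]

theorem chq_ne {M : EuclideanSpace ℝ (Fin 3) × EuclideanSpace ℝ (Fin 3)} (hu : ‖M.1‖ = 1)
    (he : ‖M.2‖ = 1) (hue : inner ℝ M.1 M.2 = 0) (h0 : M.1 2 = 0) (h2 : 0 < M.2 2) :
    chq M ≠ 0 := by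
  rw [norm_one3] at hu he
  rw [inner3] at hue
  rw [h0] at hu hue
  have hu' : M.1 0 ^ 2 + M.1 1 ^ 2 = 1 := by linarith
  have hue' : M.1 0 * M.2 0 + M.1 1 * M.2 1 = 0 := by linarith
  obtain ⟨hpos, hb⟩ := page_b hu' he hue' h2
  intro hq
  have h3 := congrArg Complex.re hq
  have h4 := congrArg Complex.im hq
  simp only [chq, h0, Complex.zero_re, Complex.zero_im, zero_mul, sub_zero, zero_sub,
    div_eq_zero_iff, hpos.ne', or_false, neg_eq_zero, mul_eq_zero, h2.ne'] at h3 h4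
  rw [h3, h4] at hu'
  norm_num at hu'

theorem chq_norm {M : EuclideanSpace ℝ (Fin 3) × EuclideanSpace ℝ (Fin 3)} (hu : ‖M.1‖ = 1)
    (he : ‖M.2‖ = 1) (hue : inner ℝ M.1 M.2 = 0) (h0 : M.1 2 = 0) (h2 : 0 < M.2 2) :
    ‖chq M‖ = M.2 2 / (1 + (M.1 0 * M.2 1 - M.1 1 * M.2 0)) := by
  rw [norm_one3] at hu he
  rw [inner3] at hue
  rw [h0] at hu hue
  have hu' : M.1 0 ^ 2 + M.1 1 ^ 2 = 1 := by linarith
  have hue' : M.1 0 * M.2 0 + M.1 1 * M.2 1 = 0 := by linarith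
  obtain ⟨hpos, hb⟩ := page_b hu' he hue' h2
  have h5 : 0 ≤ M.2 2 / (1 + (M.1 0 * M.2 1 - M.1 1 * M.2 0)) := by positivity
  rw [← sq_eq_sq₀ (norm_nonneg _) h5, ← norm_sq_re_im]
  simp only [chq, h0, zero_mul, sub_zero, zero_sub]
  rw [div_pow, div_pow, div_pow, ← add_div]
  congr 1
  linear_combination (M.2 2) ^ 2 * hu'

theorem ch_chq {M : EuclideanSpace ℝ (Fin 3) × EuclideanSpace ℝ (Fin 3)} (hu : ‖M.1‖ = 1)
    (he : ‖M.2‖ = 1) (hue : inner ℝ M.1 M.2 = 0) (h0 : M.1 2 = 0) (h2 : 0 < M.2 2) :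
    ch (chq M) = M := by
  have hn := chq_norm hu he hue h0 h2
  rw [norm_one3] at hu he
  rw [inner3] at hue
  rw [h0] at hu hue
  have hu' : M.1 0 ^ 2 + M.1 1 ^ 2 = 1 := by linarith
  have hue' : M.1 0 * M.2 0 + M.1 1 * M.2 1 = 0 := by linarith
  obtain ⟨hpos, hb⟩ := page_b hu' he hue' h2
  set B := M.1 0 * M.2 1 - M.1 1 * M.2 0 with hB
  have hre : (chq M).re = M.1 1 * M.2 2 / (1 + B) := by simp [chq, h0, hB]
  have him : (chq M).im = -(M.1 0 * M.2 2) / (1 + B) := by simp [chq, h0, hB]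
  have hst : stB (chq M) = B := by
    unfold stB
    rw [hn]
    have h1 : (1 + B) ≠ 0 := hpos.ne'
    have h3 : (1 + (M.2 2 / (1 + B)) ^ 2) ≠ 0 := by positivity
    rw [div_eq_iff h3]
    field_simp
    linear_combination (1 + B) * (-1) * hb - B * 0 * hb
  have h22 : 2 * ‖chq M‖ / (1 + ‖chq M‖ ^ 2) = M.2 2 := by
    rw [hn]
    have h1 : (1 + B) ≠ 0 := hpos.ne'
    have h3 : (1 + (M.2 2 / (1 + B)) ^ 2) ≠ 0 := by positivity
    rw [div_eq_iff h3]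
    field_simp
    linear_combination (-1) * hb
  have hr1 : (chq M).re / ‖chq M‖ = M.1 1 := by
    rw [hn, hre]
    have h1 : (1 + B) ≠ 0 := hpos.ne'
    have h3 := h2.ne'
    field_simp
  have hi1 : (chq M).im / ‖chq M‖ = - M.1 0 := by
    rw [hn, him]
    have h1 : (1 + B) ≠ 0 := hpos.ne'
    have h3 := h2.ne'
    field_simp
  have hU : chU (chq M) = M.1 := by
    ext i
    fin_cases i
    · show -(chq M).im / ‖chq M‖ = M.1 0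
      rw [neg_div, hi1, neg_neg]
    · show (chq M).re / ‖chq M‖ = M.1 1
      exact hr1
    · exact h0.symm
  have hE : chE (chq M) = M.2 := by
    ext i
    fin_cases i
    · show -(stB (chq M)) * ((chq M).re / ‖chq M‖) = M.2 0
      rw [hst, hr1, hB]
      linear_combination (M.2 0) * hu' - M.1 0 * hue'
    · show -(stB (chq M)) * ((chq M).im / ‖chq M‖) = M.2 1
      rw [hst, hi1, hB]
      linear_combination (M.2 1) * hu' - M.1 1 * hue'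
    · exact h22
  show (chU (chq M), chE (chq M)) = M
  rw [hU, hE]

theorem ch_contDiffOn : ContDiffOn ℝ 1 ch {ζ | ζ ≠ 0} := by
  intro ζ hζ
  have hn : ContDiffAt ℝ 1 (fun z : ℂ => ‖z‖) ζ := contDiffAt_norm ℝ hζ
  have hre : ContDiffAt ℝ 1 (fun z : ℂ => z.re) ζ := Complex.reCLM.contDiff.contDiffAt
  have him : ContDiffAt ℝ 1 (fun z : ℂ => z.im) ζ := Complex.imCLM.contDiff.contDiffAt
  have h0 : ‖ζ‖ ≠ 0 := norm_ne_zero_iff.2 hζ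
  have h1 : (1 + ‖ζ‖ ^ 2) ≠ 0 := by positivity
  have hst : ContDiffAt ℝ 1 stB ζ :=
    (contDiffAt_const.sub (hn.pow 2)).div (contDiffAt_const.add (hn.pow 2)) h1
  have hr : ContDiffAt ℝ 1 (fun z : ℂ => z.re / ‖z‖) ζ := hre.div hn h0
  have hi : ContDiffAt ℝ 1 (fun z : ℂ => z.im / ‖z‖) ζ := him.div hn h0
  have hU : ContDiffAt ℝ 1 chU ζ := by
    rw [contDiffAt_euclidean]
    intro i
    fin_cases i
    · exact (him.neg.div hn h0)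
    · exact hr
    · exact contDiffAt_const
  have hE : ContDiffAt ℝ 1 chE ζ := by
    rw [contDiffAt_euclidean]
    intro i
    fin_cases i
    · exact hst.neg.mul hr
    · exact hst.neg.mul hi
    · exact (contDiffAt_const.mul hn).div (contDiffAt_const.add (hn.pow 2)) h1
  exact (hU.prodMk hE).contDiffWithinAt

theorem coord_contDiff (i : Fin 3) :
    ContDiff ℝ 1 (fun v : EuclideanSpace ℝ (Fin 3) => v i) :=
  contDiff_euclidean.1 contDiff_id i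

theorem chq_contDiffAt {M : EuclideanSpace ℝ (Fin 3) × EuclideanSpace ℝ (Fin 3)}
    (h : 1 + (M.1 0 * M.2 1 - M.1 1 * M.2 0) ≠ 0) : ContDiffAt ℝ 1 chq M := by
  have hu : ∀ i, ContDiff ℝ 1
      (fun M : EuclideanSpace ℝ (Fin 3) × EuclideanSpace ℝ (Fin 3) => M.1 i) :=
    fun i => (coord_contDiff i).comp contDiff_fst
  have he : ∀ i, ContDiff ℝ 1
      (fun M : EuclideanSpace ℝ (Fin 3) × EuclideanSpace ℝ (Fin 3) => M.2 i) :=
    fun i => (coord_contDiff i).comp contDiff_snd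
  have hden : ContDiffAt ℝ 1 (fun M : EuclideanSpace ℝ (Fin 3) × EuclideanSpace ℝ (Fin 3) =>
      1 + (M.1 0 * M.2 1 - M.1 1 * M.2 0)) M :=
    (contDiff_const.add (((hu 0).mul (he 1)).sub ((hu 1).mul (he 0)))).contDiffAt
  have h1 : ContDiffAt ℝ 1 (fun M : EuclideanSpace ℝ (Fin 3) × EuclideanSpace ℝ (Fin 3) =>
      (M.1 1 * M.2 2 - M.1 2 * M.2 1) / (1 + (M.1 0 * M.2 1 - M.1 1 * M.2 0))) M :=
    ((((hu 1).mul (he 2)).sub ((hu 2).mul (he 1))).contDiffAt).div hden h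
  have h2 : ContDiffAt ℝ 1 (fun M : EuclideanSpace ℝ (Fin 3) × EuclideanSpace ℝ (Fin 3) =>
      (M.1 2 * M.2 0 - M.1 0 * M.2 2) / (1 + (M.1 0 * M.2 1 - M.1 1 * M.2 0))) M :=
    ((((hu 2).mul (he 0)).sub ((hu 0).mul (he 2))).contDiffAt).div hden h
  have h3 := (Complex.equivRealProdCLM.symm.contDiff (n := 1)).contDiffAt.comp M (h1.prodMk h2)
  refine h3.congr_of_eventuallyEq ?_
  filter_upwards with M'
  apply Complex.ext <;> simp [chq]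

theorem chart_open : IsOpen {ζ : ℂ | ζ ≠ 0} := isOpen_ne

theorem chart_preconn : IsPreconnected {ζ : ℂ | ζ ≠ 0} := by
  have : IsConnected ({0}ᶜ : Set ℂ) := by
    apply isConnected_compl_singleton_of_one_lt_rank
    rw [Complex.rank_real_complex]
    exact Cardinal.one_lt_two
  exact this.isPreconnected

end Pool.Agent.P85.R9
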