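import Pool.Agent.P85.Defs
import Pool.Agent.P85.FlowInv

/-!
# Orbits of the frame flow are lifts of geodesics, hence closed
-/

set_option autoImplicit false
open scoped ContDiff
open Real Set MeasureTheory Filter Topology

namespace Pool.Agent.P85.Geod

open Pool.Agent.P85 FI

variable {H : E3 → ℝ} {w : ℝ} {φ : ℝ → Fr → Fr} {K : Set E3} {f : E3 → ℝ}

lemma triple (z u e : E3) : inner ℝ z (cr u e) ^ 2 =
    ‖z‖ ^ 2 * (‖u‖ ^ 2 * ‖e‖ ^ 2 - inner ℝ u e ^ 2) - inner ℝ z u ^ 2 * ‖e‖ ^ 2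
      + 2 * inner ℝ z u * inner ℝ z e * inner ℝ u e - inner ℝ z e ^ 2 * ‖u‖ ^ 2 := by
  simp only [inner_eq, norm_sq_eq, cr, pt_zero, pt_one, pt_two]
  ring

/-- a vector orthogonal to the frame vanishes -/
lemma eq_zero_of_frame {M : Fr} (hM : M ∈ St) {z : E3} (h1 : inner ℝ z M.1 = 0)
    (h2 : inner ℝ z M.2 = 0) (h3 : inner ℝ z (bb M) = 0) : z = 0 := by
  have h := triple z M.1 M.2
  rw [show cr M.1 M.2 = bb M from rfl, h3, h1, h2, hM.1, hM.2.1, hM.2.2] at h
  have : ‖z‖ ^ 2 = 0 := by linarith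
  exact norm_eq_zero.1 (pow_eq_zero_iff (by norm_num) |>.1 this)

lemma contDiffAt_D2 (hS : Supp H w) {M : Fr} (hM : M ∈ St) {p q : Fr → E3}
    (hp : ContDiff ℝ ∞ p) (hq : ContDiff ℝ ∞ q) :
    ContDiffAt ℝ ∞ (fun M : Fr => D2 H M.1 (p M) (q M)) M := by
  have h2 : ContDiffAt ℝ ∞ (fun M : Fr => fderiv ℝ (fderiv ℝ H) M.1) M :=
    (sContDiffAt_fderiv2 hS (St_ne_zero hM)).comp M contDiffAt_fst
  exact (h2.clm_apply hp.contDiffAt).clm_apply hq.contDiffAt

lemma contDiffAt_Y (hS : Supp H w) {M : Fr} (hM : M ∈ St) : ContDiffAt ℝ ∞ (Y H) M := by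
  have hee : ContDiffAt ℝ ∞ (Ree H) M := contDiffAt_D2 hS hM contDiff_snd contDiff_snd
  have heb : ContDiffAt ℝ ∞ (Reb H) M := contDiffAt_D2 hS hM contDiff_snd contDiff_bb
  have hbb : ContDiffAt ℝ ∞ (Rbb H) M := contDiffAt_D2 hS hM contDiff_bb contDiff_bb
  have hD : ContDiffAt ℝ ∞ (Dn H) M := (hee.mul hbb).sub (heb.pow 2)
  have hD0 : Dn H M ≠ 0 := (det_pos hS hM).ne'
  have hk : ContDiffAt ℝ ∞ (kap H) M := hbb.div hD hD0
  have ht : ContDiffAt ℝ ∞ (tau H) M := heb.neg.div hD hD0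
  exact ((hk.smul contDiffAt_snd).add (ht.smul contDiff_bb.contDiffAt)).prodMk
    (hk.smul contDiffAt_fst).neg

/-- orbits are smooth -/
lemma contDiff_orbit (hS : Supp H w) {M : ℝ → Fr} (hM : ∀ t, M t ∈ St)
    (h : ∀ t, HasDerivAt M (Y H (M t)) t) : ContDiff ℝ ∞ M := by
  have hd : deriv M = fun t => Y H (M t) := funext fun t => (h t).deriv
  have hdiff : Differentiable ℝ M := fun t => (h t).differentiableAt
  rw [contDiff_infty]
  intro n
  induction n with
  | zero => exact contDiff_zero.2 hdiff.continuous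
  | succ n ih =>
    have e : ((n + 1 : ℕ) : WithTop ℕ∞) = (n : WithTop ℕ∞) + 1 := by push_cast; rfl
    rw [e, contDiff_succ_iff_deriv]
    refine ⟨hdiff, fun hω => ?_, ?_⟩
    · exact absurd hω (by exact_mod_cast WithTop.natCast_ne_top n)
    · rw [hd, contDiff_iff_contDiffAt]
      intro t
      have h1 : ContDiffAt ℝ n (Y H) (M t) := (contDiffAt_Y hS (hM t)).of_le (by
        exact_mod_cast le_top)
      exact h1.comp t ih.contDiffAt

lemma contDiffAt_gradient (hS : Supp H w) {x : E3} (hx : x ≠ 0) :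
    ContDiffAt ℝ ∞ (gradient H) x := by
  have h1 := sContDiffAt_fderiv hS hx
  exact ((InnerProductSpace.toDual ℝ E3).symm.contDiff.contDiffAt).comp x h1

lemma inner_gradient (x v : E3) : inner ℝ (gradient H x) v = fderiv ℝ H x v := by
  unfold gradient
  rw [InnerProductSpace.toDual_symm_apply]

/-- the point of contact moves in the direction `e` -/
lemma hasDerivAt_point (hS : Supp H w) {M : ℝ → Fr} (hM : ∀ t, M t ∈ St)
    (h : ∀ t, HasDerivAt M (Y H (M t)) t) (t : ℝ) :
    HasDerivAt (fun s => gradient H (M s).1) (M t).2 t := by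
  have hu : (M t).1 ≠ 0 := St_ne_zero (hM t)
  have h1 : HasDerivAt (fun s => (M s).1) (kap H (M t) • (M t).2 + tau H (M t) • bb (M t)) t :=
    (h t).fst
  have h2 : HasFDerivAt (fderiv ℝ H) (fderiv ℝ (fderiv ℝ H) (M t).1) (M t).1 :=
    ((sContDiffAt_fderiv hS hu).differentiableAt (by simp)).hasFDerivAt
  have h3 : HasDerivAt (fun s => fderiv ℝ H (M s).1)
      (fderiv ℝ (fderiv ℝ H) (M t).1 (kap H (M t) • (M t).2 + tau H (M t) • bb (M t))) t :=
    h2.comp_hasDerivAt t h1
  have h4 : HasDerivAt (fun s => gradient H (M s).1)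
      ((InnerProductSpace.toDual ℝ E3).symm (fderiv ℝ (fderiv ℝ H) (M t).1
        (kap H (M t) • (M t).2 + tau H (M t) • bb (M t)))) t :=
    ((InnerProductSpace.toDual ℝ E3).symm.toContinuousLinearEquiv.hasFDerivAt).comp_hasDerivAt t h3
  have hin : ∀ v : E3, inner ℝ ((InnerProductSpace.toDual ℝ E3).symm (fderiv ℝ (fderiv ℝ H) (M t).1
        (kap H (M t) • (M t).2 + tau H (M t) • bb (M t)))) v
      = kap H (M t) * D2 H (M t).1 (M t).2 v + tau H (M t) * D2 H (M t).1 (bb (M t)) v := by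
    intro v
    rw [InnerProductSpace.toDual_symm_apply]
    simp only [D2, map_add, map_smul, add_apply,
      smul_apply, smul_eq_mul]
  have hD0 : Dn H (M t) ≠ 0 := (det_pos hS (hM t)).ne'
  have heq : (InnerProductSpace.toDual ℝ E3).symm (fderiv ℝ (fderiv ℝ H) (M t).1
        (kap H (M t) • (M t).2 + tau H (M t) • bb (M t))) = (M t).2 := by
    rw [← sub_eq_zero]
    apply eq_zero_of_frame (hM t)
    · rw [inner_sub_left, hin, sD2_self hS hu, sD2_self hS hu,
        real_inner_comm, (hM t).2.2]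
      ring
    · rw [inner_sub_left, hin, real_inner_self_eq_norm_sq, (hM t).2.1,
        D2_symm hS hu (bb (M t)) (M t).2]
      change kap H (M t) * Ree H (M t) + tau H (M t) * Reb H (M t) - 1 ^ 2 = 0
      unfold kap tau
      field_simp
      unfold Dn
      ring
    · rw [inner_sub_left, hin, (inner_bb (M t)).2]
      change kap H (M t) * Reb H (M t) + tau H (M t) * Rbb H (M t) - 0 = 0
      unfold kap tau
      field_simp
      ring
  rw [heq] at h4
  exact h4

end Pool.Agent.P85.Geod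

namespace Pool.Agent.P85

open Geod FI

variable {H : E3 → ℝ} {w : ℝ} {φ : ℝ → Fr → Fr} {K : Set E3} {f : E3 → ℝ}

/-- R7 -/
theorem closed (_h : Hyp K f w) (hH : IsSupp K f w H) (hΦ : Flow H φ) (hc : AllClosed f) :
    Closed φ := by
  intro M0 hM0
  have hS : Supp H w := hH.toSupp
  set M : ℝ → Fr := fun t => φ t M0 with hMdef
  have hM : ∀ t, M t ∈ St := fun t => hΦ.st t M0 hM0
  have hode : ∀ t, HasDerivAt M (Y H (M t)) t := fun t => hΦ.ode t M0 hM0
  have hsm : ContDiff ℝ ∞ M := contDiff_orbit hS hM hode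
  set p : ℝ → E3 := fun t => gradient H (M t).1 with hpdef
  have hp : ∀ t, HasDerivAt p (M t).2 t := hasDerivAt_point hS hM hode
  have hdp : deriv p = fun t => (M t).2 := funext fun t => (hp t).deriv
  have hpsm : ContDiff ℝ ∞ p := by
    rw [contDiff_iff_contDiffAt]
    intro t
    have h1 : ContDiffAt ℝ ∞ (fun s => (M s).1) t := (contDiff_fst.comp hsm).contDiffAt
    exact ContDiffAt.comp (g := gradient H) (f := fun s => (M s).1) t
      (contDiffAt_gradient hS (St_ne_zero (hM t))) h1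
  have hd2 : ∀ t, iteratedDeriv 2 p t = -(kap H (M t) • (M t).1) := by
    intro t
    rw [iteratedDeriv_succ, iteratedDeriv_one, hdp]
    have h1 : HasDerivAt (fun s => (M s).2) (-(kap H (M t) • (M t).1)) t := (hode t).snd
    exact h1.deriv
  obtain ⟨T, hT, hper⟩ := hc p hpsm (fun t => hH.mem _ (St_ne_zero (hM t)))
    (fun t => by rw [hdp]; exact (hM t).2.1) (fun t => by
      obtain ⟨s, hs, hn⟩ := hH.normal (M t).1 (St_ne_zero (hM t))
      refine ⟨-(kap H (M t) * s⁻¹), ?_⟩
      rw [hd2, show f = f from rfl]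
      change _ = _ • gradient f (gradient H (M t).1)
      rw [hn, smul_smul, neg_mul, mul_assoc, inv_mul_cancel₀ hs.ne', mul_one, neg_smul])
  refine ⟨T, hT, ?_⟩
  have he : ∀ t, (M (t + T)).2 = (M t).2 := by
    intro t
    have h1 : HasDerivAt (fun s => p (s + T)) (M (t + T)).2 t := (hp (t + T)).comp_add_const t T
    have h2 : (fun s => p (s + T)) = p := funext hper
    rw [h2] at h1
    exact h1.unique (hp t)
  have hu : ∀ t, (M (t + T)).1 = (M t).1 := by
    intro t
    obtain ⟨s, hs, hn⟩ := hH.normal (M t).1 (St_ne_zero (hM t))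
    obtain ⟨s', hs', hn'⟩ := hH.normal (M (t + T)).1 (St_ne_zero (hM (t + T)))
    have h1 : gradient H (M (t + T)).1 = gradient H (M t).1 := hper t
    rw [h1, hn] at hn'
    have h2 : s = s' := by
      have h3 := congrArg norm hn'
      rw [norm_smul, norm_smul, (hM t).1, (hM (t + T)).1, mul_one, mul_one,
        Real.norm_of_nonneg hs.le, Real.norm_of_nonneg hs'.le] at h3
      exact h3
    rw [← h2] at hn'
    exact (smul_right_injective E3 hs.ne' hn').symm
  have h0 : M 0 = M0 := hΦ.zero M0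
  have h1 : M (0 + T) = M 0 := Prod.ext (hu 0) (he 0)
  rw [zero_add, h0] at h1
  exact h1

end Pool.Agent.P85
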