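import Pool.Agent.P85.Defs

/-!
# Means over the frames (row R12a, helper50)
-/

set_option autoImplicit false
open scoped ContDiff
open Real Set MeasureTheory

namespace Pool.Agent.P85

variable {H : E3 → ℝ} {w c : ℝ} {μ : Measure Fr}

/-! ### The cross product -/

lemma bb_zero (M : Fr) : bb M 0 = M.1 1 * M.2 2 - M.1 2 * M.2 1 := rfl
lemma bb_one (M : Fr) : bb M 1 = M.1 2 * M.2 0 - M.1 0 * M.2 2 := rfl
lemma bb_two (M : Fr) : bb M 2 = M.1 0 * M.2 1 - M.1 1 * M.2 0 := rfl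

lemma bb_neg_left (M : Fr) : bb (-M.1, M.2) = -bb M := by
  ext i
  fin_cases i
  · show bb (-M.1, M.2) 0 = -(bb M 0)
    rw [bb_zero, bb_zero]
    simp only [PiLp.neg_apply]
    ring
  · show bb (-M.1, M.2) 1 = -(bb M 1)
    rw [bb_one, bb_one]
    simp only [PiLp.neg_apply]
    ring
  · show bb (-M.1, M.2) 2 = -(bb M 2)
    rw [bb_two, bb_two]
    simp only [PiLp.neg_apply]
    ring

lemma bb_neg_right (M : Fr) : bb (M.1, -M.2) = -bb M := by
  ext i
  fin_cases i
  · show bb (M.1, -M.2) 0 = -(bb M 0)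
    rw [bb_zero, bb_zero]
    simp only [PiLp.neg_apply]
    ring
  · show bb (M.1, -M.2) 1 = -(bb M 1)
    rw [bb_one, bb_one]
    simp only [PiLp.neg_apply]
    ring
  · show bb (M.1, -M.2) 2 = -(bb M 2)
    rw [bb_two, bb_two]
    simp only [PiLp.neg_apply]
    ring

lemma inner_bb_one (M : Fr) : inner ℝ M.1 (bb M) = 0 := by
  rw [inner_eq, bb_zero, bb_one, bb_two]
  ring

lemma inner_bb_two (M : Fr) : inner ℝ M.2 (bb M) = 0 := by
  rw [inner_eq, bb_zero, bb_one, bb_two]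
  ring

lemma norm_bb_sq (M : Fr) : ‖bb M‖ ^ 2 = ‖M.1‖ ^ 2 * ‖M.2‖ ^ 2 - (inner ℝ M.1 M.2) ^ 2 := by
  rw [norm_sq_eq, norm_sq_eq, norm_sq_eq, inner_eq, bb_zero, bb_one, bb_two]
  ring

lemma norm_bb {M : Fr} (hM : M ∈ St) : ‖bb M‖ = 1 := by
  have h := norm_bb_sq M
  rw [hM.1, hM.2.1, hM.2.2] at h
  have h1 : ‖bb M‖ ^ 2 = 1 := by rw [h]; norm_num
  exact (pow_eq_one_iff_of_nonneg (norm_nonneg _) two_ne_zero).1 h1

lemma continuous_bb : Continuous bb := by
  have h0 : ∀ i : Fin 3, Continuous fun M : Fr => M.1 i := fun i => by fun_prop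
  have h1 : ∀ i : Fin 3, Continuous fun M : Fr => M.2 i := fun i => by fun_prop
  unfold bb cr pt
  refine (PiLp.continuous_toLp 2 _).comp (continuous_pi fun i => ?_)
  fin_cases i
  · exact ((h0 1).mul (h1 2)).sub ((h0 2).mul (h1 1))
  · exact ((h0 2).mul (h1 0)).sub ((h0 0).mul (h1 2))
  · exact ((h0 0).mul (h1 1)).sub ((h0 1).mul (h1 0))

lemma ne_zero_of_St {M : Fr} (hM : M ∈ St) : M.1 ≠ 0 := by
  intro h
  have h1 := hM.1
  rw [h, norm_zero] at h1
  exact zero_ne_one h1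

lemma isClosed_St : IsClosed St := by
  have h1 : IsClosed {M : Fr | ‖M.1‖ = 1} := isClosed_eq (by fun_prop) continuous_const
  have h2 : IsClosed {M : Fr | ‖M.2‖ = 1} := isClosed_eq (by fun_prop) continuous_const
  have h3 : IsClosed {M : Fr | inner ℝ M.1 M.2 = 0} := isClosed_eq (by fun_prop) continuous_const
  exact h1.inter (h2.inter h3)

lemma isCompact_St : IsCompact St := by
  refine (isCompact_closedBall (0 : Fr) 1).of_isClosed_subset isClosed_St ?_
  intro M hM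
  rw [mem_closedBall_zero_iff, Prod.norm_def, hM.1, hM.2.1, max_self]

/-! ### The second derivative -/

lemma Supp.contDiffAt (hS : Supp H w) {x : E3} (hx : x ≠ 0) : ContDiffAt ℝ ∞ H x :=
  hS.smooth.contDiffAt (isOpen_compl_singleton.mem_nhds hx)

lemma Supp.hasFDerivAt (hS : Supp H w) {x : E3} (hx : x ≠ 0) : HasFDerivAt H (fderiv ℝ H x) x :=
  ((hS.contDiffAt hx).differentiableAt (by simp)).hasFDerivAt

lemma Supp.contDiffAt_fderiv (hS : Supp H w) {x : E3} (hx : x ≠ 0) : ContDiffAt ℝ ∞ (fderiv ℝ H) x :=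
  (hS.contDiffAt hx).fderiv_right (by simp)

lemma Supp.hasFDerivAt_fderiv (hS : Supp H w) {x : E3} (hx : x ≠ 0) :
    HasFDerivAt (fderiv ℝ H) (fderiv ℝ (fderiv ℝ H) x) x :=
  ((hS.contDiffAt_fderiv hx).differentiableAt (by simp)).hasFDerivAt

lemma Supp.D2_symm (hS : Supp H w) {x : E3} (hx : x ≠ 0) (v v' : E3) : D2 H x v v' = D2 H x v' v :=
  ((hS.contDiffAt hx).isSymmSndFDerivAt (by
    rw [minSmoothness_of_isRCLikeNormedField]
    exact WithTop.coe_le_coe.2 le_top)) v v'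

lemma Supp.hasDerivAt_D2 (hS : Supp H w) {x : E3} (hx : x ≠ 0) (v v' : E3) :
    HasDerivAt (fun s : ℝ => fderiv ℝ H (x + s • v) v') (D2 H x v v') 0 := by
  have h1 : HasDerivAt (fun s : ℝ => x + s • v) v 0 := by
    have := ((hasDerivAt_id (0 : ℝ)).smul_const v).const_add x
    simpa using this
  have h2 : HasFDerivAt (fderiv ℝ H) (fderiv ℝ (fderiv ℝ H) x) (x + (0 : ℝ) • v) := by
    rw [zero_smul, add_zero]
    exact hS.hasFDerivAt_fderiv hx
  have h3 := h2.comp_hasDerivAt (0 : ℝ) h1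
  have h4 := h3.clm_apply (hasDerivAt_const (0 : ℝ) v')
  simpa [D2] using h4

/-- the first derivatives at antipodal points -/
lemma Supp.fderiv_neg (hS : Supp H w) {x : E3} (hx : x ≠ 0) (v : E3) :
    fderiv ℝ H x v - fderiv ℝ H (-x) v = w * (inner ℝ x v / ‖x‖) := by
  have hn : ‖x‖ ≠ 0 := norm_ne_zero_iff.2 hx
  have h1 : HasDerivAt (fun s : ℝ => x + s • v) v 0 := by
    have := ((hasDerivAt_id (0 : ℝ)).smul_const v).const_add x
    simpa using this
  have h1' : HasDerivAt (fun s : ℝ => -(x + s • v)) (-v) 0 := h1.neg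
  have h2 : HasDerivAt (fun s : ℝ => H (x + s • v)) (fderiv ℝ H x v) 0 := by
    have h3 : HasFDerivAt H (fderiv ℝ H x) (x + (0 : ℝ) • v) := by
      rw [zero_smul, add_zero]
      exact hS.hasFDerivAt hx
    exact h3.comp_hasDerivAt (0 : ℝ) h1
  have h3 : HasDerivAt (fun s : ℝ => H (-(x + s • v))) (fderiv ℝ H (-x) (-v)) 0 := by
    have h3 : HasFDerivAt H (fderiv ℝ H (-x)) (-(x + (0 : ℝ) • v)) := by
      rw [zero_smul, add_zero]
      exact hS.hasFDerivAt (neg_ne_zero.2 hx)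
    exact h3.comp_hasDerivAt (0 : ℝ) h1'
  have h4 : HasDerivAt (fun s : ℝ => w * ‖x + s • v‖) (w * (inner ℝ x v / ‖x‖)) 0 := by
    have h5 : HasDerivAt (fun s : ℝ => ‖x + s • v‖ ^ 2) (2 * inner ℝ (x + (0 : ℝ) • v) v) 0 := h1.norm_sq
    rw [zero_smul, add_zero] at h5
    have h6 : HasDerivAt (fun s : ℝ => √(‖x + s • v‖ ^ 2)) (2 * inner ℝ x v / (2 * √(‖x + (0 : ℝ) • v‖ ^ 2))) 0 := by
      refine h5.sqrt ?_
      rw [zero_smul, add_zero]
      positivity
    rw [zero_smul, add_zero, Real.sqrt_sq (norm_nonneg _)] at h6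
    have e : (fun s : ℝ => √(‖x + s • v‖ ^ 2)) = fun s : ℝ => ‖x + s • v‖ := by
      funext s
      exact Real.sqrt_sq (norm_nonneg _)
    rw [e] at h6
    have h7 := h6.const_mul w
    rw [mul_div_mul_left _ _ two_ne_zero] at h7
    exact h7
  have h5 := h2.add h3
  have e : (fun s : ℝ => H (x + s • v)) + (fun s : ℝ => H (-(x + s • v))) = fun s : ℝ => w * ‖x + s • v‖ := by
    funext s
    exact hS.width _
  rw [e] at h5
  have h6 := h5.unique h4
  rw [map_neg] at h6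
  linarith

/-- `R(u) + R(-u) = w` -/
lemma Supp.D2_add (hS : Supp H w) {u : E3} (hu : ‖u‖ = 1) {v v' : E3} (hv : inner ℝ u v = 0)
    (_hv' : inner ℝ u v' = 0) : D2 H u v v' + D2 H (-u) v v' = w * inner ℝ v v' := by
  have hu0 : u ≠ 0 := by
    intro h
    rw [h, norm_zero] at hu
    exact zero_ne_one hu
  have h1 := hS.hasDerivAt_D2 hu0 v v'
  have h2 := hS.hasDerivAt_D2 (neg_ne_zero.2 hu0) (-v) v'
  have h3 : D2 H (-u) (-v) v' = -D2 H (-u) v v' := by
    simp [D2]
  rw [h3] at h2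
  have h4 := h1.sub h2
  rw [sub_neg_eq_add] at h4
  -- the other side
  have h5 : HasDerivAt (fun s : ℝ => w * (inner ℝ (u + s • v) v' / ‖u + s • v‖)) (w * inner ℝ v v') 0 := by
    have g1 : HasDerivAt (fun s : ℝ => u + s • v) v 0 := by
      have := ((hasDerivAt_id (0 : ℝ)).smul_const v).const_add u
      simpa using this
    have g2 : HasDerivAt (fun s : ℝ => inner ℝ (u + s • v) v') (inner ℝ v v') 0 := by
      have := g1.inner ℝ (hasDerivAt_const (0 : ℝ) v')
      simpa using this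
    have g5 : HasDerivAt (fun s : ℝ => ‖u + s • v‖ ^ 2) (2 * inner ℝ (u + (0 : ℝ) • v) v) 0 := g1.norm_sq
    rw [zero_smul, add_zero, hv, mul_zero] at g5
    have g6 : HasDerivAt (fun s : ℝ => √(‖u + s • v‖ ^ 2)) (0 / (2 * √(‖u + (0 : ℝ) • v‖ ^ 2))) 0 := by
      refine g5.sqrt ?_
      rw [zero_smul, add_zero, hu]
      norm_num
    have e : (fun s : ℝ => √(‖u + s • v‖ ^ 2)) = fun s : ℝ => ‖u + s • v‖ := by
      funext s
      exact Real.sqrt_sq (norm_nonneg _)
    rw [e, zero_div] at g6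
    have g7 := (g2.fun_div g6 (by rw [zero_smul, add_zero, hu]; norm_num)).const_mul w
    rw [zero_smul, add_zero, hu] at g7
    simpa using g7
  have hev : (fun s : ℝ => fderiv ℝ H (u + s • v) v' - fderiv ℝ H (-u + s • -v) v') =ᶠ[nhds 0]
      fun s : ℝ => w * (inner ℝ (u + s • v) v' / ‖u + s • v‖) := by
    have hc : Continuous fun s : ℝ => u + s • v := by fun_prop
    have h6 : ∀ᶠ s : ℝ in nhds 0, u + s • v ≠ 0 := by
      refine hc.continuousAt.eventually_ne ?_
      rwa [zero_smul, add_zero]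
    filter_upwards [h6] with s hs
    rw [← hS.fderiv_neg hs v']
    have : -u + s • -v = -(u + s • v) := by
      rw [smul_neg, neg_add]
    rw [this]
  have h7 := h4.congr_of_eventuallyEq (f₁ := fun s : ℝ => w * (inner ℝ (u + s • v) v' / ‖u + s • v‖)) hev.symm
  exact h7.unique h5

/-! ### Positivity and continuity -/

lemma Supp.continuousOn_D2 (hS : Supp H w) {p q : Fr → E3} (hp : Continuous p) (hq : Continuous q) :
    ContinuousOn (fun M : Fr => D2 H M.1 (p M) (q M)) St := by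
  intro M hM
  have h1 : ContinuousAt (fderiv ℝ (fderiv ℝ H)) M.1 :=
    ((hS.contDiffAt_fderiv (ne_zero_of_St hM)).fderiv_right (m := 0) (by simp)).continuousAt
  have h2 : ContinuousAt (fun M : Fr => fderiv ℝ (fderiv ℝ H) M.1) M := h1.comp continuousAt_fst
  unfold D2
  exact ((h2.clm_apply hp.continuousAt).clm_apply hq.continuousAt).continuousWithinAt

theorem Supp.Ree_cont (hS : Supp H w) : ContinuousOn (Ree H) St := hS.continuousOn_D2 continuous_snd continuous_snd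
theorem Supp.Reb_cont (hS : Supp H w) : ContinuousOn (Reb H) St := hS.continuousOn_D2 continuous_snd continuous_bb
theorem Supp.Rbb_cont (hS : Supp H w) : ContinuousOn (Rbb H) St := hS.continuousOn_D2 continuous_bb continuous_bb
theorem Supp.Dn_cont (hS : Supp H w) : ContinuousOn (Dn H) St :=
  (hS.Ree_cont.mul hS.Rbb_cont).sub (hS.Reb_cont.pow 2)

theorem Supp.Ree_pos (hS : Supp H w) {M : Fr} (hM : M ∈ St) : 0 < Ree H M := by
  refine hS.pos _ _ hM.1 hM.2.2 ?_
  intro h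
  have := hM.2.1
  rw [h, norm_zero] at this
  exact zero_ne_one this

theorem Supp.Rbb_pos (hS : Supp H w) {M : Fr} (hM : M ∈ St) : 0 < Rbb H M := by
  refine hS.pos _ _ hM.1 (inner_bb_one M) ?_
  intro h
  have := norm_bb hM
  rw [h, norm_zero] at this
  exact zero_ne_one this

theorem Supp.Dn_pos (hS : Supp H w) {M : Fr} (hM : M ∈ St) : 0 < Dn H M := by
  have hR := hS.Rbb_pos hM
  set v : E3 := Rbb H M • M.2 - Reb H M • bb M with hv
  have h1 : inner ℝ M.1 v = 0 := by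
    rw [hv, inner_sub_right, real_inner_smul_right, real_inner_smul_right, hM.2.2, inner_bb_one]
    ring
  have h2 : inner ℝ M.2 v = Rbb H M := by
    rw [hv, inner_sub_right, real_inner_smul_right, real_inner_smul_right, inner_bb_two, real_inner_self_eq_norm_sq,
      hM.2.1]
    ring
  have h3 : v ≠ 0 := by
    intro h
    rw [h, inner_zero_right] at h2
    exact hR.ne h2
  have h4 := hS.pos _ _ hM.1 h1 h3
  have h5 : D2 H M.1 v v = Rbb H M * Dn H M := by
    have hs := hS.D2_symm (ne_zero_of_St hM) (bb M) M.2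
    rw [hv]
    unfold Dn Ree Rbb Reb
    unfold D2 at hs ⊢
    simp only [map_sub, map_smul, sub_apply, smul_apply, smul_eq_mul]
    rw [hs]
    ring
  rw [h5] at h4
  exact pos_of_mul_pos_right h4 hR.le

theorem Supp.Dn_om (hS : Supp H w) {M : Fr} (hM : M ∈ St) :
    Dn H M * om H M = Rbb H M + Reb H M * M.2 2 / (1 + bb M 2) := by
  have h := (hS.Dn_pos hM).ne'
  unfold om kap tau
  rw [mul_sub, mul_div_cancel₀ _ h]
  have e : Dn H M * (-Reb H M / Dn H M * M.2 2 / (1 + bb M 2)) = -(Reb H M * M.2 2 / (1 + bb M 2)) := by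
    field_simp
  rw [e, sub_neg_eq_add]

/-! ### The means -/

theorem Inv.integrable_cont (hμ : Inv μ) {F : Fr → ℝ} (hF : ContinuousOn F St) : Integrable F μ := by
  have := hμ.prob
  have hr : μ.restrict St = μ := Measure.restrict_eq_self_of_ae_mem hμ.st
  have h1 : IntegrableOn F St μ := hF.integrableOn_compact isCompact_St
  rwa [IntegrableOn, hr] at h1

/-- the embedding of the first symmetry -/
lemma me_s1 : MeasurableEmbedding (fun M : Fr => (-M.1, M.2)) := by
  have h : Function.Involutive (fun M : Fr => (-M.1, M.2)) := fun M => by simp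
  exact (MeasurableEquiv.ofInvolutive _ h (by fun_prop)).measurableEmbedding

lemma me_s2 : MeasurableEmbedding (fun M : Fr => (M.1, -M.2)) := by
  have h : Function.Involutive (fun M : Fr => (M.1, -M.2)) := fun M => by simp
  exact (MeasurableEquiv.ofInvolutive _ h (by fun_prop)).measurableEmbedding

theorem Rbb_s1 (hS : Supp H w) {M : Fr} (hM : M ∈ St) : Rbb H (-M.1, M.2) = w - Rbb H M := by
  have h := hS.D2_add hM.1 (inner_bb_one M) (inner_bb_one M)
  rw [real_inner_self_eq_norm_sq, norm_bb hM] at h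
  have e : Rbb H (-M.1, M.2) = D2 H (-M.1) (bb M) (bb M) := by
    unfold Rbb
    rw [bb_neg_left]
    simp [D2]
  rw [e]
  unfold Rbb
  linarith

theorem Reb_s1 (hS : Supp H w) {M : Fr} (hM : M ∈ St) : Reb H (-M.1, M.2) = Reb H M := by
  have h := hS.D2_add hM.1 hM.2.2 (inner_bb_one M)
  rw [inner_bb_two] at h
  have e : Reb H (-M.1, M.2) = -D2 H (-M.1) M.2 (bb M) := by
    unfold Reb
    rw [bb_neg_left]
    simp [D2]
  rw [e]
  unfold Reb
  linarith

theorem Reb_s2 (M : Fr) : Reb H (M.1, -M.2) = Reb H M := by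
  unfold Reb
  rw [bb_neg_right]
  simp [D2]

/-- the mean of `R_bb` -/
theorem int_Rbb (hS : Supp H w) (hμ : Inv μ) : ∫ M, Rbb H M ∂μ = w / 2 := by
  have := hμ.prob
  have h1 : ∫ M, Rbb H (-M.1, M.2) ∂μ = ∫ M, Rbb H M ∂μ :=
    hμ.s1.integral_comp me_s1 (Rbb H)
  have h2 : ∫ M, Rbb H (-M.1, M.2) ∂μ = ∫ M, (w - Rbb H M) ∂μ :=
    integral_congr_ae (hμ.st.mono fun M hM => Rbb_s1 hS hM)
  rw [integral_sub (integrable_const _) (hμ.integrable_cont hS.Rbb_cont), integral_const, probReal_univ,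
    one_smul] at h2
  linarith

/-- the mean of the cross term -/
theorem int_cross (hS : Supp H w) (hμ : Inv μ) :
    ∫ M, Reb H M * M.2 2 / (1 + bb M 2) ∂μ = 0 := by
  have h1 : ∫ M, Reb H (-M.1, M.2) * M.2 2 / (1 + bb (-M.1, M.2) 2) ∂μ =
      ∫ M, Reb H M * M.2 2 / (1 + bb M 2) ∂μ :=
    hμ.s1.integral_comp me_s1 (fun M => Reb H M * M.2 2 / (1 + bb M 2))
  have h2 : ∫ M, Reb H (M.1, -M.2) * (-M.2) 2 / (1 + bb (M.1, -M.2) 2) ∂μ =
      ∫ M, Reb H M * M.2 2 / (1 + bb M 2) ∂μ :=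
    hμ.s2.integral_comp me_s2 (fun M => Reb H M * M.2 2 / (1 + bb M 2))
  have h3 : ∫ M, Reb H (M.1, -M.2) * (-M.2) 2 / (1 + bb (M.1, -M.2) 2) ∂μ =
      ∫ M, -(Reb H (-M.1, M.2) * M.2 2 / (1 + bb (-M.1, M.2) 2)) ∂μ := by
    refine integral_congr_ae (hμ.st.mono fun M hM => ?_)
    show Reb H (M.1, -M.2) * (-M.2) 2 / (1 + bb (M.1, -M.2) 2) =
      -(Reb H (-M.1, M.2) * M.2 2 / (1 + bb (-M.1, M.2) 2))
    rw [Reb_s1 hS hM, Reb_s2, bb_neg_left, bb_neg_right]
    simp only [PiLp.neg_apply]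
    ring
  rw [integral_neg, h1, h2] at h3
  linarith

/-- the mean of `D om` -/
theorem int_Dn_om (hS : Supp H w) (hμ : Inv μ)
    (hi : Integrable (fun M => Reb H M * M.2 2 / (1 + bb M 2)) μ) :
    ∫ M, Dn H M * om H M ∂μ = w / 2 := by
  have h1 : ∫ M, Dn H M * om H M ∂μ = ∫ M, (Rbb H M + Reb H M * M.2 2 / (1 + bb M 2)) ∂μ :=
    integral_congr_ae (hμ.st.mono fun M hM => hS.Dn_om hM)
  rw [h1, integral_add (hμ.integrable_cont hS.Rbb_cont) hi, int_Rbb hS hμ, int_cross hS hμ, add_zero]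

end Pool.Agent.P85
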