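import Pool.Agent.P85.R3Mu

/-!
# The invariant measure on the frames

The measure of `R3Mu` is left invariant. It is invariant under the inverse of the frames (as
elements of the group of rotations) by Fubini's theorem, hence it is right invariant.
-/

set_option autoImplicit false

open MeasureTheory Metric
open scoped RealInnerProductSpace

namespace Pool.Agent.P85.R3

variable {M N : Fr}

/-! ### The cross product -/

lemma inner_self_fst (hM : M ∈ St) : ⟪M.1, M.1⟫ = 1 := by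
  rw [real_inner_self_eq_norm_sq, hM.1, one_pow]

lemma inner_self_snd (hM : M ∈ St) : ⟪M.2, M.2⟫ = 1 := by
  rw [real_inner_self_eq_norm_sq, hM.2.1, one_pow]

/-- `b × u = e` -/
lemma cr_bb_fst (hM : M ∈ St) : cr (bb M) M.1 = M.2 := by
  have h1 := inner_self_fst hM
  have h2 : ⟪M.1, M.2⟫ = 0 := hM.2.2
  rw [inner_eq] at h1 h2
  refine ext3 ?_ ?_ ?_
  · rw [cr_0, bb, cr_1, cr_2]
    linear_combination M.2 0 * h1 - M.1 0 * h2
  · rw [cr_1, bb, cr_2, cr_0]
    linear_combination M.2 1 * h1 - M.1 1 * h2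
  · rw [cr_2, bb, cr_0, cr_1]
    linear_combination M.2 2 * h1 - M.1 2 * h2

/-- `e × b = u` -/
lemma cr_snd_bb (hM : M ∈ St) : cr M.2 (bb M) = M.1 := by
  have h1 := inner_self_snd hM
  have h2 : ⟪M.1, M.2⟫ = 0 := hM.2.2
  rw [inner_eq] at h1 h2
  refine ext3 ?_ ?_ ?_
  · rw [cr_0, bb, cr_1, cr_2]
    linear_combination M.1 0 * h1 - M.2 0 * h2
  · rw [cr_1, bb, cr_2, cr_0]
    linear_combination M.1 1 * h1 - M.2 1 * h2
  · rw [cr_2, bb, cr_0, cr_1]
    linear_combination M.1 2 * h1 - M.2 2 * h2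

lemma inner_fst_bb (M : Fr) : ⟪M.1, bb M⟫ = 0 := by
  rw [inner_eq, bb, cr_0, cr_1, cr_2]
  ring

lemma inner_snd_bb (M : Fr) : ⟪M.2, bb M⟫ = 0 := by
  rw [inner_eq, bb, cr_0, cr_1, cr_2]
  ring

lemma inner_bb_bb (hM : M ∈ St) : ⟪bb M, bb M⟫ = 1 := by
  have h := norm_cr_sq M.1 M.2
  rw [hM.1, hM.2.1, hM.2.2] at h
  rw [real_inner_self_eq_norm_sq, bb, h]
  norm_num

/-! ### The frames as rotations -/

/-- the linear map of the frame -/
noncomputable def act (M : Fr) (v : E3) : E3 := v 0 • M.1 + v 1 • M.2 + v 2 • bb M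

lemma act_apply (M : Fr) (v : E3) (i : Fin 3) :
    act M v i = v 0 * M.1 i + v 1 * M.2 i + v 2 * bb M i := rfl

/-- the product of the frames -/
noncomputable def mul (M N : Fr) : Fr := (act M N.1, act M N.2)

/-- the inverse of the frame -/
noncomputable def inv (M : Fr) : Fr :=
  (pt (M.1 0) (M.2 0) (bb M 0), pt (M.1 1) (M.2 1) (bb M 1))

lemma norm_act (hM : M ∈ St) (v : E3) : ‖act M v‖ = ‖v‖ := by
  have h1 := inner_self_fst hM
  have h2 := inner_self_snd hM
  have h3 : ⟪M.1, M.2⟫ = 0 := hM.2.2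
  have h4 := inner_fst_bb M
  have h5 := inner_snd_bb M
  have h6 := inner_bb_bb hM
  have h : ‖act M v‖ ^ 2 = ‖v‖ ^ 2 := by
    rw [inner_eq] at h1 h2 h3 h4 h5 h6
    rw [norm_sq_eq, norm_sq_eq, act_apply, act_apply, act_apply]
    linear_combination v 0 ^ 2 * h1 + v 1 ^ 2 * h2 + v 2 ^ 2 * h6 + 2 * v 0 * v 1 * h3 +
      2 * v 0 * v 2 * h4 + 2 * v 1 * v 2 * h5
  exact (sq_eq_sq₀ (norm_nonneg _) (norm_nonneg _)).1 h

/-- the rotation of the frame -/
noncomputable def actE (hM : M ∈ St) : E3 ≃ₗᵢ[ℝ] E3 :=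
  LinearIsometry.toLinearIsometryEquiv
    { toFun := act M
      map_add' := by
        intro v w
        refine ext3 ?_ ?_ ?_ <;>
          simp only [act_apply, PiLp.add_apply] <;> ring
      map_smul' := by
        intro c v
        refine ext3 ?_ ?_ ?_ <;>
          simp only [act_apply, PiLp.smul_apply, smul_eq_mul, RingHom.id_apply] <;> ring
      norm_map' := norm_act hM } rfl

lemma actE_apply (hM : M ∈ St) (v : E3) : actE hM v = act M v := rfl

lemma mul_eq_rot (hM : M ∈ St) : mul M = rot (actE hM) := rfl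

lemma mul_mem (hM : M ∈ St) (hN : N ∈ St) : mul M N ∈ St := by
  rw [mul_eq_rot hM]
  exact rot_mem _ hN

lemma inner_act (hM : M ∈ St) (v w : E3) : ⟪act M v, act M w⟫ = ⟪v, w⟫ :=
  (actE hM).inner_map_map v w

/-- rotations preserve the cross product -/
lemma cr_act (hM : M ∈ St) (v w : E3) : cr (act M v) (act M w) = act M (cr v w) := by
  have h1 := cr_bb_fst hM
  have h2 := cr_snd_bb hM
  have h10 : bb M 1 * M.1 2 - bb M 2 * M.1 1 = M.2 0 := by rw [← cr_0, h1]
  have h11 : bb M 2 * M.1 0 - bb M 0 * M.1 2 = M.2 1 := by rw [← cr_1, h1]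
  have h12 : bb M 0 * M.1 1 - bb M 1 * M.1 0 = M.2 2 := by rw [← cr_2, h1]
  have h20 : M.2 1 * bb M 2 - M.2 2 * bb M 1 = M.1 0 := by rw [← cr_0, h2]
  have h21 : M.2 2 * bb M 0 - M.2 0 * bb M 2 = M.1 1 := by rw [← cr_1, h2]
  have h22 : M.2 0 * bb M 1 - M.2 1 * bb M 0 = M.1 2 := by rw [← cr_2, h2]
  have h30 : M.1 1 * M.2 2 - M.1 2 * M.2 1 = bb M 0 := rfl
  have h31 : M.1 2 * M.2 0 - M.1 0 * M.2 2 = bb M 1 := rfl
  have h32 : M.1 0 * M.2 1 - M.1 1 * M.2 0 = bb M 2 := rfl
  refine ext3 ?_ ?_ ?_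
  · rw [cr_0]
    simp only [act_apply, cr_0, cr_1, cr_2]
    linear_combination (v 2 * w 0 - v 0 * w 2) * h10 + (v 1 * w 2 - v 2 * w 1) * h20 +
      (v 0 * w 1 - v 1 * w 0) * h30
  · rw [cr_1]
    simp only [act_apply, cr_0, cr_1, cr_2]
    linear_combination (v 2 * w 0 - v 0 * w 2) * h11 + (v 1 * w 2 - v 2 * w 1) * h21 +
      (v 0 * w 1 - v 1 * w 0) * h31
  · rw [cr_2]
    simp only [act_apply, cr_0, cr_1, cr_2]
    linear_combination (v 2 * w 0 - v 0 * w 2) * h12 + (v 1 * w 2 - v 2 * w 1) * h22 +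
      (v 0 * w 1 - v 1 * w 0) * h32

lemma bb_mul (hM : M ∈ St) (N : Fr) : bb (mul M N) = act M (bb N) := cr_act hM _ _

/-- the third row of the frame is the third vector of the inverse -/
lemma bb_inv (hM : M ∈ St) : bb (inv M) = pt (M.1 2) (M.2 2) (bb M 2) := by
  have h1 := cr_bb_fst hM
  have h2 := cr_snd_bb hM
  have h12 : bb M 0 * M.1 1 - bb M 1 * M.1 0 = M.2 2 := by rw [← cr_2, h1]
  have h22 : M.2 0 * bb M 1 - M.2 1 * bb M 0 = M.1 2 := by rw [← cr_2, h2]
  have h32 : M.1 0 * M.2 1 - M.1 1 * M.2 0 = bb M 2 := rfl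
  refine ext3 ?_ ?_ ?_
  · show M.2 0 * bb M 1 - bb M 0 * M.2 1 = M.1 2
    linear_combination h22
  · show bb M 0 * M.1 1 - M.1 0 * bb M 1 = M.2 2
    linear_combination h12
  · show M.1 0 * M.2 1 - M.2 0 * M.1 1 = bb M 2
    linear_combination h32

/-- the linear map of the inverse is the transpose -/
lemma act_inv (hM : M ∈ St) (v : E3) : act (inv M) v = pt ⟪M.1, v⟫ ⟪M.2, v⟫ ⟪bb M, v⟫ := by
  rw [inner_eq, inner_eq, inner_eq]
  refine ext3 ?_ ?_ ?_
  · rw [act_apply, bb_inv hM]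
    show v 0 * M.1 0 + v 1 * M.1 1 + v 2 * M.1 2 = M.1 0 * v 0 + M.1 1 * v 1 + M.1 2 * v 2
    ring
  · rw [act_apply, bb_inv hM]
    show v 0 * M.2 0 + v 1 * M.2 1 + v 2 * M.2 2 = M.2 0 * v 0 + M.2 1 * v 1 + M.2 2 * v 2
    ring
  · rw [act_apply, bb_inv hM]
    show v 0 * bb M 0 + v 1 * bb M 1 + v 2 * bb M 2 = bb M 0 * v 0 + bb M 1 * v 1 + bb M 2 * v 2
    ring

lemma inv_mem (hM : M ∈ St) : inv M ∈ St := by
  -- the vectors of the inverse are the inverse images of the coordinate vectors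
  have key : ∀ v w : E3, ⟪act M v, w⟫ = ⟪v, pt ⟪M.1, w⟫ ⟪M.2, w⟫ ⟪bb M, w⟫⟫ := by
    intro v w
    simp only [inner_eq, act_apply, pt_zero, pt_one, pt_two]
    ring
  have h0 : ∀ w : E3, act M (pt ⟪M.1, w⟫ ⟪M.2, w⟫ ⟪bb M, w⟫) = w := by
    intro w
    obtain ⟨v, hv⟩ := (actE hM).surjective w
    have hv' : act M v = w := hv
    have h1 : pt ⟪M.1, w⟫ ⟪M.2, w⟫ ⟪bb M, w⟫ = v := by
      refine ext_inner_left ℝ fun x => ?_
      rw [← key x w, ← hv', inner_act hM]
    rw [h1, hv']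
  have hr : ∀ w : E3, ‖pt ⟪M.1, w⟫ ⟪M.2, w⟫ ⟪bb M, w⟫‖ = ‖w‖ := by
    intro w
    rw [← norm_act hM, h0 w]
  have hi : ∀ w w' : E3, ⟪pt ⟪M.1, w⟫ ⟪M.2, w⟫ ⟪bb M, w⟫, pt ⟪M.1, w'⟫ ⟪M.2, w'⟫ ⟪bb M, w'⟫⟫ =
      ⟪w, w'⟫ := by
    intro w w'
    rw [← inner_act hM, h0 w, h0 w']
  have e0 : (inv M).1 = pt ⟪M.1, pt 1 0 0⟫ ⟪M.2, pt 1 0 0⟫ ⟪bb M, pt 1 0 0⟫ := by
    refine ext3 ?_ ?_ ?_ <;> simp [inner_eq, inv]
  have e1 : (inv M).2 = pt ⟪M.1, pt 0 1 0⟫ ⟪M.2, pt 0 1 0⟫ ⟪bb M, pt 0 1 0⟫ := by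
    refine ext3 ?_ ?_ ?_ <;> simp [inner_eq, inv]
  have n0 : ‖pt 1 0 0‖ = 1 := by
    have h : ‖pt 1 0 0‖ ^ 2 = 1 ^ 2 := by
      rw [norm_sq_eq]
      simp
    exact (sq_eq_sq₀ (norm_nonneg _) zero_le_one).1 h
  have n1 : ‖pt 0 1 0‖ = 1 := by
    have h : ‖pt 0 1 0‖ ^ 2 = 1 ^ 2 := by
      rw [norm_sq_eq]
      simp
    exact (sq_eq_sq₀ (norm_nonneg _) zero_le_one).1 h
  refine ⟨?_, ?_, ?_⟩
  · rw [e0, hr, n0]
  · rw [e1, hr, n1]
  · rw [e0, e1, hi, inner_eq]
    simp

lemma inv_inv (hM : M ∈ St) : inv (inv M) = M := by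
  have h := bb_inv hM
  refine Prod.ext ?_ ?_
  · refine ext3 ?_ ?_ ?_
    · rfl
    · rfl
    · show bb (inv M) 0 = M.1 2
      rw [h, pt_zero]
  · refine ext3 ?_ ?_ ?_
    · rfl
    · rfl
    · show bb (inv M) 1 = M.2 2
      rw [h, pt_one]

/-- `M⁻¹ N = (N⁻¹ M)⁻¹` -/
lemma inv_mul (hM : M ∈ St) (hN : N ∈ St) : mul (inv M) N = inv (mul (inv N) M) := by
  have h1 : bb (mul (inv N) M) = act (inv N) (bb M) := bb_mul (inv_mem hN) M
  have hc : ∀ v w : E3, ⟪v, w⟫ = ⟪w, v⟫ := fun v w => real_inner_comm _ _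
  refine Prod.ext ?_ ?_
  · show act (inv M) N.1 = pt (act (inv N) M.1 0) (act (inv N) M.2 0) (bb (mul (inv N) M) 0)
    rw [h1, act_inv hM, act_inv hN, act_inv hN, act_inv hN, pt_zero, pt_zero, pt_zero,
      hc N.1, hc N.1, hc N.1]
  · show act (inv M) N.2 = pt (act (inv N) M.1 1) (act (inv N) M.2 1) (bb (mul (inv N) M) 1)
    rw [h1, act_inv hM, act_inv hN, act_inv hN, act_inv hN, pt_one, pt_one, pt_one,
      hc N.2, hc N.2, hc N.2]

/-- `M R = (R⁻¹ M⁻¹)⁻¹` -/
lemma mul_eq (hM : M ∈ St) (hN : N ∈ St) : mul M N = inv (mul (inv N) (inv M)) := by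
  have h := inv_mul (inv_mem hM) hN
  rwa [inv_inv hM] at h

/-! ### Continuity -/

lemma continuous_pt {X : Type*} [TopologicalSpace X] {f g h : X → ℝ} (hf : Continuous f)
    (hg : Continuous g) (hh : Continuous h) : Continuous fun x => pt (f x) (g x) (h x) := by
  have h1 : Continuous fun x => (![f x, g x, h x] : Fin 3 → ℝ) := by
    refine continuous_pi fun i => ?_
    fin_cases i
    · exact hf
    · exact hg
    · exact hh
  exact (PiLp.continuous_toLp 2 (fun _ : Fin 3 => ℝ)).comp h1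

lemma continuous_coord (i : Fin 3) : Continuous fun v : E3 => v i := by fun_prop

lemma continuous_bb : Continuous bb := by
  have a0 := (continuous_coord 0).comp (continuous_fst (X := E3) (Y := E3))
  have a1 := (continuous_coord 1).comp (continuous_fst (X := E3) (Y := E3))
  have a2 := (continuous_coord 2).comp (continuous_fst (X := E3) (Y := E3))
  have b0 := (continuous_coord 0).comp (continuous_snd (X := E3) (Y := E3))
  have b1 := (continuous_coord 1).comp (continuous_snd (X := E3) (Y := E3))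
  have b2 := (continuous_coord 2).comp (continuous_snd (X := E3) (Y := E3))
  exact continuous_pt ((a1.mul b2).sub (a2.mul b1)) ((a2.mul b0).sub (a0.mul b2))
    ((a0.mul b1).sub (a1.mul b0))

lemma continuous_act : Continuous fun p : Fr × E3 => act p.1 p.2 := by
  unfold act
  have h := continuous_bb.comp (continuous_fst (X := Fr) (Y := E3))
  have h0 := (continuous_coord 0).comp (continuous_snd (X := Fr) (Y := E3))
  have h1 := (continuous_coord 1).comp (continuous_snd (X := Fr) (Y := E3))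
  have h2 := (continuous_coord 2).comp (continuous_snd (X := Fr) (Y := E3))
  exact ((h0.smul (continuous_fst.comp continuous_fst)).add
    (h1.smul (continuous_snd.comp continuous_fst))).add (h2.smul h)

lemma continuous_mul : Continuous fun p : Fr × Fr => mul p.1 p.2 :=
  (continuous_act.comp (continuous_fst.prodMk (continuous_fst.comp continuous_snd))).prodMk
    (continuous_act.comp (continuous_fst.prodMk (continuous_snd.comp continuous_snd)))

lemma continuous_inv : Continuous inv := by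
  have h0 := (continuous_coord 0).comp continuous_bb
  have h1 := (continuous_coord 1).comp continuous_bb
  exact (continuous_pt ((continuous_coord 0).comp continuous_fst)
    ((continuous_coord 0).comp continuous_snd) h0).prodMk
    (continuous_pt ((continuous_coord 1).comp continuous_fst)
    ((continuous_coord 1).comp continuous_snd) h1)

/-! ### Invariance under the inverse -/

lemma mp_mul (hM : M ∈ St) : MeasurePreserving (mul M) mu mu := by
  rw [mul_eq_rot hM]
  exact mp_rot _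

/-- **Invariance under the inverse.** -/
theorem mp_inv : MeasurePreserving inv mu mu := by
  refine ⟨continuous_inv.measurable, ?_⟩
  refine Measure.ext fun A hA => ?_
  let F : Fr → ENNReal := A.indicator 1
  have hF : Measurable F := measurable_one.indicator hA
  have hI : ∫⁻ N, F N ∂mu = mu A := lintegral_indicator_one hA
  have hI' : ∫⁻ M, F (inv M) ∂mu = mu.map inv A := by
    rw [← lintegral_map hF continuous_inv.measurable]
    exact lintegral_indicator_one hA
  have hmeas : Measurable fun p : Fr × Fr => F (mul (inv p.1) p.2) :=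
    hF.comp (continuous_mul.comp ((continuous_inv.comp continuous_fst).prodMk
      continuous_snd)).measurable
  -- the first iterated integral
  have h1 : ∫⁻ M, ∫⁻ N, F (mul (inv M) N) ∂mu ∂mu = mu A := by
    have h2 : ∀ᵐ M ∂mu, ∫⁻ N, F (mul (inv M) N) ∂mu = mu A := by
      filter_upwards [ae_mem] with M hM
      rw [(mp_mul (inv_mem hM)).lintegral_comp hF, hI]
    rw [lintegral_congr_ae h2, lintegral_const, measure_univ, mul_one]
  -- the second iterated integral
  have h3 : ∫⁻ N, ∫⁻ M, F (mul (inv M) N) ∂mu ∂mu = mu.map inv A := by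
    have h2 : ∀ᵐ N ∂mu, ∫⁻ M, F (mul (inv M) N) ∂mu = mu.map inv A := by
      filter_upwards [ae_mem] with N hN
      have h4 : ∀ᵐ M ∂mu, F (mul (inv M) N) = F (inv (mul (inv N) M)) := by
        filter_upwards [ae_mem] with M hM
        rw [inv_mul hM hN]
      rw [lintegral_congr_ae h4,
        (mp_mul (inv_mem hN)).lintegral_comp (f := fun M => F (inv M))
          (hF.comp continuous_inv.measurable), hI']
    rw [lintegral_congr_ae h2, lintegral_const, measure_univ, mul_one]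
  rw [← h3, ← lintegral_lintegral_swap (f := fun M N => F (mul (inv M) N)) hmeas.aemeasurable, h1]

/-- **Right invariance.** -/
theorem mp_mul_right (hN : N ∈ St) : MeasurePreserving (fun M => mul M N) mu mu := by
  have h1 : MeasurePreserving (fun M => inv (mul (inv N) (inv M))) mu mu :=
    mp_inv.comp ((mp_mul (inv_mem hN)).comp mp_inv)
  have hm : Measurable fun M => mul M N :=
    (continuous_mul.comp (continuous_id.prodMk continuous_const)).measurable
  refine ⟨hm, Eq.trans (Measure.map_congr ?_) h1.map_eq⟩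
  filter_upwards [ae_mem] with M hM
  exact mul_eq hM hN

lemma trig_mem1 (s : ℝ) : ((pt (Real.cos s) (Real.sin s) 0, pt (-Real.sin s) (Real.cos s) 0) : Fr) ∈
    St := by
  have hcs := Real.sin_sq_add_cos_sq s
  refine ⟨?_, ?_, ?_⟩
  · have h : ‖pt (Real.cos s) (Real.sin s) 0‖ ^ 2 = 1 ^ 2 := by
      rw [norm_sq_eq, pt_zero, pt_one, pt_two]
      linear_combination hcs
    exact (sq_eq_sq₀ (norm_nonneg _) zero_le_one).1 h
  · have h : ‖pt (-Real.sin s) (Real.cos s) 0‖ ^ 2 = 1 ^ 2 := by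
      rw [norm_sq_eq, pt_zero, pt_one, pt_two]
      linear_combination hcs
    exact (sq_eq_sq₀ (norm_nonneg _) zero_le_one).1 h
  · show ⟪pt (Real.cos s) (Real.sin s) 0, pt (-Real.sin s) (Real.cos s) 0⟫ = 0
    rw [inner_eq, pt_zero, pt_one, pt_two, pt_zero, pt_one, pt_two]
    ring

lemma trig_mem2 (s : ℝ) : ((pt (Real.cos s) 0 (Real.sin s), pt 0 1 0) : Fr) ∈ St := by
  have hcs := Real.sin_sq_add_cos_sq s
  refine ⟨?_, ?_, ?_⟩
  · have h : ‖pt (Real.cos s) 0 (Real.sin s)‖ ^ 2 = 1 ^ 2 := by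
      rw [norm_sq_eq, pt_zero, pt_one, pt_two]
      linear_combination hcs
    exact (sq_eq_sq₀ (norm_nonneg _) zero_le_one).1 h
  · have h : ‖pt 0 1 0‖ ^ 2 = 1 ^ 2 := by
      rw [norm_sq_eq, pt_zero, pt_one, pt_two]
      norm_num
    exact (sq_eq_sq₀ (norm_nonneg _) zero_le_one).1 h
  · show ⟪pt (Real.cos s) 0 (Real.sin s), pt 0 1 0⟫ = 0
    rw [inner_eq, pt_zero, pt_one, pt_two, pt_zero, pt_one, pt_two]
    ring

lemma mul_trig1 (s : ℝ) (M : Fr) :
    mul M (pt (Real.cos s) (Real.sin s) 0, pt (-Real.sin s) (Real.cos s) 0) = rot1 s M := by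
  refine Prod.ext ?_ ?_
  · show Real.cos s • M.1 + Real.sin s • M.2 + (0 : ℝ) • bb M = Real.cos s • M.1 + Real.sin s • M.2
    rw [zero_smul, add_zero]
  · show (-Real.sin s) • M.1 + Real.cos s • M.2 + (0 : ℝ) • bb M =
      -(Real.sin s • M.1) + Real.cos s • M.2
    rw [zero_smul, add_zero, neg_smul]

lemma mul_trig2 (s : ℝ) (M : Fr) :
    mul M (pt (Real.cos s) 0 (Real.sin s), pt 0 1 0) = rot2 s M := by
  refine Prod.ext ?_ ?_
  · show Real.cos s • M.1 + (0 : ℝ) • M.2 + Real.sin s • bb M = Real.cos s • M.1 + Real.sin s • bb M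
    rw [zero_smul, add_zero]
  · show (0 : ℝ) • M.1 + (1 : ℝ) • M.2 + (0 : ℝ) • bb M = M.2
    rw [zero_smul, zero_smul, one_smul, zero_add, add_zero]

theorem mp_r1 (s : ℝ) : MeasurePreserving (rot1 s) mu mu := by
  have h := mp_mul_right (trig_mem1 s)
  have h1 : (fun M => mul M (pt (Real.cos s) (Real.sin s) 0, pt (-Real.sin s) (Real.cos s) 0)) =
      rot1 s := funext fun M => mul_trig1 s M
  rwa [h1] at h

theorem mp_r2 (s : ℝ) : MeasurePreserving (rot2 s) mu mu := by
  have h := mp_mul_right (trig_mem2 s)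
  have h1 : (fun M => mul M (pt (Real.cos s) 0 (Real.sin s), pt 0 1 0)) = rot2 s :=
    funext fun M => mul_trig2 s M
  rwa [h1] at h

lemma rot1_mem (s : ℝ) (hM : M ∈ St) : rot1 s M ∈ St := by
  rw [← mul_trig1]
  exact mul_mem hM (trig_mem1 s)

lemma rot2_mem (s : ℝ) (hM : M ∈ St) : rot2 s M ∈ St := by
  rw [← mul_trig2]
  exact mul_mem hM (trig_mem2 s)

/-- the third vector after the rotation `rot2` -/
lemma bb_rot2 (s : ℝ) (hM : M ∈ St) :
    bb (rot2 s M) = Real.cos s • bb M - Real.sin s • M.1 := by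
  rw [← mul_trig2, bb_mul hM]
  have h1 : bb ((pt (Real.cos s) 0 (Real.sin s), pt 0 1 0) : Fr) =
      pt (-Real.sin s) 0 (Real.cos s) := by
    refine ext3 ?_ ?_ ?_
    · rw [bb, cr_0]
      simp
    · rw [bb, cr_1]
      simp
    · rw [bb, cr_2]
      simp
  rw [h1]
  show (-Real.sin s) • M.1 + (0 : ℝ) • M.2 + Real.cos s • bb M = _
  rw [zero_smul, add_zero, neg_smul]
  abel

/-! ### The derivatives -/

/-- the integral of the derivative along a group of measure preserving maps vanishes -/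
theorem integral_deriv {rt : ℝ → Fr → Fr} {V : Fr → Fr}
    (hmp : ∀ s, MeasurePreserving (rt s) mu mu) (hmem : ∀ s, ∀ M ∈ St, rt s M ∈ St)
    (hc : ∀ s, Continuous (rt s)) (hV : Continuous V) (h0 : ∀ M, rt 0 M = M)
    (hd : ∀ s, ∀ M ∈ St, HasDerivAt (fun s => rt s M) (V (rt s M)) s)
    {F : Fr → ℝ} (hF : ∀ M ∈ St, ContDiffAt ℝ 1 F M) :
    ∫ M, fderiv ℝ F M (V M) ∂mu = 0 := by
  have hFc : ContinuousOn F St := fun M hM => (hF M hM).continuousAt.continuousWithinAt
  have hFd : ContinuousOn (fderiv ℝ F) St := fun M hM =>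
    ((hF M hM).fderiv_right (m := 0) (by norm_num)).continuousAt.continuousWithinAt
  have hL : ContinuousOn (fun M => fderiv ℝ F M (V M)) St := hFd.clm_apply hV.continuousOn
  obtain ⟨C, hC⟩ := isCompact_St.exists_bound_of_continuousOn hL
  have h := (hasDerivAt_integral_of_dominated_loc_of_deriv_le (μ := mu) (bound := fun _ => C)
    (F := fun s M => F (rt s M)) (F' := fun s M => fderiv ℝ F (rt s M) (V (rt s M)))
    (x₀ := 0) (ball_mem_nhds 0 one_pos)
    (Filter.Eventually.of_forall fun s =>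
      aesm_of ae_mem (hFc.comp (hc s).continuousOn fun M hM => hmem s M hM))
    (integrable_of ae_mem (hFc.comp (hc 0).continuousOn fun M hM => hmem 0 M hM))
    (aesm_of ae_mem (hL.comp (hc 0).continuousOn fun M hM => hmem 0 M hM))
    (ae_mem.mono fun M hM s _ => hC _ (hmem s M hM))
    (integrable_const C) (ae_mem.mono fun M hM s _ =>
      ((hF _ (hmem s M hM)).differentiableAt (by norm_num)).hasFDerivAt.comp_hasDerivAt s
        (hd s M hM))).2
  have h1 : (fun s => ∫ M, F (rt s M) ∂mu) = fun _ => ∫ M, F M ∂mu := by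
    funext s
    have h2 := integral_map (μ := mu) (hmp s).measurable.aemeasurable (f := F)
      (by rw [(hmp s).map_eq]; exact aesm_of ae_mem hFc)
    rw [(hmp s).map_eq] at h2
    exact h2.symm
  rw [h1] at h
  have h2 := h.unique (hasDerivAt_const 0 _)
  rw [← h2]
  refine integral_congr_ae (Filter.Eventually.of_forall fun M => ?_)
  show fderiv ℝ F M (V M) = fderiv ℝ F (rt 0 M) (V (rt 0 M))
  rw [h0 M]

lemma hasDerivAt_rot1 (s : ℝ) (M : Fr) :
    HasDerivAt (fun s => rot1 s M) ((rot1 s M).2, -(rot1 s M).1) s := by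
  have hc := (Real.hasDerivAt_cos s)
  have hs := (Real.hasDerivAt_sin s)
  have h1 : HasDerivAt (fun s => Real.cos s • M.1 + Real.sin s • M.2)
      (-(Real.sin s • M.1) + Real.cos s • M.2) s := by
    refine ((hc.smul_const M.1).add (hs.smul_const M.2)).congr_deriv ?_
    rw [neg_smul]
  have h2 : HasDerivAt (fun s => -(Real.sin s • M.1) + Real.cos s • M.2)
      (-(Real.cos s • M.1 + Real.sin s • M.2)) s := by
    refine ((hs.smul_const M.1).neg.add (hc.smul_const M.2)).congr_deriv ?_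
    rw [neg_smul, neg_add]
  exact h1.prodMk h2

lemma hasDerivAt_rot2 (s : ℝ) (hM : M ∈ St) :
    HasDerivAt (fun s => rot2 s M) (bb (rot2 s M), 0) s := by
  have hc := (Real.hasDerivAt_cos s)
  have hs := (Real.hasDerivAt_sin s)
  have h1 : HasDerivAt (fun s => Real.cos s • M.1 + Real.sin s • bb M) (bb (rot2 s M)) s := by
    refine ((hc.smul_const M.1).add (hs.smul_const (bb M))).congr_deriv ?_
    rw [bb_rot2 s hM, neg_smul]
    abel
  exact h1.prodMk (hasDerivAt_const s M.2)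

lemma continuous_rot1 (s : ℝ) : Continuous (rot1 s) := by
  unfold rot1
  fun_prop

lemma continuous_rot2 (s : ℝ) : Continuous (rot2 s) := by
  have h := continuous_bb
  unfold rot2
  exact ((continuous_fst.const_smul (Real.cos s)).add (h.const_smul (Real.sin s))).prodMk
    continuous_snd

theorem l1 {F : Fr → ℝ} (hF : ∀ M ∈ St, ContDiffAt ℝ 1 F M) :
    ∫ M, fderiv ℝ F M (M.2, -M.1) ∂mu = 0 :=
  integral_deriv (rt := rot1) (V := fun M => (M.2, -M.1)) mp_r1 (fun s _ hM => rot1_mem s hM)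
    continuous_rot1 (by fun_prop)
    (fun M => by
      show (Real.cos 0 • M.1 + Real.sin 0 • M.2, -(Real.sin 0 • M.1) + Real.cos 0 • M.2) = M
      rw [Real.cos_zero, Real.sin_zero, one_smul, one_smul, zero_smul, zero_smul, add_zero,
        neg_zero, zero_add])
    (fun s M _ => hasDerivAt_rot1 s M) hF

theorem l2 {F : Fr → ℝ} (hF : ∀ M ∈ St, ContDiffAt ℝ 1 F M) :
    ∫ M, fderiv ℝ F M (bb M, 0) ∂mu = 0 :=
  integral_deriv (rt := rot2) (V := fun M => (bb M, 0)) mp_r2 (fun s _ hM => rot2_mem s hM)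
    continuous_rot2 (continuous_bb.prodMk continuous_const)
    (fun M => by
      show (Real.cos 0 • M.1 + Real.sin 0 • bb M, M.2) = M
      rw [Real.cos_zero, Real.sin_zero, one_smul, zero_smul, add_zero])
    (fun s _ hM => hasDerivAt_rot2 s hM) hF

/-! ### The null set -/

/-- the third row of a frame is a unit vector -/
lemma row_sq (hM : M ∈ St) : M.1 2 ^ 2 + M.2 2 ^ 2 + bb M 2 ^ 2 = 1 := by
  have h := inner_bb_bb (inv_mem hM)
  rw [bb_inv hM, inner_eq, pt_zero, pt_one, pt_two] at h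
  linear_combination h

theorem null : mu {M | bb M 2 = -1} = 0 := by
  have h1 : ∀ᵐ M ∂mu, M.1 2 ≠ 0 := measure_eq_zero_iff_ae_notMem.1 null_fst
  have h2 : ∀ᵐ M ∂mu, ¬ bb M 2 = -1 := by
    filter_upwards [h1, ae_mem] with M h hM hb
    have h3 := row_sq hM
    rw [hb] at h3
    exact h (by nlinarith [sq_nonneg (M.1 2), sq_nonneg (M.2 2)])
  exact measure_eq_zero_iff_ae_notMem.2 h2

end Pool.Agent.P85.R3

namespace Pool.Agent.P85

open R3

/-- **The invariant measure on the frames.** -/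
theorem exists_inv : ∃ μ : Measure Fr, Inv μ :=
  ⟨mu, { prob := inferInstance
         st := ae_mem
         s1 := mp_s1
         s2 := mp_s2
         r1 := mp_r1
         r2 := mp_r2
         l1 := fun _ hF => R3.l1 hF
         l2 := fun _ hF => R3.l2 hF
         null := R3.null
         pos := fun _ hF h0 hi _ hM => R3.pos hF h0 hi hM }⟩

/-- a function which is continuous on the frames is integrable -/
theorem Inv.integrable {μ : Measure Fr} (hμ : Inv μ) {F : Fr → ℝ} (hF : ContinuousOn F St) :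
    Integrable F μ := by
  have := hμ.prob
  exact integrable_of hμ.st hF

end Pool.Agent.P85
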