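import Mathlib

/-!
Row R9 (abstract part) of Theorem P: a `C^1` flow, all of whose orbits in an invariant set `W` are periodic, with a
function `z` which satisfies `z'' = - g` along the flow, `g` of the sign of `z`, and has only simple zeros.  The page is
`{x ∈ W | z x = 0 ∧ 0 < y x}` (`y = z'`).  First return time and first return map are `C^1` in the sense needed.
-/

namespace Pool.Agent.P85.R9

open Set Filter Topology

variable {E : Type*} [NormedAddCommGroup E] [NormedSpace ℝ E]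

/-- implicit function theorem for one real unknown -/
theorem ift [CompleteSpace E] {F : ℝ × E → ℝ} {t0 : ℝ} {x0 : E} (hF : ContDiffAt ℝ 1 F (t0, x0))
    {a : ℝ} (ha : HasDerivAt (fun t => F (t, x0)) a t0) (ha0 : a ≠ 0) (h0 : F (t0, x0) = 0) :
    ∃ s : E → ℝ, ContDiffAt ℝ 1 s x0 ∧ s x0 = t0 ∧ (∀ᶠ x in 𝓝 x0, F (s x, x) = 0) ∧
      ∀ᶠ p : ℝ × E in 𝓝 (t0, x0), F p = 0 → p.1 = s p.2 := by
  have hd : DifferentiableAt ℝ F (t0, x0) := hF.differentiableAt one_ne_zero
  set L : ℝ × E →L[ℝ] ℝ := fderiv ℝ F (t0, x0) with hL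
  have hL0 : L (1, 0) = a := by
    have h1 : HasDerivAt (fun t : ℝ => ((t, x0) : ℝ × E)) (1, 0) t0 :=
      (hasDerivAt_id t0).prodMk (hasDerivAt_const t0 x0)
    have h2 : HasDerivAt (fun t => F (t, x0)) (L (1, 0)) t0 := hd.hasFDerivAt.comp_hasDerivAt t0 h1
    exact h2.unique ha
  have hsplit : ∀ p : ℝ × E, L p = a * p.1 + L (0, p.2) := by
    intro p
    have : p = p.1 • ((1, 0) : ℝ × E) + (0, p.2) := by
      ext <;> simp
    rw [this, map_add, map_smul, hL0]
    simp [mul_comm]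
  let A : (ℝ × E) ≃L[ℝ] (ℝ × E) :=
    ContinuousLinearEquiv.equivOfInverse
      (L.prod (ContinuousLinearMap.snd ℝ ℝ E))
      ((a⁻¹ • (ContinuousLinearMap.fst ℝ ℝ E - L.comp
        ((0 : ℝ × E →L[ℝ] ℝ).prod (ContinuousLinearMap.snd ℝ ℝ E)))).prod
          (ContinuousLinearMap.snd ℝ ℝ E))
      (by
        intro p
        ext
        · simp [hsplit p]
          field_simp
        · simp)
      (by
        intro p
        ext
        · simp only [ContinuousLinearMap.prod_apply, ContinuousLinearMap.coe_snd']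
          rw [hsplit]
          simp
          field_simp
          ring
        · simp)
  let Ψ : ℝ × E → ℝ × E := fun p => (F p, p.2)
  have hΨ : ContDiffAt ℝ 1 Ψ (t0, x0) := hF.prodMk contDiffAt_snd
  have hΨ' : HasFDerivAt Ψ (A : (ℝ × E) →L[ℝ] (ℝ × E)) (t0, x0) := by
    have h1 : HasFDerivAt Ψ (L.prod (ContinuousLinearMap.snd ℝ ℝ E)) (t0, x0) :=
      hd.hasFDerivAt.prodMk hasFDerivAt_snd
    exact h1
  let H := hΨ.toOpenPartialHomeomorph Ψ hΨ' (by norm_num)
  have hHf : ∀ p, H p = Ψ p := fun p => rfl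
  have hmem : ((t0, x0) : ℝ × E) ∈ H.source := hΨ.mem_toOpenPartialHomeomorph_source hΨ' (by norm_num)
  have hinv : ContDiffAt ℝ 1 H.symm (Ψ (t0, x0)) := hΨ.to_localInverse hΨ' (by norm_num)
  have hΨ0 : Ψ (t0, x0) = (0, x0) := by simp [Ψ, h0]
  rw [hΨ0] at hinv
  have hsym0 : H.symm (0, x0) = (t0, x0) := by
    rw [← hΨ0, ← hHf]; exact H.left_inv hmem
  refine ⟨fun x => (H.symm (0, x)).1, ?_, ?_, ?_, ?_⟩
  · have h2 : ContDiffAt ℝ 1 (fun x : E => ((0 : ℝ), x)) x0 := by fun_prop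
    exact contDiffAt_fst.comp x0 (hinv.comp x0 h2)
  · simp [hsym0]
  · have htar : ((0 : ℝ), x0) ∈ H.target := by
      rw [← hΨ0, ← hHf]; exact H.map_source hmem
    have hev : ∀ᶠ x in 𝓝 x0, ((0 : ℝ), x) ∈ H.target := by
      have hc : Continuous (fun x : E => ((0 : ℝ), x)) := by fun_prop
      exact hc.continuousAt.eventually (H.open_target.mem_nhds htar)
    filter_upwards [hev] with x hx
    have h3 : Ψ (H.symm (0, x)) = (0, x) := by
      rw [← hHf]; exact H.right_inv hx
    have h4 : (H.symm (0, x)).2 = x := congrArg Prod.snd h3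
    have h5 : F (H.symm (0, x)) = 0 := congrArg Prod.fst h3
    have h6 : H.symm (0, x) = ((H.symm (0, x)).1, x) := by
      ext
      · rfl
      · exact h4
    rw [← h6]
    exact h5
  · filter_upwards [H.open_source.mem_nhds hmem] with p hp hp0
    have h3 : H.symm (Ψ p) = p := by
      rw [← hHf]; exact H.left_inv hp
    have h4 : Ψ p = (0, p.2) := by simp [Ψ, hp0]
    rw [h4] at h3
    rw [h3]

/-- flow with a section function -/
structure Sec (φ : ℝ → E → E) (z y g : E → ℝ) (W : Set E) : Prop where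
  cd : ContDiff ℝ 1 (fun p : ℝ × E => φ p.1 p.2)
  zero : ∀ x, φ 0 x = x
  add : ∀ s t x, φ (s + t) x = φ s (φ t x)
  inv : ∀ t, ∀ x ∈ W, φ t x ∈ W
  cz : ∀ x ∈ W, ContDiffAt ℝ 1 z x
  cy : Continuous y
  dz : ∀ t, ∀ x ∈ W, HasDerivAt (fun s => z (φ s x)) (y (φ t x)) t
  dy : ∀ t, ∀ x ∈ W, HasDerivAt (fun s => y (φ s x)) (-(g (φ t x))) t
  pos : ∀ x ∈ W, 0 < z x → 0 < g x
  neg : ∀ x ∈ W, z x < 0 → g x < 0
  simple : ∀ x ∈ W, z x = 0 → y x ≠ 0
  per : ∀ x ∈ W, ∃ T, 0 < T ∧ φ T x = x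

/-- the page -/
def Pg (z y : E → ℝ) (W : Set E) : Set E := {x | x ∈ W ∧ z x = 0 ∧ 0 < y x}

namespace Sec

variable {φ : ℝ → E → E} {z y g : E → ℝ} {W : Set E}

theorem rev (h : Sec φ z y g W) : Sec (fun t => φ (-t)) (fun x => - z x) y (fun x => - g x) W where
  cd := by
    have h1 : ContDiff ℝ 1 (fun p : ℝ × E => ((-p.1, p.2) : ℝ × E)) := by fun_prop
    exact h.cd.comp h1
  zero x := by simp [h.zero]
  add s t x := by rw [neg_add, h.add]
  inv t x hx := h.inv _ x hx
  cz x hx := (h.cz x hx).neg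
  cy := h.cy
  dz t x hx := by
    have h1 : HasDerivAt (fun s => z (φ s x)) (y (φ (-t) x)) (-t) := h.dz (-t) x hx
    have h2 : HasDerivAt (fun s : ℝ => -s) (-1) t := hasDerivAt_neg t
    have h3 : HasDerivAt (fun s => z (φ (-s) x)) (y (φ (-t) x) * (-1)) t :=
      HasDerivAt.comp (h₂ := fun s => z (φ s x)) (h := fun s : ℝ => -s) t h1 h2
    have h4 := h3.fun_neg
    exact h4.congr_deriv (by ring)
  dy t x hx := by
    have h1 : HasDerivAt (fun s => y (φ s x)) (-(g (φ (-t) x))) (-t) :=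
      h.dy (-t) x hx
    have h2 : HasDerivAt (fun s : ℝ => -s) (-1) t := hasDerivAt_neg t
    have h3 : HasDerivAt (fun s => y (φ (-s) x)) (-(g (φ (-t) x)) * (-1)) t :=
      HasDerivAt.comp (h₂ := fun s => y (φ s x)) (h := fun s : ℝ => -s) t h1 h2
    exact h3.congr_deriv (by ring)
  pos x hx hz := by
    have := h.neg x hx (by linarith)
    linarith
  neg x hx hz := by
    have := h.pos x hx (by linarith)
    linarith
  simple x hx hz := h.simple x hx (by simpa using hz)
  per x hx := by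
    obtain ⟨T, hT, hTx⟩ := h.per x hx
    refine ⟨T, hT, ?_⟩
    have := h.add (-T) T x
    rw [neg_add_cancel, h.zero, hTx] at this
    exact this.symm

omit [NormedAddCommGroup E] [NormedSpace ℝ E] in
theorem pg_rev : Pg (fun x => - z x) y W = Pg z y W := by
  ext x; simp [Pg]

theorem cont (h : Sec φ z y g W) (x : E) : Continuous (fun t => φ t x) := by
  have : Continuous (fun t : ℝ => ((t, x) : ℝ × E)) := by fun_prop
  exact h.cd.continuous.comp this

theorem contz (h : Sec φ z y g W) {x : E} (hx : x ∈ W) : Continuous (fun t => z (φ t x)) :=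
  continuous_iff_continuousAt.2 fun t => (h.dz t x hx).continuousAt

theorem add_period (h : Sec φ z y g W) {x : E} {T : ℝ} (hT : φ T x = x) (n : ℕ) (t : ℝ) :
    φ (t + n * T) x = φ t x := by
  induction n with
  | zero => simp
  | succ n ih =>
    have : t + ((n + 1 : ℕ) : ℝ) * T = (t + n * T) + T := by push_cast; ring
    rw [this, h.add, hT, ih]

/-- every orbit meets the page -/
theorem meets (h : Sec φ z y g W) {x : E} (hx : x ∈ W) : ∃ t, 0 < t ∧ φ t x ∈ Pg z y W := by
  obtain ⟨T, hT, hTx⟩ := h.per x hx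
  have hcz : Continuous (fun t => z (φ t x)) := h.contz hx
  have hcy : Continuous (fun t => y (φ t x)) := h.cy.comp (h.cont x)
  have hdz : ∀ t, HasDerivAt (fun s => z (φ s x)) (y (φ t x)) t := fun t => h.dz t x hx
  have hdy : ∀ t, HasDerivAt (fun s => y (φ s x)) (-(g (φ t x))) t :=
    fun t => h.dy t x hx
  -- there is a zero
  have hzero : ∃ t, z (φ t x) = 0 := by
    by_contra hno
    push Not at hno
    have hsign : (∀ t, 0 < z (φ t x)) ∨ (∀ t, z (φ t x) < 0) := by
      rcases lt_or_gt_of_ne (hno 0) with h0 | h0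
      · right
        intro t
        by_contra hc
        push Not at hc
        obtain ⟨s, hs⟩ := mem_range_of_exists_le_of_exists_ge hcz ⟨0, h0.le⟩ ⟨t, hc⟩
        exact hno s hs
      · left
        intro t
        by_contra hc
        push Not at hc
        obtain ⟨s, hs⟩ := mem_range_of_exists_le_of_exists_ge hcz ⟨t, hc⟩ ⟨0, h0.le⟩
        exact hno s hs
    have hper : y (φ T x) = y (φ 0 x) := by rw [hTx, h.zero]
    rcases hsign with hs | hs
    · have hanti : StrictAntiOn (fun t => y (φ t x)) (Icc 0 T) := by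
        apply strictAntiOn_of_deriv_neg (convex_Icc 0 T) hcy.continuousOn
        intro t _
        rw [(hdy t).deriv]
        have := h.pos _ (h.inv t x hx) (hs t)
        linarith
      have := hanti (left_mem_Icc.2 hT.le) (right_mem_Icc.2 hT.le) hT
      simp only [] at this
      rw [hper] at this
      exact lt_irrefl _ this
    · have hmono : StrictMonoOn (fun t => y (φ t x)) (Icc 0 T) := by
        apply strictMonoOn_of_deriv_pos (convex_Icc 0 T) hcy.continuousOn
        intro t _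
        rw [(hdy t).deriv]
        have := h.neg _ (h.inv t x hx) (hs t)
        linarith
      have := hmono (left_mem_Icc.2 hT.le) (right_mem_Icc.2 hT.le) hT
      simp only [] at this
      rw [hper] at this
      exact lt_irrefl _ this
  obtain ⟨t0, ht0⟩ := hzero
  -- first case: positive derivative
  have key : ∀ s, z (φ s x) = 0 → 0 < y (φ s x) → ∃ t, 0 < t ∧ φ t x ∈ Pg z y W := by
    intro s hs hys
    obtain ⟨n, hn⟩ := exists_nat_gt (-s / T)
    refine ⟨s + n * T, ?_, ?_⟩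
    · rw [div_lt_iff₀ hT] at hn
      linarith
    · rw [h.add_period hTx]
      exact ⟨h.inv s x hx, hs, hys⟩
  rcases lt_or_gt_of_ne (h.simple _ (h.inv t0 x hx) ht0) with hneg | hpos
  · -- z is negative just after t0 and positive just before t0 + T
    have hd0 := hdz t0
    have hev : ∀ᶠ t in 𝓝[>] t0, z (φ t x) < 0 := by
      have h1 := hd0.tendsto_slope
      have h2 : ∀ᶠ t in 𝓝[≠] t0, slope (fun s => z (φ s x)) t0 t < 0 :=
        h1.eventually (gt_mem_nhds hneg)
      have h3 : ∀ᶠ t in 𝓝[>] t0, slope (fun s => z (φ s x)) t0 t < 0 :=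
        h2.filter_mono (nhdsWithin_mono _ (fun t ht => ne_of_gt ht))
      filter_upwards [h3, self_mem_nhdsWithin] with t ht htt
      rw [slope_def_field, ht0, sub_zero] at ht
      have : 0 < t - t0 := sub_pos.2 htt
      exact (div_neg_iff.1 ht).elim (fun h => absurd h.2 (not_lt.2 this.le)) (fun h => h.1)
    have hev2 : ∀ᶠ t in 𝓝[<] (t0 + T), 0 < z (φ t x) := by
      have hz' : z (φ (t0 + T) x) = 0 := by
        have := h.add_period hTx 1 t0
        simp only [Nat.cast_one, one_mul] at this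
        rw [this, ht0]
      have hy' : y (φ (t0 + T) x) < 0 := by
        have := h.add_period hTx 1 t0
        simp only [Nat.cast_one, one_mul] at this
        rw [this]; exact hneg
      have h1 := (hdz (t0 + T)).tendsto_slope
      have h2 : ∀ᶠ t in 𝓝[≠] (t0 + T), slope (fun s => z (φ s x)) (t0 + T) t < 0 :=
        h1.eventually (gt_mem_nhds hy')
      have h3 : ∀ᶠ t in 𝓝[<] (t0 + T), slope (fun s => z (φ s x)) (t0 + T) t < 0 :=
        h2.filter_mono (nhdsWithin_mono _ (fun t ht => ne_of_lt ht))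
      filter_upwards [h3, self_mem_nhdsWithin] with t ht htt
      rw [slope_def_field, hz', sub_zero] at ht
      have : t - (t0 + T) < 0 := sub_neg.2 htt
      exact (div_neg_iff.1 ht).elim (fun h => h.1) (fun h => absurd h.2 (not_lt.2 this.le))
    obtain ⟨a, ha, haz⟩ : ∃ a, a ∈ Ioo t0 (t0 + T / 2) ∧ z (φ a x) < 0 := by
      have h1 : Ioo t0 (t0 + T / 2) ∈ 𝓝[>] t0 := Ioo_mem_nhdsGT (by linarith)
      obtain ⟨a, h2, h3⟩ := (hev.and h1).exists
      exact ⟨a, h3, h2⟩
    obtain ⟨b, hb, hbz⟩ : ∃ b, b ∈ Ioo (t0 + T / 2) (t0 + T) ∧ 0 < z (φ b x) := by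
      have h1 : Ioo (t0 + T / 2) (t0 + T) ∈ 𝓝[<] (t0 + T) := Ioo_mem_nhdsLT (by linarith)
      obtain ⟨b, h2, h3⟩ := (hev2.and h1).exists
      exact ⟨b, h3, h2⟩
    have hab : a < b := ha.2.trans hb.1
    -- last point before b where z <= 0
    let S : Set ℝ := Icc a b ∩ {t | z (φ t x) ≤ 0}
    have hSc : IsCompact S := isCompact_Icc.inter_right (isClosed_le hcz continuous_const)
    have hSne : S.Nonempty := ⟨a, left_mem_Icc.2 hab.le, haz.le⟩
    have hc := hSc.sSup_mem hSne
    set c := sSup S with hcdef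
    have hcb : c < b := lt_of_le_of_ne hc.1.2 (fun he => by
      have := hc.2
      rw [he] at this
      exact absurd hbz (not_lt.2 this))
    have hafter : ∀ t, c < t → t ≤ b → 0 < z (φ t x) := by
      intro t hct htb
      by_contra hno
      have : t ∈ S := ⟨⟨hc.1.1.trans hct.le, htb⟩, not_lt.1 hno⟩
      exact absurd (le_csSup hSc.bddAbove this) (not_le.2 hct)
    have hcz0 : z (φ c x) = 0 := by
      apply le_antisymm hc.2
      have h1 : Tendsto (fun t => z (φ t x)) (𝓝[>] c) (𝓝 (z (φ c x))) :=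
        hcz.continuousAt.mono_left nhdsWithin_le_nhds
      refine ge_of_tendsto h1 ?_
      filter_upwards [Ioc_mem_nhdsGT hcb] with t ht
      exact (hafter t ht.1 ht.2).le
    have hy0 : 0 ≤ y (φ c x) := by
      have h1 := (hdz c).tendsto_slope
      have h2 : Tendsto (slope (fun s => z (φ s x)) c) (𝓝[>] c) (𝓝 (y (φ c x))) :=
        h1.mono_left (nhdsWithin_mono _ (fun t ht => ne_of_gt ht))
      refine ge_of_tendsto h2 ?_
      filter_upwards [Ioc_mem_nhdsGT hcb] with t ht
      rw [slope_def_field, hcz0, sub_zero]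
      exact div_nonneg (hafter t ht.1 ht.2).le (sub_nonneg.2 ht.1.le)
    exact key c hcz0 (lt_of_le_of_ne hy0 (Ne.symm (h.simple _ (h.inv c x hx) hcz0)))
  · exact key t0 ht0 hpos

/-- first return time -/
noncomputable def ret (φ : ℝ → E → E) (z y : E → ℝ) (W : Set E) (x : E) : ℝ :=
  sInf {t | 0 < t ∧ φ t x ∈ Pg z y W}

theorem ne_near (h : Sec φ z y g W) {x : E} (hx : x ∈ W) {t : ℝ} (ht : z (φ t x) = 0) :
    ∀ᶠ s in 𝓝[≠] t, z (φ s x) ≠ 0 :=
  (h.dz t x hx).eventually_ne (h.simple _ (h.inv t x hx) ht)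

theorem ret_spec (h : Sec φ z y g W) {x : E} (hx : x ∈ Pg z y W) :
    0 < ret φ z y W x ∧ φ (ret φ z y W x) x ∈ Pg z y W ∧
      ∀ t, 0 < t → φ t x ∈ Pg z y W → ret φ z y W x ≤ t := by
  set R : Set ℝ := {t | 0 < t ∧ φ t x ∈ Pg z y W} with hR
  have hne : R.Nonempty := by
    obtain ⟨t, ht, htp⟩ := h.meets hx.1
    exact ⟨t, ht, htp⟩
  have hbdd : BddBelow R := ⟨0, fun t ht => ht.1.le⟩
  have hcl : sInf R ∈ closure R := csInf_mem_closure hne hbdd
  have hcz : Continuous (fun t => z (φ t x)) := h.contz hx.1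
  have hz0 : z (φ (sInf R) x) = 0 := by
    have : closure R ⊆ {t | z (φ t x) = 0} :=
      closure_minimal (fun t ht => ht.2.2.1) (isClosed_eq hcz continuous_const)
    exact this hcl
  have hmem : sInf R ∈ R := by
    by_contra hno
    have h1 := h.ne_near hx.1 hz0
    rw [eventually_nhdsWithin_iff] at h1
    rw [mem_closure_iff_frequently] at hcl
    obtain ⟨t, ht, ht2⟩ := (hcl.and_eventually h1).exists
    have : t ≠ sInf R := fun he => hno (he ▸ ht)
    exact ht2 this ht.2.2.1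
  exact ⟨hmem.1, hmem.2, fun t ht htp => csInf_le hbdd ⟨ht, htp⟩⟩

theorem ret_pos (h : Sec φ z y g W) {x : E} (hx : x ∈ Pg z y W) : 0 < ret φ z y W x :=
  (h.ret_spec hx).1

theorem ret_mem (h : Sec φ z y g W) {x : E} (hx : x ∈ Pg z y W) :
    φ (ret φ z y W x) x ∈ Pg z y W :=
  (h.ret_spec hx).2.1

theorem ret_le (h : Sec φ z y g W) {x : E} (hx : x ∈ Pg z y W) {t : ℝ} (ht : 0 < t)
    (htp : φ t x ∈ Pg z y W) : ret φ z y W x ≤ t :=
  (h.ret_spec hx).2.2 t ht htp

/-- the return time is locally a `C^1` function -/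
theorem ret_local [CompleteSpace E] (h : Sec φ z y g W) {x0 : E} (hx0 : x0 ∈ Pg z y W) :
    ∃ s : E → ℝ, ContDiffAt ℝ 1 s x0 ∧ ∀ᶠ x in 𝓝 x0, x ∈ Pg z y W → ret φ z y W x = s x := by
  set τ := ret φ z y W x0 with hτ
  have hτ0 : 0 < τ := h.ret_pos hx0
  have hτm : φ τ x0 ∈ Pg z y W := h.ret_mem hx0
  let F : ℝ × E → ℝ := fun p => z (φ p.1 p.2)
  have hF : ∀ t, ContDiffAt ℝ 1 F (t, x0) := fun t =>
    ContDiffAt.comp (t, x0) (h.cz _ (h.inv t x0 hx0.1)) h.cd.contDiffAt
  have hFd : ∀ t, ∀ x ∈ W, HasDerivAt (fun s => F (s, x)) (y (φ t x)) t := fun t x hx => h.dz t x hx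
  obtain ⟨s, hs1, hs2, hs3, hs4⟩ :=
    ift (F := F) (t0 := τ) (x0 := x0) (hF τ) (hFd τ x0 hx0.1) hτm.2.2.ne' hτm.2.1
  obtain ⟨s0, -, -, -, hs04⟩ :=
    ift (F := F) (t0 := 0) (x0 := x0) (hF 0) (hFd 0 x0 hx0.1)
      (by rw [h.zero]; exact hx0.2.2.ne') (by show z (φ 0 x0) = 0; rw [h.zero]; exact hx0.2.1)
  refine ⟨s, hs1, ?_⟩
  -- no return strictly before
  have hcy : Continuous (fun p : ℝ × E => y (φ p.1 p.2)) := h.cy.comp h.cd.continuous
  have hK : ∀ᶠ x in 𝓝 x0, ∀ t ∈ Icc 0 τ, x ∈ Pg z y W → F (t, x) = 0 → 0 < y (φ t x) →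
      t = 0 ∨ t = s x := by
    refine IsCompact.eventually_forall_of_forall_eventually isCompact_Icc ?_
    intro t ht
    rcases eq_or_lt_of_le ht.1 with h0 | h0
    · -- near zero
      rw [← h0]
      have h1 : ∀ᶠ q : E × ℝ in 𝓝 (x0, 0), F (q.2, q.1) = 0 → q.2 = s0 q.1 := by
        have hsw : Tendsto (fun q : E × ℝ => (q.2, q.1)) (𝓝 (x0, 0)) (𝓝 (0, x0)) :=
          (continuous_snd.prodMk continuous_fst).continuousAt
        exact hsw.eventually hs04
      have h2 : ∀ᶠ q : E × ℝ in 𝓝 (x0, 0), F (0, q.1) = 0 → 0 = s0 q.1 := by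
        have hsw : Tendsto (fun q : E × ℝ => ((0 : ℝ), q.1)) (𝓝 (x0, 0)) (𝓝 (0, x0)) :=
          (continuous_const.prodMk continuous_fst).continuousAt
        exact hsw.eventually hs04
      filter_upwards [h1, h2] with q hq1 hq2 hqp hqF _
      left
      rw [hq1 hqF]
      refine (hq2 ?_).symm
      show z (φ 0 q.1) = 0
      rw [h.zero]; exact hqp.2.1
    · rcases eq_or_lt_of_le ht.2 with h1 | h1
      · rw [h1]
        have h2 : ∀ᶠ q : E × ℝ in 𝓝 (x0, τ), F (q.2, q.1) = 0 → q.2 = s q.1 := by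
          have hsw : Tendsto (fun q : E × ℝ => (q.2, q.1)) (𝓝 (x0, τ)) (𝓝 (τ, x0)) :=
            (continuous_snd.prodMk continuous_fst).continuousAt
          exact hsw.eventually hs4
        filter_upwards [h2] with q hq1 _ hqF _
        right; exact hq1 hqF
      · -- strictly between
        have hno : ¬ (F (t, x0) = 0 ∧ 0 ≤ y (φ t x0)) := by
          rintro ⟨h2, h3⟩
          have h4 : φ t x0 ∈ Pg z y W :=
            ⟨h.inv t x0 hx0.1, h2, lt_of_le_of_ne h3 (Ne.symm (h.simple _ (h.inv t x0 hx0.1) h2))⟩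
          exact absurd (h.ret_le hx0 h0 h4) (not_le.2 h1)
        have hev : ∀ᶠ q : E × ℝ in 𝓝 (x0, t), ¬ (F (q.2, q.1) = 0 ∧ 0 ≤ y (φ q.2 q.1)) := by
          have hsw : Tendsto (fun q : E × ℝ => (q.2, q.1)) (𝓝 (x0, t)) (𝓝 (t, x0)) :=
            (continuous_snd.prodMk continuous_fst).continuousAt
          rcases eq_or_ne (F (t, x0)) 0 with h2 | h2
          · have h3 : y (φ t x0) < 0 := not_le.1 fun h4 => hno ⟨h2, h4⟩
            have h5 : Tendsto (fun q : E × ℝ => y (φ q.2 q.1)) (𝓝 (x0, t)) (𝓝 (y (φ t x0))) :=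
              ((hcy.tendsto (t, x0)).comp hsw)
            filter_upwards [h5.eventually (gt_mem_nhds h3)] with q hq
            exact fun h6 => absurd h6.2 (not_le.2 hq)
          · have h5 : Tendsto (fun q : E × ℝ => F (q.2, q.1)) (𝓝 (x0, t)) (𝓝 (F (t, x0))) :=
              ((hF t).continuousAt.tendsto.comp hsw)
            filter_upwards [h5.eventually_ne h2] with q hq
            exact fun h6 => hq h6.1
        filter_upwards [hev] with q hq _ hqF hqy
        exact absurd ⟨hqF, hqy.le⟩ hq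
  -- between tau and s x
  have hL : ∀ᶠ x in 𝓝 x0, ∀ t, |t - τ| ≤ |s x - τ| → F (t, x) = 0 → t = s x := by
    have h1 : ∃ ε > 0, ∀ p : ℝ × E, dist p (τ, x0) < ε → F p = 0 → p.1 = s p.2 :=
      Metric.eventually_nhds_iff.1 hs4 |>.imp fun ε hε => ⟨hε.1, fun p hp => hε.2 hp⟩
    obtain ⟨ε, hε, h2⟩ := h1
    have h3 : ∀ᶠ x in 𝓝 x0, |s x - τ| < ε := by
      have : Tendsto (fun x => |s x - τ|) (𝓝 x0) (𝓝 |s x0 - τ|) :=
        (hs1.continuousAt.sub continuousAt_const).abs
      rw [hs2] at this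
      simp only [sub_self, abs_zero] at this
      exact this.eventually (gt_mem_nhds hε)
    filter_upwards [h3, Metric.ball_mem_nhds x0 hε] with x hx hxb t ht htF
    refine h2 (t, x) ?_ htF
    rw [Prod.dist_eq, max_lt_iff]
    exact ⟨lt_of_le_of_lt (by rw [Real.dist_eq]; exact ht) hx, hxb⟩
  have hspos : ∀ᶠ x in 𝓝 x0, 0 < s x := by
    have := hs1.continuousAt.eventually (lt_mem_nhds (show (0 : ℝ) < s x0 by rw [hs2]; exact hτ0))
    exact this
  have hypos : ∀ᶠ x in 𝓝 x0, 0 < y (φ (s x) x) := by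
    have hc : ContinuousAt (fun x => y (φ (s x) x)) x0 :=
      hcy.continuousAt.comp (hs1.continuousAt.prodMk continuousAt_id)
    refine hc.eventually (lt_mem_nhds ?_)
    show 0 < y (φ (s x0) x0)
    rw [hs2]; exact hτm.2.2
  filter_upwards [hs3, hK, hL, hspos, hypos] with x h1 h2 h3 h4 h5 hxp
  have hmem : φ (s x) x ∈ Pg z y W := ⟨h.inv _ x hxp.1, h1, h5⟩
  apply le_antisymm (h.ret_le hxp h4 hmem)
  by_contra hlt
  push Not at hlt
  have hr := h.ret_mem hxp
  have hr0 := h.ret_pos hxp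
  rcases le_or_gt (ret φ z y W x) τ with h6 | h6
  · rcases h2 _ ⟨hr0.le, h6⟩ hxp hr.2.1 hr.2.2 with h7 | h7
    · exact absurd h7 hr0.ne'
    · exact absurd h7 hlt.ne
  · have : |ret φ z y W x - τ| ≤ |s x - τ| := by
      rw [abs_of_pos (sub_pos.2 h6), abs_of_pos (sub_pos.2 (h6.trans hlt))]
      linarith
    exact absurd (h3 _ this hr.2.1) hlt.ne

/-- first return map -/
noncomputable def pmap (φ : ℝ → E → E) (z y : E → ℝ) (W : Set E) (x : E) : E :=
  φ (ret φ z y W x) x

theorem pmap_mem (h : Sec φ z y g W) {x : E} (hx : x ∈ Pg z y W) :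
    pmap φ z y W x ∈ Pg z y W := h.ret_mem hx

/-- the first return map of the reversed flow is the inverse -/
theorem pmap_rev_left (h : Sec φ z y g W) {x : E} (hx : x ∈ Pg z y W) :
    pmap (fun t => φ (-t)) (fun x => - z x) y W (pmap φ z y W x) = x := by
  have hw : pmap φ z y W x ∈ Pg (fun x => - z x) y W := by
    rw [pg_rev]; exact h.pmap_mem hx
  have hback : φ (-(ret φ z y W x)) (pmap φ z y W x) = x := by
    unfold pmap
    rw [← h.add, neg_add_cancel, h.zero]
  have hle : ret (fun t => φ (-t)) (fun x => - z x) y W (pmap φ z y W x) ≤ ret φ z y W x := by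
    apply h.rev.ret_le hw (h.ret_pos hx)
    rw [pg_rev]
    show φ (-(ret φ z y W x)) (pmap φ z y W x) ∈ _
    rw [hback]; exact hx
  have heq : ret (fun t => φ (-t)) (fun x => - z x) y W (pmap φ z y W x) = ret φ z y W x := by
    apply le_antisymm hle
    by_contra hlt
    push Not at hlt
    set r' := ret (fun t => φ (-t)) (fun x => - z x) y W (pmap φ z y W x) with hr'
    have h1 := h.rev.ret_mem hw
    rw [← hr', pg_rev] at h1
    have h2 : φ (-r') (pmap φ z y W x) = φ (ret φ z y W x - r') x := by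
      unfold pmap
      rw [← h.add]; congr 1; ring
    have h3 : φ (ret φ z y W x - r') x ∈ Pg z y W := by rw [← h2]; exact h1
    have h4 := h.ret_le hx (sub_pos.2 hlt) h3
    have h5 : 0 < r' := h.rev.ret_pos hw
    linarith
  show φ (-(ret (fun t => φ (-t)) (fun x => - z x) y W (pmap φ z y W x))) (pmap φ z y W x) = x
  rw [heq, hback]

theorem pmap_rev_right (h : Sec φ z y g W) {x : E} (hx : x ∈ Pg z y W) :
    pmap φ z y W (pmap (fun t => φ (-t)) (fun x => - z x) y W x) = x := by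
  have h1 := h.rev.pmap_rev_left (x := x) (by rw [pg_rev]; exact hx)
  simpa using h1

/-- every point of the page is periodic for the return map -/
theorem pmap_periodic (h : Sec φ z y g W) {x : E} (hx : x ∈ Pg z y W) :
    ∃ n, 0 < n ∧ (pmap φ z y W)^[n] x = x := by
  obtain ⟨T, hT, hTx⟩ := h.per x hx.1
  set G := pmap φ z y W with hG
  have hmem : ∀ n, G^[n] x ∈ Pg z y W := by
    intro n
    induction n with
    | zero => exact hx
    | succ n ih => rw [Function.iterate_succ_apply']; exact h.pmap_mem ih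
  let S : ℕ → ℝ := fun n => ∑ i ∈ Finset.range n, ret φ z y W (G^[i] x)
  have hS : ∀ n, φ (S n) x = G^[n] x := by
    intro n
    induction n with
    | zero => simp [S, h.zero]
    | succ n ih =>
      have : S (n + 1) = ret φ z y W (G^[n] x) + S n := by
        simp only [S, Finset.sum_range_succ]; ring
      rw [this, h.add, ih, Function.iterate_succ_apply']
      rfl
  have hSm : StrictMono S := by
    apply strictMono_nat_of_lt_succ
    intro n
    simp only [S, Finset.sum_range_succ]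
    linarith [h.ret_pos (hmem n)]
  -- unbounded
  have hunb : ∃ n, T < S n := by
    by_contra hno
    push Not at hno
    have hbdd : BddAbove (range S) := ⟨T, by rintro _ ⟨n, rfl⟩; exact hno n⟩
    have hlim := tendsto_atTop_ciSup hSm.monotone hbdd
    set σ := ⨆ i, S i with hσ
    have hcz : Continuous (fun t => z (φ t x)) := h.contz hx.1
    have hzσ : z (φ σ x) = 0 := by
      have h1 : Tendsto (fun n => z (φ (S n) x)) atTop (𝓝 (z (φ σ x))) :=
        (hcz.tendsto σ).comp hlim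
      have h2 : (fun n => z (φ (S n) x)) = fun _ => 0 := by
        funext n
        rw [hS n]; exact (hmem n).2.1
      rw [h2] at h1
      exact (tendsto_const_nhds_iff.1 h1).symm
    have h3 := h.ne_near hx.1 hzσ
    have h4 : Tendsto S atTop (𝓝[≠] σ) := by
      rw [tendsto_nhdsWithin_iff]
      refine ⟨hlim, Eventually.of_forall fun n => ?_⟩
      have : S n < S (n + 1) := hSm (Nat.lt_succ_self n)
      exact (this.trans_le (le_ciSup hbdd (n + 1))).ne
    obtain ⟨n, hn⟩ := (h4.eventually h3).exists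
    apply hn
    rw [hS n]; exact (hmem n).2.1
  -- the last n with S n <= T
  obtain ⟨m, hm⟩ := hunb
  have hex : ∃ n, T < S n := ⟨m, hm⟩
  classical
  set n1 := Nat.find hex with hn1
  have hn1s : T < S n1 := Nat.find_spec hex
  have hn1pos : n1 ≠ 0 := by
    intro h0
    rw [h0] at hn1s
    simp only [S, Finset.range_zero, Finset.sum_empty] at hn1s
    linarith
  obtain ⟨n, hn⟩ := Nat.exists_eq_succ_of_ne_zero hn1pos
  have hle : S n ≤ T := by
    by_contra hc
    push Not at hc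
    have := Nat.find_min' hex hc
    rw [← hn1, hn] at this
    exact Nat.not_succ_le_self n this
  have hTS : T = S n := by
    by_contra hne
    have hlt : S n < T := lt_of_le_of_ne hle (Ne.symm hne)
    have h1 : φ (T - S n) (G^[n] x) = x := by
      rw [← hS n, ← h.add, sub_add_cancel, hTx]
    have h2 := h.ret_le (hmem n) (sub_pos.2 hlt) (by rw [h1]; exact hx)
    have h3 : S n1 = S n + ret φ z y W (G^[n] x) := by
      rw [hn]; simp only [S, Nat.succ_eq_add_one, Finset.sum_range_succ]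
    linarith
  refine ⟨n, ?_, ?_⟩
  · rcases Nat.eq_zero_or_pos n with h0 | h0
    · rw [h0] at hTS
      simp only [S, Finset.range_zero, Finset.sum_empty] at hTS
      exact absurd hTS hT.ne'
    · exact h0
  · rw [← hS n, ← hTS, hTx]

/-- sum of the first return times -/
theorem sum_ret (h : Sec φ z y g W) (x : E) (n : ℕ) :
    φ (∑ i ∈ Finset.range n, ret φ z y W ((pmap φ z y W)^[i] x)) x = (pmap φ z y W)^[n] x := by
  induction n with
  | zero => simp [h.zero]
  | succ n ih =>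
    rw [Finset.sum_range_succ, add_comm, h.add, ih, Function.iterate_succ_apply']
    rfl

theorem iterate_mem (h : Sec φ z y g W) {x : E} (hx : x ∈ Pg z y W) (n : ℕ) :
    (pmap φ z y W)^[n] x ∈ Pg z y W := by
  induction n with
  | zero => exact hx
  | succ n ih => rw [Function.iterate_succ_apply']; exact h.pmap_mem ih

section chart

variable {F : Type*} [NormedAddCommGroup F] [NormedSpace ℝ F] {Ω : Set F} {c : F → E} {q : E → F}

/-- the return time in a chart -/
theorem ret_chart [CompleteSpace E] (h : Sec φ z y g W) (hΩ : IsOpen Ω)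
    (hc : ContDiffOn ℝ 1 c Ω) (hcP : ∀ x ∈ Ω, c x ∈ Pg z y W) :
    ContDiffOn ℝ 1 (fun x => ret φ z y W (c x)) Ω := by
  intro x hx
  obtain ⟨s, hs1, hs2⟩ := h.ret_local (hcP x hx)
  have hcx : ContDiffAt ℝ 1 c x := hc.contDiffAt (hΩ.mem_nhds hx)
  have h1 : ContDiffAt ℝ 1 (fun x => s (c x)) x := hs1.comp x hcx
  refine (h1.congr_of_eventuallyEq ?_).contDiffWithinAt
  filter_upwards [hcx.continuousAt.eventually hs2, hΩ.mem_nhds hx] with x' h2 h3
  exact h2 (hcP x' h3)

theorem pmap_chart [CompleteSpace E] (h : Sec φ z y g W) (hΩ : IsOpen Ω)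
    (hc : ContDiffOn ℝ 1 c Ω) (hcP : ∀ x ∈ Ω, c x ∈ Pg z y W) :
    ContDiffOn ℝ 1 (fun x => pmap φ z y W (c x)) Ω := by
  have h1 : ContDiffOn ℝ 1 (fun x => (ret φ z y W (c x), c x)) Ω :=
    (h.ret_chart hΩ hc hcP).prodMk hc
  exact h.cd.comp_contDiffOn h1

/-- the return map in a chart -/
theorem gmap_chart [CompleteSpace E] (h : Sec φ z y g W) (hΩ : IsOpen Ω)
    (hc : ContDiffOn ℝ 1 c Ω) (hcP : ∀ x ∈ Ω, c x ∈ Pg z y W)
    (hq : ∀ x ∈ Pg z y W, ContDiffAt ℝ 1 q x) :
    ContDiffOn ℝ 1 (fun x => q (pmap φ z y W (c x))) Ω := by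
  intro x hx
  have h1 : ContDiffAt ℝ 1 (fun x => pmap φ z y W (c x)) x :=
    (h.pmap_chart hΩ hc hcP).contDiffAt (hΩ.mem_nhds hx)
  exact ((hq _ (h.pmap_mem (hcP x hx))).comp x h1).contDiffWithinAt

/-- the data for the lemma on pointwise periodic maps: `G` on an open set `Ω` of `F`, with `C^1` inverse,
all points periodic; and what the periodicity of `G` gives back on the page. -/
theorem gmap_data [CompleteSpace E] (h : Sec φ z y g W) (hΩ : IsOpen Ω)
    (hc : ContDiffOn ℝ 1 c Ω) (hcP : ∀ x ∈ Ω, c x ∈ Pg z y W)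
    (hq : ∀ x ∈ Pg z y W, ContDiffAt ℝ 1 q x) (hqΩ : ∀ x ∈ Pg z y W, q x ∈ Ω)
    (hqc : ∀ x ∈ Ω, q (c x) = x) (hcq : ∀ x ∈ Pg z y W, c (q x) = x) :
    ∃ G G' : F → F, MapsTo G Ω Ω ∧ MapsTo G' Ω Ω ∧ ContDiffOn ℝ 1 G Ω ∧ ContDiffOn ℝ 1 G' Ω ∧
      (∀ x ∈ Ω, G' (G x) = x) ∧ (∀ x ∈ Ω, G (G' x) = x) ∧
      (∀ x ∈ Ω, ∃ n, 0 < n ∧ G^[n] x = x) ∧
      (∀ n, ∀ x ∈ Ω, c (G^[n] x) = (pmap φ z y W)^[n] (c x)) ∧
      (∀ n, ContDiffOn ℝ 1
        (fun x => ∑ i ∈ Finset.range n, ret φ z y W ((pmap φ z y W)^[i] (c x))) Ω) := by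
  set G : F → F := fun x => q (pmap φ z y W (c x)) with hG
  set G' : F → F := fun x => q (pmap (fun t => φ (-t)) (fun x => - z x) y W (c x)) with hG'
  have hcP' : ∀ x ∈ Ω, c x ∈ Pg (fun x => - z x) y W := by
    intro x hx; rw [pg_rev]; exact hcP x hx
  have hq' : ∀ x ∈ Pg (fun x => - z x) y W, ContDiffAt ℝ 1 q x := by
    intro x hx; rw [pg_rev] at hx; exact hq x hx
  have hm : MapsTo G Ω Ω := fun x hx => hqΩ _ (h.pmap_mem (hcP x hx))
  have hm' : MapsTo G' Ω Ω := fun x hx => hqΩ _ (by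
    have := h.rev.pmap_mem (hcP' x hx)
    rwa [pg_rev] at this)
  have hd : ContDiffOn ℝ 1 G Ω := h.gmap_chart hΩ hc hcP hq
  have hd' : ContDiffOn ℝ 1 G' Ω := h.rev.gmap_chart hΩ hc hcP' hq'
  have hit : ∀ n, ∀ x ∈ Ω, G^[n] x ∈ Ω ∧ c (G^[n] x) = (pmap φ z y W)^[n] (c x) := by
    intro n x hx
    induction n with
    | zero => exact ⟨hx, rfl⟩
    | succ n ih =>
      rw [Function.iterate_succ_apply', Function.iterate_succ_apply']
      refine ⟨hm ih.1, ?_⟩
      rw [← ih.2]
      exact hcq _ (h.pmap_mem (hcP _ ih.1))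
  refine ⟨G, G', hm, hm', hd, hd', ?_, ?_, ?_, fun n x hx => (hit n x hx).2, ?_⟩
  · intro x hx
    have h1 : c (G x) = pmap φ z y W (c x) := hcq _ (h.pmap_mem (hcP x hx))
    show q (pmap (fun t => φ (-t)) (fun x => - z x) y W (c (G x))) = x
    rw [h1, h.pmap_rev_left (hcP x hx), hqc x hx]
  · intro x hx
    have hp : pmap (fun t => φ (-t)) (fun x => - z x) y W (c x) ∈ Pg z y W := by
      have := h.rev.pmap_mem (hcP' x hx)
      rwa [pg_rev] at this
    have h1 : c (G' x) = pmap (fun t => φ (-t)) (fun x => - z x) y W (c x) := hcq _ hp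
    show q (pmap φ z y W (c (G' x))) = x
    rw [h1, h.pmap_rev_right (hcP x hx), hqc x hx]
  · intro x hx
    obtain ⟨n, hn, hn2⟩ := h.pmap_periodic (hcP x hx)
    refine ⟨n, hn, ?_⟩
    have h1 := hit n x hx
    rw [hn2] at h1
    have h2 := hqc _ h1.1
    rw [h1.2, hqc x hx] at h2
    exact h2.symm
  · intro n
    have hiter : ∀ i, ContDiffOn ℝ 1 (G^[i]) Ω := by
      intro i
      induction i with
      | zero => exact contDiffOn_id
      | succ i ih =>
        rw [Function.iterate_succ']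
        exact hd.comp ih (fun x hx => (hit i x hx).1)
    apply ContDiffOn.sum
    intro i _
    have h1 : ContDiffOn ℝ 1 (fun x => ret φ z y W (c x)) Ω := h.ret_chart hΩ hc hcP
    have h2 : ContDiffOn ℝ 1 (fun x => ret φ z y W (c (G^[i] x))) Ω :=
      h1.comp (hiter i) (fun x hx => (hit i x hx).1)
    refine h2.congr ?_
    intro x hx
    rw [(hit i x hx).2]

end chart

end Sec

end Pool.Agent.P85.R9
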