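import Pool.Agent.P85.Defs
import Pool.Agent.P85.PageAbs
import Pool.Agent.P85.Chart

/-!
Row R9 of Theorem P: return map and return time of the page.
-/

set_option autoImplicit false
open scoped ContDiff Topology
open Real Set MeasureTheory Filter

namespace Pool.Agent.P85.R9

open Pool.Agent.P85

variable {H : E3 → ℝ} {w c : ℝ} {φ : ℝ → Fr → Fr}

theorem two_le_inf : (2 : WithTop ℕ∞) ≤ ∞ := ENat.LEInfty.out

theorem one_one_le_inf : (1 + 1 : WithTop ℕ∞) ≤ ∞ := by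
  rw [one_add_one_eq_two]; exact two_le_inf

theorem sig_eq (x : ℂ) : sig x = ch x := by
  unfold sig ch
  refine Prod.ext rfl ?_
  ext i
  fin_cases i
  · show -(1 - ‖x‖ ^ 2) * x.re / (‖x‖ * (1 + ‖x‖ ^ 2)) = -(stB x) * (x.re / ‖x‖)
    unfold stB
    have : (1 + ‖x‖ ^ 2) ≠ 0 := by positivity
    rcases eq_or_ne ‖x‖ 0 with h | h
    · simp [h]
    · field_simp
  · show -(1 - ‖x‖ ^ 2) * x.im / (‖x‖ * (1 + ‖x‖ ^ 2)) = -(stB x) * (x.im / ‖x‖)
    unfold stB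
    have : (1 + ‖x‖ ^ 2) ≠ 0 := by positivity
    rcases eq_or_ne ‖x‖ 0 with h | h
    · simp [h]
    · field_simp
  · rfl

theorem inner_nu (x : E3) : inner ℝ x nu = x 2 := by
  rw [inner_eq]; simp [nu]

theorem grad_two (x : E3) : (gradient H x) 2 = fderiv ℝ H x nu := by
  rw [← inner_nu]
  unfold gradient
  rw [InnerProductSpace.toDual_symm_apply]

/-- the gradient of a homogeneous function is homogeneous of degree zero -/
theorem fderiv_smul (hom : ∀ t : ℝ, 0 < t → ∀ x, H (t • x) = t * H x)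
    (hsm : ContDiffOn ℝ ∞ H {0}ᶜ) {t : ℝ} (ht : 0 < t) {u : E3} (hu : u ≠ 0) :
    fderiv ℝ H (t • u) = fderiv ℝ H u := by
  have hd : ∀ x : E3, x ≠ 0 → DifferentiableAt ℝ H x := fun x hx =>
    (hsm.contDiffAt (isOpen_compl_singleton.mem_nhds hx)).differentiableAt (by simp)
  have hsu : t • u ≠ 0 := smul_ne_zero ht.ne' hu
  have h1 : HasFDerivAt (fun x : E3 => H (t • x)) ((fderiv ℝ H (t • u)).comp
      (t • ContinuousLinearMap.id ℝ E3)) u := by
    have h2 : HasFDerivAt (fun x : E3 => t • x) (t • ContinuousLinearMap.id ℝ E3) u :=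
      (hasFDerivAt_id u).const_smul t
    exact (hd _ hsu).hasFDerivAt.comp u h2
  have h3 : HasFDerivAt (fun x : E3 => H (t • x)) (t • fderiv ℝ H u) u := by
    have h4 : (fun x : E3 => H (t • x)) = fun x => t * H x := by
      funext x; exact hom t ht x
    rw [h4]
    exact (hd u hu).hasFDerivAt.const_mul t
  have h5 := h1.unique h3
  ext v
  have h6 := congrArg (fun L : E3 →L[ℝ] ℝ => L v) h5
  simp only [ContinuousLinearMap.comp_apply,
    ContinuousLinearMap.id_apply, map_smul, smul_eq_mul, _root_.smul_apply] at h6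
  exact mul_left_cancel₀ ht.ne' h6

theorem fd_diff (hsm : ContDiffOn ℝ ∞ H {0}ᶜ) {u : E3} (hu : u ≠ 0) :
    ContDiffAt ℝ 1 (fderiv ℝ H) u := by
  have h1 : ContDiffAt ℝ ∞ H u := hsm.contDiffAt (isOpen_compl_singleton.mem_nhds hu)
  exact h1.fderiv_right one_one_le_inf

theorem D2_rad (hS : Supp H w) {u : E3} (hu : u ≠ 0) (v : E3) : D2 H u u v = 0 := by
  have hd : HasFDerivAt (fderiv ℝ H) (fderiv ℝ (fderiv ℝ H) u) u :=
    ((fd_diff hS.smooth hu).differentiableAt one_ne_zero).hasFDerivAt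
  have h1 : HasDerivAt (fun s : ℝ => s • u) u 1 := by
    simpa using (hasDerivAt_id (1 : ℝ)).smul_const u
  have hd' : HasFDerivAt (fderiv ℝ H) (fderiv ℝ (fderiv ℝ H) u) ((1 : ℝ) • u) := by
    rw [one_smul]; exact hd
  have h2 : HasDerivAt (fun s : ℝ => fderiv ℝ H (s • u)) (fderiv ℝ (fderiv ℝ H) u u) 1 :=
    hd'.comp_hasDerivAt 1 h1
  have h3 : (fun s : ℝ => fderiv ℝ H (s • u)) =ᶠ[𝓝 1] fun _ => fderiv ℝ H u := by
    filter_upwards [lt_mem_nhds (show (0 : ℝ) < 1 from one_pos)] with s hs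
    exact fderiv_smul hS.hom hS.smooth hs hu
  have h4 : HasDerivAt (fun s : ℝ => fderiv ℝ H (s • u)) 0 1 :=
    (hasDerivAt_const (1 : ℝ) (fderiv ℝ H u)).congr_of_eventuallyEq h3
  have h5 := h2.unique h4
  unfold D2
  rw [h5]; rfl

theorem D2_symm (hS : Supp H w) {u : E3} (hu : u ≠ 0) (v v' : E3) : D2 H u v v' = D2 H u v' v := by
  have h1 : ContDiffAt ℝ ∞ H u := hS.smooth.contDiffAt (isOpen_compl_singleton.mem_nhds hu)
  have h2 : IsSymmSndFDerivAt ℝ H u := h1.isSymmSndFDerivAt (by simp only [minSmoothness_of_isRCLikeNormedField]; exact two_le_inf)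
  exact h2 v v'

section frame
variable {M : Fr}

theorem u_ne (hM : M ∈ St) : M.1 ≠ 0 := by
  intro h
  have := hM.1
  rw [h, norm_zero] at this
  exact zero_ne_one this

theorem bb_0 (M : Fr) : bb M 0 = M.1 1 * M.2 2 - M.1 2 * M.2 1 := rfl
theorem bb_1 (M : Fr) : bb M 1 = M.1 2 * M.2 0 - M.1 0 * M.2 2 := rfl
theorem bb_2 (M : Fr) : bb M 2 = M.1 0 * M.2 1 - M.1 1 * M.2 0 := rfl

theorem st_eqs (hM : M ∈ St) : (M.1 0 ^ 2 + M.1 1 ^ 2 + M.1 2 ^ 2 = 1) ∧
    (M.2 0 ^ 2 + M.2 1 ^ 2 + M.2 2 ^ 2 = 1) ∧ (M.1 0 * M.2 0 + M.1 1 * M.2 1 + M.1 2 * M.2 2 = 0) := by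
  obtain ⟨h1, h2, h3⟩ := hM
  rw [← norm_sq_eq, ← norm_sq_eq, ← inner_eq, h1, h2, h3]
  norm_num

/-- the third coordinates of a frame have square sum one -/
theorem third (hM : M ∈ St) : M.1 2 ^ 2 + M.2 2 ^ 2 + bb M 2 ^ 2 = 1 := by
  obtain ⟨h1, h2, h3⟩ := st_eqs hM
  rw [bb_2]
  have h4 : (M.1 0 * M.2 1 - M.1 1 * M.2 0) ^ 2 =
      (M.1 0 ^ 2 + M.1 1 ^ 2) * (M.2 0 ^ 2 + M.2 1 ^ 2) - (M.1 0 * M.2 0 + M.1 1 * M.2 1) ^ 2 := by
    ring
  have h5 : M.1 0 * M.2 0 + M.1 1 * M.2 1 = -(M.1 2 * M.2 2) := by linarith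
  rw [h4, h5]
  have h6 : M.1 0 ^ 2 + M.1 1 ^ 2 = 1 - M.1 2 ^ 2 := by linarith
  have h7 : M.2 0 ^ 2 + M.2 1 ^ 2 = 1 - M.2 2 ^ 2 := by linarith
  rw [h6, h7]; ring

theorem u_bb (M : Fr) : inner ℝ M.1 (bb M) = 0 := by
  rw [inner_eq, bb_0, bb_1, bb_2]; ring

theorem e_bb (M : Fr) : inner ℝ M.2 (bb M) = 0 := by
  rw [inner_eq, bb_0, bb_1, bb_2]; ring

theorem bb_norm (hM : M ∈ St) : bb M 0 ^ 2 + bb M 1 ^ 2 + bb M 2 ^ 2 = 1 := by
  obtain ⟨h1, h2, h3⟩ := st_eqs hM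
  rw [bb_0, bb_1, bb_2]
  have : (M.1 1 * M.2 2 - M.1 2 * M.2 1) ^ 2 + (M.1 2 * M.2 0 - M.1 0 * M.2 2) ^ 2 +
      (M.1 0 * M.2 1 - M.1 1 * M.2 0) ^ 2 = (M.1 0 ^ 2 + M.1 1 ^ 2 + M.1 2 ^ 2) *
      (M.2 0 ^ 2 + M.2 1 ^ 2 + M.2 2 ^ 2) -
      (M.1 0 * M.2 0 + M.1 1 * M.2 1 + M.1 2 * M.2 2) ^ 2 := by ring
  rw [this, h1, h2, h3]; ring

theorem bb_ne (hM : M ∈ St) : bb M ≠ 0 := by
  intro h
  have := bb_norm hM
  rw [h] at this
  norm_num at this

/-- the third axis in the basis `u, e, b` -/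
theorem nu_basis (hM : M ∈ St) :
    nu = M.1 2 • M.1 + M.2 2 • M.2 + bb M 2 • bb M := by
  obtain ⟨h1, h2, h3⟩ := st_eqs hM
  ext i
  fin_cases i
  · show (0 : ℝ) = M.1 2 * M.1 0 + M.2 2 * M.2 0 + bb M 2 * bb M 0
    rw [bb_0, bb_2]
    linear_combination (M.2 2 * M.2 0) * h1 + (M.1 2 * M.1 0) * h2 -
      (M.1 2 * M.2 0 + M.2 2 * M.1 0) * h3
  · show (0 : ℝ) = M.1 2 * M.1 1 + M.2 2 * M.2 1 + bb M 2 * bb M 1
    rw [bb_1, bb_2]
    linear_combination (M.2 2 * M.2 1) * h1 + (M.1 2 * M.1 1) * h2 -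
      (M.1 2 * M.2 1 + M.2 2 * M.1 1) * h3
  · show (1 : ℝ) = M.1 2 * M.1 2 + M.2 2 * M.2 2 + bb M 2 * bb M 2
    linear_combination -third hM

theorem Rbb_pos (hS : Supp H w) (hM : M ∈ St) : 0 < Rbb H M :=
  hS.pos _ _ hM.1 (u_bb M) (bb_ne hM)

theorem Dn_pos (hS : Supp H w) (hM : M ∈ St) : 0 < Dn H M := by
  have hR := Rbb_pos hS hM
  set v : E3 := Rbb H M • M.2 - Reb H M • bb M with hv
  have huv : inner ℝ M.1 v = 0 := by
    rw [hv, inner_sub_right, inner_smul_right, inner_smul_right, hM.2.2, u_bb]; ring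
  have hev : inner ℝ M.2 v = Rbb H M := by
    rw [hv, inner_sub_right, inner_smul_right, inner_smul_right, e_bb,
      real_inner_self_eq_norm_sq, hM.2.1]; ring
  have hv0 : v ≠ 0 := by
    intro h
    rw [h, inner_zero_right] at hev
    exact hR.ne hev
  have h1 := hS.pos _ _ hM.1 huv hv0
  have h2 : D2 H M.1 v v = Rbb H M * Dn H M := by
    have hs := D2_symm hS (u_ne hM) (bb M) M.2
    have h3 : D2 H M.1 v v = Rbb H M ^ 2 * D2 H M.1 M.2 M.2 -
        Rbb H M * Reb H M * D2 H M.1 M.2 (bb M) - Rbb H M * Reb H M * D2 H M.1 (bb M) M.2 +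
        Reb H M ^ 2 * D2 H M.1 (bb M) (bb M) := by
      rw [hv]
      unfold D2
      simp only [map_sub, map_smul, _root_.sub_apply, _root_.smul_apply, smul_eq_mul]
      ring
    rw [h3, hs]
    unfold Dn Ree
    change Rbb H M ^ 2 * D2 H M.1 M.2 M.2 - Rbb H M * Reb H M * Reb H M -
      Rbb H M * Reb H M * Reb H M + Reb H M ^ 2 * Rbb H M = _
    ring
  rw [h2] at h1
  exact (mul_pos_iff_of_pos_left hR).1 h1

theorem kap_pos (hS : Supp H w) (hM : M ∈ St) : 0 < kap H M :=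
  div_pos (Rbb_pos hS hM) (Dn_pos hS hM)

/-- `R (u') = e` -/
theorem D2_dir (hS : Supp H w) (hM : M ∈ St) :
    D2 H M.1 (kap H M • M.2 + tau H M • bb M) nu = M.2 2 := by
  have hD := (Dn_pos hS hM).ne'
  have hu := u_ne hM
  have h1 : D2 H M.1 M.2 M.1 = 0 := by rw [D2_symm hS hu, D2_rad hS hu]
  have h2 : D2 H M.1 (bb M) M.1 = 0 := by rw [D2_symm hS hu, D2_rad hS hu]
  have h3 : D2 H M.1 (bb M) M.2 = Reb H M := D2_symm hS hu _ _
  have h4 : D2 H M.1 (kap H M • M.2 + tau H M • bb M) nu =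
      kap H M * (M.1 2 * D2 H M.1 M.2 M.1 + M.2 2 * D2 H M.1 M.2 M.2 +
        bb M 2 * D2 H M.1 M.2 (bb M)) +
      tau H M * (M.1 2 * D2 H M.1 (bb M) M.1 + M.2 2 * D2 H M.1 (bb M) M.2 +
        bb M 2 * D2 H M.1 (bb M) (bb M)) := by
    rw [nu_basis hM]
    unfold D2
    simp only [map_add, map_smul, _root_.add_apply, _root_.smul_apply, smul_eq_mul]
    ring
  rw [h4, h1, h2, h3]
  change kap H M * (M.1 2 * 0 + M.2 2 * Ree H M + bb M 2 * Reb H M) +
    tau H M * (M.1 2 * 0 + M.2 2 * Reb H M + bb M 2 * Rbb H M) = M.2 2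
  unfold kap tau
  have hDD : Dn H M = Ree H M * Rbb H M - Reb H M ^ 2 := rfl
  field_simp
  rw [hDD]; ring

end frame

/-- the height of the boundary point over the plane -/
noncomputable def zz (H : E3 → ℝ) (c : ℝ) (M : Fr) : ℝ := fderiv ℝ H M.1 nu - c

/-- the set of frames which are not tangent to the plane -/
def WW : Set Fr := {M | M ∈ St ∧ bb M 2 ≠ 1 ∧ bb M 2 ≠ -1}

theorem coord_cont (i : Fin 3) : Continuous (fun v : E3 => v i) :=
  (coord_contDiff i).continuous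

/-- all the hypotheses of the abstract part -/
theorem sec (hS : Supp H w) (hP : Plane H c) (hΦ : Flow H φ) (hc : Closed φ)
    (sign_pos : ∀ {u : E3}, ‖u‖ = 1 → 0 < u 2 → c < (gradient H u) 2)
    (sign_neg : ∀ {u : E3}, ‖u‖ = 1 → u 2 < 0 → (gradient H u) 2 < c)
    (never_neg : ∀ {M : Fr}, M ∈ St → bb M 2 ≠ -1 → ∀ t, bb (φ t M) 2 ≠ -1)
    (never_pos : ∀ {M : Fr}, M ∈ St → bb M 2 ≠ 1 → ∀ t, bb (φ t M) 2 ≠ 1) :
    Sec φ (zz H c) (fun M => M.2 2) (fun M => kap H M * M.1 2) WW where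
  cd := hΦ.smooth
  zero := hΦ.zero
  add := hΦ.add
  inv t M hM := ⟨hΦ.st t M hM.1, never_pos hM.1 hM.2.1 t, never_neg hM.1 hM.2.2 t⟩
  cz M hM := by
    have h1 : ContDiffAt ℝ 1 (fderiv ℝ H) M.1 := fd_diff hS.smooth (u_ne hM.1)
    have h2 : ContDiffAt ℝ 1 (fun M : Fr => fderiv ℝ H M.1) M := h1.comp M contDiffAt_fst
    exact (h2.clm_apply contDiffAt_const).sub contDiffAt_const
  cy := (coord_cont 2).comp continuous_snd
  dz t M hM := by
    have hst := hΦ.st t M hM.1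
    have hu := u_ne hst
    have h1 : HasDerivAt (fun s => (φ s M).1) (kap H (φ t M) • (φ t M).2 + tau H (φ t M) • bb (φ t M)) t :=
      (hΦ.ode t M hM.1).fst
    have h2 : HasFDerivAt (fderiv ℝ H) (fderiv ℝ (fderiv ℝ H) (φ t M).1) (φ t M).1 :=
      ((fd_diff hS.smooth hu).differentiableAt one_ne_zero).hasFDerivAt
    have h3 := h2.comp_hasDerivAt t h1
    have h4 : HasDerivAt (fun s => fderiv ℝ H (φ s M).1 nu)
        (fderiv ℝ (fderiv ℝ H) (φ t M).1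
          (kap H (φ t M) • (φ t M).2 + tau H (φ t M) • bb (φ t M)) nu) t := by
      have h5 := h3.clm_apply (hasDerivAt_const t nu)
      simpa using h5
    have h6 := h4.sub_const c
    exact h6.congr_deriv (D2_dir hS hst)
  dy t M hM := by
    have h1 : HasDerivAt (fun s => (φ s M).2) (-(kap H (φ t M) • (φ t M).1)) t :=
      (hΦ.ode t M hM.1).snd
    have h2 : HasFDerivAt (fun v : E3 => v 2) (EuclideanSpace.proj (𝕜 := ℝ) (2 : Fin 3) : E3 →L[ℝ] ℝ)
        (φ t M).2 := (EuclideanSpace.proj (𝕜 := ℝ) (2 : Fin 3) : E3 →L[ℝ] ℝ).hasFDerivAt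
    exact h2.comp_hasDerivAt t h1
  pos M hM hz := by
    have hk := kap_pos hS hM.1
    apply mul_pos hk
    by_contra hn
    rcases eq_or_lt_of_le (not_lt.1 hn) with h | h
    · have := hP _ hM.1.1 h
      rw [grad_two] at this
      unfold zz at hz
      rw [this] at hz
      linarith
    · have := sign_neg hM.1.1 h
      rw [grad_two] at this
      unfold zz at hz
      linarith
  neg M hM hz := by
    have hk := kap_pos hS hM.1
    apply mul_neg_of_pos_of_neg hk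
    by_contra hn
    rcases eq_or_lt_of_le (not_lt.1 hn) with h | h
    · have := hP _ hM.1.1 h.symm
      rw [grad_two] at this
      unfold zz at hz
      rw [this] at hz
      linarith
    · have := sign_pos hM.1.1 h
      rw [grad_two] at this
      unfold zz at hz
      linarith
  simple M hM hz := by
    have hu : M.1 2 = 0 := by
      rcases lt_trichotomy (M.1 2) 0 with h | h | h
      · have := sign_neg hM.1.1 h
        rw [grad_two] at this
        unfold zz at hz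
        linarith
      · exact h
      · have := sign_pos hM.1.1 h
        rw [grad_two] at this
        unfold zz at hz
        linarith
    intro he
    have h3 := third hM.1
    simp only at he
    rw [hu, he] at h3
    have h4 : (bb M 2 - 1) * (bb M 2 + 1) = 0 := by linarith
    rcases mul_eq_zero.1 h4 with h5 | h5
    · exact hM.2.1 (by linarith)
    · exact hM.2.2 (by linarith)
  per M hM := hc M hM.1

/-- the two descriptions of the page -/
theorem pg_iff (hP : Plane H c)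
    (sign_pos : ∀ {u : E3}, ‖u‖ = 1 → 0 < u 2 → c < (gradient H u) 2)
    (sign_neg : ∀ {u : E3}, ‖u‖ = 1 → u 2 < 0 → (gradient H u) 2 < c) (M : Fr) :
    M ∈ Pg (zz H c) (fun M => M.2 2) WW ↔ M ∈ Page := by
  constructor
  · rintro ⟨hM, hz, hy⟩
    refine ⟨hM.1, ?_, hy⟩
    rcases lt_trichotomy (M.1 2) 0 with h | h | h
    · have := sign_neg hM.1.1 h
      rw [grad_two] at this
      unfold zz at hz
      linarith
    · exact h
    · have := sign_pos hM.1.1 h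
      rw [grad_two] at this
      unfold zz at hz
      linarith
  · rintro ⟨hM, hu, hy⟩
    have h3 := third hM
    have h4 : 0 < M.2 2 ^ 2 := by positivity
    refine ⟨⟨hM, ?_, ?_⟩, ?_, hy⟩
    · intro h; rw [h] at h3; nlinarith
    · intro h; rw [h] at h3; nlinarith
    · have := hP _ hM.1 hu
      rw [grad_two] at this
      unfold zz
      linarith

/-- R9, with the four facts of row R8a as hypotheses -/
theorem exists_return_of (hS : Supp H w) (hP : Plane H c) (hΦ : Flow H φ) (hc : Closed φ)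
    (sign_pos : ∀ {u : E3}, ‖u‖ = 1 → 0 < u 2 → c < (gradient H u) 2)
    (sign_neg : ∀ {u : E3}, ‖u‖ = 1 → u 2 < 0 → (gradient H u) 2 < c)
    (never_neg : ∀ {M : Fr}, M ∈ St → bb M 2 ≠ -1 → ∀ t, bb (φ t M) 2 ≠ -1)
    (never_pos : ∀ {M : Fr}, M ∈ St → bb M 2 ≠ 1 → ∀ t, bb (φ t M) 2 ≠ 1) :
    ∃ (G : ℂ → ℂ) (Rt : ℂ → ℝ), Return φ G Rt := by
  have hs := sec hS hP hΦ hc sign_pos sign_neg never_neg never_pos
  have hpg := pg_iff (H := H) hP sign_pos sign_neg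
  set P := Pg (zz H c) (fun M : Fr => M.2 2) WW with hPdef
  have hset : ({0}ᶜ : Set ℂ) = {ζ | ζ ≠ 0} := by ext; simp
  have hcP : ∀ x ∈ {ζ : ℂ | ζ ≠ 0}, ch x ∈ P := by
    intro x hx
    rw [hpg]
    exact ⟨⟨ch_u_norm hx, ch_e_norm hx, ch_inner x⟩, ch_u2 x, ch_e2 hx⟩
  have hq : ∀ x ∈ P, ContDiffAt ℝ 1 chq x := by
    intro x hx
    rw [hpg] at hx
    obtain ⟨h1, h2, h3⟩ := st_eqs hx.1
    rw [hx.2.1] at h1 h3
    have := (page_b (u0 := x.1 0) (u1 := x.1 1) (e0 := x.2 0) (e1 := x.2 1) (e2 := x.2 2)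
      (by linarith) h2 (by linarith) hx.2.2).1
    exact chq_contDiffAt this.ne'
  have hqΩ : ∀ x ∈ P, chq x ∈ {ζ : ℂ | ζ ≠ 0} := by
    intro x hx
    rw [hpg] at hx
    exact chq_ne hx.1.1 hx.1.2.1 hx.1.2.2 hx.2.1 hx.2.2
  have hqc : ∀ x ∈ {ζ : ℂ | ζ ≠ 0}, chq (ch x) = x := fun x hx => chq_ch hx
  have hcq : ∀ x ∈ P, ch (chq x) = x := by
    intro x hx
    rw [hpg] at hx
    exact ch_chq hx.1.1 hx.1.2.1 hx.1.2.2 hx.2.1 hx.2.2
  refine ⟨fun x => chq (Sec.pmap φ (zz H c) (fun M : Fr => M.2 2) WW (ch x)),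
    fun x => Sec.ret φ (zz H c) (fun M : Fr => M.2 2) WW (ch x), ?_⟩
  have hmaps : ∀ x ∈ {ζ : ℂ | ζ ≠ 0},
      ch (chq (Sec.pmap φ (zz H c) (fun M : Fr => M.2 2) WW (ch x))) =
        Sec.pmap φ (zz H c) (fun M : Fr => M.2 2) WW (ch x) := fun x hx =>
    hcq _ (hs.pmap_mem (hcP x hx))
  refine ⟨?_, ?_, ?_, ?_, ?_, ?_, ?_⟩
  · rw [hset]
    exact hs.gmap_chart chart_open ch_contDiffOn hcP hq
  · rw [hset]
    exact hs.ret_chart chart_open ch_contDiffOn hcP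
  · intro x hx
    exact hqΩ _ (hs.pmap_mem (hcP x hx))
  · intro x hx
    exact hs.ret_pos (hcP x hx)
  · intro x hx
    rw [sig_eq, sig_eq]
    exact (hmaps x hx).symm
  · intro x hx
    obtain ⟨n, hn, hn2⟩ := hs.pmap_periodic (hcP x hx)
    refine ⟨n, hn, ?_⟩
    have hit : ∀ n : ℕ, ((fun x => chq (Sec.pmap φ (zz H c) (fun M : Fr => M.2 2) WW (ch x)))^[n] x
        ∈ {ζ : ℂ | ζ ≠ 0}) ∧
        ch ((fun x => chq (Sec.pmap φ (zz H c) (fun M : Fr => M.2 2) WW (ch x)))^[n] x) =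
        (Sec.pmap φ (zz H c) (fun M : Fr => M.2 2) WW)^[n] (ch x) := by
      intro n
      induction n with
      | zero => exact ⟨hx, rfl⟩
      | succ n ih =>
        rw [Function.iterate_succ_apply', Function.iterate_succ_apply']
        refine ⟨hqΩ _ (hs.pmap_mem (hcP _ ih.1)), ?_⟩
        rw [← ih.2]
        exact hmaps _ ih.1
    have h1 := hit n
    rw [hn2] at h1
    have h2 := hqc _ h1.1
    rw [h1.2, hqc x hx] at h2
    exact h2.symm
  · intro M hM h1 h2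
    obtain ⟨t, ht, htp⟩ := hs.meets (x := M) ⟨hM, h1, h2⟩
    refine ⟨t, chq (φ t M), hqΩ _ htp, ?_⟩
    rw [sig_eq, hcq _ htp]

end Pool.Agent.P85.R9
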