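import Pool.Agent.P85.FirstVar
import Pool.Agent.P85.Geo
import Pool.Agent.P85.Return
import Pool.Agent.P85.R3
import Pool.Agent.P85.Mean

/-!
# The common period (step (5)), instance for the frames
-/

set_option autoImplicit false
open scoped ContDiff Topology
open Real Set MeasureTheory Filter

namespace Pool.Agent.P85

variable {H : E3 → ℝ} {w c : ℝ} {φ : ℝ → Fr → Fr}

namespace Cm

lemma sig_ch : sig = R9.ch := by
  funext x
  exact R9.sig_eq x

lemma sig_mem {x : ℂ} (hx : x ≠ 0) : sig x ∈ St := by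
  rw [sig_ch]
  exact ⟨R9.ch_u_norm hx, R9.ch_e_norm hx, R9.ch_inner x⟩

/-- the derivative of the gradient is tangent -/
lemma inner_zero (hS : Supp H w) {u : E3} (hu : u ≠ 0) (v : E3) :
    inner ℝ u (fderiv ℝ (gradient H) u v) = 0 := by
  have h1 : HasFDerivAt (fderiv ℝ H) (fderiv ℝ (fderiv ℝ H) u) u :=
    ((hS.contDiffAt_fderiv hu).differentiableAt (by norm_num)).hasFDerivAt
  have h2 : HasFDerivAt (gradient H) (fderiv ℝ (gradient H) u) u :=
    ((Geod.contDiffAt_gradient hS hu).differentiableAt (by norm_num)).hasFDerivAt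
  have h3 : HasDerivAt (fun s : ℝ => u + s • v) v 0 := by
    simpa using ((hasDerivAt_id (0 : ℝ)).smul_const v).const_add u
  have h0 : u + (0 : ℝ) • v = u := by rw [zero_smul, add_zero]
  have h4 : HasDerivAt (fun s : ℝ => gradient H (u + s • v)) (fderiv ℝ (gradient H) u v) 0 := by
    have h2' : HasFDerivAt (gradient H) (fderiv ℝ (gradient H) u) (u + (0 : ℝ) • v) := by
      rw [h0]; exact h2
    exact h2'.comp_hasDerivAt 0 h3
  have h5 : HasDerivAt (fun s : ℝ => fderiv ℝ H (u + s • v)) (fderiv ℝ (fderiv ℝ H) u v) 0 := by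
    have h1' : HasFDerivAt (fderiv ℝ H) (fderiv ℝ (fderiv ℝ H) u) (u + (0 : ℝ) • v) := by
      rw [h0]; exact h1
    exact h1'.comp_hasDerivAt 0 h3
  have h6 : HasDerivAt (fun s : ℝ => fderiv ℝ H (u + s • v) u) (fderiv ℝ (fderiv ℝ H) u v u) 0 := by
    simpa using h5.clm_apply (hasDerivAt_const (0 : ℝ) u)
  have h7 : HasDerivAt (fun s : ℝ => inner ℝ (gradient H (u + s • v)) u)
      (inner ℝ (fderiv ℝ (gradient H) u v) u) 0 := by
    simpa using h4.inner ℝ (hasDerivAt_const (0 : ℝ) u)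
  have h8 : (fun s : ℝ => inner ℝ (gradient H (u + s • v)) u) =
      fun s : ℝ => fderiv ℝ H (u + s • v) u := funext fun s => Geod.inner_gradient _ _
  rw [h8] at h7
  rw [real_inner_comm, h7.unique h6]
  show D2 H u v u = 0
  rw [hS.D2_symm hu, R9.D2_rad hS hu]

lemma continuous_rot2' (M : Fr) : Continuous fun s => rot2 s M := by
  unfold rot2
  fun_prop

/-- Every frame is a limit of frames which are not vertical. -/
lemma dense_aux {M : Fr} (hM : M ∈ St) :
    M ∈ closure {M' : Fr | M' ∈ St ∧ bb M' 2 ≠ 1 ∧ bb M' 2 ≠ -1} := by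
  by_cases h : bb M 2 = 1 ∨ bb M 2 = -1
  · have hsq : bb M 2 ^ 2 = 1 := by
      rcases h with h | h <;> rw [h] <;> norm_num
    have hrow := R3.row_sq hM
    have hu : M.1 2 = 0 := by
      have : M.1 2 ^ 2 = 0 := by nlinarith [sq_nonneg (M.1 2), sq_nonneg (M.2 2)]
      exact pow_eq_zero_iff two_ne_zero |>.1 this
    have ht : Tendsto (fun s => rot2 s M) (𝓝[>] (0 : ℝ)) (𝓝 M) := by
      have h1 : Tendsto (fun s => rot2 s M) (𝓝 (0 : ℝ)) (𝓝 (rot2 0 M)) :=
        (continuous_rot2' M).tendsto 0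
      have h2 : rot2 0 M = M := by
        unfold rot2
        rw [Real.cos_zero, Real.sin_zero, one_smul, zero_smul, add_zero]
      rw [h2] at h1
      exact h1.mono_left nhdsWithin_le_nhds
    refine mem_closure_of_tendsto ht ?_
    have hπ : (0 : ℝ) < π / 2 := by positivity
    filter_upwards [Ioo_mem_nhdsGT hπ] with s hs
    have hb : bb (rot2 s M) 2 = Real.cos s * bb M 2 := by
      rw [R3.bb_rot2 s hM]
      simp [hu]
    have hc0 : 0 < Real.cos s := Real.cos_pos_of_mem_Ioo ⟨by linarith [hs.1], hs.2⟩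
    have hs0 : 0 < Real.sin s := Real.sin_pos_of_pos_of_lt_pi hs.1 (by linarith [hs.2, hπ])
    have hc1 : Real.cos s ^ 2 < 1 := by nlinarith [Real.sin_sq_add_cos_sq s]
    have hlt : bb (rot2 s M) 2 ^ 2 < 1 := by
      rw [hb, mul_pow, hsq, mul_one]; exact hc1
    refine ⟨R3.rot2_mem s hM, ?_, ?_⟩
    · intro h1; rw [h1] at hlt; norm_num at hlt
    · intro h1; rw [h1] at hlt; norm_num at hlt
  · push Not at h
    exact subset_closure ⟨hM, h.1, h.2⟩

end Cm

/-- **Step (5).** -/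
theorem common_period (hS : Supp H w) (hΦ : Flow H φ) {G : ℂ → ℂ} {Rt : ℂ → ℝ}
    (hR : Return φ G Rt) {n : ℕ} (hn : 0 < n) (hG : ∀ x, x ≠ 0 → G^[n] x = x) :
    ∃ L : ℝ, 0 < L ∧ ∀ M ∈ St, φ L M = M := by
  have hO : IsOpen {M : Fr | M.1 ≠ 0} := isOpen_ne_fun continuous_fst continuous_const
  have hne : ∀ {M : Fr}, M ∈ St → M.1 ≠ 0 := by
    intro M hM h0
    have := hM.1
    rw [h0, norm_zero] at this
    exact zero_ne_one this
  have hgr : ∀ M : Fr, M.1 ≠ 0 → ContDiffAt ℝ ∞ (fun M : Fr => gradient H M.1) M := by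
    intro M hM
    exact (Geod.contDiffAt_gradient hS hM).comp M contDiffAt_fst
  obtain ⟨T, hT, -, hper⟩ := exists_common_period (Z := Fr) (Y := ℂ) (E := E3) (φ := φ)
    hΦ.smooth hΦ.zero hΦ.add (Fr := St) (O := {M | M.1 ≠ 0}) hO (fun M hM => hne hM)
    (fun t M hM => hΦ.st t M hM) (p := fun M => gradient H M.1) (e := fun M => M.2)
    (n := fun M => M.1) (κ := fun M => -kap H M)
    (fun M hM => ((hgr M hM).of_le (by norm_num)).contDiffWithinAt)
    (contDiff_snd.contDiffOn)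
    (fun M hM t => Geod.hasDerivAt_point hS (M := fun s => φ s M) (fun s => hΦ.st s M hM)
      (fun s => hΦ.ode s M hM) t)
    (fun M hM => hM.2.1)
    (fun M hM t => by
      have h : HasDerivAt (fun s => (φ s M).2) (-(kap H (φ t M) • (φ t M).1)) t :=
        (hΦ.ode t M hM).snd
      rw [← neg_smul] at h
      exact h)
    (fun M hM v => by
      have h1 : HasFDerivAt (fun x : E3 => gradient H x) (fderiv ℝ (gradient H) M.1) M.1 :=
        ((Geod.contDiffAt_gradient hS (hne hM)).differentiableAt (by norm_num)).hasFDerivAt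
      have h2 : HasFDerivAt (fun M : Fr => gradient H M.1)
          ((fderiv ℝ (gradient H) M.1).comp (ContinuousLinearMap.fst ℝ E3 E3)) M :=
        h1.comp M hasFDerivAt_fst
      rw [h2.fderiv, ContinuousLinearMap.comp_apply]
      exact Cm.inner_zero hS (hne hM) v.1)
    (U := {x : ℂ | x ≠ 0}) isOpen_ne R9.chart_preconn ⟨1, one_ne_zero⟩ (c := sig)
    (by rw [Cm.sig_ch]; exact R9.ch_contDiffOn)
    (fun x hx => Cm.sig_mem hx) (Gm := G) (R := Rt) hR.smooth (fun x hx => hR.maps x hx)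
    hR.smooth_time (fun x hx => hR.time_pos x hx) (fun x hx => hR.eq x hx) hn
    (fun x hx => hG x hx)
    (fun M hM => by
      refine closure_mono ?_ (Cm.dense_aux hM)
      rintro M' ⟨h1, h2, h3⟩
      obtain ⟨t, x, hx, he⟩ := hR.hit M' h1 h2 h3
      refine ⟨-t, x, hx, ?_⟩
      rw [← he, ← hΦ.add, neg_add_cancel, hΦ.zero])
  exact ⟨T, hT, hper⟩

end Pool.Agent.P85
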