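import Mathlib

/-!
# Frames on a body of constant width: definitions

Frames are pairs `M = (u, e)` of orthogonal unit vectors of three-space, completed by `b = u × e`.
`H` is the support function of the body, `R(u) = D²H(u)` on the orthogonal complement of `u`.
-/

set_option autoImplicit false
open scoped ContDiff
open Real Set MeasureTheory

namespace Pool.Agent.P85

/-- Euclidean three-space. -/
abbrev E3 := EuclideanSpace ℝ (Fin 3)

/-- Pairs `(u, e)`. -/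
abbrev Fr := E3 × E3

/-- The point with given coordinates. -/
noncomputable def pt (x y z : ℝ) : E3 := !₂[x, y, z]

@[simp] lemma pt_zero (x y z : ℝ) : pt x y z 0 = x := rfl
@[simp] lemma pt_one (x y z : ℝ) : pt x y z 1 = y := rfl
@[simp] lemma pt_two (x y z : ℝ) : pt x y z 2 = z := rfl

lemma pt_eta (p : E3) : pt (p 0) (p 1) (p 2) = p := by
  ext i; fin_cases i <;> rfl

lemma inner_eq (x y : E3) : inner ℝ x y = x 0 * y 0 + x 1 * y 1 + x 2 * y 2 := by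
  simp [PiLp.inner_apply, Fin.sum_univ_three]
  ring

lemma norm_sq_eq (x : E3) : ‖x‖ ^ 2 = x 0 ^ 2 + x 1 ^ 2 + x 2 ^ 2 := by
  rw [← real_inner_self_eq_norm_sq, inner_eq]; ring

/-- The cross product. -/
noncomputable def cr (a b : E3) : E3 :=
  pt (a 1 * b 2 - a 2 * b 1) (a 2 * b 0 - a 0 * b 2) (a 0 * b 1 - a 1 * b 0)

/-- The third axis. -/
noncomputable def nu : E3 := pt 0 0 1

/-- The third vector of the frame `(u, e, b)`. -/
noncomputable def bb (M : Fr) : E3 := cr M.1 M.2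

/-- The frames. -/
def St : Set Fr := {M | ‖M.1‖ = 1 ∧ ‖M.2‖ = 1 ∧ inner ℝ M.1 M.2 = 0}

/-- The second derivative. -/
noncomputable def D2 (H : E3 → ℝ) (u v v' : E3) : ℝ := fderiv ℝ (fderiv ℝ H) u v v'

noncomputable def Ree (H : E3 → ℝ) (M : Fr) : ℝ := D2 H M.1 M.2 M.2
noncomputable def Reb (H : E3 → ℝ) (M : Fr) : ℝ := D2 H M.1 M.2 (bb M)
noncomputable def Rbb (H : E3 → ℝ) (M : Fr) : ℝ := D2 H M.1 (bb M) (bb M)

/-- The determinant of `R(u)`. -/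
noncomputable def Dn (H : E3 → ℝ) (M : Fr) : ℝ := Ree H M * Rbb H M - Reb H M ^ 2

/-- The normal curvature in the direction `e`. -/
noncomputable def kap (H : E3 → ℝ) (M : Fr) : ℝ := Rbb H M / Dn H M

/-- The geodesic torsion in the direction `e`. -/
noncomputable def tau (H : E3 → ℝ) (M : Fr) : ℝ := -Reb H M / Dn H M

/-- `H` is the support function of a smooth body of constant width `w`. -/
structure Supp (H : E3 → ℝ) (w : ℝ) : Prop where
  smooth : ContDiffOn ℝ ∞ H {0}ᶜ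
  hom : ∀ t : ℝ, 0 < t → ∀ x, H (t • x) = t * H x
  width : ∀ x, H x + H (-x) = w * ‖x‖
  wpos : 0 < w
  pos : ∀ u v : E3, ‖u‖ = 1 → inner ℝ u v = 0 → v ≠ 0 → 0 < D2 H u v v

/-- The boundary points with horizontal normal lie in the plane `x_3 = c`. -/
def Plane (H : E3 → ℝ) (c : ℝ) : Prop := ∀ u : E3, ‖u‖ = 1 → u 2 = 0 → (gradient H u) 2 = c

/-- The vector field `u' = κ e + τ b`, `e' = -κ u`. -/
noncomputable def Y (H : E3 → ℝ) (M : Fr) : Fr :=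
  (kap H M • M.2 + tau H M • bb M, -(kap H M • M.1))

/-- `φ` is the flow of `Y` on the frames (extended to all pairs). -/
structure Flow (H : E3 → ℝ) (φ : ℝ → Fr → Fr) : Prop where
  smooth : ContDiff ℝ 1 (fun q : ℝ × Fr => φ q.1 q.2)
  zero : ∀ M, φ 0 M = M
  add : ∀ s t M, φ (s + t) M = φ s (φ t M)
  st : ∀ t M, M ∈ St → φ t M ∈ St
  ode : ∀ t M, M ∈ St → HasDerivAt (fun s => φ s M) (Y H (φ t M)) t

/-- Every orbit is closed. -/
def Closed (φ : ℝ → Fr → Fr) : Prop := ∀ M ∈ St, ∃ T : ℝ, 0 < T ∧ φ T M = M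

/-- Rotation of the frame in the plane `(u, b)`. -/
noncomputable def rot2 (s : ℝ) (M : Fr) : Fr := (cos s • M.1 + sin s • bb M, M.2)

/-- Rotation of the frame in the plane `(u, e)`. -/
noncomputable def rot1 (s : ℝ) (M : Fr) : Fr :=
  (cos s • M.1 + sin s • M.2, -(sin s • M.1) + cos s • M.2)

/-- `μ` is the invariant probability measure on the frames. -/
structure Inv (μ : Measure Fr) : Prop where
  prob : IsProbabilityMeasure μ
  st : ∀ᵐ M ∂μ, M ∈ St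
  s1 : MeasurePreserving (fun M : Fr => (-M.1, M.2)) μ μ
  s2 : MeasurePreserving (fun M : Fr => (M.1, -M.2)) μ μ
  r1 : ∀ s, MeasurePreserving (rot1 s) μ μ
  r2 : ∀ s, MeasurePreserving (rot2 s) μ μ
  l1 : ∀ F : Fr → ℝ, (∀ M ∈ St, ContDiffAt ℝ 1 F M) → ∫ M, fderiv ℝ F M (M.2, -M.1) ∂μ = 0
  l2 : ∀ F : Fr → ℝ, (∀ M ∈ St, ContDiffAt ℝ 1 F M) → ∫ M, fderiv ℝ F M (bb M, 0) ∂μ = 0
  null : μ {M | bb M 2 = -1} = 0
  pos : ∀ F : Fr → ℝ, ContinuousOn F St → (∀ M ∈ St, 0 ≤ F M) → ∫ M, F M ∂μ = 0 →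
    ∀ M ∈ St, F M = 0

/-- The invariant measure of the flow. -/
noncomputable def dm (H : E3 → ℝ) (μ : Measure Fr) : Measure Fr :=
  μ.withDensity (fun M => ENNReal.ofReal (Dn H M))

/-- The chart of the page `u_3 = 0`, `e_3 > 0`: the frame with `(b_1 + i b_2) / (1 + b_3) = x`. -/
noncomputable def sig (x : ℂ) : Fr :=
  (pt (-x.im / ‖x‖) (x.re / ‖x‖) 0,
    pt (-(1 - ‖x‖ ^ 2) * x.re / (‖x‖ * (1 + ‖x‖ ^ 2)))
      (-(1 - ‖x‖ ^ 2) * x.im / (‖x‖ * (1 + ‖x‖ ^ 2))) (2 * ‖x‖ / (1 + ‖x‖ ^ 2)))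

/-- The page. -/
def Page : Set Fr := {M | M ∈ St ∧ M.1 2 = 0 ∧ 0 < M.2 2}

/-- The return map `G` and the return time `Rt` of the page in the chart `sig`. -/
structure Return (φ : ℝ → Fr → Fr) (G : ℂ → ℂ) (Rt : ℂ → ℝ) : Prop where
  smooth : ContDiffOn ℝ 1 G {0}ᶜ
  smooth_time : ContDiffOn ℝ 1 Rt {0}ᶜ
  maps : ∀ x, x ≠ 0 → G x ≠ 0
  time_pos : ∀ x, x ≠ 0 → 0 < Rt x
  eq : ∀ x, x ≠ 0 → φ (Rt x) (sig x) = sig (G x)
  per : ∀ x, x ≠ 0 → ∃ n : ℕ, 0 < n ∧ G^[n] x = x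
  hit : ∀ M ∈ St, bb M 2 ≠ 1 → bb M 2 ≠ -1 → ∃ (t : ℝ) (x : ℂ), x ≠ 0 ∧ φ t M = sig x

/-- The angular velocity `Im (V' / V)` of `V = (u_1 + i u_2) - i (e_1 + i e_2)`. -/
noncomputable def om (H : E3 → ℝ) (M : Fr) : ℝ :=
  kap H M - tau H M * M.2 2 / (1 + bb M 2)

/-- The hypotheses of the problem. -/
structure Hyp (K : Set E3) (f : E3 → ℝ) (w : ℝ) : Prop where
  smooth : ContDiff ℝ ∞ f
  eq : K = {x | f x ≤ 0}
  reg : ∀ x, f x = 0 → gradient f x ≠ 0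
  conv : Convex ℝ K
  cpt : IsCompact K
  int : (interior K).Nonempty
  wpos : 0 < w
  width : ∀ u : E3, ‖u‖ = 1 →
    sSup ((fun x => inner ℝ x u) '' K) + sSup ((fun x => inner ℝ x (-u)) '' K) = w

/-- Every unit speed geodesic of the surface `f = 0` is closed. -/
def AllClosed (f : E3 → ℝ) : Prop :=
  ∀ γ : ℝ → E3, ContDiff ℝ ∞ γ → (∀ t, f (γ t) = 0) → (∀ t, ‖deriv γ t‖ = 1) →
    (∀ t, ∃ c : ℝ, iteratedDeriv 2 γ t = c • gradient f (γ t)) →
    ∃ T : ℝ, 0 < T ∧ ∀ t, γ (t + T) = γ t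

/-- `H` is the support function of `K = {f ≤ 0}`, and its gradient is the inverse Gauss map. -/
structure IsSupp (K : Set E3) (f : E3 → ℝ) (w : ℝ) (H : E3 → ℝ) : Prop extends Supp H w where
  sup : ∀ u : E3, H u = sSup ((fun x => inner ℝ x u) '' K)
  mem : ∀ u : E3, u ≠ 0 → f (gradient H u) = 0
  normal : ∀ u : E3, u ≠ 0 → ∃ t : ℝ, 0 < t ∧ gradient f (gradient H u) = t • u
  surj : ∀ x : E3, f x = 0 → gradient H (gradient f x) = x

/-- The plane `⟨x, v⟩ = c` meets the surface `f = 0` and cuts it orthogonally. -/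
def OrthPlane (f : E3 → ℝ) (v : E3) (c : ℝ) : Prop :=
  (∃ x, f x = 0 ∧ inner ℝ x v = c) ∧ ∀ x, f x = 0 → inner ℝ x v = c → inner ℝ (gradient f x) v = 0

end Pool.Agent.P85
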