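import Mathlib

/-!
# Theorem P (MP_ac4f8b), row R8a: abstract parts
-/

set_option autoImplicit false

open Set Filter Topology MeasureTheory intervalIntegral

namespace Pool.Agent.P85

/-- a solution of `|f'| ≤ C |f|` which vanishes somewhere vanishes everywhere -/
theorem eq_zero_of_gron {f f' : ℝ → ℝ} (hf : ∀ t, HasDerivAt f (f' t) t) {C : ℝ}
    (hb : ∀ t, |f' t| ≤ C * |f t|) {s : ℝ} (hs : f s = 0) (t : ℝ) : f t = 0 := by
  have hkey : ∀ t, 2 * (f t * f' t) ≤ 2 * C * f t ^ 2 ∧ -(2 * C * f t ^ 2) ≤ 2 * (f t * f' t) := by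
    intro t
    have h1 : |f t * f' t| ≤ C * f t ^ 2 := by
      rw [abs_mul]
      calc |f t| * |f' t| ≤ |f t| * (C * |f t|) :=
            mul_le_mul_of_nonneg_left (hb t) (abs_nonneg _)
        _ = C * (|f t| * |f t|) := by ring
        _ = C * f t ^ 2 := by rw [abs_mul_abs_self, pow_two]
    have h2 := abs_le.1 h1
    constructor
    · linarith [h2.2]
    · linarith [h2.1]
  have hd1 : ∀ t, HasDerivAt (fun t => f t ^ 2 * Real.exp (-(2 * C * t)))
      ((2 * (f t * f' t) - 2 * C * f t ^ 2) * Real.exp (-(2 * C * t))) t := by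
    intro t
    have h1 := (hf t).pow 2
    have h2 : HasDerivAt (fun t : ℝ => Real.exp (-(2 * C * t)))
        (Real.exp (-(2 * C * t)) * (-(2 * C))) t := by
      have h3 : HasDerivAt (fun t : ℝ => -(2 * C * t)) (-(2 * C * 1)) t :=
        ((hasDerivAt_id t).const_mul (2 * C)).neg
      rw [mul_one] at h3
      exact h3.exp
    have h4 := h1.mul h2
    have h5 : ((2 * (f t * f' t) - 2 * C * f t ^ 2) * Real.exp (-(2 * C * t))) =
        (2 : ℕ) * f t ^ (2 - 1) * f' t * Real.exp (-(2 * C * t)) +
        f t ^ 2 * (Real.exp (-(2 * C * t)) * (-(2 * C))) := by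
      norm_num
      ring
    rw [h5]
    exact h4
  have hd2 : ∀ t, HasDerivAt (fun t => f t ^ 2 * Real.exp (2 * C * t))
      ((2 * (f t * f' t) + 2 * C * f t ^ 2) * Real.exp (2 * C * t)) t := by
    intro t
    have h1 := (hf t).pow 2
    have h2 : HasDerivAt (fun t : ℝ => Real.exp (2 * C * t))
        (Real.exp (2 * C * t) * (2 * C)) t := by
      have h3 : HasDerivAt (fun t : ℝ => 2 * C * t) (2 * C * 1) t :=
        (hasDerivAt_id t).const_mul (2 * C)
      rw [mul_one] at h3
      exact h3.exp
    have h4 := h1.mul h2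
    have h5 : ((2 * (f t * f' t) + 2 * C * f t ^ 2) * Real.exp (2 * C * t)) =
        (2 : ℕ) * f t ^ (2 - 1) * f' t * Real.exp (2 * C * t) +
        f t ^ 2 * (Real.exp (2 * C * t) * (2 * C)) := by
      norm_num
      ring
    rw [h5]
    exact h4
  have ha : Antitone (fun t => f t ^ 2 * Real.exp (-(2 * C * t))) := by
    apply antitone_of_deriv_nonpos
    · exact fun t => (hd1 t).differentiableAt
    · intro t
      rw [(hd1 t).deriv]
      apply mul_nonpos_of_nonpos_of_nonneg
      · linarith [(hkey t).1]
      · positivity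
  have hm : Monotone (fun t => f t ^ 2 * Real.exp (2 * C * t)) := by
    apply monotone_of_deriv_nonneg
    · exact fun t => (hd2 t).differentiableAt
    · intro t
      rw [(hd2 t).deriv]
      apply mul_nonneg
      · linarith [(hkey t).2]
      · positivity
  have h0 : f t ^ 2 ≤ 0 := by
    rcases le_total s t with h | h
    · have h1 := ha h
      simp only [hs] at h1
      have h2 := Real.exp_pos (-(2 * C * t))
      nlinarith
    · have h1 := hm h
      simp only [hs] at h1
      have h2 := Real.exp_pos (2 * C * t)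
      nlinarith
  exact pow_eq_zero_iff (two_ne_zero) |>.1 (le_antisymm h0 (sq_nonneg _))

/-- Barbier: the length of a curve of constant width, in the form needed here -/
theorem angle_eq {rho : ℝ → ℝ} (hc : Continuous rho) (hpos : ∀ s, 0 < rho s) {w : ℝ} (hw0 : w ≠ 0)
    (hw : ∀ s, rho s + rho (s + Real.pi) = w) {th : ℝ → ℝ}
    (hth : ∀ t, HasDerivAt th (1 / rho (th t)) t) (h0 : th 0 = 0) {La : ℝ} {k : ℤ}
    (hk : th La = k * (2 * Real.pi)) : th La = 2 * La / w := by
  have hint : ∀ a b : ℝ, IntervalIntegrable rho volume a b := fun a b => hc.intervalIntegrable a b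
  -- time as the integral of the radius
  have h1 : ∀ t, HasDerivAt (fun t => ∫ s in (0 : ℝ)..th t, rho s) 1 t := by
    intro t
    have h2 : HasDerivAt (fun x => ∫ s in (0 : ℝ)..x, rho s) (rho (th t)) (th t) :=
      intervalIntegral.integral_hasDerivAt_right (hint _ _)
        (hc.stronglyMeasurableAtFilter _ _) hc.continuousAt
    have h3 := h2.comp t (hth t)
    have h4 : rho (th t) * (1 / rho (th t)) = 1 := by
      have := (hpos (th t)).ne'
      field_simp
    rwa [h4] at h3
  have h2 : ∫ s in (0 : ℝ)..th La, rho s = La := by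
    have h3 : ∀ t, HasDerivAt (fun t => (∫ s in (0 : ℝ)..th t, rho s) - t) 0 t := by
      intro t
      have h5 := (h1 t).sub (hasDerivAt_id t)
      rw [sub_self] at h5
      exact h5
    have h4 := is_const_of_deriv_eq_zero (fun t => (h3 t).differentiableAt) (fun t => (h3 t).deriv)
      La 0
    simp only [h0, integral_same, sub_zero] at h4
    linarith
  have hper : Function.Periodic rho (2 * Real.pi) := by
    intro s
    have h3 := hw s
    have h4 := hw (s + Real.pi)
    have h5 : s + Real.pi + Real.pi = s + 2 * Real.pi := by ring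
    rw [h5] at h4
    linarith
  have h3 : ∫ s in (0 : ℝ)..(2 * Real.pi), rho s = Real.pi * w := by
    have h4 : ∫ s in (0 : ℝ)..(2 * Real.pi), rho s =
        (∫ s in (0 : ℝ)..Real.pi, rho s) + ∫ s in Real.pi..(2 * Real.pi), rho s :=
      (integral_add_adjacent_intervals (hint _ _) (hint _ _)).symm
    have h5 : ∫ s in Real.pi..(2 * Real.pi), rho s = ∫ s in (0 : ℝ)..Real.pi, rho (s + Real.pi) := by
      rw [intervalIntegral.integral_comp_add_right]
      congr 1
      · ring
      · ring
    rw [h4, h5, ← integral_add (hint _ _)]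
    · simp_rw [hw]
      rw [intervalIntegral.integral_const, smul_eq_mul, sub_zero]
    · exact (hc.comp (continuous_id.add continuous_const)).intervalIntegrable _ _
  have h4 : ∫ s in (0 : ℝ)..th La, rho s = k * (Real.pi * w) := by
    have h5 := hper.intervalIntegral_add_zsmul_eq k 0 (fun _ _ => hint _ _)
    rw [zero_add, zero_add, h3, zsmul_eq_mul, zsmul_eq_mul] at h5
    rw [hk]
    exact h5
  rw [h4] at h2
  rw [hk, ← h2]
  field_simp

end Pool.Agent.P85
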