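import Pool.Agent.P85.Defs

/-!
# Theorem P (MP_ac4f8b), row R8a: frames and second derivatives
-/

set_option autoImplicit false

open Set Filter Topology
open scoped ContDiff

namespace Pool.Agent.P85.Eqt

open Pool.Agent.P85

lemma cr_zero (u e : E3) : cr u e 0 = u 1 * e 2 - u 2 * e 1 := rfl
lemma cr_one (u e : E3) : cr u e 1 = u 2 * e 0 - u 0 * e 2 := rfl
lemma cr_two (u e : E3) : cr u e 2 = u 0 * e 1 - u 1 * e 0 := rfl
lemma nu_zero : nu 0 = 0 := rfl
lemma nu_one : nu 1 = 0 := rfl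
lemma nu_two : nu 2 = 1 := rfl

lemma ext3 {x y : E3} (h0 : x 0 = y 0) (h1 : x 1 = y 1) (h2 : x 2 = y 2) : x = y := by
  ext i
  fin_cases i
  · exact h0
  · exact h1
  · exact h2

lemma norm_eq_one3 {x : E3} : ‖x‖ = 1 ↔ x 0 ^ 2 + x 1 ^ 2 + x 2 ^ 2 = 1 := by
  rw [← norm_sq_eq]
  constructor
  · intro h
    rw [h, one_pow]
  · intro h
    exact (pow_eq_one_iff_of_nonneg (norm_nonneg x) two_ne_zero).1 h

lemma ne_zero {u : E3} (hu : ‖u‖ = 1) : u ≠ 0 := by
  rintro rfl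
  rw [norm_zero] at hu
  exact zero_ne_one hu

lemma norm_nu : ‖nu‖ = 1 := by
  rw [norm_eq_one3, nu_zero, nu_one, nu_two]
  norm_num

section frames

variable {M : Fr}

lemma hu (h : M ∈ St) : M.1 0 ^ 2 + M.1 1 ^ 2 + M.1 2 ^ 2 = 1 := norm_eq_one3.1 h.1
lemma he (h : M ∈ St) : M.2 0 ^ 2 + M.2 1 ^ 2 + M.2 2 ^ 2 = 1 := norm_eq_one3.1 h.2.1
lemma ue (h : M ∈ St) : M.1 0 * M.2 0 + M.1 1 * M.2 1 + M.1 2 * M.2 2 = 0 := by
  rw [← inner_eq]
  exact h.2.2

lemma bsq (h : M ∈ St) : bb M 0 ^ 2 + bb M 1 ^ 2 + bb M 2 ^ 2 = 1 := by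
  simp only [bb, cr_zero, cr_one, cr_two]
  have h1 := hu h
  have h2 := he h
  have h3 := ue h
  have h4 : (M.1 1 * M.2 2 - M.1 2 * M.2 1) ^ 2 + (M.1 2 * M.2 0 - M.1 0 * M.2 2) ^ 2 +
      (M.1 0 * M.2 1 - M.1 1 * M.2 0) ^ 2 =
      (M.1 0 ^ 2 + M.1 1 ^ 2 + M.1 2 ^ 2) * (M.2 0 ^ 2 + M.2 1 ^ 2 + M.2 2 ^ 2) -
      (M.1 0 * M.2 0 + M.1 1 * M.2 1 + M.1 2 * M.2 2) ^ 2 := by ring
  rw [h4, h1, h2, h3]
  ring

/-- the rows of an orthogonal matrix -/
lemma row2 (h : M ∈ St) : M.1 2 ^ 2 + M.2 2 ^ 2 + bb M 2 ^ 2 = 1 := by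
  simp only [bb, cr_two]
  have h1 := hu h
  have h2 := he h
  have h3 := ue h
  have e1 : (M.1 0 * M.2 1 - M.1 1 * M.2 0) ^ 2 =
      (M.1 0 ^ 2 + M.1 1 ^ 2) * (M.2 0 ^ 2 + M.2 1 ^ 2) -
      (M.1 0 * M.2 0 + M.1 1 * M.2 1) ^ 2 := by ring
  have e2 : M.1 0 ^ 2 + M.1 1 ^ 2 = 1 - M.1 2 ^ 2 := by linarith
  have e3 : M.2 0 ^ 2 + M.2 1 ^ 2 = 1 - M.2 2 ^ 2 := by linarith
  have e4 : M.1 0 * M.2 0 + M.1 1 * M.2 1 = -(M.1 2 * M.2 2) := by linarith
  rw [e1, e2, e3, e4]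
  ring

/-- `|h|² e = b₃ h + e₃ k` with `h = ν × u`, `k = ν - u₃ u` -/
lemma e_eq (h : M ∈ St) : (1 - M.1 2 ^ 2) • M.2 =
    (bb M 2) • cr nu M.1 + (M.2 2) • (nu - (M.1 2) • M.1) := by
  have h1 := hu h
  have h3 := ue h
  apply ext3
  · simp only [bb, cr_two, cr_zero, nu_zero, nu_one, nu_two, PiLp.smul_apply, PiLp.add_apply,
      PiLp.sub_apply, smul_eq_mul]
    linear_combination (-(M.2 0)) * h1 + (M.1 0) * h3
  · simp only [bb, cr_two, cr_one, nu_zero, nu_one, nu_two, PiLp.smul_apply, PiLp.add_apply,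
      PiLp.sub_apply, smul_eq_mul]
    linear_combination (-(M.2 1)) * h1 + (M.1 1) * h3
  · simp only [bb, cr_two, nu_zero, nu_one, nu_two, PiLp.smul_apply, PiLp.add_apply,
      PiLp.sub_apply, smul_eq_mul]
    ring

/-- `|h|² b = - e₃ h + b₃ k` -/
lemma b_eq (h : M ∈ St) : (1 - M.1 2 ^ 2) • bb M =
    (-(M.2 2)) • cr nu M.1 + (bb M 2) • (nu - (M.1 2) • M.1) := by
  have h1 := hu h
  have h3 := ue h
  apply ext3
  · simp only [bb, cr_two, cr_zero, nu_zero, nu_one, nu_two, PiLp.smul_apply, PiLp.add_apply,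
      PiLp.sub_apply, smul_eq_mul]
    linear_combination (M.1 2 * M.2 1) * h1 - (M.1 1 * M.1 2) * h3
  · simp only [bb, cr_two, cr_one, nu_zero, nu_one, nu_two, PiLp.smul_apply, PiLp.add_apply,
      PiLp.sub_apply, smul_eq_mul]
    linear_combination (-(M.1 2 * M.2 0)) * h1 + (M.1 0 * M.1 2) * h3
  · simp only [bb, cr_two, nu_zero, nu_one, nu_two, PiLp.smul_apply, PiLp.add_apply,
      PiLp.sub_apply, smul_eq_mul]
    ring

end frames

section derivs

variable {H : E3 → ℝ} {w c : ℝ}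

/-- the third component of the gradient -/
lemma grad2 (u : E3) : (gradient H u) 2 = fderiv ℝ H u nu := by
  have h1 : inner ℝ (gradient H u) nu = fderiv ℝ H u nu := by
    rw [gradient, InnerProductSpace.toDual_symm_apply]
  rw [← h1, inner_eq, nu_zero, nu_one, nu_two]
  ring

lemma cd (hS : Supp H w) {u : E3} (hu : u ≠ 0) : ContDiffAt ℝ ∞ H u :=
  hS.smooth.contDiffAt (isOpen_compl_singleton.mem_nhds hu)

lemma cd1 (hS : Supp H w) {u : E3} (hu : u ≠ 0) : ContDiffAt ℝ ∞ (fderiv ℝ H) u :=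
  (cd hS hu).fderiv_right (m := ∞) (by norm_num)

lemma cd2 (hS : Supp H w) {u : E3} (hu : u ≠ 0) : ContDiffAt ℝ ∞ (fderiv ℝ (fderiv ℝ H)) u :=
  (cd1 hS hu).fderiv_right (m := ∞) (by norm_num)

lemma hd0 (hS : Supp H w) {u : E3} (hu : u ≠ 0) : HasFDerivAt H (fderiv ℝ H u) u :=
  ((cd hS hu).differentiableAt (by norm_num)).hasFDerivAt

lemma hd1 (hS : Supp H w) {u : E3} (hu : u ≠ 0) :
    HasFDerivAt (fderiv ℝ H) (fderiv ℝ (fderiv ℝ H) u) u :=
  ((cd1 hS hu).differentiableAt (by norm_num)).hasFDerivAt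

/-- derivatives along curves -/
lemma hd_curve (hS : Supp H w) {ga : ℝ → E3} {g' : E3} {s : ℝ} (hg : HasDerivAt ga g' s)
    (h0 : ga s ≠ 0) (v : E3) :
    HasDerivAt (fun s => fderiv ℝ H (ga s) v) (D2 H (ga s) g' v) s := by
  have h1 := (hd1 hS h0).comp_hasDerivAt s hg
  have h2 := h1.clm_apply (hasDerivAt_const s v)
  rw [map_zero, add_zero] at h2
  exact h2

/-- the gradient is homogeneous of degree zero -/
lemma fderiv_hom (hS : Supp H w) {u : E3} (hu : u ≠ 0) {t : ℝ} (ht : 0 < t) :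
    fderiv ℝ H (t • u) = fderiv ℝ H u := by
  have htu : t • u ≠ 0 := smul_ne_zero ht.ne' hu
  have h1 : HasFDerivAt (fun x => H (t • x)) ((fderiv ℝ H (t • u)).comp (t • ContinuousLinearMap.id ℝ E3)) u :=
    (hd0 hS htu).comp u ((hasFDerivAt_id u).const_smul t)
  have h2 : HasFDerivAt (fun x => H (t • x)) (t • fderiv ℝ H u) u := by
    have h3 : (fun x => H (t • x)) = fun x => t * H x := by
      funext x
      exact hS.hom t ht x
    rw [h3]
    exact (hd0 hS hu).const_mul t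
  have h3 := h1.unique h2
  ext v
  have h4 := DFunLike.congr_fun h3 v
  have h5 : t * fderiv ℝ H (t • u) v = t * fderiv ℝ H u v := by
    have h6 : (fderiv ℝ H (t • u)) (t • v) = t * fderiv ℝ H u v := h4
    rwa [map_smul, smul_eq_mul] at h6
  exact mul_left_cancel₀ ht.ne' h5

/-- `R(u) u = 0` -/
lemma D2_self (hS : Supp H w) {u : E3} (hu : u ≠ 0) (v : E3) : D2 H u u v = 0 := by
  have h1 : HasDerivAt (fun s : ℝ => s • u) u 1 := by
    have h2 := (hasDerivAt_id (1 : ℝ)).smul_const u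
    rw [one_smul] at h2
    exact h2
  have h2 := hd_curve hS h1 (by rwa [one_smul]) v
  have h3 : HasDerivAt (fun s : ℝ => fderiv ℝ H (s • u) v) 0 1 := by
    have h4 : (fun s : ℝ => fderiv ℝ H (s • u) v) =ᶠ[𝓝 1] fun _ => fderiv ℝ H u v := by
      filter_upwards [lt_mem_nhds (zero_lt_one : (0 : ℝ) < 1)] with s hs
      rw [fderiv_hom hS hu hs]
    exact (hasDerivAt_const (1 : ℝ) _).congr_of_eventuallyEq h4
  have h4 := h2.unique h3
  rwa [one_smul] at h4

lemma D2_symm (hS : Supp H w) {u : E3} (hu : u ≠ 0) (v v' : E3) : D2 H u v v' = D2 H u v' v := by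
  have h := (cd hS hu).isSymmSndFDerivAt (by
    rw [minSmoothness_of_isRCLikeNormedField]
    exact WithTop.coe_le_coe.2 le_top)
  exact h v v'

lemma D2_add_left (u v v' x : E3) : D2 H u (v + v') x = D2 H u v x + D2 H u v' x := by
  simp [D2]

lemma D2_add_right (u v v' x : E3) : D2 H u x (v + v') = D2 H u x v + D2 H u x v' := by
  simp [D2]

lemma D2_smul_left (u v x : E3) (t : ℝ) : D2 H u (t • v) x = t * D2 H u v x := by
  simp [D2]

lemma D2_smul_right (u v x : E3) (t : ℝ) : D2 H u x (t • v) = t * D2 H u x v := by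
  simp [D2]

lemma D2_neg_left (u v x : E3) : D2 H u (-v) x = - D2 H u v x := by
  simp [D2]

lemma D2_neg_right (u v x : E3) : D2 H u x (-v) = - D2 H u x v := by
  simp [D2]

/-- the plane condition for all horizontal vectors -/
lemma plane_all (hS : Supp H w) (hP : Plane H c) {u : E3} (hu : u ≠ 0) (h2 : u 2 = 0) :
    fderiv ℝ H u nu = c := by
  have hn : 0 < ‖u‖ := norm_pos_iff.2 hu
  have h3 := hP (‖u‖⁻¹ • u) (by
    rw [norm_smul, norm_inv, norm_norm, inv_mul_cancel₀ hn.ne']) (by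
    rw [PiLp.smul_apply, h2, smul_zero])
  rw [grad2, fderiv_hom hS hu (inv_pos.2 hn)] at h3
  exact h3

/-- on the equator `R(u)(ν × u, ν) = 0` -/
lemma eq0 (hS : Supp H w) (hP : Plane H c) {u : E3} (hu : u ≠ 0) (h2 : u 2 = 0) :
    D2 H u (cr nu u) nu = 0 := by
  let ga : ℝ → E3 := fun s => Real.cos s • u + Real.sin s • cr nu u
  have hga : HasDerivAt ga (cr nu u) 0 := by
    have h3 := ((Real.hasDerivAt_cos 0).smul_const u).add
      ((Real.hasDerivAt_sin 0).smul_const (cr nu u))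
    rw [Real.sin_zero, Real.cos_zero, neg_zero, zero_smul, one_smul, zero_add] at h3
    exact h3
  have hga0 : ga 0 = u := by simp [ga]
  have hne : ∀ s, ga s ≠ 0 := by
    intro s hs
    have e0 : Real.cos s * u 0 + Real.sin s * (-(u 1)) = 0 := by
      have := congrArg (fun x : E3 => x 0) hs
      simp only [ga, PiLp.add_apply, PiLp.smul_apply, smul_eq_mul, cr_zero, nu_one, nu_two,
        PiLp.zero_apply] at this
      linear_combination this
    have e1 : Real.cos s * u 1 + Real.sin s * u 0 = 0 := by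
      have := congrArg (fun x : E3 => x 1) hs
      simp only [ga, PiLp.add_apply, PiLp.smul_apply, smul_eq_mul, cr_one, nu_zero, nu_two,
        PiLp.zero_apply] at this
      linear_combination this
    have e2 : u 0 ^ 2 + u 1 ^ 2 = 0 := by
      have h3 := Real.sin_sq_add_cos_sq s
      have h4 : (Real.cos s * u 0 + Real.sin s * (-(u 1))) ^ 2 +
        (Real.cos s * u 1 + Real.sin s * u 0) ^ 2 =
        (Real.sin s ^ 2 + Real.cos s ^ 2) * (u 0 ^ 2 + u 1 ^ 2) := by ring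
      rw [e0, e1, h3] at h4
      linarith
    apply hu
    have e3 : u 0 = 0 := by nlinarith [sq_nonneg (u 0), sq_nonneg (u 1)]
    have e4 : u 1 = 0 := by nlinarith [sq_nonneg (u 0), sq_nonneg (u 1)]
    exact ext3 e3 e4 h2
  have h3 := hd_curve hS (s := 0) (ga := ga) hga (hne 0) nu
  rw [hga0] at h3
  have h4 : HasDerivAt (fun s => fderiv ℝ H (ga s) nu) 0 0 := by
    have h5 : (fun s => fderiv ℝ H (ga s) nu) = fun _ => c := by
      funext s
      apply plane_all hS hP (hne s)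
      simp only [ga, PiLp.add_apply, PiLp.smul_apply, smul_eq_mul, cr_two, nu_zero, nu_one, h2]
      ring
    rw [h5]
    exact hasDerivAt_const _ _
  exact h3.unique h4

end derivs

end Pool.Agent.P85.Eqt

namespace Pool.Agent.P85

open Pool.Agent.P85.Eqt

variable {H : E3 → ℝ} {w c : ℝ}

/-- **Row R8a.** -/
theorem reb_zero (hS : Supp H w) (hP : Plane H c) {M : Fr} (hM : M ∈ St)
    (hb : bb M 2 = 1 ∨ bb M 2 = -1) : Reb H M = 0 := by
  have hb2 : bb M 2 ^ 2 = 1 := by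
    rcases hb with h | h <;> rw [h] <;> norm_num
  have h1 := row2 hM
  have hu2 : M.1 2 = 0 := by nlinarith [sq_nonneg (M.1 2), sq_nonneg (M.2 2)]
  have he2 : M.2 2 = 0 := by nlinarith [sq_nonneg (M.1 2), sq_nonneg (M.2 2)]
  have h3 := e_eq hM
  have h4 := b_eq hM
  rw [hu2, he2, zero_smul, add_zero, zero_pow two_ne_zero, sub_zero, one_smul] at h3
  rw [hu2, he2, neg_zero, zero_smul, zero_smul, zero_add, zero_pow two_ne_zero, sub_zero, one_smul,
    sub_zero] at h4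
  have h5 : Reb H M = D2 H M.1 (bb M 2 • cr nu M.1) (bb M 2 • nu) := by
    rw [← h3, ← h4]
    rfl
  rw [h5, D2_smul_left, D2_smul_right, eq0 hS hP (ne_zero hM.1) hu2]
  ring

end Pool.Agent.P85
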