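import Pool.Agent.P85.EqB

/-!
# Theorem P (MP_ac4f8b), row R8a: signs and the bound of the torsion
-/

set_option autoImplicit false

open Set Filter Topology
open scoped ContDiff

namespace Pool.Agent.P85

open Pool.Agent.P85.Eqt

variable {H : E3 → ℝ} {w c : ℝ}

namespace Eqt

/-- polar coordinates -/
lemma polar {u : E3} (hu : ‖u‖ = 1) : ∃ x : E3, ‖x‖ = 1 ∧ x 2 = 0 ∧ ∃ s : ℝ,
    s ∈ Icc (-(Real.pi / 2)) (Real.pi / 2) ∧ Real.sin s = u 2 ∧
      u = Real.cos s • x + Real.sin s • nu := by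
  have h1 := norm_eq_one3.1 hu
  have hs1 : -1 ≤ u 2 := by nlinarith [sq_nonneg (u 0), sq_nonneg (u 1)]
  have hs2 : u 2 ≤ 1 := by nlinarith [sq_nonneg (u 0), sq_nonneg (u 1)]
  have hsin : Real.sin (Real.arcsin (u 2)) = u 2 := Real.sin_arcsin hs1 hs2
  have hcs := Real.sin_sq_add_cos_sq (Real.arcsin (u 2))
  rw [hsin] at hcs
  by_cases hc : Real.cos (Real.arcsin (u 2)) = 0
  · refine ⟨pt 1 0 0, ?_, rfl, Real.arcsin (u 2), Real.arcsin_mem_Icc _, hsin, ?_⟩
    · rw [norm_eq_one3, pt_zero, pt_one, pt_two]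
      norm_num
    · rw [hc, hsin, zero_smul, zero_add]
      rw [hc] at hcs
      have h2 : u 0 ^ 2 + u 1 ^ 2 = 0 := by nlinarith
      have e0 : u 0 = 0 := by nlinarith [sq_nonneg (u 0), sq_nonneg (u 1)]
      have e1 : u 1 = 0 := by nlinarith [sq_nonneg (u 0), sq_nonneg (u 1)]
      apply ext3
      · rw [PiLp.smul_apply, nu_zero, smul_zero, e0]
      · rw [PiLp.smul_apply, nu_one, smul_zero, e1]
      · rw [PiLp.smul_apply, nu_two, smul_eq_mul, mul_one]
  · set a := Real.cos (Real.arcsin (u 2)) with ha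
    refine ⟨pt (u 0 / a) (u 1 / a) 0, ?_, rfl, Real.arcsin (u 2), Real.arcsin_mem_Icc _, hsin, ?_⟩
    · rw [norm_eq_one3, pt_zero, pt_one, pt_two]
      have h2 : u 0 ^ 2 + u 1 ^ 2 = a ^ 2 := by linarith
      field_simp
      linarith
    · rw [← ha, hsin]
      apply ext3
      · simp only [PiLp.add_apply, PiLp.smul_apply, nu_zero, pt_zero, smul_eq_mul]
        field_simp
        ring
      · simp only [PiLp.add_apply, PiLp.smul_apply, nu_one, pt_one, smul_eq_mul]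
        field_simp
        ring
      · simp only [PiLp.add_apply, PiLp.smul_apply, nu_two, pt_two, smul_eq_mul]
        ring

/-- the height function is increasing on meridians -/
lemma mono (hS : Supp H w) {x : E3} (hx : ‖x‖ = 1) (hx2 : x 2 = 0) :
    StrictMonoOn (fun r : ℝ => fderiv ℝ H (Real.cos r • x + Real.sin r • nu) nu)
      (Icc (-(Real.pi / 2)) (Real.pi / 2)) := by
  have hx3 := norm_eq_one3.1 hx
  rw [hx2] at hx3
  have hunit : ∀ r : ℝ, ‖Real.cos r • x + Real.sin r • nu‖ = 1 := by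
    intro r
    rw [norm_eq_one3]
    simp only [PiLp.add_apply, PiLp.smul_apply, smul_eq_mul, nu_zero, nu_one, nu_two, hx2]
    have h3 := Real.sin_sq_add_cos_sq r
    have h4 : (Real.cos r * x 0 + Real.sin r * 0) ^ 2 + (Real.cos r * x 1 + Real.sin r * 0) ^ 2 +
      (Real.cos r * 0 + Real.sin r * 1) ^ 2 = Real.cos r ^ 2 * (x 0 ^ 2 + x 1 ^ 2) +
      Real.sin r ^ 2 := by ring
    rw [h4]
    have h5 : x 0 ^ 2 + x 1 ^ 2 = 1 := by linarith
    rw [h5]
    linarith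
  have hunit' : ∀ r : ℝ, ‖-Real.sin r • x + Real.cos r • nu‖ = 1 := by
    intro r
    rw [norm_eq_one3]
    simp only [PiLp.add_apply, PiLp.smul_apply, smul_eq_mul, nu_zero, nu_one, nu_two, hx2]
    have h3 := Real.sin_sq_add_cos_sq r
    have h4 : (-Real.sin r * x 0 + Real.cos r * 0) ^ 2 + (-Real.sin r * x 1 + Real.cos r * 0) ^ 2 +
      (-Real.sin r * 0 + Real.cos r * 1) ^ 2 = Real.sin r ^ 2 * (x 0 ^ 2 + x 1 ^ 2) +
      Real.cos r ^ 2 := by ring
    rw [h4]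
    have h5 : x 0 ^ 2 + x 1 ^ 2 = 1 := by linarith
    rw [h5]
    linarith
  have hinner : ∀ r : ℝ, inner ℝ (Real.cos r • x + Real.sin r • nu)
      (-Real.sin r • x + Real.cos r • nu) = 0 := by
    intro r
    rw [inner_eq]
    simp only [PiLp.add_apply, PiLp.smul_apply, smul_eq_mul, nu_zero, nu_one, nu_two, hx2]
    have h5 : x 0 ^ 2 + x 1 ^ 2 = 1 := by linarith
    linear_combination (-(Real.cos r * Real.sin r)) * h5
  have hga : ∀ r : ℝ, HasDerivAt (fun r : ℝ => Real.cos r • x + Real.sin r • nu)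
      (-Real.sin r • x + Real.cos r • nu) r := fun r =>
    ((Real.hasDerivAt_cos r).smul_const x).add ((Real.hasDerivAt_sin r).smul_const nu)
  have hder : ∀ r : ℝ, HasDerivAt
      (fun r : ℝ => fderiv ℝ H (Real.cos r • x + Real.sin r • nu) nu)
      (D2 H (Real.cos r • x + Real.sin r • nu) (-Real.sin r • x + Real.cos r • nu) nu) r :=
    fun r => hd_curve hS (hga r) (ne_zero (hunit r)) nu
  apply strictMonoOn_of_deriv_pos (convex_Icc _ _)
  · exact fun r _ => (hder r).continuousAt.continuousWithinAt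
  · intro r hr
    rw [interior_Icc] at hr
    rw [(hder r).deriv]
    have hcos : 0 < Real.cos r := Real.cos_pos_of_mem_Ioo ⟨by linarith [hr.1], hr.2⟩
    set g := Real.cos r • x + Real.sin r • nu with hg
    set g' := -Real.sin r • x + Real.cos r • nu with hg'
    have hnu : nu = Real.sin r • g + Real.cos r • g' := by
      have h3 := Real.sin_sq_add_cos_sq r
      rw [hg, hg']
      apply ext3
      · simp only [PiLp.add_apply, PiLp.smul_apply, smul_eq_mul, nu_zero]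
        ring
      · simp only [PiLp.add_apply, PiLp.smul_apply, smul_eq_mul, nu_one]
        ring
      · simp only [PiLp.add_apply, PiLp.smul_apply, smul_eq_mul, nu_two]
        linear_combination -h3
    have h4 : D2 H g g' nu = Real.cos r * D2 H g g' g' := by
      conv_lhs => rw [hnu]
      rw [D2_add_right, D2_smul_right, D2_smul_right, D2_symm hS (ne_zero (hunit r)) g' g,
        D2_self hS (ne_zero (hunit r)), mul_zero, zero_add]
    rw [h4]
    exact mul_pos hcos (hS.pos g g' (hunit r) (hinner r) (ne_zero (hunit' r)))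

end Eqt

/-- **Row R8a.** -/
theorem sign_pos (hS : Supp H w) (hP : Plane H c) {u : E3} (hu : ‖u‖ = 1) (h : 0 < u 2) :
    c < (gradient H u) 2 := by
  obtain ⟨x, hx, hx2, s, hs, hsin, hus⟩ := polar hu
  have hs0 : 0 < s := by
    by_contra hcon
    push Not at hcon
    have := Real.sin_nonpos_of_nonpos_of_neg_pi_le hcon (by linarith [hs.1, Real.pi_pos])
    linarith
  have h1 := mono hS hx hx2 (a := 0) (b := s) ⟨by linarith [Real.pi_pos], by linarith [Real.pi_pos]⟩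
    hs hs0
  have h2 := plane_all hS hP (ne_zero hx) hx2
  simp only [Real.cos_zero, Real.sin_zero, one_smul, zero_smul, add_zero, h2] at h1
  rw [grad2, hus]
  exact h1

/-- **Row R8a.** -/
theorem sign_neg (hS : Supp H w) (hP : Plane H c) {u : E3} (hu : ‖u‖ = 1) (h : u 2 < 0) :
    (gradient H u) 2 < c := by
  obtain ⟨x, hx, hx2, s, hs, hsin, hus⟩ := polar hu
  have hs0 : s < 0 := by
    by_contra hcon
    push Not at hcon
    have := Real.sin_nonneg_of_nonneg_of_le_pi hcon (by linarith [hs.2, Real.pi_pos])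
    linarith
  have h1 := mono hS hx hx2 (a := s) (b := 0) hs ⟨by linarith [Real.pi_pos], by linarith [Real.pi_pos]⟩
    hs0
  have h2 := plane_all hS hP (ne_zero hx) hx2
  simp only [Real.cos_zero, Real.sin_zero, one_smul, zero_smul, add_zero, h2] at h1
  rw [grad2, hus]
  exact h1

namespace Eqt

/-- a compact shell -/
def Shell : Set E3 := {x | ‖x‖ ≤ 1 ∧ 1 / 2 ≤ ‖x‖}

lemma isCompact_Shell : IsCompact Shell := by
  have h1 : Shell = Metric.closedBall 0 1 ∩ {x | 1 / 2 ≤ ‖x‖} := by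
    ext x
    simp [Shell]
  rw [h1]
  exact (isCompact_closedBall _ _).inter_right (isClosed_le continuous_const continuous_norm)

lemma Shell_ne {x : E3} (hx : x ∈ Shell) : x ≠ 0 := by
  rintro rfl
  have := hx.2
  rw [norm_zero] at this
  norm_num at this

/-- bounds of a smooth map and of its variation -/
lemma lip_gen {E F : Type*} [NormedAddCommGroup E] [NormedSpace ℝ E] [NormedAddCommGroup F]
    [NormedSpace ℝ F] {g : E → F} {K : Set E} (hK : IsCompact K)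
    (hg : ∀ x ∈ K, ContDiffAt ℝ ∞ g x) :
    ∃ C L : ℝ, 0 ≤ C ∧ 0 ≤ L ∧ (∀ x ∈ K, ‖g x‖ ≤ C) ∧
      ∀ x y, segment ℝ x y ⊆ K → ‖g y - g x‖ ≤ L * ‖y - x‖ := by
  have h1 : ContinuousOn g K := fun x hx => (hg x hx).continuousAt.continuousWithinAt
  have h2 : ContinuousOn (fderiv ℝ g) K := fun x hx =>
    ((hg x hx).fderiv_right (m := ∞) (by norm_num)).continuousAt.continuousWithinAt
  obtain ⟨C, hC⟩ := IsCompact.exists_bound_of_continuousOn (E := F) hK h1
  obtain ⟨L, hL⟩ := IsCompact.exists_bound_of_continuousOn (E := E →L[ℝ] F) hK h2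
  refine ⟨max C 0, max L 0, le_max_right _ _, le_max_right _ _,
    fun x hx => (hC x hx).trans (le_max_left _ _), fun x y hxy => ?_⟩
  exact (convex_segment x y).norm_image_sub_le_of_norm_fderiv_le
    (fun z hz => (hg z (hxy hz)).differentiableAt (by norm_num))
    (fun z hz => (hL z (hxy hz)).trans (le_max_left _ _)) (left_mem_segment ℝ x y)
    (right_mem_segment ℝ x y)

/-- bounds of the second derivative and of its variation -/
lemma gen_bounds {E : Type*} [NormedAddCommGroup E] [NormedSpace ℝ E] {f : E → ℝ} {K : Set E}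
    (hK : IsCompact K) (hf : ∀ x ∈ K, ContDiffAt ℝ ∞ (fderiv ℝ (fderiv ℝ f)) x) :
    ∃ C L : ℝ, 0 ≤ C ∧ 0 ≤ L ∧
    (∀ x ∈ K, ∀ v v' : E, |fderiv ℝ (fderiv ℝ f) x v v'| ≤ C * (‖v‖ * ‖v'‖)) ∧
    ∀ x y, segment ℝ x y ⊆ K → ∀ v v' : E,
      |fderiv ℝ (fderiv ℝ f) y v v' - fderiv ℝ (fderiv ℝ f) x v v'| ≤
        L * ‖y - x‖ * (‖v‖ * ‖v'‖) := by
  obtain ⟨C, L, hC0, hL0, hC, hL⟩ := lip_gen hK hf
  have key : ∀ (A : E →L[ℝ] E →L[ℝ] ℝ) (v v' : E), |A v v'| ≤ ‖A‖ * (‖v‖ * ‖v'‖) := by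
    intro A v v'
    have h3 : ‖A v v'‖ ≤ ‖A v‖ * ‖v'‖ := ContinuousLinearMap.le_opNorm _ _
    have h4 : ‖A v‖ ≤ ‖A‖ * ‖v‖ := ContinuousLinearMap.le_opNorm _ _
    calc |A v v'| = ‖A v v'‖ := rfl
      _ ≤ ‖A v‖ * ‖v'‖ := h3
      _ ≤ ‖A‖ * ‖v‖ * ‖v'‖ := mul_le_mul_of_nonneg_right h4 (norm_nonneg _)
      _ = ‖A‖ * (‖v‖ * ‖v'‖) := by ring
  refine ⟨C, L, hC0, hL0, ?_, ?_⟩
  · intro x hx v v'
    refine (key _ v v').trans ?_
    exact mul_le_mul_of_nonneg_right (hC x hx) (by positivity)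
  · intro x y hxy v v'
    have h4 := key (fderiv ℝ (fderiv ℝ f) y - fderiv ℝ (fderiv ℝ f) x) v v'
    refine le_trans ?_ (h4.trans (mul_le_mul_of_nonneg_right (hL x y hxy) (by positivity)))
    rfl

/-- bounds of the second derivative and of its variation -/
lemma bounds (hS : Supp H w) : ∃ C L : ℝ, 0 ≤ C ∧ 0 ≤ L ∧
    (∀ x ∈ Shell, ∀ v v' : E3, |D2 H x v v'| ≤ C * (‖v‖ * ‖v'‖)) ∧
    ∀ x y, segment ℝ x y ⊆ Shell → ∀ v v' : E3,
      |D2 H y v v' - D2 H x v v'| ≤ L * ‖y - x‖ * (‖v‖ * ‖v'‖) :=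
  gen_bounds isCompact_Shell (fun _ hx => cd2 hS (Shell_ne hx))

lemma abs_D2_le {C : ℝ} (hC0 : 0 ≤ C) {x : E3}
    (hC : ∀ v v' : E3, |D2 H x v v'| ≤ C * (‖v‖ * ‖v'‖)) (v v' : E3) (hv : ‖v‖ ≤ 1)
    (hv' : ‖v'‖ ≤ 1) : |D2 H x v v'| ≤ C := by
  refine (hC v v').trans ?_
  have h1 : ‖v‖ * ‖v'‖ ≤ 1 := mul_le_one₀ hv (norm_nonneg _) hv'
  nlinarith

/-- near the equator `R(u)(ν × u, ν) = O(u₃)` -/
lemma F_bound (hS : Supp H w) (hP : Plane H c) {L : ℝ} (hL0 : 0 ≤ L)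
    (hL : ∀ x y, segment ℝ x y ⊆ Shell → ∀ v v' : E3,
      |D2 H y v v' - D2 H x v v'| ≤ L * ‖y - x‖ * (‖v‖ * ‖v'‖)) {u : E3} (hu : ‖u‖ = 1)
    (h2 : |u 2| ≤ 1 / 2) : |D2 H u (cr nu u) nu| ≤ L * |u 2| := by
  have hu3 := norm_eq_one3.1 hu
  have hsq : u 2 ^ 2 ≤ 1 / 4 := by
    have := abs_le.1 h2
    nlinarith
  set u' : E3 := pt (u 0) (u 1) 0 with hu'
  have hseg : segment ℝ u' u ⊆ Shell := by
    intro x hx
    rw [segment_eq_image] at hx
    obtain ⟨t, ⟨ht0, ht1⟩, rfl⟩ := hx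
    have h3 : ‖(1 - t) • u' + t • u‖ ^ 2 = u 0 ^ 2 + u 1 ^ 2 + (t * u 2) ^ 2 := by
      rw [norm_sq_eq]
      simp only [PiLp.add_apply, PiLp.smul_apply, smul_eq_mul, hu', pt_zero, pt_one, pt_two]
      ring
    have h4 := norm_nonneg ((1 - t) • u' + t • u)
    have h5 : (t * u 2) ^ 2 ≤ u 2 ^ 2 := by
      rw [mul_pow]
      have : t ^ 2 ≤ 1 := by nlinarith
      nlinarith [sq_nonneg (u 2)]
    constructor
    · show ‖(1 - t) • u' + t • u‖ ≤ 1
      nlinarith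
    · show 1 / 2 ≤ ‖(1 - t) • u' + t • u‖
      have h6 : (3 : ℝ) / 4 ≤ ‖(1 - t) • u' + t • u‖ ^ 2 := by
        rw [h3]
        nlinarith [sq_nonneg (t * u 2)]
      nlinarith
  have h3 := hL u' u hseg (cr nu u) nu
  have h4 : ‖u - u'‖ = |u 2| := by
    have h5 : ‖u - u'‖ ^ 2 = |u 2| ^ 2 := by
      rw [norm_sq_eq, sq_abs]
      simp only [PiLp.sub_apply, hu', pt_zero, pt_one, pt_two]
      ring
    exact (pow_left_inj₀ (norm_nonneg _) (abs_nonneg _) two_ne_zero).1 h5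
  rw [h4] at h3
  have h0 : D2 H u' (cr nu u) nu = 0 := by
    have h5 : cr nu u = cr nu u' := by
      apply ext3
      · simp only [cr_zero, nu_one, nu_two, hu', pt_one, pt_two]
        ring
      · simp only [cr_one, nu_zero, nu_two, hu', pt_zero, pt_two]
        ring
      · simp only [cr_two, nu_zero, nu_one, hu', pt_zero, pt_one]
    rw [h5]
    apply eq0 hS hP
    · exact Shell_ne (hseg (left_mem_segment ℝ u' u))
    · rfl
  have hn : ‖cr nu u‖ ≤ 1 := by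
    have h5 : ‖cr nu u‖ ^ 2 = u 0 ^ 2 + u 1 ^ 2 := by
      rw [norm_sq_eq]
      simp only [cr_zero, cr_one, cr_two, nu_zero, nu_one, nu_two]
      ring
    have h6 := norm_nonneg (cr nu u)
    nlinarith [sq_nonneg (u 2)]
  rw [h0, sub_zero, norm_nu, mul_one] at h3
  refine h3.trans ?_
  have h5 : 0 ≤ L * |u 2| := mul_nonneg hL0 (abs_nonneg _)
  nlinarith [norm_nonneg (cr nu u)]

/-- the expansion of `R_eb` -/
lemma reb_formula (hS : Supp H w) {M : Fr} (hM : M ∈ St) : (1 - M.1 2 ^ 2) ^ 2 * Reb H M =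
    bb M 2 * M.2 2 * (D2 H M.1 (nu - M.1 2 • M.1) (nu - M.1 2 • M.1) -
      D2 H M.1 (cr nu M.1) (cr nu M.1)) +
    (bb M 2 ^ 2 - M.2 2 ^ 2) * D2 H M.1 (cr nu M.1) nu := by
  have h0 := ne_zero hM.1
  have h1 : (1 - M.1 2 ^ 2) ^ 2 * Reb H M = D2 H M.1 ((1 - M.1 2 ^ 2) • M.2)
      ((1 - M.1 2 ^ 2) • bb M) := by
    rw [D2_smul_left, D2_smul_right]
    show _ = (1 - M.1 2 ^ 2) * ((1 - M.1 2 ^ 2) * Reb H M)
    ring
  rw [h1, e_eq hM, b_eq hM]
  have h2 : D2 H M.1 (cr nu M.1) (nu - M.1 2 • M.1) = D2 H M.1 (cr nu M.1) nu := by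
    rw [sub_eq_add_neg, D2_add_right, D2_neg_right, D2_smul_right, D2_symm hS h0 _ M.1,
      D2_self hS h0]
    ring
  have h3 : D2 H M.1 (nu - M.1 2 • M.1) (cr nu M.1) = D2 H M.1 (cr nu M.1) nu := by
    rw [D2_symm hS h0, h2]
  simp only [D2_add_left, D2_add_right, D2_smul_left, D2_smul_right, h2, h3]
  ring

/-- the bound of `R_eb` -/
lemma reb_bound (hS : Supp H w) (hP : Plane H c) : ∃ C : ℝ, 0 ≤ C ∧ ∀ M ∈ St,
    |Reb H M| ≤ C * √(1 + bb M 2) ∧ |Reb H M| ≤ C * √(1 - bb M 2) := by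
  obtain ⟨C, L, hC0, hL0, hC, hL⟩ := bounds hS
  refine ⟨4 * (2 * C + L) + 3 * C, by positivity, ?_⟩
  intro M hM
  have hu1 := hu hM
  have hrow := row2 hM
  have hsh : M.1 ∈ Shell := by
    constructor
    · rw [hM.1]
    · rw [hM.1]
      norm_num
  have hbb : ‖bb M‖ = 1 := norm_eq_one3.2 (bsq hM)
  have htriv : |Reb H M| ≤ C := abs_D2_le hC0 (hC _ hsh) _ _ hM.2.1.le hbb.le
  have hb1 : -1 ≤ bb M 2 := by nlinarith [sq_nonneg (M.1 2), sq_nonneg (M.2 2)]
  have hb2 : bb M 2 ≤ 1 := by nlinarith [sq_nonneg (M.1 2), sq_nonneg (M.2 2)]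
  -- it suffices to use a number `q` with `u₃² + e₃² ≤ 2 q²`
  have key : ∀ q : ℝ, 0 ≤ q → M.1 2 ^ 2 + M.2 2 ^ 2 ≤ 2 * q ^ 2 →
      |Reb H M| ≤ (4 * (2 * C + L) + 3 * C) * q := by
    intro q hq hq2
    rcases le_or_gt |M.1 2| (1 / 2) with h | h
    · have h1 := F_bound hS hP hL0 hL hM.1 h
      have h2 := reb_formula hS hM
      have hk : ‖nu - M.1 2 • M.1‖ ≤ 1 := by
        have h5 : ‖nu - M.1 2 • M.1‖ ^ 2 = 1 - M.1 2 ^ 2 := by
          rw [norm_sq_eq]
          simp only [PiLp.sub_apply, PiLp.smul_apply, smul_eq_mul, nu_zero, nu_one, nu_two]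
          linear_combination (M.1 2 ^ 2) * hu1
        have h6 := norm_nonneg (nu - M.1 2 • M.1)
        nlinarith [sq_nonneg (M.1 2)]
      have hh : ‖cr nu M.1‖ ≤ 1 := by
        have h5 : ‖cr nu M.1‖ ^ 2 = M.1 0 ^ 2 + M.1 1 ^ 2 := by
          rw [norm_sq_eq]
          simp only [cr_zero, cr_one, cr_two, nu_zero, nu_one, nu_two]
          ring
        have h6 := norm_nonneg (cr nu M.1)
        nlinarith [sq_nonneg (M.1 2)]
      have h3 := abs_D2_le hC0 (hC _ hsh) (nu - M.1 2 • M.1) (nu - M.1 2 • M.1) hk hk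
      have h4 := abs_D2_le hC0 (hC _ hsh) (cr nu M.1) (cr nu M.1) hh hh
      set X := D2 H M.1 (nu - M.1 2 • M.1) (nu - M.1 2 • M.1)
      set Y' := D2 H M.1 (cr nu M.1) (cr nu M.1)
      set Z := D2 H M.1 (cr nu M.1) nu
      have hsq : M.1 2 ^ 2 ≤ 1 / 4 := by
        have := abs_le.1 h
        nlinarith
      have h5 : |(1 - M.1 2 ^ 2) ^ 2 * Reb H M| ≤ |M.2 2| * (2 * C) + L * |M.1 2| := by
        rw [h2]
        refine (abs_add_le _ _).trans ?_
        rw [abs_mul, abs_mul, abs_mul]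
        have hbabs : |bb M 2| ≤ 1 := abs_le.2 ⟨hb1, hb2⟩
        have hxy : |X - Y'| ≤ 2 * C := by
          have h7 := abs_sub X Y'
          linarith
        have hbe : |bb M 2 ^ 2 - M.2 2 ^ 2| ≤ 1 := by
          rw [abs_le]
          constructor
          · nlinarith [sq_nonneg (M.1 2), sq_nonneg (bb M 2)]
          · nlinarith [sq_nonneg (M.1 2), sq_nonneg (M.2 2)]
        have h8 : |bb M 2| * |M.2 2| * |X - Y'| ≤ |M.2 2| * (2 * C) := by
          have h9 : |bb M 2| * |M.2 2| ≤ |M.2 2| := by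
            nlinarith [abs_nonneg (M.2 2), abs_nonneg (bb M 2)]
          calc |bb M 2| * |M.2 2| * |X - Y'| ≤ |M.2 2| * |X - Y'| :=
                mul_le_mul_of_nonneg_right h9 (abs_nonneg _)
            _ ≤ |M.2 2| * (2 * C) := mul_le_mul_of_nonneg_left hxy (abs_nonneg _)
        have h9 : |bb M 2 ^ 2 - M.2 2 ^ 2| * |Z| ≤ L * |M.1 2| := by
          calc |bb M 2 ^ 2 - M.2 2 ^ 2| * |Z| ≤ 1 * |Z| :=
                mul_le_mul_of_nonneg_right hbe (abs_nonneg _)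
            _ = |Z| := one_mul _
            _ ≤ L * |M.1 2| := h1
        linarith
      have hu2q : |M.1 2| ≤ 2 * q := by
        rw [abs_le]
        constructor <;> nlinarith [sq_nonneg (M.2 2)]
      have he2q : |M.2 2| ≤ 2 * q := by
        rw [abs_le]
        constructor <;> nlinarith [sq_nonneg (M.1 2)]
      rw [abs_mul, abs_of_nonneg (sq_nonneg _)] at h5
      have h6 : (9 : ℝ) / 16 ≤ (1 - M.1 2 ^ 2) ^ 2 := by nlinarith
      have h7 : (9 : ℝ) / 16 * |Reb H M| ≤ (1 - M.1 2 ^ 2) ^ 2 * |Reb H M| :=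
        mul_le_mul_of_nonneg_right h6 (abs_nonneg _)
      have h8 : |M.2 2| * (2 * C) ≤ 2 * q * (2 * C) :=
        mul_le_mul_of_nonneg_right he2q (by positivity)
      have h9 : L * |M.1 2| ≤ L * (2 * q) := mul_le_mul_of_nonneg_left hu2q hL0
      have h10 : 0 ≤ C * q := mul_nonneg hC0 hq
      have h11 : 0 ≤ L * q := mul_nonneg hL0 hq
      nlinarith
    · have h1 : 1 / 4 < M.1 2 ^ 2 := by
        rw [← sq_abs]
        nlinarith
      have h2 : 1 / 3 ≤ q := by nlinarith [sq_nonneg (M.2 2)]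
      have h3 : C ≤ 3 * C * q := by nlinarith
      have h10 : 0 ≤ C * q := mul_nonneg hC0 hq
      have h11 : 0 ≤ L * q := mul_nonneg hL0 hq
      nlinarith
  constructor
  · apply key _ (Real.sqrt_nonneg _)
    rw [Real.sq_sqrt (by linarith)]
    nlinarith
  · apply key _ (Real.sqrt_nonneg _)
    rw [Real.sq_sqrt (by linarith)]
    nlinarith

end Eqt

end Pool.Agent.P85
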