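import Mathlib

/-!
# The winding form of a moving frame
-/

set_option autoImplicit false

namespace Pool.Agent.P85.Wd

open MeasureTheory intervalIntegral Complex

section Algebra

variable {u1 u2 u3 e1 e2 e3 b1 b2 b3 : ℝ}

/-- the third row of a positively oriented orthonormal frame is a unit vector -/
lemma row_three (hu : u1 ^ 2 + u2 ^ 2 + u3 ^ 2 = 1) (he : e1 ^ 2 + e2 ^ 2 + e3 ^ 2 = 1)
    (hue : u1 * e1 + u2 * e2 + u3 * e3 = 0) (h3 : b3 = u1 * e2 - u2 * e1) :
    u3 ^ 2 + e3 ^ 2 + b3 ^ 2 = 1 := by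
  subst h3
  have h1 : (u1 * e2 - u2 * e1) ^ 2 = (u1 ^ 2 + u2 ^ 2) * (e1 ^ 2 + e2 ^ 2) -
    (u1 * e1 + u2 * e2) ^ 2 := by ring
  have h2 : u1 * e1 + u2 * e2 = -(u3 * e3) := by linarith
  have h4 : u1 ^ 2 + u2 ^ 2 = 1 - u3 ^ 2 := by linarith
  have h5 : e1 ^ 2 + e2 ^ 2 = 1 - e3 ^ 2 := by linarith
  rw [h1, h2, h4, h5]
  ring

/-- the complex number `U - iE` of a frame -/
noncomputable def VV (u1 u2 e1 e2 : ℝ) : ℂ := ⟨u1 + e2, u2 - e1⟩

lemma normSq_VV (hu : u1 ^ 2 + u2 ^ 2 + u3 ^ 2 = 1) (he : e1 ^ 2 + e2 ^ 2 + e3 ^ 2 = 1)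
    (hue : u1 * e1 + u2 * e2 + u3 * e3 = 0) (h3 : b3 = u1 * e2 - u2 * e1) :
    Complex.normSq (VV u1 u2 e1 e2) = (1 + b3) ^ 2 := by
  have h := row_three hu he hue h3
  rw [VV, Complex.normSq_mk]
  subst h3
  nlinarith

lemma VV_ne_zero (hu : u1 ^ 2 + u2 ^ 2 + u3 ^ 2 = 1) (he : e1 ^ 2 + e2 ^ 2 + e3 ^ 2 = 1)
    (hue : u1 * e1 + u2 * e2 + u3 * e3 = 0) (h3 : b3 = u1 * e2 - u2 * e1) (hb : b3 ≠ -1) :
    VV u1 u2 e1 e2 ≠ 0 := by
  intro h
  have h1 := normSq_VV hu he hue h3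
  rw [h, map_zero] at h1
  have h2 : 1 + b3 = 0 := by
    have := h1.symm
    exact pow_eq_zero_iff (two_ne_zero) |>.1 this
  exact hb (by linarith)

/-- the identity `(1 + b₃) B = -i (e₃ - i u₃) V` -/
lemma VV_b (hu : u1 ^ 2 + u2 ^ 2 + u3 ^ 2 = 1) (he : e1 ^ 2 + e2 ^ 2 + e3 ^ 2 = 1)
    (hue : u1 * e1 + u2 * e2 + u3 * e3 = 0) (h1 : b1 = u2 * e3 - u3 * e2)
    (h2 : b2 = u3 * e1 - u1 * e3) (h3 : b3 = u1 * e2 - u2 * e1) :
    ((1 + b3 : ℝ) : ℂ) * (⟨b1, b2⟩ : ℂ) = (⟨-u3, -e3⟩ : ℂ) * VV u1 u2 e1 e2 := by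
  subst h1 h2 h3
  apply Complex.ext
  · simp only [VV, Complex.mul_re, Complex.ofReal_re, Complex.ofReal_im]
    linear_combination (u1 * e3 + u3 * e1) * hue - u1 * u3 * he - e1 * e3 * hu
  · simp only [VV, Complex.mul_im, Complex.ofReal_re, Complex.ofReal_im]
    linear_combination (u2 * e3 + u3 * e2) * hue - u2 * u3 * he - e2 * e3 * hu

end Algebra

/-- a nowhere zero solution of `V' = W V` with `V Λ = V 0` has `∫ W ∈ 2πiℤ` -/
theorem integral_log_deriv {V W : ℝ → ℂ} (hV : ∀ t, HasDerivAt V (W t * V t) t) (hW : Continuous W)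
    {L : ℝ} (h0 : V 0 ≠ 0) (hL : V L = V 0) :
    ∃ n : ℤ, ∫ t in (0 : ℝ)..L, W t = n * (2 * Real.pi * Complex.I) := by
  have hF : ∀ t, HasDerivAt (fun t => ∫ s in (0 : ℝ)..t, W s) (W t) t := fun t =>
    intervalIntegral.integral_hasDerivAt_right (hW.intervalIntegrable _ _)
      (hW.stronglyMeasurableAtFilter _ _) hW.continuousAt
  have hG : ∀ t, HasDerivAt (fun t => V t * Complex.exp (-∫ s in (0 : ℝ)..t, W s)) 0 t := by
    intro t
    have h1 : HasDerivAt (fun t => Complex.exp (-∫ s in (0 : ℝ)..t, W s))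
        (Complex.exp (-∫ s in (0 : ℝ)..t, W s) * -W t) t := (hF t).neg.cexp
    have h2 : HasDerivAt (fun t => V t * Complex.exp (-∫ s in (0 : ℝ)..t, W s)) _ t :=
      (hV t).mul h1
    exact h2.congr_deriv (by ring)
  have hc : ∀ t, V t * Complex.exp (-∫ s in (0 : ℝ)..t, W s) = V 0 := by
    intro t
    have h3 := is_const_of_deriv_eq_zero (fun t => (hG t).differentiableAt)
      (fun t => (hG t).deriv) t 0
    simpa using h3
  have h4 := hc L
  rw [hL] at h4
  have h5 : Complex.exp (-∫ s in (0 : ℝ)..L, W s) = 1 := by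
    have := mul_left_cancel₀ h0 (h4.trans (mul_one _).symm)
    exact this
  obtain ⟨n, hn⟩ := Complex.exp_eq_one_iff.1 h5
  refine ⟨-n, ?_⟩
  have : ∫ s in (0 : ℝ)..L, W s = -(n * (2 * Real.pi * Complex.I)) := by
    rw [← hn, neg_neg]
  rw [this]
  push_cast
  ring

/-- Barbier: the integral of the curvature along the closed plane geodesic -/
theorem _root_.Pool.Agent.P85.barbier {ρ : ℝ → ℝ} (hρ : Continuous ρ) {w : ℝ} (hw0 : 0 < w)
    (hw : ∀ x, ρ x + ρ (x + Real.pi) = w) {u1 u2 k : ℝ → ℝ} (hk : Continuous k)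
    (hu : ∀ t, u1 t ^ 2 + u2 t ^ 2 = 1) (h1 : ∀ t, HasDerivAt u1 (-(k t * u2 t)) t)
    (h2 : ∀ t, HasDerivAt u2 (k t * u1 t) t)
    (hkr : ∀ t x, u1 t = Real.cos x → u2 t = Real.sin x → k t * ρ x = 1)
    {L : ℝ} (hL1 : u1 L = u1 0) (hL2 : u2 L = u2 0) :
    ∫ t in (0 : ℝ)..L, k t = 2 * L / w := by
  -- the azimuth
  obtain ⟨x0, hx1, hx2⟩ : ∃ x0, u1 0 = Real.cos x0 ∧ u2 0 = Real.sin x0 := by
    have h3 : Complex.normSq ⟨u1 0, u2 0⟩ = 1 := by
      rw [Complex.normSq_mk]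
      nlinarith [hu 0]
    have h4 : ‖(⟨u1 0, u2 0⟩ : ℂ)‖ = 1 := by
      rw [Complex.norm_def, h3, Real.sqrt_one]
    refine ⟨Complex.arg ⟨u1 0, u2 0⟩, ?_, ?_⟩
    · rw [Complex.cos_arg (by intro h; rw [h, norm_zero] at h4; norm_num at h4), h4, div_one]
    · rw [Complex.sin_arg, h4, div_one]
  set x : ℝ → ℝ := fun t => x0 + ∫ s in (0 : ℝ)..t, k s with hx
  have hxd : ∀ t, HasDerivAt x (k t) t := fun t => by
    have := intervalIntegral.integral_hasDerivAt_right (hk.intervalIntegrable 0 t)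
      (hk.stronglyMeasurableAtFilter _ _) hk.continuousAt
    exact this.const_add x0
  have hc : ∀ t, u1 t * Real.cos (x t) + u2 t * Real.sin (x t) = 1 := by
    have hd : ∀ t, HasDerivAt (fun t => u1 t * Real.cos (x t) + u2 t * Real.sin (x t)) 0 t := by
      intro t
      have h5 : HasDerivAt (fun t => u1 t * Real.cos (x t) + u2 t * Real.sin (x t)) _ t :=
        ((h1 t).mul (hxd t).cos).add ((h2 t).mul (hxd t).sin)
      exact h5.congr_deriv (by ring)
    intro t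
    have h6 := is_const_of_deriv_eq_zero (fun t => (hd t).differentiableAt)
      (fun t => (hd t).deriv) t 0
    rw [h6]
    have : x 0 = x0 := by simp [hx]
    rw [this, hx1, hx2]
    nlinarith [Real.sin_sq_add_cos_sq x0]
  have hcs : ∀ t, u1 t = Real.cos (x t) ∧ u2 t = Real.sin (x t) := by
    intro t
    have h7 := hc t
    have h8 := hu t
    have h9 := Real.sin_sq_add_cos_sq (x t)
    have h10 : (u1 t - Real.cos (x t)) ^ 2 + (u2 t - Real.sin (x t)) ^ 2 = 0 := by nlinarith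
    constructor <;> nlinarith [sq_nonneg (u1 t - Real.cos (x t)), sq_nonneg (u2 t - Real.sin (x t))]
  -- the time as a function of the azimuth
  have hF : ∀ y, HasDerivAt (fun y => ∫ s in x0..y, ρ s) (ρ y) y := fun y =>
    intervalIntegral.integral_hasDerivAt_right (hρ.intervalIntegrable _ _)
      (hρ.stronglyMeasurableAtFilter _ _) hρ.continuousAt
  have hx00 : x 0 = x0 := by simp [hx]
  have hT : ∀ t, ∫ s in x0..x t, ρ s = t := by
    have hd : ∀ t, HasDerivAt (fun t => (∫ s in x0..x t, ρ s) - t) 0 t := by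
      intro t
      have h11 : HasDerivAt (fun t => (∫ s in x0..x t, ρ s) - t) (ρ (x t) * k t - 1) t :=
        ((hF (x t)).comp t (hxd t)).sub (hasDerivAt_id t)
      refine h11.congr_deriv ?_
      have := hkr t (x t) (hcs t).1 (hcs t).2
      linarith
    intro t
    have h12 := is_const_of_deriv_eq_zero (fun t => (hd t).differentiableAt)
      (fun t => (hd t).deriv) t 0
    simp only [hx00, intervalIntegral.integral_same] at h12
    linarith
  -- the number of turns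
  obtain ⟨n, hn⟩ : ∃ n : ℤ, x L = x0 + n * (2 * Real.pi) := by
    have h13 : Complex.exp (x L * Complex.I) = Complex.exp (x0 * Complex.I) := by
      rw [Complex.exp_mul_I, Complex.exp_mul_I, ← Complex.ofReal_cos, ← Complex.ofReal_sin,
        ← Complex.ofReal_cos, ← Complex.ofReal_sin, ← (hcs L).1, ← (hcs L).2, ← hx1, ← hx2, hL1, hL2]
    obtain ⟨n, hn⟩ := Complex.exp_eq_exp_iff_exists_int.1 h13
    refine ⟨n, ?_⟩
    have h14 : ((x L : ℂ)) = x0 + n * (2 * Real.pi) := by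
      have h15 : (x L : ℂ) * Complex.I = (x0 + n * (2 * Real.pi)) * Complex.I := by
        rw [hn]; ring
      exact mul_right_cancel₀ Complex.I_ne_zero h15
    exact_mod_cast h14
  have hper : Function.Periodic ρ (2 * Real.pi) := by
    intro y
    have h1 := hw y
    have h2 := hw (y + Real.pi)
    rw [show y + 2 * Real.pi = y + Real.pi + Real.pi by ring]
    linarith
  have h16 : ∫ s in x0..x0 + 2 * Real.pi, ρ s = Real.pi * w := by
    have h17 : ∫ s in x0..x0 + 2 * Real.pi, ρ s =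
        (∫ s in x0..x0 + Real.pi, ρ s) + ∫ s in x0 + Real.pi..x0 + 2 * Real.pi, ρ s :=
      (intervalIntegral.integral_add_adjacent_intervals (hρ.intervalIntegrable _ _)
        (hρ.intervalIntegrable _ _)).symm
    have h18 : ∫ s in x0 + Real.pi..x0 + 2 * Real.pi, ρ s =
        ∫ s in x0..x0 + Real.pi, ρ (s + Real.pi) := by
      rw [intervalIntegral.integral_comp_add_right (fun s => ρ s)]
      congr 1
      ring
    have hρ' : Continuous fun s => ρ (s + Real.pi) := hρ.comp (continuous_add_const _)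
    rw [h17, h18, ← intervalIntegral.integral_add (hρ.intervalIntegrable _ _)
      (hρ'.intervalIntegrable _ _)]
    simp only [hw, intervalIntegral.integral_const, smul_eq_mul]
    ring
  have h19 : L = n * (Real.pi * w) := by
    have h20 := hT L
    rw [hn, show (n : ℝ) * (2 * Real.pi) = n • (2 * Real.pi) by rw [zsmul_eq_mul],
      hper.intervalIntegral_add_zsmul_eq n x0 (fun _ _ => hρ.intervalIntegrable _ _), h16] at h20
    rw [← h20, zsmul_eq_mul]
  have h21 : ∫ t in (0 : ℝ)..L, k t = n * (2 * Real.pi) := by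
    have : x L = x0 + ∫ t in (0 : ℝ)..L, k t := rfl
    linarith
  rw [h21, h19]
  field_simp

end Pool.Agent.P85.Wd
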