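import Pool.Agent.P85.EqA
import Pool.Agent.P85.EqC
import Pool.Agent.P85.Mean
import Pool.Agent.P85.Wind

/-!
# Theorem P (MP_ac4f8b), row R8a: the torsion, the closed orbits, the total curvature
-/

set_option autoImplicit false

open Set Filter Topology
open scoped ContDiff

namespace Pool.Agent.P85

open Pool.Agent.P85.Eqt

variable {H : E3 → ℝ} {w c : ℝ} {φ : ℝ → Fr → Fr}

namespace Eqt

/-- the determinant is bounded below on the frames -/
lemma Dn_lower (hS : Supp H w) : ∃ m : ℝ, 0 < m ∧ ∀ M ∈ St, m ≤ Dn H M := by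
  have hne : St.Nonempty := by
    refine ⟨(pt 1 0 0, pt 0 1 0), ?_, ?_, ?_⟩
    · rw [norm_eq_one3]
      simp
    · rw [norm_eq_one3]
      simp
    · rw [inner_eq]
      simp
  obtain ⟨M0, hM0, hmin⟩ := isCompact_St.exists_isMinOn hne hS.Dn_cont
  exact ⟨Dn H M0, hS.Dn_pos hM0, fun M hM => hmin hM⟩

end Eqt

/-- **Row R8a.** -/
theorem tau_bound (hS : Supp H w) (hP : Plane H c) : ∃ C : ℝ, 0 ≤ C ∧ ∀ M ∈ St,
    |tau H M| ≤ C * √(1 + bb M 2) ∧ |tau H M| ≤ C * √(1 - bb M 2) := by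
  obtain ⟨C, hC0, hC⟩ := reb_bound hS hP
  obtain ⟨m, hm, hDn⟩ := Dn_lower hS
  refine ⟨C / m, by positivity, ?_⟩
  intro M hM
  obtain ⟨h1, h2⟩ := hC M hM
  have hD := hDn M hM
  have hDpos : 0 < Dn H M := lt_of_lt_of_le hm hD
  have key : ∀ q : ℝ, 0 ≤ q → |Reb H M| ≤ C * q → |tau H M| ≤ C / m * q := by
    intro q hq h
    rw [tau, abs_div, abs_neg, abs_of_pos hDpos]
    calc |Reb H M| / Dn H M ≤ C * q / Dn H M := by gcongr
      _ ≤ C * q / m := by gcongr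
      _ = C / m * q := by ring
  exact ⟨key _ (Real.sqrt_nonneg _) h1, key _ (Real.sqrt_nonneg _) h2⟩

namespace Eqt

/-- derivatives of the coordinates along an orbit -/
lemma hd_u (hΦ : Flow H φ) {M : Fr} (hM : M ∈ St) (t : ℝ) (i : Fin 3) :
    HasDerivAt (fun s => (φ s M).1 i)
      (kap H (φ t M) * (φ t M).2 i + tau H (φ t M) * bb (φ t M) i) t := by
  have h1 : HasDerivAt (fun s => (φ s M).1) (Y H (φ t M)).1 t :=
    (ContinuousLinearMap.fst ℝ E3 E3).hasFDerivAt.comp_hasDerivAt t (hΦ.ode t M hM)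
  have h2 := (EuclideanSpace.proj i : E3 →L[ℝ] ℝ).hasFDerivAt.comp_hasDerivAt t h1
  exact h2

lemma hd_e (hΦ : Flow H φ) {M : Fr} (hM : M ∈ St) (t : ℝ) (i : Fin 3) :
    HasDerivAt (fun s => (φ s M).2 i) (-(kap H (φ t M) * (φ t M).1 i)) t := by
  have h1 : HasDerivAt (fun s => (φ s M).2) (Y H (φ t M)).2 t :=
    (ContinuousLinearMap.snd ℝ E3 E3).hasFDerivAt.comp_hasDerivAt t (hΦ.ode t M hM)
  have h2 := (EuclideanSpace.proj i : E3 →L[ℝ] ℝ).hasFDerivAt.comp_hasDerivAt t h1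
  exact h2

/-- `b₃' = - τ u₃` -/
lemma hd_b (hΦ : Flow H φ) {M : Fr} (hM : M ∈ St) (t : ℝ) :
    HasDerivAt (fun s => bb (φ s M) 2) (-(tau H (φ t M) * (φ t M).1 2)) t := by
  have h1 := ((hd_u hΦ hM t 0).mul (hd_e hΦ hM t 1)).sub ((hd_u hΦ hM t 1).mul (hd_e hΦ hM t 0))
  have hMt := hΦ.st t M hM
  have he' := he hMt
  have hue := ue hMt
  have e : -(tau H (φ t M) * (φ t M).1 2) =
      (kap H (φ t M) * (φ t M).2 0 + tau H (φ t M) * bb (φ t M) 0) * (φ t M).2 1 +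
        (φ t M).1 0 * -(kap H (φ t M) * (φ t M).1 1) -
      ((kap H (φ t M) * (φ t M).2 1 + tau H (φ t M) * bb (φ t M) 1) * (φ t M).2 0 +
        (φ t M).1 1 * -(kap H (φ t M) * (φ t M).1 0)) := by
    rw [bb_zero, bb_one]
    linear_combination (tau H (φ t M) * (φ t M).1 2) * he' - (tau H (φ t M) * (φ t M).2 2) * hue
  rw [e]
  exact h1

end Eqt

/-- **Row R8a.** -/
theorem never_neg (hS : Supp H w) (hP : Plane H c) (hΦ : Flow H φ) {M : Fr} (hM : M ∈ St)
    (h : bb M 2 ≠ -1) (t : ℝ) : bb (φ t M) 2 ≠ -1 := by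
  intro hcon
  obtain ⟨C, hC0, hC⟩ := tau_bound hS hP
  have h1 : ∀ s, HasDerivAt (fun s => 1 + bb (φ s M) 2) (-(tau H (φ s M) * (φ s M).1 2)) s :=
    fun s => (hd_b hΦ hM s).const_add 1
  have h2 : ∀ s, |-(tau H (φ s M) * (φ s M).1 2)| ≤ (2 * C) * |1 + bb (φ s M) 2| := by
    intro s
    have hMs := hΦ.st s M hM
    have hrow := row2 hMs
    have hb1 : -1 ≤ bb (φ s M) 2 := by nlinarith [sq_nonneg ((φ s M).1 2), sq_nonneg ((φ s M).2 2)]
    have hb2 : bb (φ s M) 2 ≤ 1 := by nlinarith [sq_nonneg ((φ s M).1 2), sq_nonneg ((φ s M).2 2)]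
    have h0 : 0 ≤ 1 + bb (φ s M) 2 := by linarith
    have hq := Real.sqrt_nonneg (1 + bb (φ s M) 2)
    have hqq := Real.sq_sqrt h0
    have hu : |(φ s M).1 2| ≤ 2 * √(1 + bb (φ s M) 2) := by
      rw [abs_le]
      constructor <;> nlinarith [sq_nonneg ((φ s M).2 2)]
    rw [abs_neg, abs_mul, abs_of_nonneg h0]
    calc |tau H (φ s M)| * |(φ s M).1 2| ≤ (C * √(1 + bb (φ s M) 2)) * (2 * √(1 + bb (φ s M) 2)) :=
          mul_le_mul (hC _ hMs).1 hu (abs_nonneg _) (by positivity)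
      _ = 2 * C * (√(1 + bb (φ s M) 2) ^ 2) := by ring
      _ = 2 * C * (1 + bb (φ s M) 2) := by rw [hqq]
  have h3 := eq_zero_of_gron h1 h2 (s := t) (by rw [hcon]; norm_num) 0
  rw [hΦ.zero] at h3
  exact h (by linarith)

/-- **Row R8a.** -/
theorem never_pos (hS : Supp H w) (hP : Plane H c) (hΦ : Flow H φ) {M : Fr} (hM : M ∈ St)
    (h : bb M 2 ≠ 1) (t : ℝ) : bb (φ t M) 2 ≠ 1 := by
  intro hcon
  obtain ⟨C, hC0, hC⟩ := tau_bound hS hP
  have h1 : ∀ s, HasDerivAt (fun s => 1 - bb (φ s M) 2) (- -(tau H (φ s M) * (φ s M).1 2)) s :=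
    fun s => (hd_b hΦ hM s).const_sub 1
  have h2 : ∀ s, |- -(tau H (φ s M) * (φ s M).1 2)| ≤ (2 * C) * |1 - bb (φ s M) 2| := by
    intro s
    have hMs := hΦ.st s M hM
    have hrow := row2 hMs
    have hb1 : -1 ≤ bb (φ s M) 2 := by nlinarith [sq_nonneg ((φ s M).1 2), sq_nonneg ((φ s M).2 2)]
    have hb2 : bb (φ s M) 2 ≤ 1 := by nlinarith [sq_nonneg ((φ s M).1 2), sq_nonneg ((φ s M).2 2)]
    have h0 : 0 ≤ 1 - bb (φ s M) 2 := by linarith
    have hq := Real.sqrt_nonneg (1 - bb (φ s M) 2)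
    have hqq := Real.sq_sqrt h0
    have hu : |(φ s M).1 2| ≤ 2 * √(1 - bb (φ s M) 2) := by
      rw [abs_le]
      constructor <;> nlinarith [sq_nonneg ((φ s M).2 2)]
    rw [abs_neg, abs_neg, abs_mul, abs_of_nonneg h0]
    calc |tau H (φ s M)| * |(φ s M).1 2| ≤ (C * √(1 - bb (φ s M) 2)) * (2 * √(1 - bb (φ s M) 2)) :=
          mul_le_mul (hC _ hMs).2 hu (abs_nonneg _) (by positivity)
      _ = 2 * C * (√(1 - bb (φ s M) 2) ^ 2) := by ring
      _ = 2 * C * (1 - bb (φ s M) 2) := by rw [hqq]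
  have h3 := eq_zero_of_gron h1 h2 (s := t) (by rw [hcon]; norm_num) 0
  rw [hΦ.zero] at h3
  exact h (by linarith)

namespace Eqt

/-- frames with `b = ν` -/
lemma of_b_one {M : Fr} (hM : M ∈ St) (hb : bb M 2 = 1) :
    M.1 2 = 0 ∧ M.2 2 = 0 ∧ M.2 0 = -(M.1 1) ∧ M.2 1 = M.1 0 ∧ bb M 0 = 0 ∧ bb M 1 = 0 := by
  have hrow := row2 hM
  rw [hb] at hrow
  have h1 : M.1 2 = 0 := by nlinarith [sq_nonneg (M.1 2), sq_nonneg (M.2 2)]
  have h2 : M.2 2 = 0 := by nlinarith [sq_nonneg (M.1 2), sq_nonneg (M.2 2)]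
  have h3 := hu hM
  have h4 := he hM
  have h5 := ue hM
  have h6 := hb
  rw [bb_two] at h6
  rw [h1] at h3 h5
  rw [h2] at h4 h5
  refine ⟨h1, h2, ?_, ?_, ?_, ?_⟩
  · have : (M.2 0 + M.1 1) ^ 2 + (M.2 1 - M.1 0) ^ 2 = 0 := by nlinarith
    nlinarith [sq_nonneg (M.2 0 + M.1 1), sq_nonneg (M.2 1 - M.1 0)]
  · have : (M.2 0 + M.1 1) ^ 2 + (M.2 1 - M.1 0) ^ 2 = 0 := by nlinarith
    nlinarith [sq_nonneg (M.2 0 + M.1 1), sq_nonneg (M.2 1 - M.1 0)]
  · rw [bb_zero, h1, h2]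
    ring
  · rw [bb_one, h1, h2]
    ring

/-- the frame of the closed orbit with azimuth `x` -/
noncomputable def gam (x : ℝ) : Fr := (pt (Real.cos x) (Real.sin x) 0, pt (-Real.sin x) (Real.cos x) 0)

lemma gam_St (x : ℝ) : gam x ∈ St := by
  have h := Real.sin_sq_add_cos_sq x
  refine ⟨?_, ?_, ?_⟩
  · show ‖pt (Real.cos x) (Real.sin x) 0‖ = 1
    rw [norm_eq_one3, pt_zero, pt_one, pt_two]
    linarith
  · show ‖pt (-Real.sin x) (Real.cos x) 0‖ = 1
    rw [norm_eq_one3, pt_zero, pt_one, pt_two]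
    linarith
  · show inner ℝ (pt (Real.cos x) (Real.sin x) 0) (pt (-Real.sin x) (Real.cos x) 0) = 0
    rw [inner_eq, pt_zero, pt_one, pt_two, pt_zero, pt_one, pt_two]
    ring

lemma continuous_gam : Continuous gam := by
  unfold gam pt
  fun_prop

lemma continuous_kap (hS : Supp H w) (hΦ : Flow H φ) {M : Fr} (hM : M ∈ St) :
    Continuous (fun t => kap H (φ t M)) := by
  have h1 : ContinuousOn (kap H) St := hS.Rbb_cont.div hS.Dn_cont (fun M hM => (hS.Dn_pos hM).ne')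
  have h2 : Continuous (fun t => φ t M) :=
    hΦ.smooth.continuous.comp (continuous_id.prodMk continuous_const)
  exact h1.comp_continuous h2 (fun t => hΦ.st t M hM)

end Eqt

/-- **Row R8a.** -/
theorem total_kap (hS : Supp H w) (hP : Plane H c) (hΦ : Flow H φ) {M : Fr} (hM : M ∈ St)
    (hb : bb M 2 = 1) {L : ℝ} (_hL : 0 < L) (hper : φ L M = M) :
    ∫ t in (0 : ℝ)..L, kap H (φ t M) = 2 * L / w := by
  have hbt : ∀ t, bb (φ t M) 2 = 1 := by
    intro t
    by_contra hcon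
    have h1 := never_pos hS hP hΦ (hΦ.st t M hM) hcon (-t)
    rw [← hΦ.add, neg_add_cancel, hΦ.zero] at h1
    exact h1 hb
  refine barbier (ρ := fun x => Ree H (gam x)) ?_ hS.wpos ?_ (u1 := fun t => (φ t M).1 0)
    (u2 := fun t => (φ t M).1 1) (k := fun t => kap H (φ t M)) (continuous_kap hS hΦ hM) ?_ ?_ ?_ ?_
    (by rw [hper, hΦ.zero]) (by rw [hper, hΦ.zero])
  · exact hS.Ree_cont.comp_continuous continuous_gam gam_St
  · intro x
    have h1 := hS.D2_add (gam_St x).1 (gam_St x).2.2 (gam_St x).2.2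
    rw [real_inner_self_eq_norm_sq, (gam_St x).2.1, one_pow, mul_one] at h1
    have h2 : Ree H (gam (x + Real.pi)) = D2 H (-(gam x).1) (gam x).2 (gam x).2 := by
      have e1 : (gam (x + Real.pi)).1 = -(gam x).1 := by
        apply ext3
        · show Real.cos (x + Real.pi) = -(Real.cos x)
          rw [Real.cos_add_pi]
        · show Real.sin (x + Real.pi) = -(Real.sin x)
          rw [Real.sin_add_pi]
        · show (0 : ℝ) = -0
          rw [neg_zero]
      have e2 : (gam (x + Real.pi)).2 = -(gam x).2 := by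
        apply ext3
        · show -Real.sin (x + Real.pi) = - -(Real.sin x)
          rw [Real.sin_add_pi]
        · show Real.cos (x + Real.pi) = -(Real.cos x)
          rw [Real.cos_add_pi]
        · show (0 : ℝ) = -0
          rw [neg_zero]
      show D2 H (gam (x + Real.pi)).1 (gam (x + Real.pi)).2 (gam (x + Real.pi)).2 = _
      rw [e1, e2, D2_neg_left, D2_neg_right, neg_neg]
    show Ree H (gam x) + Ree H (gam (x + Real.pi)) = w
    rw [h2]
    exact h1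
  · intro t
    have h1 := hu (hΦ.st t M hM)
    rw [(of_b_one (hΦ.st t M hM) (hbt t)).1] at h1
    linarith
  · intro t
    have h1 := hd_u hΦ hM t 0
    obtain ⟨-, -, h2, -, h3, -⟩ := of_b_one (hΦ.st t M hM) (hbt t)
    rw [h2, h3, mul_zero, add_zero, mul_neg] at h1
    exact h1
  · intro t
    have h1 := hd_u hΦ hM t 1
    obtain ⟨-, -, -, h2, -, h3⟩ := of_b_one (hΦ.st t M hM) (hbt t)
    rw [h2, h3, mul_zero, add_zero] at h1
    exact h1
  · intro t x hx1 hx2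
    have hMt := hΦ.st t M hM
    obtain ⟨h1, h2, h3, h4, -, -⟩ := of_b_one hMt (hbt t)
    have hg : φ t M = gam x := by
      apply Prod.ext
      · exact ext3 hx1 hx2 h1
      · exact ext3 (by rw [h3, hx2]; rfl) (by rw [h4, hx1]; rfl) h2
    have h5 := reb_zero hS hP hMt (Or.inl (hbt t))
    have h6 : kap H (φ t M) = 1 / Ree H (φ t M) := by
      have h7 := (hS.Rbb_pos hMt).ne'
      have h8 := (hS.Ree_pos hMt).ne'
      rw [kap, Dn, h5]
      field_simp
      ring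
    show kap H (φ t M) * Ree H (gam x) = 1
    rw [h6, hg]
    exact one_div_mul_cancel (hS.Ree_pos (gam_St x)).ne'

end Pool.Agent.P85
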