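import Mathlib

/-!
# Theorem P (MP_ac4f8b_gt), row R10: the first variation of length

If all orbits of the geodesic flow which start on a page come back to their starting point after the
time `L y`, `L` of class `C^1` on the (connected) page, then `L` is constant.
-/

open Set Filter Topology MeasureTheory

namespace Pool.Agent.P85

variable {E : Type*} [NormedAddCommGroup E] [InnerProductSpace ℝ E] [CompleteSpace E]

/-- The `s`-derivative of `F`, whose `t`-derivative `e` is of class `C^1`, has the `t`-derivative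
`∂_s e`. -/
theorem hasDerivAt_partial {F e : ℝ → ℝ → E} {F' : ℝ → E} {e' : ℝ → ℝ → E} {δ : ℝ} (hδ : 0 < δ)
    (hFt : ∀ s ∈ Ioo (-δ) δ, ∀ t, HasDerivAt (F s) (e s t) t)
    (hec : ∀ s ∈ Ioo (-δ) δ, Continuous (e s))
    (hFs : ∀ t, HasDerivAt (fun s => F s t) (F' t) 0)
    (hes : ∀ s ∈ Ioo (-δ) δ, ∀ t, HasDerivAt (fun s => e s t) (e' s t) s)
    (he'c : ContinuousOn (fun q : ℝ × ℝ => e' q.1 q.2) (Ioo (-δ) δ ×ˢ univ)) (t0 : ℝ) :
    HasDerivAt F' (e' 0 t0) t0 := by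
  have h0 : (0 : ℝ) ∈ Ioo (-δ) δ := ⟨by linarith, hδ⟩
  have he'0 : Continuous (e' 0) := by
    have h1 : ContinuousOn (fun t : ℝ => ((0 : ℝ), t)) univ := by fun_prop
    have h2 : ContinuousOn ((fun q : ℝ × ℝ => e' q.1 q.2) ∘ (fun t : ℝ => ((0 : ℝ), t))) univ :=
      he'c.comp h1 (fun t _ => ⟨h0, mem_univ _⟩)
    exact continuousOn_univ.1 h2
  -- the formula for `F'`
  have hform : ∀ t, F' t = F' t0 + ∫ τ in t0..t, e' 0 τ := by
    intro t
    -- bound
    have hK : IsCompact (Icc (-(δ / 2)) (δ / 2) ×ˢ (uIcc t0 t)) := isCompact_Icc.prod isCompact_uIcc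
    have hKsub : (Icc (-(δ / 2)) (δ / 2) ×ˢ (uIcc t0 t)) ⊆ Ioo (-δ) δ ×ˢ (univ : Set ℝ) := by
      rintro ⟨s, τ⟩ ⟨hs, _⟩
      have hs1 : -(δ / 2) ≤ s := hs.1
      have hs2 : s ≤ δ / 2 := hs.2
      exact ⟨⟨by simp only; linarith, by simp only; linarith⟩, mem_univ _⟩
    obtain ⟨C, hC⟩ := hK.exists_bound_of_continuousOn (he'c.mono hKsub)
    have hball : Metric.ball (0 : ℝ) (δ / 2) ⊆ Icc (-(δ / 2)) (δ / 2) := by
      intro s hs
      rw [Metric.mem_ball, Real.dist_eq, sub_zero, abs_lt] at hs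
      exact ⟨hs.1.le, hs.2.le⟩
    have hball2 : Metric.ball (0 : ℝ) (δ / 2) ⊆ Ioo (-δ) δ := by
      intro s hs
      rw [Metric.mem_ball, Real.dist_eq, sub_zero, abs_lt] at hs
      exact ⟨by linarith [hs.1], by linarith [hs.2]⟩
    have hint : HasDerivAt (fun s => ∫ τ in t0..t, e s τ) (∫ τ in t0..t, e' 0 τ) 0 := by
      refine (intervalIntegral.hasDerivAt_integral_of_dominated_loc_of_deriv_le
        (F := fun s τ => e s τ) (F' := fun s τ => e' s τ) (bound := fun _ => C)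
        (s := Metric.ball (0 : ℝ) (δ / 2)) (Metric.ball_mem_nhds _ (by linarith)) ?_ ?_ ?_ ?_ ?_ ?_).2
      · filter_upwards [Metric.ball_mem_nhds (0 : ℝ) (show 0 < δ / 2 by linarith)] with s hs
        exact (hec s (hball2 hs)).aestronglyMeasurable
      · exact (hec 0 h0).intervalIntegrable _ _
      · exact he'0.aestronglyMeasurable
      · refine Eventually.of_forall fun τ hτ s hs => ?_
        exact hC (s, τ) ⟨hball hs, uIoc_subset_uIcc hτ⟩
      · exact intervalIntegrable_const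
      · refine Eventually.of_forall fun τ _ s hs => ?_
        exact hes s (hball2 hs) τ
    have hF1 : HasDerivAt (fun s => F s t) (F' t0 + ∫ τ in t0..t, e' 0 τ) 0 := by
      refine ((hFs t0).add hint).congr_of_eventuallyEq ?_
      filter_upwards [Metric.ball_mem_nhds (0 : ℝ) (show 0 < δ / 2 by linarith)] with s hs
      have hs' := hball2 hs
      have := intervalIntegral.integral_eq_sub_of_hasDerivAt (a := t0) (b := t)
        (fun x _ => hFt s hs' x) ((hec s hs').intervalIntegrable _ _)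
      simp only [Pi.add_apply]
      rw [this]
      abel
    exact (hFs t).unique hF1
  have h1 : HasDerivAt (fun t => ∫ τ in t0..t, e' 0 τ) (e' 0 t0) t0 :=
    intervalIntegral.integral_hasDerivAt_right (he'0.intervalIntegrable _ _)
      (he'0.stronglyMeasurableAtFilter _ _) he'0.continuousAt
  have h2 : HasDerivAt (fun t => F' t0 + ∫ τ in t0..t, e' 0 τ) (e' 0 t0) t0 := h1.const_add _
  exact h2.congr_of_eventuallyEq (Eventually.of_forall hform)

/-- First variation on a family of unit speed curves `F s` with `e' = - κ n`, `n ⟂ ∂_s F`: if the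
curve `F s` comes back to its starting point at the time `L s`, then `L' = 0`. -/
theorem deriv_time_eq_zero {F e : ℝ → ℝ → E} {F' : ℝ → E} {e' : ℝ → ℝ → E} {n : ℝ → E}
    {κ : ℝ → ℝ} {δ : ℝ} (hδ : 0 < δ)
    (hFt : ∀ s ∈ Ioo (-δ) δ, ∀ t, HasDerivAt (F s) (e s t) t)
    (hec : ∀ s ∈ Ioo (-δ) δ, Continuous (e s))
    (hFs : ∀ t, HasDerivAt (fun s => F s t) (F' t) 0)
    (hes : ∀ s ∈ Ioo (-δ) δ, ∀ t, HasDerivAt (fun s => e s t) (e' s t) s)
    (he'c : ContinuousOn (fun q : ℝ × ℝ => e' q.1 q.2) (Ioo (-δ) δ ×ˢ univ))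
    (hunit : ∀ s ∈ Ioo (-δ) δ, ∀ t, ‖e s t‖ = 1)
    (het : ∀ t, HasDerivAt (e 0) (κ t • n t) t)
    (hn : ∀ t, inner ℝ (n t) (F' t) = 0)
    {L : ℝ → ℝ} {L' : ℝ} (hL : HasDerivAt L L' 0)
    (hF0 : HasFDerivAt (fun q : ℝ × ℝ => F q.1 q.2)
      ((ContinuousLinearMap.fst ℝ ℝ ℝ).smulRight (F' (L 0)) +
        (ContinuousLinearMap.snd ℝ ℝ ℝ).smulRight (e 0 (L 0))) (0, L 0))
    (hback : ∀ᶠ s in 𝓝 (0 : ℝ), F s (L s) = F s 0) (hback' : e 0 (L 0) = e 0 0) : L' = 0 := by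
  have h0 : (0 : ℝ) ∈ Ioo (-δ) δ := ⟨by linarith, hδ⟩
  -- `⟨e, ∂_s e⟩ = 0`
  have hee : ∀ t, inner ℝ (e 0 t) (e' 0 t) = 0 := by
    intro t
    have h1 : HasDerivAt (fun s => inner ℝ (e s t) (e s t))
        (inner ℝ (e 0 t) (e' 0 t) + inner ℝ (e' 0 t) (e 0 t)) 0 :=
      (hes 0 h0 t).inner ℝ (hes 0 h0 t)
    have h2 : HasDerivAt (fun s => inner ℝ (e s t) (e s t)) (0 : ℝ) 0 := by
      refine (hasDerivAt_const (0 : ℝ) (1 : ℝ)).congr_of_eventuallyEq ?_
      filter_upwards [Ioo_mem_nhds (show -δ < 0 by linarith) hδ] with s hs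
      rw [real_inner_self_eq_norm_sq, hunit s hs t, one_pow]
    have h3 := h1.unique h2
    rw [real_inner_comm (e 0 t) (e' 0 t)] at h3
    linarith [real_inner_comm (e 0 t) (e' 0 t)]
  -- `⟨e, ∂_s F⟩` is constant
  have hconst : ∀ t, HasDerivAt (fun t => inner ℝ (e 0 t) (F' t)) (0 : ℝ) t := by
    intro t
    have h1 := (het t).inner ℝ (hasDerivAt_partial hδ hFt hec hFs hes he'c t)
    have h2 : inner ℝ (e 0 t) (e' 0 t) + inner ℝ (κ t • n t) (F' t) = (0 : ℝ) := by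
      rw [hee t, real_inner_smul_left, hn t]; ring
    rw [h2] at h1
    exact h1
  have hc : inner ℝ (e 0 (L 0)) (F' (L 0)) = inner ℝ (e 0 0) (F' 0) := by
    have := is_const_of_deriv_eq_zero (f := fun t => inner ℝ (e 0 t) (F' t))
      (fun t => (hconst t).differentiableAt) (fun t => (hconst t).deriv) (L 0) 0
    exact this
  -- differentiate `F s (L s) = F s 0`
  have hg : HasDerivAt (fun s : ℝ => (s, L s)) ((1 : ℝ), L') 0 := (hasDerivAt_id (0 : ℝ)).prodMk hL
  have h4 : HasDerivAt (fun s => F s (L s)) (F' (L 0) + L' • e 0 (L 0)) 0 := by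
    have := hF0.comp_hasDerivAt (0 : ℝ) hg
    simpa [Function.comp_def] using this
  have h5 : HasDerivAt (fun s => F s (L s)) (F' 0) 0 :=
    (hFs 0).congr_of_eventuallyEq hback
  have h6 := h4.unique h5
  have h7 : inner ℝ (e 0 (L 0)) (F' (L 0) + L' • e 0 (L 0)) = inner ℝ (e 0 (L 0)) (F' 0) := by
    rw [h6]
  rw [inner_add_right, real_inner_smul_right, real_inner_self_eq_norm_sq, hunit 0 h0, hc, hback']
    at h7
  linarith

/-- **First variation on a page.** `P (·, y)`, `y ∈ U`, are unit speed curves with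
`e' = κ n`, `n ⟂ ∂_y P`, which come back after the time `Λ y`. Then `dΛ = 0`. -/
theorem page_fderiv_eq_zero {Y : Type*} [NormedAddCommGroup Y] [NormedSpace ℝ Y] {U : Set Y}
    (hU : IsOpen U) {P e : ℝ × Y → E} (hP : ContDiffOn ℝ 1 P (univ ×ˢ U))
    (he : ContDiffOn ℝ 1 e (univ ×ˢ U))
    (hPt : ∀ y ∈ U, ∀ t, HasDerivAt (fun t => P (t, y)) (e (t, y)) t)
    (hunit : ∀ y ∈ U, ∀ t, ‖e (t, y)‖ = 1)
    {κ : ℝ → Y → ℝ} {n : ℝ → Y → E}
    (het : ∀ y ∈ U, ∀ t, HasDerivAt (fun t => e (t, y)) (κ t y • n t y) t)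
    (hn : ∀ y ∈ U, ∀ t, ∀ v : Y, inner ℝ (n t y) (fderiv ℝ P (t, y) (0, v)) = 0)
    {Λ : Y → ℝ} (hΛ : DifferentiableOn ℝ Λ U)
    (hback : ∀ y ∈ U, P (Λ y, y) = P (0, y)) (hback' : ∀ y ∈ U, e (Λ y, y) = e (0, y)) :
    ∀ y ∈ U, fderiv ℝ Λ y = 0 := by
  intro y hy
  ext v
  rw [zero_apply]
  have hUo : IsOpen ((univ : Set ℝ) ×ˢ U) := isOpen_univ.prod hU
  -- the interval on which `y + s v` stays in `U`
  have hcont : Continuous (fun s : ℝ => y + s • v) := by fun_prop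
  have hnhds : (fun s : ℝ => y + s • v) ⁻¹' U ∈ 𝓝 (0 : ℝ) := by
    refine hcont.continuousAt.preimage_mem_nhds ?_
    simpa using hU.mem_nhds hy
  obtain ⟨δ, hδ, hδU⟩ := Metric.mem_nhds_iff.1 hnhds
  have hin : ∀ s ∈ Ioo (-δ) δ, y + s • v ∈ U := by
    intro s hs
    apply hδU
    rw [Metric.mem_ball, Real.dist_eq, sub_zero, abs_lt]
    exact hs
  have hmem : ∀ s ∈ Ioo (-δ) δ, ∀ t : ℝ, (t, y + s • v) ∈ (univ : Set ℝ) ×ˢ U :=
    fun s hs t => ⟨mem_univ _, hin s hs⟩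
  have hfd : ∀ {Q : ℝ × Y → E}, ContDiffOn ℝ 1 Q (univ ×ˢ U) → ∀ s ∈ Ioo (-δ) δ, ∀ t : ℝ,
      HasFDerivAt Q (fderiv ℝ Q (t, y + s • v)) (t, y + s • v) := by
    intro Q hQ s hs t
    exact ((hQ.differentiableOn one_ne_zero).differentiableAt
      (hUo.mem_nhds (hmem s hs t))).hasFDerivAt
  have hline : ∀ s t : ℝ, HasDerivAt (fun s : ℝ => (t, y + s • v)) ((0 : ℝ), v) s := by
    intro s t
    have h1 : HasDerivAt (fun s : ℝ => y + s • v) v s := by
      have := ((hasDerivAt_id s).smul_const v).const_add y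
      simpa using this
    exact (hasDerivAt_const s t).prodMk h1
  have hs0 : (0 : ℝ) ∈ Ioo (-δ) δ := ⟨by linarith, hδ⟩
  have hy0 : y + (0 : ℝ) • v = y := by simp
  refine deriv_time_eq_zero (F := fun s t => P (t, y + s • v)) (e := fun s t => e (t, y + s • v))
    (F' := fun t => fderiv ℝ P (t, y) (0, v))
    (e' := fun s t => fderiv ℝ e (t, y + s • v) (0, v)) (n := fun t => n t y)
    (κ := fun t => κ t y) (L := fun s => Λ (y + s • v)) hδ ?_ ?_ ?_ ?_ ?_ ?_ ?_ ?_ ?_ ?_ ?_ ?_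
  · intro s hs t
    exact hPt _ (hin s hs) t
  · intro s hs
    have : ContinuousOn (fun t : ℝ => e (t, y + s • v)) univ := by
      have h1 : ContinuousOn (fun t : ℝ => (t, y + s • v)) univ := by fun_prop
      exact he.continuousOn.comp h1 (fun t _ => hmem s hs t)
    exact continuousOn_univ.1 this
  · intro t
    have h1 := (hfd hP 0 hs0 t).comp_hasDerivAt (0 : ℝ) (hline 0 t)
    simpa [Function.comp_def] using h1
  · intro s hs t
    have h1 := (hfd he s hs t).comp_hasDerivAt s (hline s t)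
    simpa [Function.comp_def] using h1
  · have h1 : ContinuousOn (fderiv ℝ e) (univ ×ˢ U) := he.continuousOn_fderiv_of_isOpen hUo le_rfl
    have h2 : ContinuousOn (fun q : ℝ × ℝ => (q.2, y + q.1 • v)) (Ioo (-δ) δ ×ˢ univ) := by
      fun_prop
    have h3 : ContinuousOn (fun q : ℝ × ℝ => fderiv ℝ e (q.2, y + q.1 • v))
        (Ioo (-δ) δ ×ˢ univ) := h1.comp h2 (fun q hq => hmem q.1 hq.1 q.2)
    exact h3.clm_apply continuousOn_const
  · intro s hs t
    exact hunit _ (hin s hs) t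
  · intro t
    simpa using het y hy t
  · intro t
    exact hn y hy t v
  · have h1 : HasFDerivAt Λ (fderiv ℝ Λ y) (y + (0 : ℝ) • v) := by
      rw [hy0]
      exact (hΛ.differentiableAt (hU.mem_nhds hy)).hasFDerivAt
    have h2 : HasDerivAt (fun s : ℝ => y + s • v) v 0 := by
      have := ((hasDerivAt_id (0 : ℝ)).smul_const v).const_add y
      simpa using this
    have h3 := h1.comp_hasDerivAt (0 : ℝ) h2
    simpa [Function.comp_def] using h3
  · have h1 : HasFDerivAt (fun q : ℝ × ℝ => (q.2, y + q.1 • v))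
        ((ContinuousLinearMap.snd ℝ ℝ ℝ).prod ((ContinuousLinearMap.fst ℝ ℝ ℝ).smulRight v))
        ((0 : ℝ), Λ (y + (0 : ℝ) • v)) := by
      refine HasFDerivAt.prodMk hasFDerivAt_snd ?_
      have h2 : HasFDerivAt (fun q : ℝ × ℝ => q.1 • v)
          ((ContinuousLinearMap.fst ℝ ℝ ℝ).smulRight v) ((0 : ℝ), Λ (y + (0 : ℝ) • v)) :=
        (hasFDerivAt_fst (𝕜 := ℝ) (E := ℝ) (F := ℝ)).smul_const v
      exact h2.const_add y
    have h2 := (hfd hP 0 hs0 (Λ (y + (0 : ℝ) • v))).comp ((0 : ℝ), Λ (y + (0 : ℝ) • v)) h1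
    have h4 : fderiv ℝ P (Λ y, y) (1, 0) = e (Λ y, y) := by
      have h5 := (hfd hP 0 hs0 (Λ y)).comp_hasDerivAt (Λ y)
        ((hasDerivAt_id (Λ y)).prodMk (hasDerivAt_const (Λ y) (y + (0 : ℝ) • v)))
      have h6 := hPt y hy (Λ y)
      simp only [hy0] at h5
      have h7 := h5.unique h6
      simpa using h7
    refine h2.congr_fderiv ?_
    ext
    · simp only [hy0, ContinuousLinearMap.comp_apply, add_apply,
        ContinuousLinearMap.smulRight_apply, ContinuousLinearMap.prod_apply,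
        ContinuousLinearMap.inl_apply, ContinuousLinearMap.coe_fst', ContinuousLinearMap.coe_snd']
      simp
    · simp only [hy0, ContinuousLinearMap.comp_apply, add_apply,
        ContinuousLinearMap.smulRight_apply, ContinuousLinearMap.prod_apply,
        ContinuousLinearMap.inr_apply, ContinuousLinearMap.coe_fst', ContinuousLinearMap.coe_snd']
      simpa using h4
  · filter_upwards [Ioo_mem_nhds (show -δ < 0 by linarith) hδ] with s hs
    exact hback _ (hin s hs)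
  · simpa using hback' y hy

/-- **Step (5) of Theorem P.** A `C^1` flow on a set `Fr` of frames, a page `c : U → Fr` (`U` open
and connected) whose first return map `Gm` satisfies `Gm^N = id`; along the flow the point `p` moves
with unit speed `e`, and `e' = κ n`, `n ⟂ dp`. If the page is transported by the flow onto a dense
subset of `Fr`, all points of `Fr` have a common period. -/
theorem exists_common_period {Z Y : Type*} [NormedAddCommGroup Z] [NormedSpace ℝ Z]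
    [NormedAddCommGroup Y] [NormedSpace ℝ Y] {φ : ℝ → Z → Z}
    (hφ : ContDiff ℝ 1 (fun q : ℝ × Z => φ q.1 q.2)) (hφ0 : ∀ x, φ 0 x = x)
    (hφa : ∀ s t x, φ (s + t) x = φ s (φ t x))
    {Fr O : Set Z} (hO : IsOpen O) (hFrO : Fr ⊆ O) (hFr : ∀ t, ∀ g ∈ Fr, φ t g ∈ Fr)
    {p e n : Z → E} {κ : Z → ℝ} (hp : ContDiffOn ℝ 1 p O) (he : ContDiffOn ℝ 1 e O)
    (hpt : ∀ g ∈ Fr, ∀ t, HasDerivAt (fun t => p (φ t g)) (e (φ t g)) t)
    (hunit : ∀ g ∈ Fr, ‖e g‖ = 1)
    (het : ∀ g ∈ Fr, ∀ t, HasDerivAt (fun t => e (φ t g)) (κ (φ t g) • n (φ t g)) t)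
    (hn : ∀ g ∈ Fr, ∀ v : Z, inner ℝ (n g) (fderiv ℝ p g v) = 0)
    {U : Set Y} (hU : IsOpen U) (hUc : IsPreconnected U) (hUne : U.Nonempty)
    {c : Y → Z} (hc : ContDiffOn ℝ 1 c U) (hcFr : ∀ y ∈ U, c y ∈ Fr)
    {Gm : Y → Y} {R : Y → ℝ} (hG : ContDiffOn ℝ 1 Gm U) (hGU : MapsTo Gm U U)
    (hR : ContDiffOn ℝ 1 R U) (hRpos : ∀ y ∈ U, 0 < R y)
    (hret : ∀ y ∈ U, φ (R y) (c y) = c (Gm y))
    {N : ℕ} (hN : 0 < N) (hGN : ∀ y ∈ U, Gm^[N] y = y)
    (hdense : Fr ⊆ closure {g | ∃ t : ℝ, ∃ y ∈ U, φ t (c y) = g}) :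
    ∃ T : ℝ, 0 < T ∧ (∀ y ∈ U, ∑ i ∈ Finset.range N, R (Gm^[i] y) = T) ∧
      ∀ g ∈ Fr, φ T g = g := by
  -- iterates stay in `U` and are `C^1`
  have hit : ∀ i, MapsTo (Gm^[i]) U U := fun i => hGU.iterate i
  have hitC : ∀ i, ContDiffOn ℝ 1 (Gm^[i]) U := by
    intro i
    induction i with
    | zero => simpa using (contDiffOn_id : ContDiffOn ℝ 1 (id : Y → Y) U)
    | succ i ih =>
      rw [Function.iterate_succ']
      exact hG.comp ih (hit i)
  set Λ : Y → ℝ := fun y => ∑ i ∈ Finset.range N, R (Gm^[i] y) with hΛdef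
  have hΛC : ContDiffOn ℝ 1 Λ U := by
    refine ContDiffOn.sum fun i _ => ?_
    exact hR.comp (hitC i) (hit i)
  -- partial sums of the return times
  have hsum : ∀ k, ∀ y ∈ U, φ (∑ i ∈ Finset.range k, R (Gm^[i] y)) (c y) = c (Gm^[k] y) := by
    intro k
    induction k with
    | zero => intro y _; simp [hφ0]
    | succ k ih =>
      intro y hy
      rw [Finset.sum_range_succ, add_comm, hφa, ih y hy, hret _ (hit k hy),
        Function.iterate_succ_apply']
  have hback : ∀ y ∈ U, φ (Λ y) (c y) = c y := by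
    intro y hy
    rw [hΛdef]
    simp only
    rw [hsum N y hy, hGN y hy]
  -- the family of curves
  have hΦ : ContDiffOn ℝ 1 (fun q : ℝ × Y => φ q.1 (c q.2)) (univ ×ˢ U) := by
    have h1 : ContDiffOn ℝ 1 (fun q : ℝ × Y => (q.1, c q.2)) (univ ×ˢ U) := by
      refine contDiffOn_fst.prodMk ?_
      exact hc.comp contDiffOn_snd (fun q hq => hq.2)
    exact hφ.comp_contDiffOn h1
  have hΦFr : ∀ q ∈ (univ : Set ℝ) ×ˢ U, φ q.1 (c q.2) ∈ Fr :=
    fun q hq => hFr _ _ (hcFr _ hq.2)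
  have hd : ∀ y ∈ U, fderiv ℝ Λ y = 0 := by
    refine page_fderiv_eq_zero hU (P := fun q : ℝ × Y => p (φ q.1 (c q.2)))
      (e := fun q : ℝ × Y => e (φ q.1 (c q.2))) (κ := fun t y => κ (φ t (c y)))
      (n := fun t y => n (φ t (c y))) (hp.comp hΦ fun q hq => hFrO (hΦFr q hq))
      (he.comp hΦ fun q hq => hFrO (hΦFr q hq)) (fun y hy t => hpt _ (hcFr y hy) t)
      (fun y hy t => hunit _ (hFr _ _ (hcFr y hy))) (fun y hy t => het _ (hcFr y hy) t) ?_
      (hΛC.differentiableOn one_ne_zero) ?_ ?_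
    · intro y hy t v
      have hmem : (t, y) ∈ (univ : Set ℝ) ×ˢ U := ⟨mem_univ _, hy⟩
      have h1 : HasFDerivAt (fun q : ℝ × Y => φ q.1 (c q.2))
          (fderiv ℝ (fun q : ℝ × Y => φ q.1 (c q.2)) (t, y)) (t, y) :=
        ((hΦ.differentiableOn one_ne_zero).differentiableAt
          ((isOpen_univ.prod hU).mem_nhds hmem)).hasFDerivAt
      have h2 : HasFDerivAt p (fderiv ℝ p (φ t (c y))) (φ t (c y)) :=
        ((hp.differentiableOn one_ne_zero).differentiableAt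
          (hO.mem_nhds (hFrO (hΦFr (t, y) hmem)))).hasFDerivAt
      have h3 : HasFDerivAt (fun q : ℝ × Y => p (φ q.1 (c q.2)))
          ((fderiv ℝ p (φ t (c y))).comp (fderiv ℝ (fun q : ℝ × Y => φ q.1 (c q.2)) (t, y)))
          (t, y) := HasFDerivAt.comp (t, y) h2 h1
      rw [h3.fderiv, ContinuousLinearMap.comp_apply]
      exact hn _ (hΦFr (t, y) hmem) _
    · intro y hy
      simp only
      rw [hback y hy, hφ0]
    · intro y hy
      simp only
      rw [hback y hy, hφ0]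
  obtain ⟨y0, hy0⟩ := hUne
  have hconst : ∀ y ∈ U, Λ y = Λ y0 := fun y hy =>
    hU.is_const_of_fderiv_eq_zero hUc (hΛC.differentiableOn one_ne_zero)
      (fun z hz => hd z hz) hy hy0
  refine ⟨Λ y0, ?_, hconst, ?_⟩
  · exact Finset.sum_pos (fun i _ => hRpos _ (hit i hy0)) ⟨0, Finset.mem_range.2 hN⟩
  · have hcl : IsClosed {g : Z | φ (Λ y0) g = g} := by
      have h1 : Continuous (φ (Λ y0)) :=
        hφ.continuous.comp (by fun_prop : Continuous fun g : Z => (Λ y0, g))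
      exact isClosed_eq h1 continuous_id
    have hsub : {g | ∃ t : ℝ, ∃ y ∈ U, φ t (c y) = g} ⊆ {g : Z | φ (Λ y0) g = g} := by
      rintro g ⟨t, y, hy, rfl⟩
      simp only [Set.mem_ofPred_eq]
      rw [← hφa, add_comm, hφa, ← hconst y hy, hback y hy]
    exact fun g hg => (closure_minimal hsub hcl) (hdense hg)

end Pool.Agent.P85
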