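import Mathlib

/-!
The flow of a bounded `C^1` vector field with bounded derivative: existence, uniqueness, group law,
joint `C^1` regularity in time and initial point, and the linearised equation (helper12).
-/

set_option autoImplicit false

namespace H12FL

open Set Metric Filter Topology NNReal

section

variable {E : Type*} [NormedAddCommGroup E] [NormedSpace ℝ E]

/-- a field with bounded derivative is Lipschitz -/
lemma lip {V : E → E} (hV : ContDiff ℝ 1 V) {K : ℝ≥0} (hK : ∀ x, ‖fderiv ℝ V x‖ ≤ K) :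
    LipschitzWith K V := by
  rw [← lipschitzOnWith_univ]
  refine convex_univ.lipschitzOnWith_of_nnnorm_fderiv_le (𝕜 := ℝ)
    (fun x _ => (hV.differentiable one_ne_zero) x) (fun x _ => ?_)
  exact_mod_cast hK x

/-- two solutions on an open interval around zero with the same value at zero agree -/
lemma uniq_Ioo {V : E → E} {K : ℝ≥0} (hL : LipschitzWith K V) {a b : ℝ} (h0 : (0 : ℝ) ∈ Ioo a b)
    {f g : ℝ → E} (hf : ∀ t ∈ Ioo a b, HasDerivAt f (V (f t)) t)
    (hg : ∀ t ∈ Ioo a b, HasDerivAt g (V (g t)) t) (h : f 0 = g 0) : EqOn f g (Ioo a b) :=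
  ODE_solution_unique_of_mem_Ioo (v := fun _ => V) (s := fun _ => univ)
    (fun _ _ => hL.lipschitzOnWith) h0 (fun t ht => ⟨hf t ht, mem_univ _⟩)
    (fun t ht => ⟨hg t ht, mem_univ _⟩) h

variable [CompleteSpace E]

/-- solutions on symmetric intervals -/
lemma exists_sol_Ioo {V : E → E} {C K : ℝ≥0} (hC : ∀ x, ‖V x‖ ≤ C) (hL : LipschitzWith K V)
    (x : E) (n : ℕ) :
    ∃ γ : ℝ → E, γ 0 = x ∧ ∀ t ∈ Ioo (-(n + 1 : ℝ)) (n + 1), HasDerivAt γ (V (γ t)) t := by
  have hn : (0 : ℝ) ≤ n := Nat.cast_nonneg n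
  have h0 : (0 : ℝ) ∈ Icc (-(n + 1 : ℝ)) (n + 1) := ⟨by linarith, by linarith⟩
  have hp : IsPicardLindelof (fun _ : ℝ => V) (⟨0, h0⟩ : Icc (-(n + 1 : ℝ)) (n + 1)) x
      (C * (n + 1)) 0 C K :=
    { lipschitzOnWith := fun _ _ => hL.lipschitzOnWith
      continuousOn := fun _ _ => continuousOn_const
      norm_le := fun _ _ y _ => hC y
      mul_max_le := by
        push_cast
        rw [sub_zero, sub_zero, zero_sub, neg_neg, max_self] }
  obtain ⟨γ, h1, h2⟩ := hp.exists_eq_forall_mem_Icc_hasDerivWithinAt₀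
  refine ⟨γ, h1, fun t ht => ?_⟩
  exact (h2 t (Ioo_subset_Icc_self ht)).hasDerivAt (Icc_mem_nhds ht.1 ht.2)

/-- global solutions -/
lemma exists_sol {V : E → E} {C K : ℝ≥0} (hC : ∀ x, ‖V x‖ ≤ C) (hL : LipschitzWith K V)
    (x : E) : ∃ γ : ℝ → E, γ 0 = x ∧ ∀ t, HasDerivAt γ (V (γ t)) t := by
  choose γ h0 h using fun n => exists_sol_Ioo hC hL x n
  have key : ∀ m n : ℕ, m ≤ n → ∀ t ∈ Ioo (-(m + 1 : ℝ)) (m + 1), γ m t = γ n t := by
    intro m n hmn t ht
    have hm : (m : ℝ) ≤ n := Nat.cast_le.2 hmn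
    have hm0 : (0 : ℝ) ≤ m := Nat.cast_nonneg m
    refine uniq_Ioo hL (a := -(m + 1 : ℝ)) (b := m + 1) ⟨by linarith, by linarith⟩ (h m)
      (fun s hs => h n s ⟨by linarith [hs.1], by linarith [hs.2]⟩) ?_ ht
    rw [h0, h0]
  refine ⟨fun t => γ ⌈|t|⌉₊ t, ?_, fun t => ?_⟩
  · simp only
    rw [h0]
  · set N := ⌈|t|⌉₊ + 1 with hN
    have hNt : |t| + 1 ≤ N := by
      rw [hN]; push_cast
      linarith [Nat.le_ceil |t|]
    have hev : (fun s => γ ⌈|s|⌉₊ s) =ᶠ[𝓝 t] γ N := by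
      filter_upwards [ball_mem_nhds t (by norm_num : (0 : ℝ) < 1)] with s hs
      rw [mem_ball, Real.dist_eq] at hs
      have h1 : |s| ≤ |t| + 1 := by
        have := abs_sub_abs_le_abs_sub s t
        linarith
      refine key _ _ ?_ s ?_
      · exact Nat.ceil_le.2 (h1.trans hNt)
      · have := Nat.le_ceil |s|
        constructor
        · have := neg_abs_le s
          linarith
        · have := le_abs_self s
          linarith
    have hd : HasDerivAt (γ N) (V (γ N t)) t := by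
      refine h N t ⟨?_, ?_⟩
      · have := neg_abs_le t
        linarith
      · have := le_abs_self t
        linarith
    have := hd.congr_of_eventuallyEq hev
    rwa [← hev.eq_of_nhds] at this

end

section

variable {E : Type*} [NormedAddCommGroup E] [NormedSpace ℝ E]

/-- the global flow -/
structure IsFlow (V : E → E) (φ : ℝ → E → E) : Prop where
  zero : ∀ x, φ 0 x = x
  deriv : ∀ t x, HasDerivAt (fun s => φ s x) (V (φ t x)) t

lemma IsFlow.uniq {V : E → E} {φ : ℝ → E → E} (h : IsFlow V φ) {K : ℝ≥0}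
    (hL : LipschitzWith K V) {a b : ℝ} (h0 : (0 : ℝ) ∈ Ioo a b) {γ : ℝ → E}
    (hγ : ∀ t ∈ Ioo a b, HasDerivAt γ (V (γ t)) t) : ∀ t ∈ Ioo a b, γ t = φ t (γ 0) := by
  have := uniq_Ioo hL h0 hγ (fun t _ => h.deriv t (γ 0)) (h.zero _).symm
  exact fun t ht => this ht

lemma IsFlow.uniq' {V : E → E} {φ : ℝ → E → E} (h : IsFlow V φ) {K : ℝ≥0}
    (hL : LipschitzWith K V) {γ : ℝ → E}
    (hγ : ∀ t, HasDerivAt γ (V (γ t)) t) (t : ℝ) : γ t = φ t (γ 0) :=
  h.uniq hL (a := -|t| - 1) (b := |t| + 1)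
    ⟨by linarith [abs_nonneg t], by linarith [abs_nonneg t]⟩ (fun s _ => hγ s) t
    ⟨by linarith [neg_abs_le t], by linarith [le_abs_self t]⟩

lemma IsFlow.add {V : E → E} {φ : ℝ → E → E} (h : IsFlow V φ) {K : ℝ≥0}
    (hL : LipschitzWith K V) (s t : ℝ) (x : E) : φ (s + t) x = φ s (φ t x) := by
  have h1 := h.uniq' hL (γ := fun s => φ (s + t) x) (fun s => (h.deriv (s + t) x).comp_add_const s t) s
  simpa using h1

lemma IsFlow.neg_self {V : E → E} {φ : ℝ → E → E} (h : IsFlow V φ) {K : ℝ≥0}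
    (hL : LipschitzWith K V) (t : ℝ) (x : E) : φ (-t) (φ t x) = x := by
  rw [← h.add hL, neg_add_cancel, h.zero]

lemma IsFlow.self_neg {V : E → E} {φ : ℝ → E → E} (h : IsFlow V φ) {K : ℝ≥0}
    (hL : LipschitzWith K V) (t : ℝ) (x : E) : φ t (φ (-t) x) = x := by
  rw [← h.add hL, add_neg_cancel, h.zero]

lemma IsFlow.dist_le {V : E → E} {φ : ℝ → E → E} (h : IsFlow V φ) {K : ℝ≥0}
    (hL : LipschitzWith K V) {t : ℝ} (ht : 0 ≤ t) (x y : E) :
    ‖φ t x - φ t y‖ ≤ Real.exp (K * t) * ‖x - y‖ := by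
  have h1 := dist_le_of_trajectories_ODE (v := fun _ => V) (f := fun t => φ t x)
    (g := fun t => φ t y) (a := 0) (b := t) (δ := dist x y) (fun _ => hL)
    (fun s _ => (h.deriv s x).continuousAt.continuousWithinAt)
    (fun s _ => (h.deriv s x).hasDerivWithinAt)
    (fun s _ => (h.deriv s y).continuousAt.continuousWithinAt)
    (fun s _ => (h.deriv s y).hasDerivWithinAt)
    (by rw [h.zero, h.zero]) t ⟨ht, le_rfl⟩
  rw [sub_zero, dist_eq_norm, dist_eq_norm] at h1
  linarith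

/-! ### The derivative for small times -/

/-- the linearised equation along an orbit, for small times -/
lemma exists_lin [CompleteSpace E] {V : E → E} (hV : ContDiff ℝ 1 V) {K : ℝ≥0}
    (hK : ∀ x, ‖fderiv ℝ V x‖ ≤ K) {φ : ℝ → E → E} (h : IsFlow V φ) {T : ℝ} (hT : 0 ≤ T)
    (hKT : 2 * (K : ℝ) * T ≤ 1) (x : E) :
    ∃ A : ℝ → (E →L[ℝ] E), A 0 = ContinuousLinearMap.id ℝ E ∧ ∀ t ∈ Icc 0 T,
      HasDerivWithinAt A ((fderiv ℝ V (φ t x)).comp (A t)) (Icc 0 T) t := by
  have hc : Continuous fun t => fderiv ℝ V (φ t x) :=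
    (hV.continuous_fderiv one_ne_zero).comp
      (continuous_iff_continuousAt.2 fun t => (h.deriv t x).continuousAt)
  have h0 : (0 : ℝ) ∈ Icc 0 T := ⟨le_rfl, hT⟩
  have hp : IsPicardLindelof (fun (t : ℝ) (A : E →L[ℝ] E) => (fderiv ℝ V (φ t x)).comp A)
      (⟨0, h0⟩ : Icc 0 T) (ContinuousLinearMap.id ℝ E) 1 0 (2 * K) K :=
    { lipschitzOnWith := by
        intro t _
        refine LipschitzWith.lipschitzOnWith (LipschitzWith.of_dist_le_mul fun A B => ?_)
        rw [dist_eq_norm, dist_eq_norm, ← ContinuousLinearMap.comp_sub]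
        exact (ContinuousLinearMap.opNorm_comp_le _ _).trans
          (mul_le_mul_of_nonneg_right (hK _) (norm_nonneg _))
      continuousOn := by
        intro A _
        exact (hc.clm_comp continuous_const).continuousOn
      norm_le := by
        intro t _ A hA
        have h1 : ‖A‖ ≤ 2 := by
          have h2 : ‖A - ContinuousLinearMap.id ℝ E‖ ≤ 1 := by
            simpa [dist_eq_norm] using hA
          have h3 : ‖(ContinuousLinearMap.id ℝ E : E →L[ℝ] E)‖ ≤ 1 :=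
            ContinuousLinearMap.norm_id_le
          calc ‖A‖ = ‖(A - ContinuousLinearMap.id ℝ E) + ContinuousLinearMap.id ℝ E‖ := by
                rw [sub_add_cancel]
            _ ≤ ‖A - ContinuousLinearMap.id ℝ E‖ + ‖(ContinuousLinearMap.id ℝ E : E →L[ℝ] E)‖ :=
                norm_add_le _ _
            _ ≤ 2 := by linarith
        calc ‖(fderiv ℝ V (φ t x)).comp A‖ ≤ ‖fderiv ℝ V (φ t x)‖ * ‖A‖ :=
              ContinuousLinearMap.opNorm_comp_le _ _
          _ ≤ K * 2 := mul_le_mul (hK _) h1 (norm_nonneg _) K.2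
          _ = ((2 * K : ℝ≥0) : ℝ) := by push_cast; ring
      mul_max_le := by
        push_cast
        rw [sub_zero, sub_zero, sub_zero, max_eq_left hT]
        exact hKT }
  obtain ⟨A, h1, h2⟩ := hp.exists_eq_forall_mem_Icc_hasDerivWithinAt₀
  exact ⟨A, h1, h2⟩

/-- uniform differentiability along an orbit -/
lemma unif_diff {V : E → E} (hV : ContDiff ℝ 1 V) {γ : ℝ → E} (hγ : Continuous γ) (T : ℝ)
    {η : ℝ} (hη : 0 < η) : ∃ δ > 0, ∀ t ∈ Icc 0 T, ∀ a ∈ ball (γ t) δ, ∀ b ∈ ball (γ t) δ,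
      ‖V a - V b - fderiv ℝ V (γ t) (a - b)‖ ≤ η * ‖a - b‖ := by
  have hc : Continuous (fderiv ℝ V) := hV.continuous_fderiv one_ne_zero
  have hS : IsCompact (γ '' Icc 0 T) := isCompact_Icc.image hγ
  have h1 := hS.uniformContinuousAt_of_continuousAt (fderiv ℝ V)
    (fun a _ => hc.continuousAt) (dist_mem_uniformity hη)
  obtain ⟨δ, hδ, h2⟩ := Metric.mem_uniformity_dist.1 h1
  refine ⟨δ, hδ, fun t ht a ha b hb => ?_⟩
  refine (convex_ball (γ t) δ).norm_image_sub_le_of_norm_hasFDerivWithin_le' (𝕜 := ℝ)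
    (f' := fun y => fderiv ℝ V y)
    (fun y _ => ((hV.differentiable one_ne_zero) y).hasFDerivAt.hasFDerivWithinAt)
    (fun y hy => ?_) hb ha
  have h3 := h2 (a := γ t) (b := y) (by rwa [dist_comm]) (mem_image_of_mem γ ht)
  simp only [mem_ofPred_eq] at h3
  rw [dist_comm, dist_eq_norm] at h3
  exact h3.le

/-- strict differentiability for small times -/
lemma strict_small {V : E → E} (hV : ContDiff ℝ 1 V) {K : ℝ≥0}
    (hK : ∀ x, ‖fderiv ℝ V x‖ ≤ K) (hK1 : 1 ≤ K) {φ : ℝ → E → E} (h : IsFlow V φ) {T : ℝ}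
    (x : E) {A : ℝ → (E →L[ℝ] E)}
    (hA0 : A 0 = ContinuousLinearMap.id ℝ E) (hA : ∀ t ∈ Icc 0 T,
      HasDerivWithinAt A ((fderiv ℝ V (φ t x)).comp (A t)) (Icc 0 T) t) {t : ℝ}
    (ht : t ∈ Icc 0 T) : HasStrictFDerivAt (φ t) (A t) x := by
  have hL := lip hV hK
  have hK1' : (1 : ℝ) ≤ K := by exact_mod_cast hK1
  have hK0 : (0 : ℝ) < K := by linarith
  have hcont : ∀ y, Continuous fun s => φ s y := fun y =>
    continuous_iff_continuousAt.2 fun s => (h.deriv s y).continuousAt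
  set M := Real.exp (K * T) with hM
  have hT : 0 ≤ T := ht.1.trans ht.2
  have hM1 : 1 ≤ M := Real.one_le_exp (by positivity)
  have hM0 : 0 < M := by linarith
  refine .of_isLittleO (Asymptotics.isLittleO_iff.2 fun c hc => ?_)
  have hη : 0 < c / (M * M) := by positivity
  obtain ⟨δ, hδ, hδ2⟩ := unif_diff hV (hcont x) T hη
  have hev : ∀ᶠ p : E × E in 𝓝 (x, x), p.1 ∈ ball x (δ / M) ∧ p.2 ∈ ball x (δ / M) := by
    have hb : ball x (δ / M) ∈ 𝓝 x := ball_mem_nhds x (by positivity)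
    exact (prod_mem_nhds hb hb)
  filter_upwards [hev] with p hp
  obtain ⟨y, z⟩ := p
  simp only at hp ⊢
  obtain ⟨hy, hz⟩ := hp
  have hclose : ∀ w ∈ ball x (δ / M), ∀ s ∈ Icc 0 T, φ s w ∈ ball (φ s x) δ := by
    intro w hw s hs
    rw [mem_ball, dist_eq_norm] at hw ⊢
    have h1 := h.dist_le hL hs.1 w x
    have h2 : Real.exp (K * s) ≤ M := Real.exp_le_exp.2 (mul_le_mul_of_nonneg_left hs.2 K.2)
    calc ‖φ s w - φ s x‖ ≤ Real.exp (K * s) * ‖w - x‖ := h1
      _ ≤ M * ‖w - x‖ := mul_le_mul_of_nonneg_right h2 (norm_nonneg _)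
      _ < M * (δ / M) := by gcongr
      _ = δ := by field_simp
  -- the difference
  set r : ℝ → E := fun s => φ s y - φ s z - A s (y - z) with hr
  set r' : ℝ → E := fun s => V (φ s y) - V (φ s z) - fderiv ℝ V (φ s x) (A s (y - z)) with hr'
  have hAt : ∀ s ∈ Icc 0 T, HasDerivWithinAt (fun s => A s (y - z))
      (fderiv ℝ V (φ s x) (A s (y - z))) (Icc 0 T) s := by
    intro s hs
    have := (hA s hs).clm_apply (hasDerivWithinAt_const s (Icc 0 T) (y - z))
    simpa using this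
  have hrd : ∀ s ∈ Icc 0 T, HasDerivWithinAt r (r' s) (Icc 0 T) s := by
    intro s hs
    exact (((h.deriv s y).hasDerivWithinAt).sub ((h.deriv s z).hasDerivWithinAt)).sub (hAt s hs)
  have hbd := norm_le_gronwallBound_of_norm_deriv_right_le (f := r) (f' := r') (δ := 0) (K := K)
    (ε := c / (M * M) * (M * ‖y - z‖)) (a := 0) (b := t)
    (fun s hs => ((hrd s ⟨hs.1, hs.2.trans ht.2⟩).continuousWithinAt).mono
      (Icc_subset_Icc_right ht.2))
    (fun s hs => by
      have h1 := hrd s ⟨hs.1, hs.2.le.trans ht.2⟩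
      refine (h1.mono (s := Icc s T) (Icc_subset_Icc_left hs.1)).mono_of_mem_nhdsWithin ?_
      exact Icc_mem_nhdsGE (hs.2.trans_le ht.2))
    (by simp [hr, h.zero, hA0])
    (fun s hs => by
      have hsT : s ∈ Icc 0 T := ⟨hs.1, hs.2.le.trans ht.2⟩
      have h1 : r' s = (V (φ s y) - V (φ s z) - fderiv ℝ V (φ s x) (φ s y - φ s z)) +
          fderiv ℝ V (φ s x) (r s) := by
        simp only [hr, hr', map_sub]
        abel
      have h2 := hδ2 s hsT _ (hclose y hy s hsT) _ (hclose z hz s hsT)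
      have h3 := h.dist_le hL hs.1 y z
      have h4 : Real.exp (K * s) ≤ M := Real.exp_le_exp.2 (mul_le_mul_of_nonneg_left hsT.2 K.2)
      have h5 : ‖fderiv ℝ V (φ s x) (r s)‖ ≤ K * ‖r s‖ :=
        (ContinuousLinearMap.le_opNorm _ _).trans
          (mul_le_mul_of_nonneg_right (hK _) (norm_nonneg _))
      calc ‖r' s‖ ≤ ‖V (φ s y) - V (φ s z) - fderiv ℝ V (φ s x) (φ s y - φ s z)‖ +
            ‖fderiv ℝ V (φ s x) (r s)‖ := by rw [h1]; exact norm_add_le _ _
        _ ≤ c / (M * M) * ‖φ s y - φ s z‖ + K * ‖r s‖ := add_le_add h2 h5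
        _ ≤ c / (M * M) * (M * ‖y - z‖) + K * ‖r s‖ := by
            gcongr
            exact h3.trans (mul_le_mul_of_nonneg_right h4 (norm_nonneg _))
        _ = K * ‖r s‖ + c / (M * M) * (M * ‖y - z‖) := add_comm _ _)
    t ⟨ht.1, le_rfl⟩
  rw [gronwallBound_of_K_ne_0 hK0.ne', sub_zero] at hbd
  have h6 : Real.exp (K * t) ≤ M := Real.exp_le_exp.2 (mul_le_mul_of_nonneg_left ht.2 K.2)
  have h7 : 1 ≤ Real.exp (K * t) := Real.one_le_exp (mul_nonneg K.2 ht.1)
  calc ‖φ t y - φ t z - A t (y - z)‖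
      ≤ 0 * Real.exp (K * t) + c / (M * M) * (M * ‖y - z‖) / K * (Real.exp (K * t) - 1) := hbd
    _ ≤ c / (M * M) * (M * ‖y - z‖) * M := by
        rw [zero_mul, zero_add]
        have h8 : c / (M * M) * (M * ‖y - z‖) / K ≤ c / (M * M) * (M * ‖y - z‖) :=
          div_le_self (by positivity) hK1'
        refine mul_le_mul h8 (by linarith) (by linarith) (by positivity)
    _ = c * ‖y - z‖ := by field_simp

/-- strictly differentiable everywhere implies `C^1` -/
lemma contDiff_one_of_strict {F G : Type*} [NormedAddCommGroup F] [NormedSpace ℝ F]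
    [NormedAddCommGroup G] [NormedSpace ℝ G] {f : F → G} {f' : F → F →L[ℝ] G}
    (h : ∀ x, HasStrictFDerivAt f (f' x) x) : ContDiff ℝ 1 f := by
  refine contDiff_one_iff_fderiv.2 ⟨fun x => (h x).hasFDerivAt.differentiableAt, ?_⟩
  have e : fderiv ℝ f = f' := funext fun x => (h x).hasFDerivAt.fderiv
  rw [e, continuous_iff_continuousAt]
  intro x
  rw [Metric.continuousAt_iff']
  intro ε hε
  obtain ⟨s, hs, hs2⟩ := (h x).approximates_deriv_on_nhds (c := ⟨ε / 2, by positivity⟩)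
    (Or.inr (by rw [← NNReal.coe_pos]; exact (by positivity : (0 : ℝ) < ε / 2)))
  obtain ⟨u, hu, huo, hxu⟩ := _root_.mem_nhds_iff.1 hs
  filter_upwards [huo.mem_nhds hxu] with y hy
  rw [dist_eq_norm]
  have h1 : HasFDerivAt (fun z => f z - f' x z) (f' y - f' x) y :=
    (h y).hasFDerivAt.sub (f' x).hasFDerivAt
  have h2 : ‖f' y - f' x‖ ≤ ε / 2 := by
    refine h1.le_of_lip' (by positivity) ?_
    filter_upwards [huo.mem_nhds hy] with z hz
    have h3 := hs2 z (hu hz) y (hu hy)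
    rw [map_sub] at h3
    have h4 : f z - f' x z - (f y - f' x y) = f z - f y - (f' x z - f' x y) := by abel
    rw [h4]
    exact h3
  linarith

/-- the maps of the flow are `C^1` -/
lemma IsFlow.contDiff_time [CompleteSpace E] {V : E → E} (hV : ContDiff ℝ 1 V) {K : ℝ≥0}
    (hK : ∀ x, ‖fderiv ℝ V x‖ ≤ K) {φ : ℝ → E → E} (h : IsFlow V φ) {t : ℝ}
    (ht : 0 ≤ t) : ContDiff ℝ 1 (φ t) := by
  have hK' : ∀ x, ‖fderiv ℝ V x‖ ≤ ((K + 1 : ℝ≥0) : ℝ) := fun x => by
    have := hK x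
    push_cast
    linarith
  have hL := lip hV hK
  have hsmall : ∀ T : ℝ, 0 ≤ T → 2 * ((K + 1 : ℝ≥0) : ℝ) * T ≤ 1 → ContDiff ℝ 1 (φ T) := by
    intro T hT hKT
    choose A hA0 hA using fun x => exists_lin hV hK' h hT hKT x
    exact contDiff_one_of_strict (f' := fun x => A x T)
      (fun x => strict_small hV hK' (by simp) h x (hA0 x) (hA x) ⟨hT, le_rfl⟩)
  obtain ⟨n, hn⟩ := exists_nat_gt (2 * ((K + 1 : ℝ≥0) : ℝ) * t)
  have hn0 : (0 : ℝ) < n := lt_of_le_of_lt (by positivity) hn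
  have hs : ContDiff ℝ 1 (φ (t / n)) := by
    refine hsmall _ (by positivity) ?_
    rw [← mul_div_assoc, div_le_one hn0]
    exact hn.le
  have hk : ∀ k : ℕ, ContDiff ℝ 1 (φ (k * (t / n))) := by
    intro k
    induction k with
    | zero =>
      have : φ ((0 : ℕ) * (t / n)) = id := by
        funext x; simp [h.zero]
      rw [this]
      exact contDiff_id
    | succ k ih =>
      have : φ ((k + 1 : ℕ) * (t / n)) = φ (t / n) ∘ φ (k * (t / n)) := by
        funext x
        simp only [Function.comp_apply]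
        rw [← h.add hL]
        congr 1
        push_cast
        ring
      rw [this]
      exact hs.comp ih
  have := hk n
  rwa [mul_div_cancel₀ _ hn0.ne'] at this

/-- the derivative in the initial point satisfies the linearised equation -/
lemma IsFlow.lin [CompleteSpace E] {V : E → E} (hV : ContDiff ℝ 1 V) {K : ℝ≥0}
    (hK : ∀ x, ‖fderiv ℝ V x‖ ≤ K) {φ : ℝ → E → E} (h : IsFlow V φ)
    (hC : ∀ t, Differentiable ℝ (φ t)) (t : ℝ) (x v : E) :
    HasDerivAt (fun s => fderiv ℝ (φ s) x v) (fderiv ℝ V (φ t x) (fderiv ℝ (φ t) x v)) t := by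
  have hK' : ∀ x, ‖fderiv ℝ V x‖ ≤ ((K + 1 : ℝ≥0) : ℝ) := fun x => by
    have := hK x
    push_cast
    linarith
  have hL := lip hV hK
  set T : ℝ := 1 / (2 * ((K + 1 : ℝ≥0) : ℝ)) with hT
  have hK1 : (0 : ℝ) < ((K + 1 : ℝ≥0) : ℝ) := by push_cast; positivity
  have hT0 : 0 < T := by positivity
  have hKT : 2 * ((K + 1 : ℝ≥0) : ℝ) * T ≤ 1 := by
    rw [hT]; field_simp; exact le_rfl
  set t₀ := t - T / 2 with ht₀
  set x' := φ t₀ x with hx'
  obtain ⟨A, hA0, hA⟩ := exists_lin hV hK' h hT0.le hKT x'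
  have hfd : ∀ s ∈ Icc 0 T, fderiv ℝ (φ s) x' = A s := fun s hs =>
    (strict_small hV hK' (by simp) h x' hA0 hA hs).hasFDerivAt.fderiv
  set v' := fderiv ℝ (φ t₀) x v with hv'
  have hcomp : ∀ s, fderiv ℝ (φ s) x v = fderiv ℝ (φ (s - t₀)) x' v' := by
    intro s
    have h1 : φ s = φ (s - t₀) ∘ φ t₀ := by
      funext y
      simp only [Function.comp_apply]
      rw [← h.add hL, sub_add_cancel]
    rw [h1, fderiv_comp x ((hC _) _) ((hC _) _)]
    rfl
  have hmem : ∀ᶠ s in 𝓝 t, s - t₀ ∈ Icc 0 T := by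
    have h1 : Ioo (t - T / 2) (t + T / 2) ∈ 𝓝 t := Ioo_mem_nhds (by linarith) (by linarith)
    filter_upwards [h1] with s hs
    constructor
    · rw [ht₀]; linarith [hs.1]
    · rw [ht₀]; linarith [hs.2]
  have hev : (fun s => fderiv ℝ (φ s) x v) =ᶠ[𝓝 t] fun s => A (s - t₀) v' := by
    filter_upwards [hmem] with s hs
    rw [hcomp s, hfd _ hs]
  have htm : t - t₀ ∈ Ioo 0 T := by
    rw [ht₀]
    constructor <;> linarith
  have hd1 : HasDerivAt A ((fderiv ℝ V (φ (t - t₀) x')).comp (A (t - t₀))) (t - t₀) :=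
    (hA _ (Ioo_subset_Icc_self htm)).hasDerivAt (Icc_mem_nhds htm.1 htm.2)
  have hd2 : HasDerivAt (fun s => A (s - t₀)) ((fderiv ℝ V (φ (t - t₀) x')).comp (A (t - t₀))) t :=
    hd1.comp_sub_const t t₀
  have hd3 := hd2.clm_apply (hasDerivAt_const t v')
  have hx : φ (t - t₀) x' = φ t x := by
    rw [hx', ← h.add hL, sub_add_cancel]
  have hd4 := hd3.congr_of_eventuallyEq hev
  refine hd4.congr_deriv ?_
  rw [map_zero, add_zero, ContinuousLinearMap.comp_apply, hx, hcomp t,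
    hfd _ (Ioo_subset_Icc_self htm)]

/-! ### Joint regularity -/

/-- the auxiliary field on `ℝ × E` -/
noncomputable def aux (V : E → E) (T : ℝ) (p : ℝ × E) : ℝ × E := (0, (T * Real.sin p.1) • V p.2)

lemma aux_contDiff {V : E → E} (hV : ContDiff ℝ 1 V) (T : ℝ) : ContDiff ℝ 1 (aux V T) := by
  refine contDiff_const.prodMk (ContDiff.smul ?_ (hV.comp contDiff_snd))
  exact contDiff_const.mul (Real.contDiff_sin.comp contDiff_fst)

lemma aux_lip {V : E → E} {C K : ℝ≥0} (hC : ∀ x, ‖V x‖ ≤ C) (hL : LipschitzWith K V) {T : ℝ}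
    (hT : 0 ≤ T) : LipschitzWith (T.toNNReal * (C + K)) (aux V T) := by
  refine LipschitzWith.of_dist_le_mul fun p q => ?_
  have h1 : dist p.1 q.1 ≤ dist p q := le_max_left _ _
  have h2 : dist p.2 q.2 ≤ dist p q := le_max_right _ _
  have h3 : dist (aux V T p) (aux V T q) =
      ‖(T * Real.sin p.1) • V p.2 - (T * Real.sin q.1) • V q.2‖ := by
    rw [Prod.dist_eq]
    simp only [aux, dist_self]
    rw [max_eq_right dist_nonneg, dist_eq_norm]
  rw [h3]
  have h4 : (T * Real.sin p.1) • V p.2 - (T * Real.sin q.1) • V q.2 =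
      (T * (Real.sin p.1 - Real.sin q.1)) • V p.2 + (T * Real.sin q.1) • (V p.2 - V q.2) := by
    rw [smul_sub, mul_sub, sub_smul]; abel
  have h5 : |Real.sin p.1 - Real.sin q.1| ≤ dist p q := by
    have h6 : LipschitzWith 1 Real.sin := by
      refine lipschitzWith_of_nnnorm_deriv_le Real.differentiable_sin (fun x => ?_)
      rw [Real.deriv_sin, ← NNReal.coe_le_coe, coe_nnnorm]
      exact Real.abs_cos_le_one x
    have h7 := h6.dist_le_mul p.1 q.1
    rw [Real.dist_eq] at h7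
    simpa using h7.trans (by simpa using h1)
  have h8 : ‖V p.2 - V q.2‖ ≤ K * dist p q := by
    rw [← dist_eq_norm]
    exact (hL.dist_le_mul _ _).trans (mul_le_mul_of_nonneg_left h2 K.2)
  have hd : 0 ≤ dist p q := dist_nonneg
  calc ‖(T * Real.sin p.1) • V p.2 - (T * Real.sin q.1) • V q.2‖
      ≤ ‖(T * (Real.sin p.1 - Real.sin q.1)) • V p.2‖ + ‖(T * Real.sin q.1) • (V p.2 - V q.2)‖ := by
        rw [h4]; exact norm_add_le _ _
    _ ≤ T * dist p q * C + T * 1 * (K * dist p q) := by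
        rw [norm_smul, norm_smul, Real.norm_eq_abs, Real.norm_eq_abs, abs_mul, abs_mul,
          abs_of_nonneg hT]
        refine add_le_add ?_ ?_
        · exact mul_le_mul (mul_le_mul_of_nonneg_left h5 hT) (hC _) (norm_nonneg _) (by positivity)
        · exact mul_le_mul (mul_le_mul_of_nonneg_left (Real.abs_sin_le_one _) hT) h8
            (norm_nonneg _) (by positivity)
    _ = ((T.toNNReal * (C + K) : ℝ≥0) : ℝ) * dist p q := by
        push_cast
        rw [Real.coe_toNNReal T hT]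
        ring

lemma aux_flow {V : E → E} {φ : ℝ → E → E} (h : IsFlow V φ) (T : ℝ) :
    IsFlow (aux V T) (fun s p => (p.1, φ (s * (T * Real.sin p.1)) p.2)) where
  zero := fun p => by simp [h.zero]
  deriv := fun s p => by
    refine (hasDerivAt_const s p.1).prodMk ?_
    have h1 : HasDerivAt (fun s : ℝ => s * (T * Real.sin p.1)) (T * Real.sin p.1) s := by
      simpa using (hasDerivAt_id s).mul_const (T * Real.sin p.1)
    exact (h.deriv (s * (T * Real.sin p.1)) p.2).scomp s h1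

/-- joint regularity -/
lemma IsFlow.contDiff [CompleteSpace E] {V : E → E} (hV : ContDiff ℝ 1 V) {C K : ℝ≥0}
    (hC : ∀ x, ‖V x‖ ≤ C) (hK : ∀ x, ‖fderiv ℝ V x‖ ≤ K) {φ : ℝ → E → E} (h : IsFlow V φ) :
    ContDiff ℝ 1 (fun p : ℝ × E => φ p.1 p.2) := by
  have hL := lip hV hK
  rw [contDiff_iff_contDiffAt]
  rintro ⟨t, x⟩
  set T : ℝ := |t| + 1 with hT
  have hT0 : 0 < T := by positivity
  have hlip := aux_lip hC hL hT0.le
  have h1 : ContDiff ℝ 1 ((fun (s : ℝ) (p : ℝ × E) => (p.1, φ (s * (T * Real.sin p.1)) p.2)) 1) :=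
    (aux_flow h T).contDiff_time (aux_contDiff hV T)
      (K := T.toNNReal * (C + K)) (fun p => norm_fderiv_le_of_lipschitz ℝ hlip) zero_le_one
  have h2 : ContDiff ℝ 1 (fun p : ℝ × E => φ (T * Real.sin p.1) p.2) := by
    have := contDiff_snd.comp h1
    simpa [Function.comp_def] using this
  have h3 : |t / T| < 1 := by
    rw [abs_div, abs_of_pos hT0, div_lt_one hT0, hT]
    linarith
  have h4 := abs_lt.1 h3
  have h5 : ContDiffAt ℝ 1 (fun p : ℝ × E => (Real.arcsin (p.1 / T), p.2)) (t, x) := by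
    refine ContDiffAt.prodMk ?_ contDiffAt_snd
    have h6 : ContDiffAt ℝ 1 Real.arcsin (t / T) := Real.contDiffAt_arcsin (by linarith) (by linarith)
    have h8 : ContDiffAt ℝ 1 (fun p : ℝ × E => p.1 / T) (t, x) := contDiffAt_fst.div_const T
    exact ContDiffAt.comp (g := Real.arcsin) (t, x) h6 h8
  have h6 := h2.contDiffAt.comp (t, x) h5
  refine h6.congr_of_eventuallyEq ?_
  have h7 : ∀ᶠ p : ℝ × E in 𝓝 (t, x), |p.1 / T| < 1 := by
    have hc : Continuous fun p : ℝ × E => |p.1 / T| := (continuous_fst.div_const T).abs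
    exact hc.continuousAt.eventually (gt_mem_nhds h3)
  filter_upwards [h7] with p hp
  have hp' := abs_lt.1 hp
  simp only [Function.comp_apply]
  rw [Real.sin_arcsin hp'.1.le hp'.2.le, mul_div_cancel₀ _ hT0.ne']

/-- **The flow of a bounded `C^1` field with bounded derivative.** -/
theorem exists_flow [CompleteSpace E] {V : E → E} (hV : ContDiff ℝ 1 V) {C K : ℝ≥0}
    (hC : ∀ x, ‖V x‖ ≤ C) (hK : ∀ x, ‖fderiv ℝ V x‖ ≤ K) :
    ∃ φ : ℝ → E → E, IsFlow V φ ∧ ContDiff ℝ 1 (fun p : ℝ × E => φ p.1 p.2) ∧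
      (∀ s t x, φ (s + t) x = φ s (φ t x)) ∧
      (∀ t x v, HasDerivAt (fun s => fderiv ℝ (φ s) x v)
        (fderiv ℝ V (φ t x) (fderiv ℝ (φ t) x v)) t) ∧
      (∀ a b : ℝ, (0 : ℝ) ∈ Ioo a b → ∀ γ : ℝ → E, (∀ t ∈ Ioo a b, HasDerivAt γ (V (γ t)) t) →
        ∀ t ∈ Ioo a b, γ t = φ t (γ 0)) ∧
      (∀ γ : ℝ → E, (∀ t, HasDerivAt γ (V (γ t)) t) → ∀ t, γ t = φ t (γ 0)) := by
  have hL := lip hV hK
  choose γ h0 hd using fun x => exists_sol hC hL x
  have h : IsFlow V (fun t x => γ x t) := ⟨h0, fun t x => hd x t⟩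
  have hc := h.contDiff hV hC hK
  refine ⟨fun t x => γ x t, h, hc, fun s t x => h.add hL s t x, ?_,
    fun a b h1 g hg => h.uniq hL h1 hg, fun g hg => h.uniq' hL hg⟩
  refine h.lin hV hK (fun t => ?_)
  have h1 : ContDiff ℝ 1 (fun x : E => (t, x)) := contDiff_const.prodMk contDiff_id
  exact (hc.comp h1).differentiable one_ne_zero

/-- fields with compact support -/
theorem exists_flow_of_compact [FiniteDimensional ℝ E] {V : E → E} (hV : ContDiff ℝ 1 V)
    (hs : HasCompactSupport V) :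
    ∃ φ : ℝ → E → E, IsFlow V φ ∧ ContDiff ℝ 1 (fun p : ℝ × E => φ p.1 p.2) ∧
      (∀ s t x, φ (s + t) x = φ s (φ t x)) ∧
      (∀ t x v, HasDerivAt (fun s => fderiv ℝ (φ s) x v)
        (fderiv ℝ V (φ t x) (fderiv ℝ (φ t) x v)) t) ∧
      (∀ a b : ℝ, (0 : ℝ) ∈ Ioo a b → ∀ γ : ℝ → E, (∀ t ∈ Ioo a b, HasDerivAt γ (V (γ t)) t) →
        ∀ t ∈ Ioo a b, γ t = φ t (γ 0)) ∧
      (∀ γ : ℝ → E, (∀ t, HasDerivAt γ (V (γ t)) t) → ∀ t, γ t = φ t (γ 0)) := by
  haveI : CompleteSpace E := FiniteDimensional.complete ℝ E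
  obtain ⟨C, hC⟩ := hs.exists_bound_of_continuous hV.continuous
  obtain ⟨K, hK⟩ := (hs.fderiv ℝ).exists_bound_of_continuous (hV.continuous_fderiv one_ne_zero)
  exact exists_flow hV (C := C.toNNReal) (K := K.toNNReal)
    (fun x => (hC x).trans (Real.le_coe_toNNReal C)) (fun x => (hK x).trans (Real.le_coe_toNNReal K))

/-- the bump cut-off of a field -/
lemma cutoff [FiniteDimensional ℝ E] {V : E → E} (hV : ContDiff ℝ 1 V) {r : ℝ} (hr : 0 < r) :
    ∃ χ : E → ℝ, ContDiff ℝ 1 (fun x => χ x • V x) ∧ HasCompactSupport (fun x => χ x • V x) ∧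
      ∀ x, ‖x‖ ≤ r → χ x = 1 := by
  let f : ContDiffBump (0 : E) := ⟨r, r + 1, hr, by linarith⟩
  refine ⟨f, f.contDiff.smul hV, f.hasCompactSupport.smul_right, fun x hx => ?_⟩
  exact f.one_of_mem_closedBall (by simpa using hx)

/-- **The flow of a `C^1` field with a proper invariant.** -/
theorem exists_flow_of_invariant [FiniteDimensional ℝ E] {V : E → E} (hV : ContDiff ℝ 1 V)
    {N : E → ℝ} (hN : Differentiable ℝ N) (hNV : ∀ x, fderiv ℝ N x (V x) = 0)
    (hb : ∀ x, ‖x‖ ^ 2 ≤ N x) :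
    ∃ φ : ℝ → E → E, IsFlow V φ ∧ ContDiff ℝ 1 (fun p : ℝ × E => φ p.1 p.2) ∧
      (∀ s t x, φ (s + t) x = φ s (φ t x)) ∧
      (∀ t x v, HasDerivAt (fun s => fderiv ℝ (φ s) x v)
        (fderiv ℝ V (φ t x) (fderiv ℝ (φ t) x v)) t) ∧
      (∀ a b : ℝ, (0 : ℝ) ∈ Ioo a b → ∀ γ : ℝ → E, (∀ t ∈ Ioo a b, HasDerivAt γ (V (γ t)) t) →
        ∀ t ∈ Ioo a b, γ t = φ t (γ 0)) ∧
      (∀ γ : ℝ → E, (∀ t, HasDerivAt γ (V (γ t)) t) → ∀ t, γ t = φ t (γ 0)) ∧
      (∀ t x, N (φ t x) = N x) := by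
  -- the cut-off fields and their flows
  choose χ hχ1 hχ2 hχ3 using fun n : ℕ => cutoff hV (r := (n : ℝ) + 1) (by positivity)
  choose ψ hψ hψC hψadd hψlin hψu hψu' using fun n : ℕ => exists_flow_of_compact (hχ1 n) (hχ2 n)
  -- the level of a point
  set W : ℕ → Set E := fun n => {x | N x < ((n : ℝ) + 1) ^ 2} with hW
  have hWo : ∀ n, IsOpen (W n) := fun n => isOpen_lt hN.continuous continuous_const
  have hnorm : ∀ n x, x ∈ W n → χ n x = 1 := by
    intro n x hx
    refine hχ3 n x ?_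
    have h1 : ‖x‖ ^ 2 < ((n : ℝ) + 1) ^ 2 := (hb x).trans_lt hx
    exact (lt_of_pow_lt_pow_left₀ 2 (by positivity) h1).le
  -- invariance
  have hinv : ∀ n t x, N (ψ n t x) = N x := by
    intro n t x
    have h1 : ∀ s, HasDerivAt (fun s => N (ψ n s x)) 0 s := by
      intro s
      have h2 := (hN (ψ n s x)).hasFDerivAt.comp_hasDerivAt s ((hψ n).deriv s x)
      rw [map_smul, hNV, smul_zero] at h2
      exact h2
    have h3 := is_const_of_deriv_eq_zero (fun s => (h1 s).differentiableAt)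
      (fun s => (h1 s).deriv) t 0
    rw [h3, (hψ n).zero]
  have hsol : ∀ n x, x ∈ W n → ∀ t, HasDerivAt (fun s => ψ n s x) (V (ψ n t x)) t := by
    intro n x hx t
    have h1 := (hψ n).deriv t x
    have h2 : ψ n t x ∈ W n := by
      simp only [hW, Set.mem_ofPred_eq]
      rw [hinv]; exact hx
    have h3 : (fun x => χ n x • V x) (ψ n t x) = V (ψ n t x) := by
      simp only [hnorm n _ h2, one_smul]
    rw [← h3]
    exact h1
  have hex : ∀ x, ∃ n, x ∈ W n := by
    intro x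
    obtain ⟨n, hn⟩ := exists_nat_gt (N x)
    refine ⟨n, ?_⟩
    simp only [hW, Set.mem_ofPred_eq]
    nlinarith [Nat.cast_nonneg (α := ℝ) n]
  -- uniqueness on intervals for solutions of V
  have huniq : ∀ n (a b : ℝ), (0 : ℝ) ∈ Ioo a b → ∀ γ : ℝ → E, γ 0 ∈ W n →
      (∀ t ∈ Ioo a b, HasDerivAt γ (V (γ t)) t) → ∀ t ∈ Ioo a b, γ t = ψ n t (γ 0) := by
    intro n a b h0 γ hγ0 hγ
    have h1 : ∀ t ∈ Ioo a b, HasDerivAt (fun s => N (γ s)) 0 t := by
      intro t ht
      have h2 := (hN (γ t)).hasFDerivAt.comp_hasDerivAt t (hγ t ht)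
      rw [hNV] at h2
      exact h2
    have h3 : ∀ t ∈ Ioo a b, N (γ t) = N (γ 0) := by
      intro t ht
      exact isOpen_Ioo.is_const_of_deriv_eq_zero isPreconnected_Ioo
        (fun s hs => (h1 s hs).differentiableAt.differentiableWithinAt)
        (fun s hs => (h1 s hs).deriv) ht h0
    refine hψu n a b h0 γ fun t ht => ?_
    have h4 : γ t ∈ W n := by
      simp only [hW, Set.mem_ofPred_eq]
      rw [h3 t ht]; exact hγ0
    have h5 : χ n (γ t) • V (γ t) = V (γ t) := by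
      rw [hnorm n _ h4, one_smul]
    rw [h5]
    exact hγ t ht
  choose m hm using hex
  set φ : ℝ → E → E := fun t x => ψ (m x) t x with hφ
  -- the flow agrees with each ψ n on W n
  have hagree : ∀ n x, x ∈ W n → ∀ t, φ t x = ψ n t x := by
    intro n x hx t
    have h1 := huniq n (-(|t| + 1)) (|t| + 1) ⟨by linarith [abs_nonneg t], by positivity⟩
      (fun s => ψ (m x) s x) (by simpa [(hψ (m x)).zero] using hx)
      (fun s _ => hsol (m x) x (hm x) s) t ⟨by linarith [neg_abs_le t], by linarith [le_abs_self t]⟩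
    simp only [(hψ (m x)).zero] at h1
    exact h1
  have hflow : IsFlow V φ := by
    refine ⟨fun x => (hψ (m x)).zero x, fun t x => ?_⟩
    exact hsol (m x) x (hm x) t
  have hNφ : ∀ t x, N (φ t x) = N x := fun t x => hinv (m x) t x
  have hmemφ : ∀ n t x, x ∈ W n → φ t x ∈ W n := by
    intro n t x hx
    simp only [hW, Set.mem_ofPred_eq]
    rw [hNφ]; exact hx
  have hcont : ContDiff ℝ 1 (fun p : ℝ × E => φ p.1 p.2) := by
    rw [contDiff_iff_contDiffAt]
    rintro ⟨t, x⟩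
    refine (hψC (m x)).contDiffAt.congr_of_eventuallyEq ?_
    have h1 : ∀ᶠ p : ℝ × E in 𝓝 (t, x), p.2 ∈ W (m x) :=
      continuous_snd.continuousAt.eventually ((hWo (m x)).mem_nhds (hm x))
    filter_upwards [h1] with p hp
    exact hagree (m x) p.2 hp p.1
  refine ⟨φ, hflow, hcont, ?_, ?_, ?_, ?_, hNφ⟩
  · intro s t x
    have h1 := hagree (m x) _ (hmemφ (m x) t x (hm x)) s
    rw [h1]
    simp only [hφ]
    exact hψadd (m x) s t x
  · intro t x v
    have hloc : ∀ s, φ s =ᶠ[𝓝 x] ψ (m x) s := by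
      intro s
      filter_upwards [(hWo (m x)).mem_nhds (hm x)] with y hy
      exact hagree (m x) y hy s
    have h1 : (fun s => fderiv ℝ (φ s) x v) = fun s => fderiv ℝ (ψ (m x) s) x v := by
      funext s
      rw [(hloc s).fderiv_eq]
    rw [h1, (hloc t).fderiv_eq]
    have h2 := hψlin (m x) t x v
    have h5 : (fun y => χ (m x) y • V y) =ᶠ[𝓝 (ψ (m x) t x)] V := by
      have h6 : ψ (m x) t x ∈ W (m x) := hmemφ (m x) t x (hm x)
      filter_upwards [(hWo (m x)).mem_nhds h6] with y hy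
      simp only [hnorm _ _ hy, one_smul]
    rw [h5.fderiv_eq] at h2
    exact h2
  · intro a b h0 γ hγ t ht
    have h1 := huniq (m (γ 0)) a b h0 γ (hm _) hγ t ht
    exact h1
  · intro γ hγ t
    have h1 := huniq (m (γ 0)) (-(|t| + 1)) (|t| + 1) ⟨by linarith [abs_nonneg t], by positivity⟩
      γ (hm _) (fun s _ => hγ s) t ⟨by linarith [neg_abs_le t], by linarith [le_abs_self t]⟩
    exact h1

/-- **Invariant zero sets**: if `F` satisfies a homogeneous linear equation along the field, the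
zero set of `F` is invariant. -/
lemma IsFlow.zero_of_linear {G : Type*} [NormedAddCommGroup G] [NormedSpace ℝ G] {V : E → E}
    {φ : ℝ → E → E} (h : IsFlow V φ) {F : E → G} (hF : Differentiable ℝ F) {A : E → G →L[ℝ] G}
    (hA : Continuous A) (hFV : ∀ x, fderiv ℝ F x (V x) = A x (F x)) {x : E} (hx : F x = 0)
    (t : ℝ) : F (φ t x) = 0 := by
  have hc : Continuous fun s => φ s x :=
    continuous_iff_continuousAt.2 fun s => (h.deriv s x).continuousAt
  have h1 : ∀ s, HasDerivAt (fun s => F (φ s x)) (A (φ s x) (F (φ s x))) s := by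
    intro s
    have h2 := (hF (φ s x)).hasFDerivAt.comp_hasDerivAt s (h.deriv s x)
    rw [hFV] at h2
    exact h2
  set T : ℝ := |t| + 1 with hT
  have hT0 : 0 < T := by positivity
  obtain ⟨K, hK⟩ := (isCompact_Icc (a := -T) (b := T)).exists_bound_of_continuousOn
    (hA.comp hc).continuousOn
  have h3 := ODE_solution_unique_of_mem_Ioo (v := fun s y => A (φ s x) y)
    (s := fun _ => (univ : Set G)) (K := K.toNNReal) (a := -T) (b := T) (t₀ := 0)
    (f := fun s => F (φ s x)) (g := fun _ => 0)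
    (fun s hs => by
      refine (ContinuousLinearMap.lipschitz (A (φ s x))).lipschitzOnWith.weaken ?_
      rw [← NNReal.coe_le_coe, coe_nnnorm]
      exact (hK s (Ioo_subset_Icc_self hs)).trans (Real.le_coe_toNNReal K))
    ⟨by linarith, hT0⟩ (fun s _ => ⟨h1 s, mem_univ _⟩)
    (fun s _ => ⟨by simpa using hasDerivAt_const s (0 : G), mem_univ _⟩)
    (by simp only [h.zero, hx])
  exact h3 ⟨by linarith [neg_abs_le t], by linarith [le_abs_self t]⟩

end

end H12FL

namespace Pool.Agent.P85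

/-- Row R1 in the form of the list of rows. -/
theorem flow_exists {E : Type*} [NormedAddCommGroup E] [NormedSpace ℝ E] [FiniteDimensional ℝ E]
    (V : E → E) (hV : ContDiff ℝ 1 V) (N : E → ℝ) (hN : Differentiable ℝ N)
    (hN0 : ∀ x, fderiv ℝ N x (V x) = 0) (hN1 : ∀ x, ‖x‖ ^ 2 ≤ N x) :
    ∃ φ : ℝ → E → E, ContDiff ℝ 1 (fun q : ℝ × E => φ q.1 q.2) ∧ (∀ x, φ 0 x = x) ∧
      (∀ s t x, φ (s + t) x = φ s (φ t x)) ∧
      ∀ t x, HasDerivAt (fun s => φ s x) (V (φ t x)) t := by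
  obtain ⟨φ, h1, h2, h3, -⟩ := H12FL.exists_flow_of_invariant hV hN hN0 hN1
  exact ⟨φ, h2, h1.zero, h3, h1.deriv⟩

end Pool.Agent.P85
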