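import Pool.Agent.P85.Defs
import Pool.Agent.P85.Flow

/-!
# Row R1b of THEOREM P: the flow of `Y` on the frames

The functions `kap` and `tau` are cut off away from the frames, the field is extended to all pairs
with the proper invariant `‖u‖ ^ 2 + ‖e‖ ^ 2`, and `(‖u‖ ^ 2 - ‖e‖ ^ 2, 2 ⟨u, e⟩)` rotates along
the field, so that the set `St` of frames is invariant.
-/

set_option autoImplicit false
open scoped ContDiff Manifold Topology
open Real Set MeasureTheory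

namespace Pool.Agent.P85.EF

open Pool.Agent.P85

variable {H : E3 → ℝ} {w : ℝ}

lemma inner_cr_left (a b : E3) : inner ℝ a (cr a b) = 0 := by
  rw [inner_eq]; simp only [cr, pt_zero, pt_one, pt_two]; ring

lemma inner_cr_right (a b : E3) : inner ℝ b (cr a b) = 0 := by
  rw [inner_eq]; simp only [cr, pt_zero, pt_one, pt_two]; ring

lemma norm_cr_sq (a b : E3) : ‖cr a b‖ ^ 2 = ‖a‖ ^ 2 * ‖b‖ ^ 2 - inner ℝ a b ^ 2 := by
  rw [norm_sq_eq, norm_sq_eq, norm_sq_eq, inner_eq]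
  simp only [cr, pt_zero, pt_one, pt_two]; ring

lemma contDiff_coord (i : Fin 3) : ContDiff ℝ ∞ (fun x : E3 => x i) :=
  (contDiff_euclidean (n := ∞) (𝕜 := ℝ) (f := fun x : E3 => x)).1 contDiff_id i

lemma contDiff_bb : ContDiff ℝ ∞ bb := by
  rw [contDiff_euclidean]
  have h1 : ∀ i : Fin 3, ContDiff ℝ ∞ (fun M : Fr => M.1 i) := fun i =>
    (contDiff_coord i).comp contDiff_fst
  have h2 : ∀ i : Fin 3, ContDiff ℝ ∞ (fun M : Fr => M.2 i) := fun i =>
    (contDiff_coord i).comp contDiff_snd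
  intro i
  fin_cases i
  · exact ((h1 1).mul (h2 2)).sub ((h1 2).mul (h2 1))
  · exact ((h1 2).mul (h2 0)).sub ((h1 0).mul (h2 2))
  · exact ((h1 0).mul (h2 1)).sub ((h1 1).mul (h2 0))

/-- smoothness of the second derivative on pairs -/
lemma contDiffAt_D2 (hS : ContDiffOn ℝ ∞ H {0}ᶜ) {M : Fr} (hM : M.1 ≠ 0) {p q : Fr → E3}
    (hp : ContDiffAt ℝ 1 p M) (hq : ContDiffAt ℝ 1 q M) :
    ContDiffAt ℝ 1 (fun M : Fr => D2 H M.1 (p M) (q M)) M := by
  have h0 : ContDiffAt ℝ ∞ H M.1 := hS.contDiffAt (isOpen_compl_singleton.mem_nhds hM)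
  have h1 : ContDiffAt ℝ 2 (fderiv ℝ H) M.1 := h0.fderiv_right (by norm_cast)
  have h2 : ContDiffAt ℝ 1 (fderiv ℝ (fderiv ℝ H)) M.1 := h1.fderiv_right (by norm_cast)
  have h3 : ContDiffAt ℝ 1 (fun M : Fr => fderiv ℝ (fderiv ℝ H) M.1) M :=
    h2.comp M contDiffAt_fst
  exact (h3.clm_apply hp).clm_apply hq

lemma contDiffAt_Ree (hS : ContDiffOn ℝ ∞ H {0}ᶜ) {M : Fr} (hM : M.1 ≠ 0) :
    ContDiffAt ℝ 1 (Ree H) M := contDiffAt_D2 hS hM contDiffAt_snd contDiffAt_snd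

lemma contDiffAt_Reb (hS : ContDiffOn ℝ ∞ H {0}ᶜ) {M : Fr} (hM : M.1 ≠ 0) :
    ContDiffAt ℝ 1 (Reb H) M := contDiffAt_D2 hS hM contDiffAt_snd
      (contDiff_bb.contDiffAt.of_le (by norm_cast))

lemma contDiffAt_Rbb (hS : ContDiffOn ℝ ∞ H {0}ᶜ) {M : Fr} (hM : M.1 ≠ 0) :
    ContDiffAt ℝ 1 (Rbb H) M := contDiffAt_D2 hS hM
      (contDiff_bb.contDiffAt.of_le (by norm_cast)) (contDiff_bb.contDiffAt.of_le (by norm_cast))

lemma contDiffAt_Dn (hS : ContDiffOn ℝ ∞ H {0}ᶜ) {M : Fr} (hM : M.1 ≠ 0) :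
    ContDiffAt ℝ 1 (Dn H) M :=
  ((contDiffAt_Ree hS hM).mul (contDiffAt_Rbb hS hM)).sub ((contDiffAt_Reb hS hM).pow 2)

lemma contDiffAt_kap (hS : ContDiffOn ℝ ∞ H {0}ᶜ) {M : Fr} (hM : M.1 ≠ 0) (h : Dn H M ≠ 0) :
    ContDiffAt ℝ 1 (kap H) M := (contDiffAt_Rbb hS hM).div (contDiffAt_Dn hS hM) h

lemma contDiffAt_tau (hS : ContDiffOn ℝ ∞ H {0}ᶜ) {M : Fr} (hM : M.1 ≠ 0) (h : Dn H M ≠ 0) :
    ContDiffAt ℝ 1 (tau H) M := (contDiffAt_Reb hS hM).neg.div (contDiffAt_Dn hS hM) h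

/-- symmetry of the second derivative -/
lemma D2_symm (hS : ContDiffOn ℝ ∞ H {0}ᶜ) {u : E3} (hu : u ≠ 0) (v v' : E3) :
    D2 H u v v' = D2 H u v' v := by
  have h0 : ContDiffAt ℝ ∞ H u := hS.contDiffAt (isOpen_compl_singleton.mem_nhds hu)
  exact (h0.isSymmSndFDerivAt (by rw [minSmoothness_of_isRCLikeNormedField]; norm_cast)) v v'

/-- the determinant is positive on the frames -/
lemma Dn_pos (hS : Supp H w) {M : Fr} (hM : M ∈ St) : 0 < Dn H M := by
  obtain ⟨h1, h2, h3⟩ := hM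
  have hu : M.1 ≠ 0 := by
    intro h; rw [h, norm_zero] at h1; exact zero_ne_one h1
  have hb : ‖bb M‖ ^ 2 = 1 := by
    unfold bb; rw [norm_cr_sq, h1, h2, h3]; norm_num
  have hb0 : bb M ≠ 0 := by
    intro h; rw [h, norm_zero] at hb; norm_num at hb
  have hub : inner ℝ M.1 (bb M) = 0 := inner_cr_left _ _
  have heb : inner ℝ M.2 (bb M) = 0 := inner_cr_right _ _
  have hR : 0 < Rbb H M := hS.pos _ _ h1 hub hb0
  set v : E3 := Rbb H M • M.2 - Reb H M • bb M with hv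
  have huv : inner ℝ M.1 v = 0 := by
    rw [hv, inner_sub_right, inner_smul_right, inner_smul_right, h3, hub]; ring
  have hv0 : v ≠ 0 := by
    intro h
    have h4 : inner ℝ M.2 v = 0 := by rw [h, inner_zero_right]
    rw [hv, inner_sub_right, inner_smul_right, inner_smul_right, heb,
      real_inner_self_eq_norm_sq, h2] at h4
    have h5 : Rbb H M = 0 := by linarith
    exact hR.ne' h5
  have h6 := hS.pos _ _ h1 huv hv0
  have h7 : D2 H M.1 v v = Rbb H M * Dn H M := by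
    have hs : D2 H M.1 (bb M) M.2 = Reb H M := D2_symm hS.smooth hu _ _
    have e1 : D2 H M.1 v v = Rbb H M * (Rbb H M * Ree H M) - Rbb H M * (Reb H M * Reb H M)
        - (Reb H M * (Rbb H M * D2 H M.1 (bb M) M.2) - Reb H M * (Reb H M * Rbb H M)) := by
      rw [hv]
      unfold D2 Ree Reb Rbb D2
      simp only [map_sub, map_smul, sub_apply, smul_apply,
        smul_eq_mul]
      ring
    rw [e1, hs]; unfold Dn; ring
  rw [h7] at h6
  exact (mul_pos_iff_of_pos_left hR).1 h6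

/-- the frames form a compact set -/
lemma isClosed_St : IsClosed St := by
  have h1 : IsClosed {M : Fr | ‖M.1‖ = 1} := isClosed_eq continuous_fst.norm continuous_const
  have h2 : IsClosed {M : Fr | ‖M.2‖ = 1} := isClosed_eq continuous_snd.norm continuous_const
  have h3 : IsClosed {M : Fr | inner ℝ M.1 M.2 = 0} :=
    isClosed_eq (continuous_fst.inner continuous_snd) continuous_const
  exact h1.inter (h2.inter h3)

/-- extension of a function that is `C^1` on an open set containing the frames -/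
lemma exists_ext {U : Set Fr} (hU : IsOpen U) (hSU : St ⊆ U) {F : Fr → ℝ}
    (hF : ∀ M ∈ U, ContDiffAt ℝ 1 F M) : ∃ F' : Fr → ℝ, ContDiff ℝ 1 F' ∧ ∀ M ∈ St, F' M = F M := by
  obtain ⟨f, h0, h1, -⟩ := exists_contMDiffMap_zero_one_nhds_of_isClosed
    (𝓘(ℝ, Fr)) (n := (⊤ : ℕ∞)) hU.isClosed_compl isClosed_St
    (Set.disjoint_left.2 fun x hx hxA => hx (hSU hxA))
  have hf : ContDiff ℝ (⊤ : ℕ∞) f := contMDiff_iff_contDiff.1 f.contMDiff
  refine ⟨fun M => f M * F M, ?_, fun M hM => ?_⟩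
  · rw [contDiff_iff_contDiffAt]
    intro M
    by_cases hM : M ∈ U
    · exact (hf.contDiffAt.of_le (by norm_cast)).mul (hF M hM)
    · rw [eventually_nhdsSet_iff_forall] at h0
      have h2 : (fun M => f M * F M) =ᶠ[𝓝 M] fun _ => 0 := by
        filter_upwards [h0 M hM] with y hy
        rw [hy, zero_mul]
      exact contDiffAt_const.congr_of_eventuallyEq h2
  · show f M * F M = F M
    rw [h1.self_of_nhdsSet M hM, one_mul]

lemma isOpen_good (hS : ContDiffOn ℝ ∞ H {0}ᶜ) : IsOpen {M : Fr | M.1 ≠ 0 ∧ Dn H M ≠ 0} := by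
  have h1 : IsOpen {M : Fr | M.1 ≠ 0} := isOpen_ne_fun continuous_fst continuous_const
  have h2 : ContinuousOn (Dn H) {M : Fr | M.1 ≠ 0} := fun M hM =>
    (contDiffAt_Dn hS hM).continuousAt.continuousWithinAt
  exact h2.isOpen_inter_preimage h1 isOpen_compl_singleton

/-- the squared norms on pairs -/
noncomputable def NN (M : Fr) : ℝ := ‖M.1‖ ^ 2 + ‖M.2‖ ^ 2

/-- the defect -/
noncomputable def DD (M : Fr) : ℝ := ‖M.1‖ ^ 2 - ‖M.2‖ ^ 2

/-- the squared modulus of the defects -/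
noncomputable def QQ (M : Fr) : ℝ := (‖M.1‖ ^ 2 - ‖M.2‖ ^ 2) ^ 2 + 4 * inner ℝ M.1 M.2 ^ 2

/-- the extended field -/
noncomputable def VV (k t : Fr → ℝ) (M : Fr) : Fr :=
  (k M • M.2 + t M • bb M, -(k M • M.1))

lemma contDiff_VV {k t : Fr → ℝ} (hk : ContDiff ℝ 1 k) (ht : ContDiff ℝ 1 t) :
    ContDiff ℝ 1 (VV k t) := by
  have hb : ContDiff ℝ 1 bb := contDiff_bb.of_le (by norm_cast)
  exact ((hk.smul contDiff_snd).add (ht.smul hb)).prodMk (hk.smul contDiff_fst).neg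

lemma hasDerivAt_fst {φ : ℝ → Fr} {v : Fr} {t : ℝ} (h : HasDerivAt φ v t) :
    HasDerivAt (fun s => (φ s).1) v.1 t :=
  (ContinuousLinearMap.fst ℝ E3 E3).hasFDerivAt.comp_hasDerivAt t h

lemma hasDerivAt_snd {φ : ℝ → Fr} {v : Fr} {t : ℝ} (h : HasDerivAt φ v t) :
    HasDerivAt (fun s => (φ s).2) v.2 t :=
  (ContinuousLinearMap.snd ℝ E3 E3).hasFDerivAt.comp_hasDerivAt t h

lemma NN_diff : Differentiable ℝ NN :=
  (differentiable_fst.norm_sq ℝ).add (differentiable_snd.norm_sq ℝ)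

lemma fderiv_NN (k t : Fr → ℝ) (M : Fr) : fderiv ℝ NN M (VV k t M) = 0 := by
  -- along the line `M + s • V`
  set v : Fr := VV k t M with hv
  have h1 : HasDerivAt (fun s : ℝ => M + s • v) v 0 := by
    simpa using ((hasDerivAt_id (0 : ℝ)).smul_const v).const_add M
  have h2 : HasDerivAt (fun s : ℝ => NN (M + s • v)) (fderiv ℝ NN M v) 0 := by
    have h3 := (NN_diff (M + (0 : ℝ) • v)).hasFDerivAt.comp_hasDerivAt (0 : ℝ) h1
    rw [zero_smul, add_zero] at h3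
    exact h3
  have h4 : HasDerivAt (fun s : ℝ => NN (M + s • v))
      (2 * inner ℝ M.1 v.1 + 2 * inner ℝ M.2 v.2) 0 := by
    have h5 := (hasDerivAt_fst h1).norm_sq
    have h6 := (hasDerivAt_snd h1).norm_sq
    have h7 := h5.add h6
    rw [zero_smul, add_zero] at h7
    exact h7
  rw [h2.unique h4, hv]
  have e1 : inner ℝ M.1 (bb M) = 0 := inner_cr_left _ _
  simp only [VV, inner_add_right, inner_smul_right, inner_neg_right, e1]
  rw [real_inner_comm M.2 M.1]; ring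

/-- `QQ` is constant along the curves of the extended field -/
lemma QQ_const {k t : Fr → ℝ} {φ : ℝ → Fr} (h : ∀ s, HasDerivAt φ (VV k t (φ s)) s) (s : ℝ) :
    QQ (φ s) = QQ (φ 0) := by
  have key : ∀ s, HasDerivAt (fun s => QQ (φ s)) 0 s := by
    intro s
    have h1 := hasDerivAt_fst (h s)
    have h2 := hasDerivAt_snd (h s)
    have h3 := ((h1.norm_sq.sub h2.norm_sq).pow 2).add (((h1.inner ℝ h2).pow 2).const_mul 4)
    refine h3.congr_deriv ?_
    have e1 : inner ℝ (φ s).1 (bb (φ s)) = 0 := inner_cr_left _ _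
    have e2 : inner ℝ (bb (φ s)) (φ s).2 = 0 := by
      rw [real_inner_comm]; exact inner_cr_right _ _
    simp only [VV, inner_add_right, inner_add_left, inner_smul_right, inner_smul_left,
      inner_neg_right, e1, e2, conj_trivial, real_inner_self_eq_norm_sq, Pi.sub_apply]
    rw [real_inner_comm (φ s).2 (φ s).1]
    push_cast
    ring
  have h3 := is_const_of_deriv_eq_zero (fun s => (key s).differentiableAt)
    (fun s => (key s).deriv) s 0
  exact h3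

lemma mem_St_iff (M : Fr) : M ∈ St ↔ NN M = 2 ∧ QQ M = 0 := by
  constructor
  · rintro ⟨h1, h2, h3⟩
    refine ⟨?_, ?_⟩
    · unfold NN; rw [h1, h2]; norm_num
    · unfold QQ; rw [h1, h2, h3]; norm_num
  · rintro ⟨h1, h2⟩
    unfold NN at h1
    unfold QQ at h2
    have q1 : 0 ≤ (inner ℝ M.1 M.2 : ℝ) ^ 2 := sq_nonneg _
    have q2 : 0 ≤ (‖M.1‖ ^ 2 - ‖M.2‖ ^ 2) ^ 2 := sq_nonneg _
    have h3 : (‖M.1‖ ^ 2 - ‖M.2‖ ^ 2) ^ 2 = 0 := by linarith
    have h4 : (inner ℝ M.1 M.2 : ℝ) ^ 2 = 0 := by linarith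
    have h5 : ‖M.1‖ ^ 2 - ‖M.2‖ ^ 2 = 0 := pow_eq_zero_iff (two_ne_zero) |>.1 h3
    have h6 : ‖M.1‖ ^ 2 = 1 := by linarith
    have h7 : ‖M.2‖ ^ 2 = 1 := by linarith
    refine ⟨?_, ?_, pow_eq_zero_iff (two_ne_zero) |>.1 h4⟩
    · nlinarith [norm_nonneg M.1]
    · nlinarith [norm_nonneg M.2]

lemma norm_le_NN (M : Fr) : ‖M‖ ^ 2 ≤ NN M := by
  rw [Prod.norm_def]
  unfold NN
  rcases max_cases ‖M.1‖ ‖M.2‖ with ⟨h, -⟩ | ⟨h, -⟩ <;> rw [h]
  · nlinarith [sq_nonneg ‖M.2‖]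
  · nlinarith [sq_nonneg ‖M.1‖]

end Pool.Agent.P85.EF

namespace Pool.Agent.P85

open Pool.Agent.P85.EF

/-- **R1b.** The flow of `Y` on the frames, extended to all pairs. -/
theorem exists_flow {H : E3 → ℝ} {w : ℝ} (hS : Supp H w) : ∃ φ : ℝ → Fr → Fr, Flow H φ := by
  have hSU : St ⊆ {M : Fr | M.1 ≠ 0 ∧ Dn H M ≠ 0} := by
    intro M hM
    refine ⟨?_, (Dn_pos hS hM).ne'⟩
    intro h
    have h1 := hM.1
    rw [h, norm_zero] at h1
    exact zero_ne_one h1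
  obtain ⟨k, hk, hk1⟩ := exists_ext (isOpen_good hS.smooth) hSU
    (fun M hM => contDiffAt_kap hS.smooth hM.1 hM.2)
  obtain ⟨t, ht, ht1⟩ := exists_ext (isOpen_good hS.smooth) hSU
    (fun M hM => contDiffAt_tau hS.smooth hM.1 hM.2)
  obtain ⟨φ, hφ, hφC, hadd, -, -, -, hN⟩ := H12FL.exists_flow_of_invariant (contDiff_VV hk ht)
    NN_diff (fderiv_NN k t) norm_le_NN
  have hst : ∀ s M, M ∈ St → φ s M ∈ St := by
    intro s M hM
    rw [mem_St_iff] at hM ⊢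
    refine ⟨by rw [hN]; exact hM.1, ?_⟩
    have h1 := QQ_const (k := k) (t := t) (φ := fun s => φ s M) (fun s => hφ.deriv s M) s
    simp only [hφ.zero] at h1
    rw [h1]; exact hM.2
  refine ⟨φ, hφC, hφ.zero, hadd, hst, fun s M hM => ?_⟩
  have h1 := hφ.deriv s M
  have h2 := hst s M hM
  have h3 : VV k t (φ s M) = Y H (φ s M) := by
    unfold VV Y
    rw [hk1 _ h2, ht1 _ h2]
  rw [← h3]
  exact h1

end Pool.Agent.P85
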