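import Pool.Agent.P85.Defs

/-!
# A plane which cuts the surface orthogonally contains the points with normals in the plane
-/

set_option autoImplicit false
open scoped ContDiff
open Real Set MeasureTheory Filter Topology

namespace Pool.Agent.P85

theorem fderiv_hom {H : E3 → ℝ} {w : ℝ} (hS : Supp H w) {t : ℝ} (ht : 0 < t) {x : E3}
    (hx : x ≠ 0) : fderiv ℝ H (t • x) = fderiv ℝ H x := by
  have hd : ∀ y : E3, y ≠ 0 → DifferentiableAt ℝ H y := fun y hy =>
    (hS.smooth.contDiffAt (isOpen_compl_singleton.mem_nhds hy)).differentiableAt (by simp)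
  have htx : t • x ≠ 0 := smul_ne_zero ht.ne' hx
  have h1 : HasFDerivAt (fun y => H (t • y)) ((fderiv ℝ H (t • x)).comp
      (t • ContinuousLinearMap.id ℝ E3)) x := by
    have h2 : HasFDerivAt (fun y : E3 => t • y) (t • ContinuousLinearMap.id ℝ E3) x :=
      (hasFDerivAt_id x).const_smul t
    exact (hd _ htx).hasFDerivAt.comp x h2
  have h3 : HasFDerivAt (fun y => H (t • y)) (t • fderiv ℝ H x) x := by
    have h4 : (fun y => H (t • y)) = fun y => t • H y := by
      funext y
      rw [hS.hom t ht y, smul_eq_mul]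
    rw [h4]
    exact (hd _ hx).hasFDerivAt.const_smul t
  have h5 := h1.unique h3
  ext v
  have h6 := congrArg (fun L : E3 →L[ℝ] ℝ => L v) h5
  simp at h6
  rcases h6 with h6 | h6
  · exact h6
  · exact absurd h6 ht.ne'

theorem gradient_hom {H : E3 → ℝ} {w : ℝ} (hS : Supp H w) {t : ℝ} (ht : 0 < t) {x : E3}
    (hx : x ≠ 0) : gradient H (t • x) = gradient H x := by
  unfold gradient
  rw [fderiv_hom hS ht hx]

theorem inner_nu (x : E3) : inner ℝ x nu = x 2 := by
  rw [inner_eq]
  simp [nu]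

/-- Moving from a boundary point in a direction of descent one stays in the body. -/
theorem descent {f : E3 → ℝ} (hf : ContDiff ℝ ∞ f) {x v : E3} (hx : f x = 0)
    (hv : inner ℝ (gradient f x) v < 0) : ∃ s : ℝ, 0 < s ∧ f (x + s • v) ≤ 0 := by
  have h1 : HasDerivAt (fun s : ℝ => f (x + s • v)) (inner ℝ (gradient f x) v) 0 := by
    have h2 : HasFDerivAt f (fderiv ℝ f (x + (0 : ℝ) • v)) (x + (0 : ℝ) • v) :=
      (hf.differentiable (by simp)).differentiableAt.hasFDerivAt
    have h3 : HasDerivAt (fun s : ℝ => x + s • v) v 0 := by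
      have := ((hasDerivAt_id (0 : ℝ)).smul_const v).const_add x
      simpa using this
    have h4 : HasDerivAt (fun s : ℝ => f (x + s • v)) (fderiv ℝ f (x + (0 : ℝ) • v) v) 0 :=
      h2.comp_hasDerivAt (0 : ℝ) h3
    have h5 : inner ℝ (gradient f x) v = fderiv ℝ f (x + (0 : ℝ) • v) v := by
      rw [zero_smul, add_zero]
      exact InnerProductSpace.toDual_symm_apply
    rw [h5]
    exact h4
  have h5 : ∀ᶠ s in 𝓝[>] (0 : ℝ), f (x + s • v) < 0 := by
    have h6 := h1.tendsto_slope_zero_right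
    have h7 := h6.eventually (gt_mem_nhds hv)
    filter_upwards [h7, self_mem_nhdsWithin] with s hs hs0
    have hs0' : 0 < s := hs0
    simp only [zero_add, zero_smul, add_zero, hx, sub_zero, smul_eq_mul] at hs
    by_contra hcon
    have : 0 ≤ s⁻¹ * f (x + s • v) := mul_nonneg (by positivity) (not_lt.1 hcon)
    linarith
  obtain ⟨s, hs1, hs2⟩ := (h5.and self_mem_nhdsWithin).exists
  exact ⟨s, hs2, hs1.le⟩

/-- R8b -/
theorem plane_of_orth {K : Set E3} {f : E3 → ℝ} {w c : ℝ} {H : E3 → ℝ} (h : Hyp K f w)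
    (hH : IsSupp K f w H) (ho : OrthPlane f nu c) : Plane H c := by
  intro u hu hu2
  obtain ⟨⟨x₀, hx₀, hx₀c⟩, hperp⟩ := ho
  have hcp : IsCompact (K ∩ {x : E3 | x 2 = c}) := by
    refine h.cpt.inter_right ?_
    exact isClosed_eq (by fun_prop) continuous_const
  have hne : (K ∩ {x : E3 | x 2 = c}).Nonempty := by
    refine ⟨x₀, ?_, ?_⟩
    · rw [h.eq]
      exact hx₀.le
    · change x₀ 2 = c
      rw [← inner_nu]
      exact hx₀c
  obtain ⟨x₁, hx₁, hmax⟩ := hcp.exists_isMaxOn hne
    (f := fun x => inner ℝ x u) (by fun_prop)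
  have hx₁K : f x₁ ≤ 0 := by
    have := hx₁.1
    rw [h.eq] at this
    exact this
  have hx₁c : x₁ 2 = c := hx₁.2
  have hmax' : ∀ x : E3, f x ≤ 0 → x 2 = c → inner ℝ x u ≤ inner ℝ x₁ u := by
    intro x hx hxc
    exact hmax ⟨by rw [h.eq]; exact hx, hxc⟩
  have hf0 : f x₁ = 0 := by
    by_contra hne0
    have hlt : f x₁ < 0 := lt_of_le_of_ne hx₁K hne0
    have h1 : ContinuousAt (fun s : ℝ => f (x₁ + s • u)) 0 :=
      (h.smooth.continuous.comp (by fun_prop)).continuousAt
    have h2 : ∀ᶠ s in 𝓝 (0 : ℝ), f (x₁ + s • u) < 0 := by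
      refine h1.eventually (gt_mem_nhds ?_)
      simpa using hlt
    have h3 : ∀ᶠ s in 𝓝[>] (0 : ℝ), f (x₁ + s • u) < 0 := h2.filter_mono nhdsWithin_le_nhds
    obtain ⟨s, hs1, hs2⟩ := (h3.and self_mem_nhdsWithin).exists
    have hs2' : 0 < s := hs2
    have h4 := hmax' (x₁ + s • u) hs1.le (by
      simp [hu2, hx₁c])
    rw [inner_add_left, real_inner_smul_left, real_inner_self_eq_norm_sq, hu] at h4
    linarith
  set g := gradient f x₁ with hg
  have hg0 : g ≠ 0 := h.reg x₁ hf0
  have hgnu : g 2 = 0 := by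
    rw [← inner_nu]
    exact hperp x₁ hf0 (by rw [inner_nu]; exact hx₁c)
  have hcone : ∀ v : E3, v 2 = 0 → inner ℝ g v < 0 → inner ℝ v u ≤ 0 := by
    intro v hv2 hv
    obtain ⟨s, hs0, hs⟩ := descent h.smooth hf0 hv
    have h4 := hmax' (x₁ + s • v) hs (by simp [hv2, hx₁c])
    rw [inner_add_left, real_inner_smul_left] at h4
    have h5 : s * inner ℝ v u ≤ 0 := by linarith
    by_contra hcon
    have := mul_pos hs0 (not_le.1 hcon)
    linarith
  have hgn : 0 < ‖g‖ ^ 2 := by positivity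
  set a : ℝ := inner ℝ g u / ‖g‖ ^ 2 with ha
  set p : E3 := u - a • g with hp
  have hpg : inner ℝ g p = 0 := by
    rw [hp, inner_sub_right, real_inner_smul_right, real_inner_self_eq_norm_sq, ha]
    field_simp
    ring
  have hpu : inner ℝ p u = ‖p‖ ^ 2 := by
    have e : u = p + a • g := by rw [hp]; abel
    have e2 : inner ℝ p u = inner ℝ p (p + a • g) := by rw [← e]
    rw [e2, inner_add_right, real_inner_smul_right, real_inner_comm g p, hpg,
      real_inner_self_eq_norm_sq]
    ring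
  have hp2 : p 2 = 0 := by
    rw [hp]
    simp [hu2, hgnu]
  have hδ : ∀ δ : ℝ, 0 < δ → ‖p‖ ^ 2 ≤ δ * inner ℝ g u := by
    intro δ hδ
    have h1 := hcone (p - δ • g) (by simp [hp2, hgnu]) (by
      rw [inner_sub_right, real_inner_smul_right, hpg, real_inner_self_eq_norm_sq]
      have := mul_pos hδ hgn
      linarith)
    rw [inner_sub_left, real_inner_smul_left, hpu] at h1
    linarith
  have hgu : 0 ≤ inner ℝ g u := by
    have := hδ 1 one_pos
    nlinarith [sq_nonneg ‖p‖]
  have hp0 : p = 0 := by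
    have h1 : ‖p‖ ^ 2 ≤ 0 := by
      refine le_of_forall_pos_le_add fun ε hε => ?_
      have h2 := hδ (ε / (inner ℝ g u + 1)) (by positivity)
      have h3 : ε / (inner ℝ g u + 1) * inner ℝ g u ≤ ε := by
        rw [div_mul_eq_mul_div, div_le_iff₀ (by linarith)]
        nlinarith
      linarith
    have h2 : ‖p‖ = 0 := by nlinarith [norm_nonneg p]
    exact norm_eq_zero.1 h2
  have hua : u = a • g := by
    have : u - a • g = 0 := hp0
    exact sub_eq_zero.1 this
  have ha0 : 0 < a := by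
    have h1 : 0 ≤ a := div_nonneg hgu hgn.le
    rcases h1.lt_or_eq with h2 | h2
    · exact h2
    · exfalso
      rw [← h2, zero_smul] at hua
      rw [hua, norm_zero] at hu
      norm_num at hu
  rw [hua, gradient_hom hH.toSupp ha0 hg0, hg, hH.surj x₁ hf0]
  exact hx₁c

end Pool.Agent.P85
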