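import Mathlib

/-!
# Pointwise periodic `C¹` self-maps of a plane domain are periodic (MP_ac4f8b, Theorem P, row R2)
-/

set_option autoImplicit false

open Set Filter Topology Metric

namespace Pool.Agent.P85

section linalg

/-- a square of a matrix, of finite order, with a fixed vector, in dimension two, is the identity -/
theorem eq_one_of_sq {M N : Matrix (Fin 2) (Fin 2) ℝ} (hN : N * N = M) {j : ℕ} (hj : 0 < j)
    (hM : M ^ j = 1) (h0 : M 0 0 = 1) (h1 : M 1 0 = 0) : M = 1 := by
  have hdet : M.det = M 1 1 := by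
    rw [Matrix.det_fin_two, h0, h1]
    ring
  have hdet2 : M.det = N.det * N.det := by rw [← hN, Matrix.det_mul]
  have hdj : M.det ^ j = 1 := by rw [← Matrix.det_pow, hM, Matrix.det_one]
  have hnn : 0 ≤ M.det := by rw [hdet2]; exact mul_self_nonneg _
  have hd1 : M.det = 1 := (pow_eq_one_iff_of_nonneg hnn hj.ne').1 hdj
  have h11 : M 1 1 = 1 := by rw [← hdet, hd1]
  have key : ∀ k : ℕ, (M ^ k) 0 0 = 1 ∧ (M ^ k) 1 0 = 0 ∧ (M ^ k) 0 1 = k * M 0 1 ∧
      (M ^ k) 1 1 = 1 := by
    intro k
    induction k with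
    | zero => simp
    | succ k ih =>
      obtain ⟨a, b, c, d⟩ := ih
      rw [pow_succ]
      refine ⟨?_, ?_, ?_, ?_⟩
      · rw [Matrix.mul_apply, Fin.sum_univ_two, a, c, h0, h1]; ring
      · rw [Matrix.mul_apply, Fin.sum_univ_two, b, d, h0, h1]; ring
      · rw [Matrix.mul_apply, Fin.sum_univ_two, a, c, h11]; push_cast; ring
      · rw [Matrix.mul_apply, Fin.sum_univ_two, b, d, h11]; ring
  have h01 : M 0 1 = 0 := by
    have h2 := (key j).2.2.1
    rw [hM] at h2
    have h3 : (1 : Matrix (Fin 2) (Fin 2) ℝ) 0 1 = 0 := by simp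
    rw [h3] at h2
    have hj' : (j : ℝ) ≠ 0 := by exact_mod_cast hj.ne'
    exact (mul_eq_zero.1 h2.symm).resolve_left hj'
  ext i k
  fin_cases i <;> fin_cases k
  · simpa using h0
  · simpa using h01
  · simpa using h1
  · simpa using h11

variable {E : Type*} [NormedAddCommGroup E] [NormedSpace ℝ E]

/-- the same for continuous linear maps -/
theorem clm_eq_one (hE : Module.finrank ℝ E = 2) {A : E →L[ℝ] E} {j : ℕ} (hj : 0 < j)
    (hA : (A ^ 2) ^ j = 1) {v : E} (hv : v ≠ 0) (hAv : A v = v) : A ^ 2 = 1 := by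
  have hfd : FiniteDimensional ℝ E := Module.finite_of_finrank_pos (by omega)
  obtain ⟨w, hw⟩ : ∃ w : E, LinearIndependent ℝ ![v, w] := by
    by_contra hcon
    push Not at hcon
    have h1 : Module.finrank ℝ E ≤ 1 := by
      apply finrank_le_one v
      intro w
      have h2 := hcon w
      rw [LinearIndependent.pair_iff] at h2
      push Not at h2
      obtain ⟨s, t, hst, hne⟩ := h2
      have ht : t ≠ 0 := by
        rintro rfl
        have hs : s ≠ 0 := fun h => hne h rfl
        rw [zero_smul, add_zero, smul_eq_zero] at hst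
        rcases hst with h | h
        · exact hs h
        · exact hv h
      refine ⟨-(t⁻¹ * s), ?_⟩
      have h3 : t • w = -(s • v) := eq_neg_of_add_eq_zero_right hst
      have h4 : w = t⁻¹ • (t • w) := by rw [smul_smul, inv_mul_cancel₀ ht, one_smul]
      rw [h4, h3, neg_smul, smul_neg, smul_smul]
    omega
  let b : Module.Basis (Fin 2) ℝ E := basisOfLinearIndependentOfCardEqFinrank hw (by simp [hE])
  have hb0 : b 0 = v := by simp [b]
  let N : Matrix (Fin 2) (Fin 2) ℝ := LinearMap.toMatrix b b (A : E →ₗ[ℝ] E)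
  have hM : LinearMap.toMatrix b b ((A ^ 2 : E →L[ℝ] E) : E →ₗ[ℝ] E) = N * N := by
    rw [← LinearMap.toMatrix_comp b b b]
    rfl
  have hpow : ∀ k : ℕ, LinearMap.toMatrix b b (((A ^ 2) ^ k : E →L[ℝ] E) : E →ₗ[ℝ] E) =
      (N * N) ^ k := by
    intro k
    induction k with
    | zero =>
      rw [pow_zero, pow_zero]
      exact LinearMap.toMatrix_one b
    | succ k ih =>
      rw [pow_succ (A ^ 2) k, pow_succ (N * N) k, ← ih, ← hM, ← LinearMap.toMatrix_comp b b b]
      rfl
  have h1 : (N * N) ^ j = 1 := by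
    rw [← hpow, hA]
    exact LinearMap.toMatrix_one b
  have hA2v : (A ^ 2) v = v := by
    rw [pow_two]
    show A (A v) = v
    rw [hAv, hAv]
  have hcol : ∀ i, (N * N) i 0 = b.repr v i := by
    intro i
    rw [← hM, LinearMap.toMatrix_apply, hb0]
    show b.repr ((A ^ 2) v) i = _
    rw [hA2v]
  have hrep : b.repr v = Finsupp.single 0 1 := by rw [← hb0, b.repr_self]
  have h2 := eq_one_of_sq (M := N * N) (N := N) rfl hj h1
    (by rw [hcol, hrep]; simp) (by rw [hcol, hrep]; simp)
  have h3 : LinearMap.toMatrix b b ((A ^ 2 : E →L[ℝ] E) : E →ₗ[ℝ] E) =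
      LinearMap.toMatrix b b (LinearMap.id : E →ₗ[ℝ] E) := by
    rw [hM, h2]
    exact (LinearMap.toMatrix_id b).symm
  have h4 := (LinearMap.toMatrix b b).injective h3
  ext x
  have h5 := LinearMap.congr_fun h4 x
  exact h5

end linalg

section local_

variable {E : Type*} [NormedAddCommGroup E] [NormedSpace ℝ E]

/-- averaging: near a fixed point with derivative one, points of finite order are fixed -/
theorem fixed_of_iterate {S : E → E} {f : E} (hS : HasStrictFDerivAt S (1 : E →L[ℝ] E) f)
    (hf : S f = f) {j : ℕ} (hj : 0 < j) : ∀ᶠ x in 𝓝 f, S^[j] x = x → S x = x := by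
  let ps : E → E := fun x => (j : ℝ)⁻¹ • ∑ i ∈ Finset.range j, S^[i] x
  have hps : HasStrictFDerivAt ps (1 : E →L[ℝ] E) f := by
    have h1 : HasStrictFDerivAt (fun x => ∑ i ∈ Finset.range j, S^[i] x)
        (∑ i ∈ Finset.range j, ((1 : E →L[ℝ] E) ^ i)) f :=
      HasStrictFDerivAt.fun_sum (fun i _ => hS.iterate hf i)
    have h2 := h1.const_smul ((j : ℝ)⁻¹)
    have h3 : (j : ℝ)⁻¹ • (∑ i ∈ Finset.range j, ((1 : E →L[ℝ] E) ^ i)) = 1 := by
      have hj' : (j : ℝ) ≠ 0 := by exact_mod_cast hj.ne'
      simp only [one_pow, Finset.sum_const, Finset.card_range]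
      rw [← Nat.cast_smul_eq_nsmul ℝ, smul_smul, inv_mul_cancel₀ hj', one_smul]
    rw [h3] at h2
    exact h2
  have h1 : ∀ᶠ p : E × E in 𝓝 (f, f), ps p.1 = ps p.2 → p.1 = p.2 := by
    have h2 := hps.isLittleO.def (c := 1 / 2) (by norm_num)
    filter_upwards [h2] with p hp heq
    rw [heq, sub_self] at hp
    have h3 : ‖(0 : E) - (1 : E →L[ℝ] E) (p.1 - p.2)‖ = ‖p.1 - p.2‖ := by
      rw [zero_sub, norm_neg]
      rfl
    rw [h3] at hp
    have h4 : ‖p.1 - p.2‖ ≤ 0 := by
      have := norm_nonneg (p.1 - p.2)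
      linarith
    exact sub_eq_zero.1 (norm_le_zero_iff.1 h4)
  have hcont : Tendsto (fun x => (S x, x)) (𝓝 f) (𝓝 (f, f)) := by
    have h2 : Tendsto S (𝓝 f) (𝓝 f) := by
      have := hS.continuousAt
      rw [ContinuousAt, hf] at this
      exact this
    exact h2.prodMk_nhds tendsto_id
  filter_upwards [hcont.eventually h1] with x hx hjx
  apply hx
  show (j : ℝ)⁻¹ • ∑ i ∈ Finset.range j, S^[i] (S x) = (j : ℝ)⁻¹ • ∑ i ∈ Finset.range j, S^[i] x
  congr 1
  have h2 : ∀ i, S^[i] (S x) = S^[i + 1] x := fun i => by rw [Function.iterate_succ_apply]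
  simp_rw [h2]
  have h3 := Finset.sum_range_succ (fun i => S^[i] x) j
  have h4 := Finset.sum_range_succ' (fun i => S^[i] x) j
  rw [h4] at h3
  have h5 : S^[0] x = x := rfl
  rw [h5, hjx] at h3
  exact add_right_cancel h3

end local_

section main

set_option linter.unusedSectionVars false

variable {E : Type*} [NormedAddCommGroup E] [NormedSpace ℝ E]

/-- the map is smooth along iterates -/
theorem contDiffAt_iterate {Om : Set E} (hO : IsOpen Om) {G : E → E} (hm : MapsTo G Om Om)
    (hG : ContDiffOn ℝ 1 G Om) (n : ℕ) : ∀ x ∈ Om, ContDiffAt ℝ 1 (G^[n]) x := by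
  induction n with
  | zero => exact fun x _ => contDiffAt_id
  | succ n ih =>
    intro x hx
    rw [Function.iterate_succ]
    exact ContDiffAt.comp x (ih _ (hm hx)) (hG.contDiffAt (hO.mem_nhds hx))

/-- points near which the `n`-th iterate is the identity -/
def Loc (G : E → E) (n : ℕ) : Set E := {x | ∀ᶠ z in 𝓝 x, G^[n] z = z}

lemma isOpen_Loc (G : E → E) (n : ℕ) : IsOpen (Loc G n) := isOpen_setOfPred_eventually_nhds

lemma mem_Loc_self {G : E → E} {n : ℕ} {x : E} (h : x ∈ Loc G n) : G^[n] x = x := h.self_of_nhds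

lemma iterate_of_dvd {G : E → E} {n : ℕ} {x : E} (h : G^[n] x = x) (k : ℕ) : G^[n * k] x = x := by
  rw [Function.iterate_mul]
  exact Function.iterate_fixed h k

lemma fderiv_of_Loc {G : E → E} {n : ℕ} {x : E} (h : x ∈ Loc G n) :
    fderiv ℝ (G^[n]) x = 1 := by
  have h1 : G^[n] =ᶠ[𝓝 x] id := h
  rw [h1.fderiv_eq]
  exact fderiv_id

/-- limits of such points are fixed, with derivative one -/
theorem of_closure {Om : Set E} (hO : IsOpen Om) {G : E → E} (hm : MapsTo G Om Om)
    (hG : ContDiffOn ℝ 1 G Om) {n : ℕ} {f : E} (hf : f ∈ Om) {C : Set E}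
    (hC : ∀ z ∈ C, z ∈ Loc G n) (hfC : f ∈ closure C) :
    G^[n] f = f ∧ fderiv ℝ (G^[n]) f = 1 := by
  have hcd := contDiffAt_iterate hO hm hG n f hf
  have hne : (𝓝[C] f).NeBot := mem_closure_iff_nhdsWithin_neBot.1 hfC
  constructor
  · have h1 : Tendsto (G^[n]) (𝓝[C] f) (𝓝 (G^[n] f)) := hcd.continuousAt.mono_left nhdsWithin_le_nhds
    have h2 : Tendsto (G^[n]) (𝓝[C] f) (𝓝 f) := by
      have h3 : Tendsto id (𝓝[C] f) (𝓝 f) := tendsto_id.mono_left nhdsWithin_le_nhds
      refine h3.congr' ?_
      filter_upwards [self_mem_nhdsWithin] with z hz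
      exact (mem_Loc_self (hC z hz)).symm
    exact tendsto_nhds_unique h1 h2
  · have h0 : ContinuousAt (fderiv ℝ (G^[n])) f :=
      (hcd.fderiv_right (m := 0) (by norm_num)).continuousAt
    have h1 : Tendsto (fderiv ℝ (G^[n])) (𝓝[C] f) (𝓝 (fderiv ℝ (G^[n]) f)) :=
      h0.mono_left nhdsWithin_le_nhds
    have h2 : Tendsto (fderiv ℝ (G^[n])) (𝓝[C] f) (𝓝 (1 : E →L[ℝ] E)) := by
      refine tendsto_const_nhds.congr' ?_
      filter_upwards [self_mem_nhdsWithin] with z hz
      exact (fderiv_of_Loc (hC z hz)).symm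
    exact tendsto_nhds_unique h1 h2

/-- on a connected set of locally periodic points one exponent works -/
theorem loc_all {Om : Set E} (hO : IsOpen Om) {G : E → E} (hm : MapsTo G Om Om)
    (hG : ContDiffOn ℝ 1 G Om) {C : Set E} (hCO : C ⊆ Om) (hCc : IsPreconnected C)
    (hCU : ∀ z ∈ C, ∃ m, 0 < m ∧ z ∈ Loc G m) {n : ℕ} {z0 : E} (hz0 : z0 ∈ C)
    (hz0n : z0 ∈ Loc G n) : ∀ z ∈ C, z ∈ Loc G n := by
  have h := hCc.subset_of_closure_inter_subset (isOpen_Loc G n) ⟨z0, hz0, hz0n⟩ (by
    rintro f ⟨hf1, hf2⟩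
    obtain ⟨m, hm0, hfm⟩ := hCU f hf2
    obtain ⟨h1, h2⟩ := of_closure hO hm hG (hCO hf2) (fun z hz => hz) hf1
    have hcd := contDiffAt_iterate hO hm hG n f (hCO hf2)
    have hst : HasStrictFDerivAt (G^[n]) (1 : E →L[ℝ] E) f := by
      have := hcd.hasStrictFDerivAt (by norm_num)
      rwa [h2] at this
    have h3 := fixed_of_iterate hst h1 hm0
    show ∀ᶠ z in 𝓝 f, G^[n] z = z
    filter_upwards [h3, hfm] with z hz1 hz2
    apply hz1
    rw [← Function.iterate_mul, mul_comm]
    exact iterate_of_dvd hz2 n)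
  exact h

/-- punctured balls are connected -/
theorem punctured_ball (hE : 1 < Module.rank ℝ E) (f : E) {de : ℝ} (hde : 0 < de) :
    IsPreconnected (ball f de \ {f}) := by
  have h1 : IsPreconnected ({0}ᶜ : Set E) :=
    (isConnected_compl_singleton_of_one_lt_rank hE 0).isPreconnected
  have hc : Continuous (fun y : E => f + (de / (1 + ‖y‖)) • y) := by
    refine continuous_const.add (Continuous.smul ?_ continuous_id)
    exact continuous_const.div (continuous_const.add continuous_norm) (fun y => by positivity)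
  have h2 := h1.image _ hc.continuousOn
  have h3 : (fun y : E => f + (de / (1 + ‖y‖)) • y) '' {0}ᶜ = ball f de \ {f} := by
    ext z
    constructor
    · rintro ⟨y, hy, rfl⟩
      have hy0 : y ≠ 0 := hy
      have hyn : 0 < ‖y‖ := norm_pos_iff.2 hy0
      constructor
      · rw [mem_ball, dist_eq_norm, add_sub_cancel_left, norm_smul, Real.norm_eq_abs,
          abs_of_pos (by positivity), div_mul_eq_mul_div, div_lt_iff₀ (by positivity)]
        nlinarith
      · intro h
        have h4 : (de / (1 + ‖y‖)) • y = 0 := by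
          have h5 : f + (de / (1 + ‖y‖)) • y = f := h
          simpa using h5
        rcases smul_eq_zero.1 h4 with h5 | h5
        · have : 0 < de / (1 + ‖y‖) := by positivity
          exact this.ne' h5
        · exact hy0 h5
    · rintro ⟨hz1, hz2⟩
      rw [mem_ball, dist_eq_norm] at hz1
      have hz0 : z - f ≠ 0 := fun h => hz2 (sub_eq_zero.1 h)
      have hn : 0 < ‖z - f‖ := norm_pos_iff.2 hz0
      have hd : 0 < de - ‖z - f‖ := by linarith
      refine ⟨(1 / (de - ‖z - f‖)) • (z - f), ?_, ?_⟩
      · intro h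
        rcases smul_eq_zero.1 h with h5 | h5
        · exact (one_div_pos.2 hd).ne' h5
        · exact hz0 h5
      · show f + (de / (1 + ‖(1 / (de - ‖z - f‖)) • (z - f)‖)) • ((1 / (de - ‖z - f‖)) • (z - f)) = z
        have h4 : ‖(1 / (de - ‖z - f‖)) • (z - f)‖ = ‖z - f‖ / (de - ‖z - f‖) := by
          rw [norm_smul, Real.norm_eq_abs, abs_of_pos (one_div_pos.2 hd)]
          ring
        rw [h4, smul_smul]
        have h5 : de / (1 + ‖z - f‖ / (de - ‖z - f‖)) * (1 / (de - ‖z - f‖)) = 1 := by
          have h6 : (1 + ‖z - f‖ / (de - ‖z - f‖)) = de / (de - ‖z - f‖) := by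
            field_simp
            ring
          rw [h6]
          field_simp
        rw [h5, one_smul]
        abel
  rwa [h3] at h2

/-- **Row R2.** A `C¹` self-map of a connected plane domain all of whose points are periodic is
periodic. -/
theorem exists_period (hE : Module.finrank ℝ E = 2) {Om : Set E} (hO : IsOpen Om)
    (hc : IsPreconnected Om) {G : E → E} (hm : MapsTo G Om Om) (hG : ContDiffOn ℝ 1 G Om)
    (hp : ∀ x ∈ Om, ∃ n, 0 < n ∧ G^[n] x = x) : ∃ n, 0 < n ∧ ∀ x ∈ Om, G^[n] x = x := by
  have hfd : FiniteDimensional ℝ E := Module.finite_of_finrank_pos (by omega)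
  have hrank : 1 < Module.rank ℝ E := by
    rw [← Module.finrank_eq_rank, hE]
    norm_num
  have hcompl : CompleteSpace E := FiniteDimensional.complete ℝ E
  set U : Set E := {x | ∃ m, 0 < m ∧ x ∈ Loc G m} with hU
  have hUo : IsOpen U := by
    have : U = ⋃ m : {m : ℕ // 0 < m}, Loc G m := by
      ext x
      simp [hU]
    rw [this]
    exact isOpen_iUnion (fun m => isOpen_Loc G m)
  -- all points are locally periodic
  have hall : Om ⊆ U := by
    intro x0 hx0
    by_contra hx0U
    obtain ⟨r, hr, hrO⟩ : ∃ r, 0 < r ∧ closedBall x0 r ⊆ Om :=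
      Metric.nhds_basis_closedBall.mem_iff.1 (hO.mem_nhds hx0)
    -- the Baire argument
    obtain ⟨y, hyU, hyr, n, hn, ep, hep, hbO, hfix⟩ : ∃ y, y ∉ U ∧ dist y x0 < r ∧
        ∃ n, 0 < n ∧ ∃ ep, 0 < ep ∧ ball y ep ⊆ Om ∧ ∀ x ∈ ball y ep, x ∉ U → G^[n] x = x := by
      let X : Set E := closedBall x0 r ∩ Uᶜ
      have hXc : IsClosed X := isClosed_closedBall.inter hUo.isClosed_compl
      have hXcs : CompleteSpace X := hXc.completeSpace_coe
      let F : ℕ → Set X := fun n => {x | G^[n + 1] (x : E) = x}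
      have hF : ∀ n, IsClosed (F n) := by
        intro n
        have hcn : Continuous (fun x : X => G^[n + 1] (x : E)) := by
          rw [continuous_iff_continuousAt]
          intro x
          exact ContinuousAt.comp (g := G^[n + 1]) (f := fun x : X => (x : E))
            (contDiffAt_iterate hO hm hG (n + 1) x (hrO x.2.1)).continuousAt
            continuousAt_subtype_val
        exact isClosed_eq hcn continuous_subtype_val
      have hFU : ⋃ n, F n = univ := by
        rw [eq_univ_iff_forall]
        intro x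
        obtain ⟨n, hn, hnx⟩ := hp x (hrO x.2.1)
        rw [mem_iUnion]
        refine ⟨n - 1, ?_⟩
        show G^[n - 1 + 1] (x : E) = x
        rw [Nat.sub_add_cancel hn]
        exact hnx
      have hd := dense_iUnion_interior_of_closed hF hFU
      have hopen : IsOpen {x : X | dist (x : E) x0 < r} :=
        isOpen_lt (continuous_subtype_val.dist continuous_const) continuous_const
      obtain ⟨y, hy1, hy2⟩ := hd.inter_open_nonempty _ hopen
        ⟨⟨x0, mem_closedBall_self hr.le, hx0U⟩, by
          show dist x0 x0 < r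
          rw [dist_self]
          exact hr⟩
      rw [mem_iUnion] at hy2
      obtain ⟨n, hn⟩ := hy2
      rw [mem_interior_iff_mem_nhds, Metric.mem_nhds_iff] at hn
      obtain ⟨ep, hep, hball⟩ := hn
      refine ⟨y, y.2.2, hy1, n + 1, Nat.succ_pos n, min ep (r - dist (y : E) x0),
        lt_min hep (sub_pos.2 hy1), ?_, ?_⟩
      · intro x hx
        apply hrO
        rw [mem_ball] at hx
        rw [mem_closedBall]
        have h1 := lt_min_iff.1 hx
        have h2 := dist_triangle x (y : E) x0
        linarith [h1.2]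
      · intro x hx hxU
        rw [mem_ball] at hx
        have h1 := lt_min_iff.1 hx
        have hxr : x ∈ closedBall x0 r := by
          rw [mem_closedBall]
          have h2 := dist_triangle x (y : E) x0
          linarith [h1.2]
        have h3 : (⟨x, hxr, hxU⟩ : X) ∈ ball y ep := by
          rw [mem_ball]
          exact h1.1
        exact hball h3
    have hyO : y ∈ Om := hbO (mem_ball_self hep)
    -- fixed vectors
    have hvec : ∀ f ∈ ball y ep, f ∉ U → ∃ v : E, v ≠ 0 ∧ fderiv ℝ (G^[n]) f v = v := by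
      intro f hf hfU
      by_contra hcon
      push Not at hcon
      have hfO := hbO hf
      have hcd := contDiffAt_iterate hO hm hG n f hfO
      have hfd1 : HasFDerivAt (G^[n]) (fderiv ℝ (G^[n]) f) f :=
        (hcd.differentiableAt (by norm_num)).hasFDerivAt
      have hne : ∀ᶠ z in 𝓝[≠] f, G^[n] z - z ≠ 0 := by
        have h1 : HasFDerivAt (fun z => G^[n] z - z) (fderiv ℝ (G^[n]) f - 1) f :=
          hfd1.sub (hasFDerivAt_id f)
        refine h1.eventually_ne ?_
        have hker : LinearMap.ker ((fderiv ℝ (G^[n]) f - 1 : E →L[ℝ] E) : E →ₗ[ℝ] E) = ⊥ := by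
          rw [LinearMap.ker_eq_bot']
          intro v hv
          by_contra hv0
          apply hcon v hv0
          have h2 : fderiv ℝ (G^[n]) f v - v = 0 := hv
          exact sub_eq_zero.1 h2
        obtain ⟨K, -, hK⟩ := LinearMap.exists_antilipschitzWith _ hker
        exact ⟨K, hK⟩
      rw [eventually_nhdsWithin_iff, Metric.eventually_nhds_iff] at hne
      obtain ⟨de, hde, hne⟩ := hne
      -- a punctured ball of locally periodic points
      obtain ⟨de', hde', hd1, hd2⟩ : ∃ de', 0 < de' ∧ ball f de' ⊆ ball y ep ∧ de' ≤ de := by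
        obtain ⟨d2, h2, h3⟩ := Metric.isOpen_iff.1 isOpen_ball f hf
        exact ⟨min d2 de, lt_min h2 hde, (ball_subset_ball (min_le_left _ _)).trans h3,
          min_le_right _ _⟩
      have hsub : ∀ z ∈ ball f de' \ {f}, ∃ m, 0 < m ∧ z ∈ Loc G m := by
        rintro z ⟨hz1, hz2⟩
        by_contra hzU
        have h1 := hfix z (hd1 hz1) hzU
        have h2 := hne (y := z) (lt_of_lt_of_le hz1 hd2) hz2
        exact h2 (by rw [h1, sub_self])
      have hnt : Nontrivial E := by
        apply Module.nontrivial_of_finrank_pos (R := ℝ)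
        omega
      obtain ⟨z0, hz0⟩ : (ball f de' \ {f}).Nonempty := by
        obtain ⟨v, hv⟩ := exists_ne (0 : E)
        have hvn : 0 < ‖v‖ := norm_pos_iff.2 hv
        refine ⟨f + (de' / (2 * ‖v‖)) • v, ?_, ?_⟩
        · rw [mem_ball, dist_eq_norm, add_sub_cancel_left, norm_smul, Real.norm_eq_abs,
            abs_of_pos (by positivity)]
          have : de' / (2 * ‖v‖) * ‖v‖ = de' / 2 := by field_simp
          rw [this]
          linarith
        · intro h
          have h4 : (de' / (2 * ‖v‖)) • v = 0 := by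
            have h5 : f + (de' / (2 * ‖v‖)) • v = f := h
            simpa using h5
          rcases smul_eq_zero.1 h4 with h5 | h5
          · have : 0 < de' / (2 * ‖v‖) := by positivity
            exact this.ne' h5
          · exact hv h5
      obtain ⟨m, hm0, hz0m⟩ := hsub z0 hz0
      have hloc := loc_all hO hm hG (fun z hz => hbO (hd1 hz.1)) (punctured_ball hrank f hde')
        hsub hz0 hz0m
      apply hfU
      refine ⟨m, hm0, ?_⟩
      have hfm : G^[m] f = f := by
        have hcl : f ∈ closure (ball f de' \ {f}) := by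
          have h1 : f ∈ closure ({f}ᶜ : Set E) := by
            have := (dense_compl_singleton f : Dense ({f}ᶜ : Set E))
            exact this f
          have h2 : ball f de' \ {f} = ball f de' ∩ {f}ᶜ := rfl
          rw [h2, mem_closure_iff_nhdsWithin_neBot]
          rw [mem_closure_iff_nhdsWithin_neBot] at h1
          rw [inter_comm, nhdsWithin_inter_of_mem' (mem_nhdsWithin_of_mem_nhds (ball_mem_nhds f hde'))]
          exact h1
        exact (of_closure hO hm hG hfO hloc hcl).1
      show ∀ᶠ z in 𝓝 f, G^[m] z = z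
      filter_upwards [ball_mem_nhds f hde'] with z hz
      by_cases hzf : z = f
      · rw [hzf, hfm]
      · exact mem_Loc_self (hloc z ⟨hz, hzf⟩)
    -- the components of `U` which meet the ball
    have hcomp : ∀ c ∈ ball y ep, c ∈ U → G^[n * 2] c = c := by
      intro c hcb hcU
      set C := connectedComponentIn (U ∩ Om) c with hCdef
      have hUOo : IsOpen (U ∩ Om) := hUo.inter hO
      have hcUO : c ∈ U ∩ Om := ⟨hcU, hbO hcb⟩
      have hCo : IsOpen C := hUOo.connectedComponentIn
      have hCsub : C ⊆ U ∩ Om := connectedComponentIn_subset _ _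
      have hCc : IsPreconnected C := isPreconnected_connectedComponentIn
      have hcC : c ∈ C := mem_connectedComponentIn hcUO
      obtain ⟨m, hm0, hcm⟩ := hcU
      have hlocC : ∀ z ∈ C, z ∈ Loc G m :=
        loc_all hO hm hG (fun z hz => (hCsub hz).2) hCc (fun z hz => (hCsub hz).1) hcC hcm
      -- a frontier point in the ball
      obtain ⟨f, hfb, hfcl, hfC⟩ : ∃ f, f ∈ ball y ep ∧ f ∈ closure C ∧ f ∉ C := by
        by_contra hcon
        push Not at hcon
        have h1 : ball y ep ⊆ C := isPreconnected_ball.subset_of_closure_inter_subset hCo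
          ⟨c, hcb, hcC⟩ (fun f hf => hcon f hf.2 hf.1)
        exact hyU (hCsub (h1 (mem_ball_self hep))).1
      have hfO : f ∈ Om := hbO hfb
      have hfU : f ∉ U := by
        intro hfU
        have hfUO : f ∈ U ∩ Om := ⟨hfU, hfO⟩
        have h1 : IsOpen (connectedComponentIn (U ∩ Om) f) := hUOo.connectedComponentIn
        rw [_root_.mem_closure_iff] at hfcl
        obtain ⟨z, hz1, hz2⟩ := hfcl _ h1 (mem_connectedComponentIn hfUO)
        have h2 := connectedComponentIn_eq hz1
        have h3 := connectedComponentIn_eq hz2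
        apply hfC
        rw [hCdef, h3, ← h2]
        exact mem_connectedComponentIn hfUO
      have hfn : G^[n] f = f := hfix f hfb hfU
      obtain ⟨v, hv0, hv⟩ := hvec f hfb hfU
      have hst : HasStrictFDerivAt (G^[n]) (fderiv ℝ (G^[n]) f) f :=
        (contDiffAt_iterate hO hm hG n f hfO).hasStrictFDerivAt (by norm_num)
      have hst2 := hst.iterate hfn 2
      have hf2 : (G^[n])^[2] f = f := Function.iterate_fixed hfn 2
      have hst3 := hst2.iterate hf2 m
      -- the derivative has finite order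
      have hloc2 : ∀ z ∈ C, z ∈ Loc G (m * (n * 2)) := by
        intro z hz
        have h1 := hlocC z hz
        show ∀ᶠ x in 𝓝 z, G^[m * (n * 2)] x = x
        filter_upwards [h1] with x hx
        exact iterate_of_dvd hx _
      have h2 := (of_closure hO hm hG hfO hloc2 hfcl).2
      have h3 : ((G^[n])^[2])^[m] = G^[m * (n * 2)] := by
        rw [← Function.iterate_mul, ← Function.iterate_mul]
        congr 1
        ring
      have h4 : (fderiv ℝ (G^[n]) f ^ 2) ^ m = 1 := by
        rw [← h2, ← h3]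
        exact hst3.hasFDerivAt.fderiv.symm
      have h5 := clm_eq_one hE hm0 h4 hv0 hv
      rw [h5] at hst2
      have h6 := fixed_of_iterate hst2 hf2 hm0
      -- a point of `C` near `f`
      obtain ⟨W, hW1, hWo, hfW⟩ := _root_.eventually_nhds_iff.1 h6
      rw [_root_.mem_closure_iff] at hfcl
      obtain ⟨z, hzW, hzC⟩ := hfcl W hWo hfW
      have hz2 : z ∈ Loc G (n * 2) := by
        show ∀ᶠ x in 𝓝 z, G^[n * 2] x = x
        filter_upwards [hWo.mem_nhds hzW, hCo.mem_nhds hzC] with x hxW hxC
        have h7 := hW1 x hxW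
        rw [h3] at h7
        rw [Function.iterate_mul]
        apply h7
        exact mem_Loc_self (hloc2 x hxC)
      exact mem_Loc_self (loc_all hO hm hG (fun z hz => (hCsub hz).2) hCc
        (fun z hz => (hCsub hz).1) hzC hz2 c hcC)
    apply hyU
    refine ⟨n * 2, by positivity, ?_⟩
    show ∀ᶠ z in 𝓝 y, G^[n * 2] z = z
    filter_upwards [ball_mem_nhds y hep] with z hz
    by_cases hzU : z ∈ U
    · exact hcomp z hz hzU
    · exact iterate_of_dvd (hfix z hz hzU) 2
  rcases Om.eq_empty_or_nonempty with h | ⟨z0, hz0⟩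
  · exact ⟨1, one_pos, fun x hx => by rw [h] at hx; exact absurd hx (notMem_empty x)⟩
  · obtain ⟨n, hn, hz0n⟩ := hall hz0
    exact ⟨n, hn, fun x hx => mem_Loc_self
      (loc_all hO hm hG (le_refl Om) hc (fun z hz => hall hz) hz0 hz0n x hx)⟩

end main

end Pool.Agent.P85
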