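import Pool.Agent.P85.Return
import Pool.Agent.P85.EqD

/-!
Row R9 of Theorem P, final form.
-/

set_option autoImplicit false
open scoped ContDiff
open Real Set MeasureTheory

namespace Pool.Agent.P85

variable {H : E3 → ℝ} {w c : ℝ} {φ : ℝ → Fr → Fr}

/-- R9: the first return map of the page -/
theorem exists_return (hS : Supp H w) (hP : Plane H c) (hΦ : Flow H φ) (hc : Closed φ) :
    ∃ (G : ℂ → ℂ) (Rt : ℂ → ℝ), Return φ G Rt :=
  R9.exists_return_of hS hP hΦ hc (fun {_} hu h => sign_pos hS hP hu h)
    (fun {_} hu h => sign_neg hS hP hu h) (fun {_} hM h t => never_neg hS hP hΦ hM h t)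
    (fun {_} hM h t => never_pos hS hP hΦ hM h t)

end Pool.Agent.P85
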