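import Pool.Agent.P85.Supp

/-!
The inverse normal map `Xf` and the support function `Hf` of a convex body of constant width.
-/

set_option autoImplicit false
open scoped ContDiff Topology
open Real Set

namespace Pool.Agent.P85.Sp

variable {K : Set E3} {f : E3 → ℝ} {w : ℝ}

open Classical in
/-- the point with a given outer normal -/
noncomputable def X0 (K : Set E3) (u : E3) : E3 :=
  if h : ∃ p, Nor K p u then h.choose else 0

/-- the inverse of the normal map, extended to be homogeneous of degree 0 -/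
noncomputable def Xf (K : Set E3) (x : E3) : E3 := X0 K (‖x‖⁻¹ • x)

/-- the support function -/
noncomputable def Hf (K : Set E3) (x : E3) : ℝ := inner ℝ (Xf K x) x

theorem unit_norm {x : E3} (hx : x ≠ 0) : ‖‖x‖⁻¹ • x‖ = 1 := by
  rw [norm_smul, norm_inv, norm_norm, inv_mul_cancel₀ (norm_ne_zero_iff.2 hx)]

theorem nor_Xf (hB : Hyp K f w) {x : E3} (hx : x ≠ 0) : Nor K (Xf K x) (‖x‖⁻¹ • x) := by
  have h : ∃ p, Nor K p (‖x‖⁻¹ • x) := nor_exists hB (unit_norm hx)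
  rw [Xf, X0, dif_pos h]
  exact h.choose_spec

theorem Xf_unique (hB : Hyp K f w) {x p : E3} (h : Nor K p (‖x‖⁻¹ • x)) : Xf K x = p := by
  have hx : x ≠ 0 := by
    rintro rfl
    have := h.2.1
    simp at this
  exact nor_unique hB (nor_Xf hB hx) h

theorem Xf_nor (hB : Hyp K f w) {u p : E3} (h : Nor K p u) : Xf K u = p := by
  apply Xf_unique hB
  rw [h.2.1, inv_one, one_smul]
  exact h

theorem unit_smul {x : E3} {t : ℝ} (ht : 0 < t) : ‖t • x‖⁻¹ • (t • x) = ‖x‖⁻¹ • x := by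
  rw [norm_smul, Real.norm_of_nonneg ht.le, mul_inv, smul_smul]
  congr 1
  field_simp

theorem Xf_smul {x : E3} {t : ℝ} (ht : 0 < t) : Xf K (t • x) = Xf K x := by
  rw [Xf, Xf, unit_smul ht]

theorem Hf_smul {x : E3} {t : ℝ} (ht : 0 < t) : Hf K (t • x) = t * Hf K x := by
  rw [Hf, Xf_smul ht, real_inner_smul_right, Hf]

theorem Hf_ge (hB : Hyp K f w) {x q : E3} (hx : x ≠ 0) (hq : q ∈ K) : inner ℝ q x ≤ Hf K x := by
  have h := (nor_Xf hB hx).2.2 q hq
  rw [real_inner_smul_right, real_inner_smul_right] at h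
  exact le_of_mul_le_mul_left h (inv_pos.2 (norm_pos_iff.2 hx))

theorem Xf_smooth (hB : Hyp K f w) {x : E3} (hx : x ≠ 0) : ContDiffAt ℝ ∞ (Xf K) x := by
  obtain ⟨Th, h1, h2⟩ := local_inv hB (nor_Xf hB hx)
  have h3 : ContDiffAt ℝ ∞ (fun y : E3 => ‖y‖⁻¹ • y) x :=
    ((contDiffAt_norm ℝ hx).inv (norm_ne_zero_iff.2 hx)).smul contDiffAt_id
  have h4 : ContDiffAt ℝ ∞ (Th ∘ (fun y : E3 => ‖y‖⁻¹ • y)) x :=
    ContDiffAt.comp x h1 h3
  refine h4.congr_of_eventuallyEq ?_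
  have h5 : ∀ᶠ y in 𝓝 x, (‖‖y‖⁻¹ • y‖ = 1 → Nor K (Th (‖y‖⁻¹ • y)) (‖y‖⁻¹ • y)) :=
    h3.continuousAt.eventually h2
  filter_upwards [h5, isOpen_ne.mem_nhds hx] with y hy hy0
  exact Xf_unique hB (hy (unit_norm hy0))

theorem Hf_smooth (hB : Hyp K f w) {x : E3} (hx : x ≠ 0) : ContDiffAt ℝ ∞ (Hf K) x :=
  (Xf_smooth hB hx).inner ℝ contDiffAt_id

theorem Hf_hasGrad (hB : Hyp K f w) {x : E3} (hx : x ≠ 0) :
    HasFDerivAt (Hf K) (InnerProductSpace.toDual ℝ E3 (Xf K x)) x := by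
  have h1 : HasFDerivAt (Hf K) (fderiv ℝ (Hf K) x) x :=
    ((Hf_smooth hB hx).differentiableAt (by simp)).hasFDerivAt
  have h2 : HasFDerivAt (fun y : E3 => InnerProductSpace.toDual ℝ E3 (Xf K x) y)
      (InnerProductSpace.toDual ℝ E3 (Xf K x)) x := ContinuousLinearMap.hasFDerivAt _
  have h3 := h1.sub h2
  have h4 : IsLocalMin (fun y => Hf K y - InnerProductSpace.toDual ℝ E3 (Xf K x) y) x := by
    filter_upwards [isOpen_ne.mem_nhds hx] with y hy
    rw [InnerProductSpace.toDual_apply_apply, InnerProductSpace.toDual_apply_apply]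
    have h5 := Hf_ge hB hy (nor_Xf hB hx).1
    have h6 : Hf K x = inner ℝ (Xf K x) x := rfl
    linarith
  have h7 := h4.hasFDerivAt_eq_zero h3
  have h8 : fderiv ℝ (Hf K) x = InnerProductSpace.toDual ℝ E3 (Xf K x) := sub_eq_zero.1 h7
  rw [h8] at h1
  exact h1

theorem Hf_fderiv (hB : Hyp K f w) {x : E3} (hx : x ≠ 0) :
    fderiv ℝ (Hf K) x = InnerProductSpace.toDual ℝ E3 (Xf K x) := (Hf_hasGrad hB hx).fderiv

theorem Hf_grad (hB : Hyp K f w) {x : E3} (hx : x ≠ 0) : gradient (Hf K) x = Xf K x := by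
  rw [gradient, Hf_fderiv hB hx, LinearIsometryEquiv.symm_apply_apply]

theorem Xf_neg (hB : Hyp K f w) {x : E3} (hx : x ≠ 0) :
    Xf K (-x) = Xf K x - (w * ‖x‖⁻¹) • x := by
  apply Xf_unique hB
  have h := nor_opp hB (nor_Xf hB hx)
  rw [smul_smul] at h
  rw [norm_neg, smul_neg]
  exact h

theorem Hf_neg (hB : Hyp K f w) {x : E3} (hx : x ≠ 0) : Hf K x + Hf K (-x) = w * ‖x‖ := by
  have hn := norm_ne_zero_iff.2 hx
  rw [Hf, Hf, Xf_neg hB hx, inner_neg_right, inner_sub_left, real_inner_smul_left,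
    real_inner_self_eq_norm_sq]
  field_simp
  ring

theorem Xf_zero (hB : Hyp K f w) {x : E3} (hx : x ≠ 0) : f (Xf K x) = 0 :=
  (nor_grad hB (nor_Xf hB hx)).1

theorem Xf_normal (hB : Hyp K f w) {x : E3} (hx : x ≠ 0) : Nn f (Xf K x) = ‖x‖⁻¹ • x := by
  obtain ⟨h1, h2⟩ := nor_grad hB (nor_Xf hB hx)
  have hgn := norm_pos_iff.2 (hB.reg _ h1)
  rw [Nn]; conv_lhs => rw [h2]
  rw [smul_smul, norm_smul, norm_norm, unit_norm hx, mul_one, inv_mul_cancel₀ hgn.ne', one_smul]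

theorem Xf_grad (hB : Hyp K f w) {p : E3} (hp : f p = 0) : Xf K (gradient f p) = p :=
  Xf_unique hB (grad_nor hB hp)

/-- the second derivative of the support function is the derivative of `Xf` -/
theorem D2_eq (hB : Hyp K f w) {x : E3} (hx : x ≠ 0) (v v' : E3) :
    fderiv ℝ (fderiv ℝ (Hf K)) x v v' = inner ℝ (fderiv ℝ (Xf K) x v) v' := by
  have h1 : fderiv ℝ (Hf K) =ᶠ[𝓝 x] fun y => InnerProductSpace.toDual ℝ E3 (Xf K y) := by
    filter_upwards [isOpen_ne.mem_nhds hx] with y hy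
    exact Hf_fderiv hB hy
  have h2 : HasFDerivAt (Xf K) (fderiv ℝ (Xf K) x) x :=
    ((Xf_smooth hB hx).differentiableAt (by simp)).hasFDerivAt
  set T : E3 →L[ℝ] (E3 →L[ℝ] ℝ) := (innerSL ℝ : E3 →L[ℝ] E3 →L[ℝ] ℝ) with hT
  have h3 : HasFDerivAt (fun y => T (Xf K y)) (T.comp (fderiv ℝ (Xf K) x)) x :=
    T.hasFDerivAt.comp x h2
  have h4 : fderiv ℝ (Hf K) =ᶠ[𝓝 x] fun y => T (Xf K y) := by
    filter_upwards [h1] with y hy
    rw [hy]
    rfl
  rw [h4.fderiv_eq, h3.fderiv]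
  rfl

theorem D2_symm (hB : Hyp K f w) {x : E3} (hx : x ≠ 0) (v v' : E3) :
    fderiv ℝ (fderiv ℝ (Hf K)) x v v' = fderiv ℝ (fderiv ℝ (Hf K)) x v' v := by
  have h := (Hf_smooth hB hx).isSymmSndFDerivAt (by
    rw [minSmoothness_of_isRCLikeNormedField]
    exact WithTop.coe_le_coe.2 le_top)
  exact h v v'

theorem DX_self (hB : Hyp K f w) {x : E3} (hx : x ≠ 0) : fderiv ℝ (Xf K) x x = 0 := by
  have h2 : HasFDerivAt (Xf K) (fderiv ℝ (Xf K) x) x :=
    ((Xf_smooth hB hx).differentiableAt (by simp)).hasFDerivAt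
  have h3 : HasDerivAt (fun t : ℝ => (1 + t) • x) x 0 := by
    have : HasDerivAt (fun t : ℝ => 1 + t) 1 0 := (hasDerivAt_id (0 : ℝ)).const_add 1
    simpa using this.smul_const x
  have h2' : HasFDerivAt (Xf K) (fderiv ℝ (Xf K) x) ((1 + (0 : ℝ)) • x) := by
    rw [add_zero, one_smul]; exact h2
  have h4 : HasDerivAt (Xf K ∘ (fun t : ℝ => (1 + t) • x)) (fderiv ℝ (Xf K) x x) 0 :=
    h2'.comp_hasDerivAt (0 : ℝ) h3
  have h5 : (Xf K ∘ (fun t : ℝ => (1 + t) • x)) =ᶠ[𝓝 0] fun _ => Xf K x := by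
    filter_upwards [lt_mem_nhds (show (-1 : ℝ) < 0 by norm_num)] with t ht
    exact Xf_smul (by linarith)
  have h6 := h5.deriv_eq
  rw [h4.deriv, deriv_const] at h6
  exact h6

theorem norm_deriv_perp {x v : E3} (hx : x ≠ 0) (hv : inner ℝ x v = (0 : ℝ)) :
    fderiv ℝ (fun y : E3 => ‖y‖) x v = 0 := by
  have h1 : HasFDerivAt (fun y : E3 => ‖y‖) (fderiv ℝ (fun y : E3 => ‖y‖) x) x :=
    ((contDiffAt_norm ℝ hx (n := 1)).differentiableAt (by simp)).hasFDerivAt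
  have h2 := h1.mul h1
  have h3 : HasFDerivAt (fun y : E3 => (inner ℝ y y : ℝ)) _ x :=
    (hasFDerivAt_id x).inner ℝ (hasFDerivAt_id x)
  have h4 : (fun y : E3 => ‖y‖ * ‖y‖) = fun y => (inner ℝ y y : ℝ) := by
    funext y; rw [real_inner_self_eq_norm_mul_norm]
  have h2' : HasFDerivAt (fun y : E3 => ‖y‖ * ‖y‖) _ x := h2
  rw [h4] at h2'
  have h5 := DFunLike.congr_fun (h3.unique h2') v
  simp only [ContinuousLinearMap.comp_apply, ContinuousLinearMap.prod_apply,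
    fderivInnerCLM_apply, ContinuousLinearMap.id_apply, id_eq, ContinuousLinearMap.add_apply,
    ContinuousLinearMap.smul_apply, smul_eq_mul] at h5
  rw [real_inner_comm x v, hv] at h5
  have hn : ‖x‖ ≠ 0 := norm_ne_zero_iff.2 hx
  have h6 : ‖x‖ * fderiv ℝ (fun y : E3 => ‖y‖) x v = 0 := by linarith
  exact (mul_eq_zero.1 h6).resolve_left hn

theorem unit_deriv {x v : E3} (hx : x ≠ 0) (hv : inner ℝ x v = (0 : ℝ)) :
    fderiv ℝ (fun y : E3 => ‖y‖⁻¹ • y) x v = ‖x‖⁻¹ • v := by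
  have h1 : HasFDerivAt (fun y : E3 => ‖y‖) (fderiv ℝ (fun y : E3 => ‖y‖) x) x :=
    ((contDiffAt_norm ℝ hx (n := 1)).differentiableAt (by simp)).hasFDerivAt
  have h2 : HasFDerivAt (fun y : E3 => ‖y‖⁻¹) _ x :=
    (hasDerivAt_inv (norm_ne_zero_iff.2 hx)).comp_hasFDerivAt x h1
  have h3 := h2.smul (hasFDerivAt_id x)
  have h4 : HasFDerivAt (fun y : E3 => ‖y‖⁻¹ • y) _ x := h3
  rw [h4.fderiv]
  simp only [ContinuousLinearMap.add_apply, ContinuousLinearMap.smul_apply,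
    ContinuousLinearMap.smulRight_apply, ContinuousLinearMap.id_apply, norm_deriv_perp hx hv,
    smul_zero, zero_smul, add_zero]

theorem D2_pos (hB : Hyp K f w) {x v : E3} (hx : x ≠ 0) (hv : inner ℝ x v = (0 : ℝ))
    (hv0 : v ≠ 0) : 0 < fderiv ℝ (fderiv ℝ (Hf K)) x v v := by
  have hB' := hB
  have hn : 0 < ‖x‖ := norm_pos_iff.2 hx
  set p := Xf K x with hp
  set z := fderiv ℝ (Xf K) x v with hz
  have hnor := nor_Xf hB hx
  obtain ⟨hp0, hg⟩ := nor_grad hB hnor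
  have hreg := hB.reg _ hp0
  have h2 : HasFDerivAt (Xf K) (fderiv ℝ (Xf K) x) x :=
    ((Xf_smooth hB hx).differentiableAt (by simp)).hasFDerivAt
  have h3 : HasFDerivAt (Nn f) (fderiv ℝ (Nn f) (Xf K x)) (Xf K x) :=
    ((Nn_smooth hB hreg).differentiableAt (by simp)).hasFDerivAt
  have h4 := h3.comp x h2
  have h5 : (Nn f ∘ Xf K) =ᶠ[𝓝 x] fun y : E3 => ‖y‖⁻¹ • y := by
    filter_upwards [isOpen_ne.mem_nhds hx] with y hy
    exact Xf_normal hB hy
  have h6 : fderiv ℝ (Nn f) (Xf K x) z = ‖x‖⁻¹ • v := by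
    have e1 := h5.fderiv_eq (𝕜 := ℝ)
    rw [h4.fderiv] at e1
    have e2 := DFunLike.congr_fun e1 v
    rw [unit_deriv hx hv] at e2
    exact e2
  -- z is tangent
  have h7 : (inner ℝ z x : ℝ) = 0 := by
    rw [hz, ← D2_eq hB hx, D2_symm hB hx, D2_eq hB hx, DX_self hB hx, inner_zero_left]
  have h8 : (inner ℝ (‖x‖⁻¹ • x) z : ℝ) = 0 := by
    rw [real_inner_smul_left, real_inner_comm, h7, mul_zero]
  have h9 := second_order hB hnor h8
  have hgz : (inner ℝ (gradient f (Xf K x)) z : ℝ) = 0 := by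
    rw [hg, real_inner_smul_left, h8, mul_zero]
  obtain ⟨L, hL⟩ := Nn_deriv hB hreg
  have hgn : 0 < ‖gradient f (Xf K x)‖ := norm_pos_iff.2 hreg
  have h10 : (inner ℝ (fderiv ℝ (Nn f) (Xf K x) z) z : ℝ) =
      ‖gradient f (Xf K x)‖⁻¹ * inner ℝ (fderiv ℝ (gradient f) (Xf K x) z) z := by
    rw [hL z, inner_add_left, real_inner_smul_left, real_inner_smul_left, hgz, mul_zero, add_zero]
  have hz0 : z ≠ 0 := by
    intro h0
    rw [h0, map_zero] at h6
    exact (smul_ne_zero (inv_ne_zero hn.ne') hv0) h6.symm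
  have hzn : 0 < ‖z‖ := norm_pos_iff.2 hz0
  have hw := hB.wpos
  have h11 : 0 < (inner ℝ (fderiv ℝ (gradient f) (Xf K x) z) z : ℝ) :=
    lt_of_lt_of_le (by positivity) h9
  rw [h6, real_inner_smul_left] at h10
  rw [D2_eq hB hx, ← hz, real_inner_comm]
  have h12 : (inner ℝ v z : ℝ) = ‖x‖ * (‖gradient f (Xf K x)‖⁻¹ *
      inner ℝ (fderiv ℝ (gradient f) (Xf K x) z) z) := by
    rw [← h10]; field_simp
  rw [h12]
  positivity

theorem D2_sum (hB : Hyp K f w) {x v : E3} (hx : x ≠ 0) (hv : inner ℝ x v = (0 : ℝ)) (v' : E3) :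
    fderiv ℝ (fderiv ℝ (Hf K)) x v v' + fderiv ℝ (fderiv ℝ (Hf K)) (-x) v v' =
      w * ‖x‖⁻¹ * inner ℝ v v' := by
  have hx' : -x ≠ 0 := neg_ne_zero.2 hx
  rw [D2_eq hB hx, D2_eq hB hx']
  have h1 : HasFDerivAt (Xf K) (fderiv ℝ (Xf K) x) x :=
    ((Xf_smooth hB hx).differentiableAt (by simp)).hasFDerivAt
  have h2 : HasFDerivAt (Xf K) (fderiv ℝ (Xf K) (-x)) (-x) :=
    ((Xf_smooth hB hx').differentiableAt (by simp)).hasFDerivAt
  have h3 : HasFDerivAt (fun y : E3 => -y) (-ContinuousLinearMap.id ℝ E3) x :=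
    (hasFDerivAt_id x).neg
  have h4 := h2.comp x h3
  have h5 : HasFDerivAt (fun y : E3 => ‖y‖⁻¹ • y) (fderiv ℝ (fun y : E3 => ‖y‖⁻¹ • y) x) x := by
    have : ContDiffAt ℝ 1 (fun y : E3 => ‖y‖⁻¹ • y) x :=
      ((contDiffAt_norm ℝ hx).inv (norm_ne_zero_iff.2 hx)).smul contDiffAt_id
    exact (this.differentiableAt (by simp)).hasFDerivAt
  have h6 := h1.sub (h5.const_smul w)
  have h7 : (Xf K ∘ fun y : E3 => -y) =ᶠ[𝓝 x] (Xf K - w • fun y : E3 => ‖y‖⁻¹ • y) := by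
    filter_upwards [isOpen_ne.mem_nhds hx] with y hy
    simp only [Function.comp_apply, Pi.sub_apply, Pi.smul_apply]
    rw [Xf_neg hB hy, smul_smul]
  have h8 := h7.fderiv_eq (𝕜 := ℝ)
  rw [h4.fderiv, h6.fderiv] at h8
  have h9 := DFunLike.congr_fun h8 v
  simp only [ContinuousLinearMap.comp_apply, ContinuousLinearMap.neg_apply,
    ContinuousLinearMap.id_apply, map_neg, ContinuousLinearMap.sub_apply,
    ContinuousLinearMap.smul_apply] at h9
  rw [unit_deriv hx hv] at h9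
  have h10 : fderiv ℝ (Xf K) x v + fderiv ℝ (Xf K) (-x) v = w • ‖x‖⁻¹ • v := by
    have : fderiv ℝ (Xf K) (-x) v = -(fderiv ℝ (Xf K) x v - w • ‖x‖⁻¹ • v) := by
      rw [← h9, neg_neg]
    rw [this]; abel
  rw [← inner_add_left, h10, real_inner_smul_left, real_inner_smul_left]
  ring

theorem Hf_zero : Hf K 0 = 0 := by rw [Hf, inner_zero_right]

theorem Hf_sup (hB : Hyp K f w) (u : E3) : Hf K u = sSup ((fun x => (inner ℝ x u : ℝ)) '' K) := by
  by_cases hu : u = 0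
  · rw [hu, Hf_zero]
    have h1 : (fun x : E3 => (inner ℝ x (0 : E3) : ℝ)) '' K = {0} := by
      ext y
      simp only [inner_zero_right, Set.mem_image, Set.mem_singleton_iff]
      constructor
      · rintro ⟨x, _, h⟩; exact h.symm
      · intro h
        obtain ⟨x, hx⟩ := body_nonempty hB
        exact ⟨x, hx, h.symm⟩
    rw [h1, csSup_singleton]
  · apply le_antisymm
    · exact le_csSup ⟨Hf K u, by rintro _ ⟨q, hq, rfl⟩; exact Hf_ge hB hu hq⟩
        ⟨Xf K u, (nor_Xf hB hu).1, rfl⟩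
    · apply csSup_le (Set.Nonempty.image _ ⟨Xf K u, (nor_Xf hB hu).1⟩)
      rintro _ ⟨q, hq, rfl⟩
      exact Hf_ge hB hu hq

end Pool.Agent.P85.Sp

namespace Pool.Agent.P85

variable {K : Set E3} {f : E3 → ℝ} {w : ℝ}

open Sp in
/-- R6: the support function. -/
theorem exists_supp {w : ℝ} (h : Hyp K f w) : ∃ H : E3 → ℝ, IsSupp K f w H := by
  refine ⟨Hf K, ⟨⟨?_, ?_, ?_, h.wpos, ?_⟩, Hf_sup h, ?_, ?_, ?_⟩⟩
  · intro x hx
    exact (Hf_smooth h hx).contDiffWithinAt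
  · intro t ht x
    exact Hf_smul ht
  · intro x
    by_cases hx : x = 0
    · rw [hx, neg_zero, Hf_zero, norm_zero, mul_zero, add_zero]
    · exact Hf_neg h hx
  · intro u v hu huv hv
    have hu0 : u ≠ 0 := by rintro rfl; simp at hu
    exact D2_pos h hu0 huv hv
  · intro u hu
    rw [Hf_grad h hu]; exact Xf_zero h hu
  · intro u hu
    rw [Hf_grad h hu]
    obtain ⟨h1, h2⟩ := nor_grad h (nor_Xf h hu)
    refine ⟨‖gradient f (Xf K u)‖ * ‖u‖⁻¹, ?_, ?_⟩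
    · have := norm_pos_iff.2 (h.reg _ h1)
      have := norm_pos_iff.2 hu
      positivity
    · rw [mul_smul]; exact h2
  · intro x hx
    rw [Hf_grad h (h.reg x hx), Xf_grad h hx]

end Pool.Agent.P85
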