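import Pool.Agent.P85.Winding
import Pool.Agent.P85.EqD

/-!
# The winding number: final form
-/

set_option autoImplicit false
open scoped ContDiff
open Real Set MeasureTheory

namespace Pool.Agent.P85

variable {H : E3 → ℝ} {w c : ℝ} {φ : ℝ → Fr → Fr}

theorem om_bound (hS : Supp H w) (hP : Plane H c) : ∃ C : ℝ, ∀ M ∈ St, bb M 2 ≠ -1 →
    |om H M| ≤ C := by
  obtain ⟨C, hC, h⟩ := tau_bound hS hP
  exact Wd.om_bound_of hS hC fun M hM => (h M hM).1

theorem winding (hS : Supp H w) (hP : Plane H c) (hΦ : Flow H φ) {L : ℝ} (hL : 0 < L)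
    (hper : ∀ M ∈ St, φ L M = M) {M : Fr} (hM : M ∈ St) (hb : bb M 2 ≠ -1) :
    ∫ t in (0 : ℝ)..L, om H (φ t M) = 2 * L / w :=
  Wd.winding_of' hS hΦ hper (fun _ hM hb t => never_neg hS hP hΦ hM hb t)
    (fun _ hM hb t => never_pos hS hP hΦ hM hb t)
    (fun M hM h1 => total_kap hS hP hΦ hM h1 hL (hper M hM)) hM hb

end Pool.Agent.P85
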