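import Pool.Agent.P85.Wirt3

/-!
# Row R4: the Minkowski inequality and the characterisation of spheres
-/

set_option autoImplicit false
set_option maxSynthPendingDepth 3
open scoped ContDiff
open Real Set MeasureTheory

namespace Pool.Agent.P85.W4

open Pool.Agent.P85

variable {H : E3 → ℝ} {w : ℝ} {μ : Measure Fr}

/-! ### Great circles -/

lemma cr_add_left (a b c : E3) : cr (a + b) c = cr a c + cr b c := by
  ext i; fin_cases i <;> simp [cr] <;> ring

lemma cr_smul_left (t : ℝ) (a c : E3) : cr (t • a) c = t • cr a c := by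
  ext i; fin_cases i <;> simp [cr] <;> ring

lemma rot2_mem {M : Fr} (hM : M ∈ St) (s : ℝ) : rot2 s M ∈ St := by
  have hb := bb_norm hM
  have h1 : inner ℝ M.1 (bb M) = (0 : ℝ) := inner_bb
  have h1' : inner ℝ (bb M) M.1 = (0 : ℝ) := by rw [real_inner_comm]; exact h1
  have h2 : inner ℝ (bb M) M.2 = (0 : ℝ) := inner_bb'
  refine ⟨?_, hM.2.1, ?_⟩
  · have h : ‖(rot2 s M).1‖ ^ 2 = 1 := by
      rw [← real_inner_self_eq_norm_sq]
      simp only [rot2, inner_add_left, inner_add_right, inner_smul_left, inner_smul_right, h1, h1',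
        real_inner_self_eq_norm_sq, hb, hM.1, conj_trivial]
      have := sin_sq_add_cos_sq s
      linear_combination this
    have h0 : 0 ≤ ‖(rot2 s M).1‖ := norm_nonneg _
    nlinarith [sq_nonneg (‖(rot2 s M).1‖ - 1)]
  · simp only [rot2, inner_add_left, inner_smul_left, h2, hM.2.2, conj_trivial]
    ring

lemma bb_rot2 {M : Fr} (hM : M ∈ St) (s : ℝ) : bb (rot2 s M) = cos s • bb M - sin s • M.1 := by
  show cr (cos s • M.1 + sin s • bb M) M.2 = _
  rw [cr_add_left, cr_smul_left, cr_smul_left, cr_bb hM, smul_neg, ← sub_eq_add_neg]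
  rfl

lemma hd_rot2 {M : Fr} (hM : M ∈ St) (s : ℝ) :
    HasDerivAt (fun s => (rot2 s M).1) (bb (rot2 s M)) s := by
  have h := ((hasDerivAt_cos s).smul_const M.1).add ((hasDerivAt_sin s).smul_const (bb M))
  rw [bb_rot2 hM]
  refine h.congr_deriv ?_
  rw [neg_smul]
  abel

lemma hd_bb_rot2 {M : Fr} (hM : M ∈ St) (s : ℝ) :
    HasDerivAt (fun s => bb (rot2 s M)) (-(rot2 s M).1) s := by
  have h := ((hasDerivAt_cos s).smul_const (bb M)).sub ((hasDerivAt_sin s).smul_const M.1)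
  have e : (fun s => bb (rot2 s M)) = fun s => cos s • bb M - sin s • M.1 :=
    funext fun s => bb_rot2 hM s
  rw [e]
  refine h.congr_deriv ?_
  show _ = -(cos s • M.1 + sin s • bb M)
  rw [neg_smul]
  abel

lemma continuous_bb : Continuous bb := (contDiff_bb (n := 0)).continuous

lemma continuous_rot2 {X : Type*} [TopologicalSpace X] {f : X → ℝ} {g : X → Fr}
    (hf : Continuous f) (hg : Continuous g) : Continuous (fun x => rot2 (f x) (g x)) := by
  have h2 : Continuous (fun x => bb (g x)) := continuous_bb.comp hg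
  unfold rot2
  fun_prop

set_option maxHeartbeats 400000

section Circle

variable (hS : ContDiffOn ℝ ∞ H {0}ᶜ) (hh : ∀ t : ℝ, 0 < t → ∀ x, H (t • x) = t * H x)
include hS

lemma hd_phi {M : Fr} (hM : M ∈ St) (s : ℝ) :
    HasDerivAt (fun s => H (rot2 s M).1 - w / 2)
      (fderiv ℝ H (rot2 s M).1 (bb (rot2 s M))) s :=
  ((hom_hd hS (st_ne (rot2_mem hM s))).comp_hasDerivAt s (hd_rot2 hM s)).sub_const _

include hh

lemma hd_phi' {M : Fr} (hM : M ∈ St) (s : ℝ) :
    HasDerivAt (fun s => fderiv ℝ H (rot2 s M).1 (bb (rot2 s M)))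
      (Rbb H (rot2 s M) - H (rot2 s M).1) s := by
  have h1 := (hom_hd1 hS (st_ne (rot2_mem hM s))).comp_hasDerivAt s (hd_rot2 hM s)
  have h2 := h1.clm_apply (hd_bb_rot2 hM s)
  refine h2.congr_deriv ?_
  simp only [Function.comp_apply]
  rw [map_neg, hom_euler hS hh (st_ne (rot2_mem hM s)), Rbb, D2]
  ring

end Circle

/-- The functional of the great circles. -/
noncomputable def Phi (H : E3 → ℝ) (w : ℝ) (M : Fr) : ℝ :=
  (fderiv ℝ H M.1 (bb M)) ^ 2 - (H M.1 - w / 2) ^ 2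

lemma co_Phi (hS : ContDiffOn ℝ ∞ H {0}ᶜ) : ContinuousOn (Phi H w) St := by
  have c2 : ContinuousOn (fun M : Fr => fderiv ℝ H M.1 (bb M)) St :=
    co_of_cda fun M h => cda_qb hS h
  have c3 : ContinuousOn (fun M : Fr => H M.1) St := co_of_cda fun M h => cda_H hS h
  exact (c2.pow 2).sub ((c3.sub continuousOn_const).pow 2)

lemma phi_anti (hS : Supp H w) {M : Fr} (hM : M ∈ St) (s : ℝ) :
    H (rot2 (s + π) M).1 - w / 2 = -(H (rot2 s M).1 - w / 2) := by
  have h1 : (rot2 (s + π) M).1 = -(rot2 s M).1 := by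
    simp only [rot2, cos_add_pi, sin_add_pi, neg_smul]
    abel
  have h2 := hS.width (rot2 s M).1
  rw [(rot2_mem hM s).1, mul_one] at h2
  rw [h1]
  linarith

/-- The average of `Phi` over a half great circle. -/
noncomputable def J (H : E3 → ℝ) (w : ℝ) (M : Fr) : ℝ := ∫ s in (0 : ℝ)..π, Phi H w (rot2 s M)

lemma J_nonneg (hS : Supp H w) {M : Fr} (hM : M ∈ St) : 0 ≤ J H w M := by
  have hc : Continuous (fun s => fderiv ℝ H (rot2 s M).1 (bb (rot2 s M))) :=
    continuous_iff_continuousAt.2 fun s => (hd_phi' hS.smooth hS.hom hM s).continuousAt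
  simp only [J, Phi]
  exact _root_.P85.wirt_anti (fun s => hd_phi (w := w) hS.smooth hM s) hc (fun s => phi_anti hS hM s)

lemma J_zero (hS : Supp H w) {M : Fr} (hM : M ∈ St) (h : J H w M = 0) :
    Rbb H M = w / 2 := by
  have c6 : ContinuousOn (Rbb H) St := co_of_cda fun M h => cda_Rbb hS.smooth h
  have hr : Continuous (fun s : ℝ => rot2 s M) := continuous_rot2 continuous_id continuous_const
  have hc1 : Continuous (fun s : ℝ => Rbb H (rot2 s M)) :=
    c6.comp_continuous hr fun s => rot2_mem hM s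
  have c3 : ContinuousOn (fun M : Fr => H M.1) St := co_of_cda fun M h => cda_H hS.smooth h
  have hc2 : Continuous (fun s : ℝ => H (rot2 s M).1) :=
    c3.comp_continuous hr fun s => rot2_mem hM s
  simp only [J, Phi] at h
  have h1 := _root_.P85.wirt_anti_eq (fun s => hd_phi (w := w) hS.smooth hM s)
    (fun s => hd_phi' hS.smooth hS.hom hM s) (hc1.sub hc2) (fun s => phi_anti hS hM s) h 0
  have h2 : rot2 0 M = M := by
    simp [rot2]
  rw [h2] at h1
  linarith

lemma co_J (hS : ContDiffOn ℝ ∞ H {0}ᶜ) : ContinuousOn (J H w) St := by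
  rw [continuousOn_iff_continuous_domRestrict]
  have hr : Continuous (fun q : St × ℝ => rot2 q.2 (q.1 : Fr)) :=
    continuous_rot2 continuous_snd (continuous_subtype_val.comp continuous_fst)
  have hm : ∀ q : St × ℝ, rot2 q.2 (q.1 : Fr) ∈ St := fun q => rot2_mem q.1.2 q.2
  have hf : Continuous (fun q : St × ℝ => Phi H w (rot2 q.2 (q.1 : Fr))) :=
    (co_Phi hS).comp_continuous hr hm
  have hf2 : Continuous (Function.uncurry (fun (M : St) (s : ℝ) => Phi H w (rot2 s (M : Fr)))) := by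
    simpa only [Function.uncurry_def] using hf
  have h3 := intervalIntegral.continuous_parametric_intervalIntegral_of_continuous'
    (μ := volume) hf2 0 π
  refine h3.congr fun M => ?_
  simp only [J, domRestrict_apply]

lemma integral_J (hS : ContDiffOn ℝ ∞ H {0}ᶜ) (hμ : Inv μ) :
    ∫ M, J H w M ∂μ = π * ∫ M, Phi H w M ∂μ := by
  have := hμ.prob
  have hc : ContinuousOn (fun q : Fr × ℝ => Phi H w (rot2 q.2 q.1)) (St ×ˢ (Icc 0 π)) :=
    (co_Phi hS).comp (continuous_rot2 continuous_snd continuous_fst).continuousOn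
      fun q hq => rot2_mem hq.1 q.2
  have hi : IntegrableOn (fun q : Fr × ℝ => Phi H w (rot2 q.2 q.1)) (St ×ˢ (Icc 0 π))
      (μ.prod volume) := hc.integrableOn_compact (isCompact_St.prod isCompact_Icc)
  have hi2 : IntegrableOn (fun q : Fr × ℝ => Phi H w (rot2 q.2 q.1)) (St ×ˢ (Ioc 0 π))
      (μ.prod volume) := hi.mono_set (prod_mono le_rfl Ioc_subset_Icc_self)
  rw [IntegrableOn, ← Measure.prod_restrict, Measure.restrict_eq_self_of_ae_mem hμ.st] at hi2
  have hswap := integral_integral_swap (μ := μ) (ν := volume.restrict (Ioc 0 π))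
    (f := fun (M : Fr) (s : ℝ) => Phi H w (rot2 s M)) hi2
  have h1 : ∀ M, J H w M = ∫ s in Ioc 0 π, Phi H w (rot2 s M) := fun M =>
    intervalIntegral.integral_of_le pi_pos.le
  simp only [h1]
  rw [hswap]
  have h2 : ∀ s : ℝ, ∫ M, Phi H w (rot2 s M) ∂μ = ∫ M, Phi H w M ∂μ := fun s =>
    integral_mp hμ (hμ.r2 s) (co_Phi hS)
  simp only [h2]
  rw [setIntegral_const]
  simp [pi_pos.le]

/-- `E[det R] = w² / 4 - E[H_b² - (H - w/2)²]`. -/
lemma mink_ident' (hS : Supp H w) (hμ : Inv μ) :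
    ∫ M, Dn H M ∂μ = w ^ 2 / 4 - ∫ M, Phi H w M ∂μ := by
  have := hμ.prob
  have c2 : ContinuousOn (fun M : Fr => fderiv ℝ H M.1 (bb M)) St :=
    co_of_cda fun M h => cda_qb hS.smooth h
  have c3 : ContinuousOn (fun M : Fr => H M.1) St := co_of_cda fun M h => cda_H hS.smooth h
  have hz : ∫ M : Fr, (H M.1 - w / 2) ∂μ = 0 := by
    have h1 := integral_mp hμ hμ.s1 (c3.sub continuousOn_const : ContinuousOn
      (fun M : Fr => H M.1 - w / 2) St)
    have h2 : ∫ M : Fr, (H (-M.1) - w / 2) ∂μ = ∫ M : Fr, -(H M.1 - w / 2) ∂μ := by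
      refine integral_congr_St hμ fun M hM => ?_
      have h3 := hS.width M.1
      rw [hM.1, mul_one] at h3
      linarith
    rw [integral_neg] at h2
    have h4 : ∫ M : Fr, (H (-M.1) - w / 2) ∂μ = ∫ M : Fr, (H M.1 - w / 2) ∂μ := h1
    linarith
  rw [mink_ident hS.smooth hS.hom hμ]
  have i1 : Integrable (fun M : Fr => H M.1 - w / 2) μ := integ hμ (c3.sub continuousOn_const)
  have i2 : Integrable (Phi H w) μ := integ hμ (co_Phi hS.smooth)
  have e : (fun M : Fr => H M.1 ^ 2 - (fderiv ℝ H M.1 (bb M)) ^ 2) =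
      fun M : Fr => (w ^ 2 / 4 + w * (H M.1 - w / 2)) - Phi H w M := by
    funext M
    simp only [Phi]
    ring
  have i3 : Integrable (fun M : Fr => w ^ 2 / 4 + w * (H M.1 - w / 2)) μ :=
    (integrable_const _).add (i1.const_mul w)
  rw [e, integral_sub i3 i2, integral_add (integrable_const _) (i1.const_mul w),
    integral_const_mul, hz]
  simp

/-- The frame with given first and third vectors. -/
lemma exists_frame {u v : E3} (hu : ‖u‖ = 1) (hv : ‖v‖ = 1) (h : inner ℝ u v = (0 : ℝ)) :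
    ∃ M ∈ St, M.1 = u ∧ bb M = v := by
  have a1 : u 0 ^ 2 + u 1 ^ 2 + u 2 ^ 2 = 1 := by rw [← norm_sq_eq, hu]; norm_num
  have a2 : v 0 ^ 2 + v 1 ^ 2 + v 2 ^ 2 = 1 := by rw [← norm_sq_eq, hv]; norm_num
  have a3 : u 0 * v 0 + u 1 * v 1 + u 2 * v 2 = 0 := by rw [← inner_eq, h]
  have hvu : (v, u) ∈ St := ⟨hv, hu, by rw [real_inner_comm]; exact h⟩
  have hb : ‖cr v u‖ = 1 := by
    have hb' := bb_norm hvu
    simpa only [bb] using hb'
  have hi : inner ℝ u (cr v u) = (0 : ℝ) := by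
    rw [inner_eq]
    simp only [cr, pt_zero, pt_one, pt_two]
    ring
  have hv2 : cr u (cr v u) = v := by
    ext i; fin_cases i
    · show u 1 * (cr v u) 2 - u 2 * (cr v u) 1 = v 0
      simp only [cr, pt_one, pt_two]
      linear_combination (v 0) * a1 - u 0 * a3
    · show u 2 * (cr v u) 0 - u 0 * (cr v u) 2 = v 1
      simp only [cr, pt_zero, pt_two]
      linear_combination (v 1) * a1 - u 1 * a3
    · show u 0 * (cr v u) 1 - u 1 * (cr v u) 0 = v 2
      simp only [cr, pt_zero, pt_one]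
      linear_combination (v 2) * a1 - u 2 * a3
  exact ⟨(u, cr v u), ⟨hu, hb, hi⟩, rfl, hv2⟩

end Pool.Agent.P85.W4

namespace Pool.Agent.P85

open Pool.Agent.P85.W4

variable {H : E3 → ℝ} {w : ℝ} {μ : Measure Fr}

/-- R4: the Minkowski inequality for constant width, with equality. -/
theorem mink (hS : Supp H w) (hμ : Inv μ) : ∫ M, Dn H M ∂μ ≤ w ^ 2 / 4 ∧
    (∫ M, Dn H M ∂μ = w ^ 2 / 4 →
      ∀ u v : E3, ‖u‖ = 1 → inner ℝ u v = 0 → D2 H u v v = w / 2 * ‖v‖ ^ 2) := by
  have h1 := mink_ident' hS hμ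
  have h2 := integral_J (w := w) hS.smooth hμ
  have h3 : 0 ≤ ∫ M, J H w M ∂μ := by
    refine integral_nonneg_of_ae ?_
    filter_upwards [hμ.st] with M hM
    exact J_nonneg hS hM
  have h4 : 0 ≤ ∫ M, Phi H w M ∂μ := by
    rw [h2] at h3
    exact nonneg_of_mul_nonneg_right h3 pi_pos
  refine ⟨by linarith, fun he u v hu huv => ?_⟩
  have h5 : ∫ M, J H w M ∂μ = 0 := by
    rw [h2]
    have : ∫ M, Phi H w M ∂μ = 0 := by linarith
    rw [this, mul_zero]
  have h6 := hμ.pos (J H w) (co_J hS.smooth) (fun M hM => J_nonneg hS hM) h5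
  rcases eq_or_ne v 0 with rfl | hv
  · simp [D2]
  have hn : ‖v‖ ≠ 0 := norm_ne_zero_iff.2 hv
  obtain ⟨M, hM, hM1, hMb⟩ := exists_frame (u := u) (v := ‖v‖⁻¹ • v) hu
    (by rw [norm_smul, norm_inv, norm_norm, inv_mul_cancel₀ hn])
    (by rw [inner_smul_right, huv, mul_zero])
  have h7 := J_zero hS hM (h6 M hM)
  rw [Rbb, hM1, hMb] at h7
  have h8 : D2 H u v v = ‖v‖ ^ 2 * D2 H u (‖v‖⁻¹ • v) (‖v‖⁻¹ • v) := by
    simp only [D2, map_smul, smul_apply, smul_eq_mul]
    field_simp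
  rw [h8, h7]
  ring

/-- R4, the end: a body with `R = w / 2` is a ball. -/
theorem sphere (hS : Supp H w)
    (h : ∀ u v : E3, ‖u‖ = 1 → inner ℝ u v = 0 → D2 H u v v = w / 2 * ‖v‖ ^ 2) :
    ∃ p : E3, ∀ u : E3, H u = inner ℝ p u + w / 2 * ‖u‖ := by
  have hsm := hS.smooth
  have hh := hS.hom
  have hnu : ‖nu‖ = 1 := by
    have : ‖nu‖ ^ 2 = 1 := by rw [norm_sq_eq]; simp [nu]
    have h0 : 0 ≤ ‖nu‖ := norm_nonneg _
    nlinarith [sq_nonneg (‖nu‖ - 1)]
  -- along great circles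
  have hcirc : ∀ M ∈ St, ∀ s, H (rot2 s M).1 = w / 2 + (H M.1 - w / 2) * cos s +
      fderiv ℝ H M.1 (bb M) * sin s := by
    intro M hM s
    have hR : ∀ s, Rbb H (rot2 s M) = w / 2 := by
      intro s
      have h1 := h (rot2 s M).1 (bb (rot2 s M)) (rot2_mem hM s).1 inner_bb
      rw [bb_norm (rot2_mem hM s)] at h1
      rw [Rbb, h1]
      ring
    set A := H M.1 - w / 2 with hA
    set B := fderiv ℝ H M.1 (bb M) with hB
    -- the energy of the difference
    have hd1 : ∀ s, HasDerivAt (fun s => H (rot2 s M).1 - w / 2 - (A * cos s + B * sin s))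
        (fderiv ℝ H (rot2 s M).1 (bb (rot2 s M)) - (A * (-sin s) + B * cos s)) s := fun s =>
      (hd_phi (w := w) hsm hM s).sub (((hasDerivAt_cos s).const_mul A).add
        ((hasDerivAt_sin s).const_mul B))
    have hd2 : ∀ s, HasDerivAt (fun s => fderiv ℝ H (rot2 s M).1 (bb (rot2 s M)) -
        (A * (-sin s) + B * cos s))
        (-(H (rot2 s M).1 - w / 2 - (A * cos s + B * sin s))) s := by
      intro s
      have h1 := (hd_phi' hsm hh hM s).sub ((((hasDerivAt_sin s).neg).const_mul A).add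
        ((hasDerivAt_cos s).const_mul B))
      refine h1.congr_deriv ?_
      rw [hR s]
      ring
    have hd3 : ∀ s, HasDerivAt (fun s => (H (rot2 s M).1 - w / 2 - (A * cos s + B * sin s)) ^ 2 +
        (fderiv ℝ H (rot2 s M).1 (bb (rot2 s M)) - (A * (-sin s) + B * cos s)) ^ 2) 0 s := by
      intro s
      refine (((hd1 s).pow 2).add ((hd2 s).pow 2)).congr_deriv ?_
      ring
    have hconst := is_const_of_deriv_eq_zero (fun s => (hd3 s).differentiableAt)
      (fun s => (hd3 s).deriv) s 0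
    have h00 : rot2 0 M = M := by simp [rot2]
    simp only [h00, cos_zero, sin_zero] at hconst
    have h5 : (H (rot2 s M).1 - w / 2 - (A * cos s + B * sin s)) ^ 2 +
        (fderiv ℝ H (rot2 s M).1 (bb (rot2 s M)) - (A * (-sin s) + B * cos s)) ^ 2 = 0 := by
      rw [hconst, hA, hB]
      ring
    have h6 : (H (rot2 s M).1 - w / 2 - (A * cos s + B * sin s)) ^ 2 = 0 := by
      nlinarith [sq_nonneg (H (rot2 s M).1 - w / 2 - (A * cos s + B * sin s)),
        sq_nonneg (fderiv ℝ H (rot2 s M).1 (bb (rot2 s M)) - (A * (-sin s) + B * cos s))]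
    have h7 := pow_eq_zero_iff (two_ne_zero) |>.1 h6
    linarith
  -- the linear function
  let ℓ : E3 →L[ℝ] ℝ := (H nu - w / 2) • innerSL ℝ nu +
    (fderiv ℝ H nu).comp (ContinuousLinearMap.id ℝ E3 - (innerSL ℝ nu).smulRight nu)
  have hℓ : ∀ x, ℓ x = (H nu - w / 2) * inner ℝ nu x + fderiv ℝ H nu (x - inner ℝ nu x • nu) := by
    intro x
    simp [ℓ]
  have hunit : ∀ x : E3, ‖x‖ = 1 → H x = w / 2 + ℓ x := by
    intro x hx
    set c := inner ℝ nu x with hc
    set y := x - c • nu with hy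
    have hny : inner ℝ nu y = (0 : ℝ) := by
      rw [hy, inner_sub_right, inner_smul_right, real_inner_self_eq_norm_sq, hnu, ← hc]
      ring
    have hxy : x = c • nu + y := by rw [hy]; abel
    have hnorm : c ^ 2 + ‖y‖ ^ 2 = 1 := by
      have h1 : ‖x‖ ^ 2 = c ^ 2 + ‖y‖ ^ 2 := by
        rw [hxy, ← real_inner_self_eq_norm_sq]
        simp only [inner_add_left, inner_add_right, inner_smul_left, inner_smul_right,
          real_inner_self_eq_norm_sq, hnu, hny, conj_trivial]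
        rw [real_inner_comm, hny]
        ring
      rw [← h1, hx]
      norm_num
    -- a unit vector `b` orthogonal to `nu` with `y = ‖y‖ b`
    obtain ⟨b, hb1, hb2, hb3⟩ : ∃ b : E3, ‖b‖ = 1 ∧ inner ℝ nu b = (0 : ℝ) ∧ y = ‖y‖ • b := by
      rcases eq_or_ne y 0 with hy0 | hy0
      · refine ⟨pt 1 0 0, ?_, ?_, ?_⟩
        · have : ‖pt 1 0 0‖ ^ 2 = 1 := by rw [norm_sq_eq]; simp
          have h0 : 0 ≤ ‖pt 1 0 0‖ := norm_nonneg _
          nlinarith [sq_nonneg (‖pt 1 0 0‖ - 1)]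
        · rw [inner_eq]; simp [nu]
        · rw [hy0]; simp
      · have hn : ‖y‖ ≠ 0 := norm_ne_zero_iff.2 hy0
        refine ⟨‖y‖⁻¹ • y, ?_, ?_, ?_⟩
        · rw [norm_smul, norm_inv, norm_norm, inv_mul_cancel₀ hn]
        · rw [inner_smul_right, hny, mul_zero]
        · rw [smul_smul, mul_inv_cancel₀ hn, one_smul]
    obtain ⟨M, hM, hM1, hMb⟩ := exists_frame hnu hb1 hb2
    -- the angle
    obtain ⟨s, hs1, hs2⟩ : ∃ s : ℝ, cos s = c ∧ sin s = ‖y‖ := by
      refine ⟨arccos c, cos_arccos (by nlinarith [sq_nonneg ‖y‖]) (by nlinarith [sq_nonneg ‖y‖]), ?_⟩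
      rw [sin_arccos, show 1 - c ^ 2 = ‖y‖ ^ 2 by linarith, sqrt_sq (norm_nonneg _)]
    have h1 := hcirc M hM s
    have h2 : (rot2 s M).1 = x := by
      simp only [rot2]
      rw [hM1, hMb, hs1, hs2, ← hb3, ← hxy]
    rw [h2, hM1, hMb, hs1, hs2] at h1
    rw [h1, hℓ, ← hc, ← hy, hb3, map_smul, smul_eq_mul, norm_smul, norm_norm, hb1]
    ring
  have h0 : H 0 = 0 := by
    have := hS.width 0
    simp at this
    linarith
  refine ⟨(InnerProductSpace.toDual ℝ E3).symm ℓ, fun x => ?_⟩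
  rw [InnerProductSpace.toDual_symm_apply]
  rcases eq_or_ne x 0 with rfl | hx
  · simp [h0]
  have hn : 0 < ‖x‖ := norm_pos_iff.2 hx
  have h1 := hunit (‖x‖⁻¹ • x) (by rw [norm_smul, norm_inv, norm_norm, inv_mul_cancel₀ hn.ne'])
  have h2 := hh ‖x‖ hn (‖x‖⁻¹ • x)
  rw [smul_smul, mul_inv_cancel₀ hn.ne', one_smul] at h2
  rw [h2, h1, map_smul, smul_eq_mul]
  field_simp
  ring

end Pool.Agent.P85
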