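import Pool.Agent.P85.Area
import Pool.Agent.P85.SuppH
import Pool.Agent.P85.FlowB
import Pool.Agent.P85.R3
import Pool.Agent.P85.Orth
import Pool.Agent.P85.Geo
import Pool.Agent.P85.ReturnFin
import Pool.Agent.P85.Per
import Pool.Agent.P85.WindEnd
import Pool.Agent.P85.Common
import Pool.Agent.P85.Wirt

/-!
# THEOREM P for a horizontal plane
-/

set_option autoImplicit false
open scoped ContDiff
open Real Set MeasureTheory

namespace Pool.Agent.P85

variable {H : E3 → ℝ} {w c : ℝ} {φ : ℝ → Fr → Fr} {μ : Measure Fr} {K : Set E3} {f : E3 → ℝ}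

lemma le_supp (h : Hyp K f w) (hH : IsSupp K f w H) {x : E3} (hx : x ∈ K) (u : E3) :
    inner ℝ x u ≤ H u := by
  rw [hH.sup]
  refine le_csSup ?_ ⟨x, hx, rfl⟩
  exact (h.cpt.image (by fun_prop : Continuous fun y : E3 => inner ℝ y u)).bddAbove

/-- The body of a support function `⟨p, ·⟩ + r ‖·‖` is a ball. -/
theorem ball_of (h : Hyp K f w) (hH : IsSupp K f w H) {p : E3}
    (hp : ∀ u : E3, H u = inner ℝ p u + w / 2 * ‖u‖) : K = Metric.closedBall p (w / 2) := by
  have hw := h.wpos
  apply Set.Subset.antisymm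
  · intro x hx
    rw [mem_closedBall_iff_norm]
    have h1 := le_supp h hH hx (x - p)
    rw [hp] at h1
    have h2 : inner ℝ x (x - p) - inner ℝ p (x - p) = ‖x - p‖ ^ 2 := by
      rw [← inner_sub_left, real_inner_self_eq_norm_sq]
    by_contra hlt
    push Not at hlt
    have h3 : 0 < ‖x - p‖ := by linarith
    nlinarith
  · intro x hx
    rw [mem_closedBall_iff_norm] at hx
    by_contra hxK
    obtain ⟨g, s, hs1, hs2⟩ := geometric_hahn_banach_closed_point h.conv h.cpt.isClosed hxK
    set u : E3 := (InnerProductSpace.toDual ℝ E3).symm g with hu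
    have hg : ∀ y : E3, g y = inner ℝ y u := by
      intro y
      rw [hu, real_inner_comm, InnerProductSpace.toDual_symm_apply]
    have hne : K.Nonempty := h.int.mono interior_subset
    have h1 : H u ≤ s := by
      rw [hH.sup]
      refine csSup_le (hne.image _) ?_
      rintro _ ⟨y, hy, rfl⟩
      have := hs1 y hy
      rw [hg] at this
      exact this.le
    rw [hp] at h1
    rw [hg] at hs2
    have h2 : inner ℝ (x - p) u ≤ ‖x - p‖ * ‖u‖ := real_inner_le_norm _ _
    rw [inner_sub_left] at h2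
    have h3 : ‖x - p‖ * ‖u‖ ≤ w / 2 * ‖u‖ := mul_le_mul_of_nonneg_right hx (norm_nonneg _)
    linarith

/-- **Theorem P for a horizontal plane.** -/
theorem main_nu (h : Hyp K f w) (hc : AllClosed f) (ho : OrthPlane f nu c) :
    ∃ (p : E3) (r : ℝ), K = Metric.closedBall p r := by
  obtain ⟨H, hH⟩ := exists_supp h
  have hS : Supp H w := hH.toSupp
  obtain ⟨φ, hΦ⟩ := exists_flow hS
  obtain ⟨μ, hμ⟩ := exists_inv
  have hP : Plane H c := plane_of_orth h hH ho
  have hcl : Closed φ := closed h hH hΦ hc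
  obtain ⟨G, Rt, hR⟩ := exists_return hS hP hΦ hcl
  obtain ⟨n, hn, hG⟩ := exists_period (E := ℂ) Complex.finrank_real_complex
    (Om := ({0}ᶜ : Set ℂ)) isOpen_compl_singleton
    (isConnected_compl_singleton_of_one_lt_rank (by simp [Complex.rank_real_complex]) 0).isPreconnected
    (G := G) (fun x hx => hR.maps x hx) hR.smooth (fun x hx => hR.per x hx)
  obtain ⟨L, hL, hper⟩ := common_period hS hΦ hR hn (fun x hx => hG x hx)
  have hA := area hS hΦ hμ hL (om_bound hS hP) (fun M hM hb t => never_neg hS hP hΦ hM hb t)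
    (fun M hM hb => winding hS hP hΦ hL hper hM hb)
  obtain ⟨p, hp⟩ := sphere hS ((mink hS hμ).2 hA)
  exact ⟨p, w / 2, ball_of h hH hp⟩

end Pool.Agent.P85
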