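import Mathlib

set_option autoImplicit false
set_option linter.unusedSectionVars false

/-!
# Pointwise periodic C^1 maps of plane domains are periodic (helper52, row R2 of Theorem P)

Let Om be an open preconnected set of a real normed space of dimension 2 and G a map of class C^1 on Om
with G(Om) in Om all of whose points are periodic.  Then some positive iterate of G is the identity on Om.
-/

open Set Filter Topology Function

namespace P85.Per

variable {E : Type*} [NormedAddCommGroup E] [NormedSpace ℝ E]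

/-- averaging lemma -/
theorem averaging {S : E → E} {f : E} (hS : HasStrictFDerivAt S (1 : E →L[ℝ] E) f)
    (hf : S f = f) {j : ℕ} (hj : 0 < j) : ∀ᶠ a in 𝓝 f, S^[j] a = a → S a = a := by
  have hit : ∀ i : ℕ, HasStrictFDerivAt S^[i] (1 : E →L[ℝ] E) f := by
    intro i
    have := hS.iterate hf i
    simpa using this
  have hsum : HasStrictFDerivAt (fun x => ∑ i ∈ Finset.range j, S^[i] x)
      (∑ _i ∈ Finset.range j, (1 : E →L[ℝ] E)) f :=
    HasStrictFDerivAt.fun_sum (fun i _ => hit i)
  have hlo := hsum.isLittleO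
  have hev := hlo.def (c := 1 / 2) (by norm_num)
  have hcont : ContinuousAt S f := hS.continuousAt
  have htend : Tendsto (fun a => (S a, a)) (𝓝 f) (𝓝 (f, f)) := by
    have h1 : Tendsto S (𝓝 f) (𝓝 f) := by
      have := hcont.tendsto
      rwa [hf] at this
    exact h1.prodMk_nhds tendsto_id
  have := htend.eventually hev
  filter_upwards [this] with a ha hSa
  have htel : (∑ i ∈ Finset.range j, S^[i] (S a)) - (∑ i ∈ Finset.range j, S^[i] a) = 0 := by
    rw [← Finset.sum_sub_distrib]
    have : ∀ i ∈ Finset.range j, S^[i] (S a) - S^[i] a = S^[i + 1] a - S^[i] a := by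
      intro i _
      rw [iterate_succ_apply]
    rw [Finset.sum_congr rfl this, Finset.sum_range_sub (fun i => S^[i] a) j]
    simp [hSa]
  simp only [htel, zero_sub, norm_neg] at ha
  have h2 : (∑ _i ∈ Finset.range j, (1 : E →L[ℝ] E)) (S a - a) = (j : ℝ) • (S a - a) := by
    simp [Nat.cast_smul_eq_nsmul]
  rw [h2, norm_smul, Real.norm_natCast] at ha
  have h3 : (1 : ℝ) ≤ j := by exact_mod_cast hj
  have h4 : 0 ≤ ‖S a - a‖ := norm_nonneg _
  have h5 : ‖S a - a‖ = 0 := by nlinarith
  exact sub_eq_zero.1 (norm_eq_zero.1 h5)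

section dom

variable {Om : Set E} {G : E → E}

/-- iterates are of class C^1 on the domain -/
theorem contDiffOn_iterate (hG : ContDiffOn ℝ 1 G Om) (hm : MapsTo G Om Om) (n : ℕ) :
    ContDiffOn ℝ 1 G^[n] Om := by
  induction n with
  | zero => simpa using contDiffOn_id
  | succ n ih =>
    rw [iterate_succ]
    exact ih.comp hG hm

/-- the set of points near which some positive iterate is the identity -/
def good (G : E → E) (n : ℕ) : Set E := {z | ∀ᶠ y in 𝓝 z, G^[n] y = y}

theorem isOpen_good (G : E → E) (n : ℕ) : IsOpen (good G n) := isOpen_setOfPred_eventually_nhds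

theorem good_eq {n : ℕ} {z : E} (hz : z ∈ good G n) : G^[n] z = z := hz.self_of_nhds

theorem iterate_mul_eq {S : E → E} {m n : ℕ} {y : E} (h : S^[m] y = y) : (S^[n])^[m] y = y := by
  rw [← iterate_mul, mul_comm, iterate_mul]
  exact IsFixedPt.iterate h n

theorem fix_of_closure {S : E → E} {u : Set E} {f : E} (hc : ContinuousAt S f) (hf : f ∈ closure u)
    (hu : ∀ y ∈ u, S y = y) : S f = f := by
  have : NeBot (𝓝[u] f) := mem_closure_iff_nhdsWithin_neBot.1 hf
  have h1 : Tendsto S (𝓝[u] f) (𝓝 (S f)) := hc.tendsto.mono_left nhdsWithin_le_nhds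
  have h2 : Tendsto S (𝓝[u] f) (𝓝 f) := by
    refine Tendsto.congr' ?_ (tendsto_id.mono_left nhdsWithin_le_nhds)
    filter_upwards [self_mem_nhdsWithin] with y hy
    exact (hu y hy).symm
  exact tendsto_nhds_unique h1 h2

theorem fderiv_of_closure (hOm : IsOpen Om) (hG : ContDiffOn ℝ 1 G Om) (hm : MapsTo G Om Om)
    {n : ℕ} {u : Set E} {f : E} (hfO : f ∈ Om) (hf : f ∈ closure u) (hu : u ⊆ good G n) :
    fderiv ℝ G^[n] f = 1 := by
  have : NeBot (𝓝[u] f) := mem_closure_iff_nhdsWithin_neBot.1 hf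
  have hc : ContinuousOn (fderiv ℝ G^[n]) Om :=
    (contDiffOn_iterate hG hm n).continuousOn_fderiv_of_isOpen hOm le_rfl
  have hc' : ContinuousAt (fderiv ℝ G^[n]) f := hc.continuousAt (hOm.mem_nhds hfO)
  have h1 : Tendsto (fderiv ℝ G^[n]) (𝓝[u] f) (𝓝 (fderiv ℝ G^[n] f)) :=
    hc'.tendsto.mono_left nhdsWithin_le_nhds
  have h2 : Tendsto (fderiv ℝ G^[n]) (𝓝[u] f) (𝓝 1) := by
    refine Tendsto.congr' ?_ tendsto_const_nhds
    filter_upwards [self_mem_nhdsWithin] with y hy
    have h3 : G^[n] =ᶠ[𝓝 y] id := by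
      filter_upwards [hu hy] with z hz
      simpa using hz
    rw [h3.fderiv_eq, fderiv_id]
    rfl
  exact tendsto_nhds_unique h1 h2

theorem hasStrict (hOm : IsOpen Om) (hG : ContDiffOn ℝ 1 G Om) (hm : MapsTo G Om Om)
    (n : ℕ) {f : E} (hfO : f ∈ Om) : HasStrictFDerivAt G^[n] (fderiv ℝ G^[n] f) f :=
  ((contDiffOn_iterate hG hm n).contDiffAt (hOm.mem_nhds hfO)).hasStrictFDerivAt (by norm_num)

/-- key step: at a limit point f of the good set of n at which the m-th power is the identity
on a set accumulating at f -/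
theorem near_of_closure (hOm : IsOpen Om) (hG : ContDiffOn ℝ 1 G Om) (hm : MapsTo G Om Om)
    {n : ℕ} {f : E} (hfO : f ∈ Om) (hfix : G^[n] f = f) (hD : fderiv ℝ G^[n] f = 1)
    {m : ℕ} (hm0 : 0 < m) : ∀ᶠ a in 𝓝 f, (G^[n])^[m] a = a → G^[n] a = a := by
  have h := hasStrict hOm hG hm n hfO
  rw [hD] at h
  exact averaging h hfix hm0

/-- propagation along connected open sets -/
theorem propagate (hOm : IsOpen Om) (hG : ContDiffOn ℝ 1 G Om) (hm : MapsTo G Om Om)
    {C : Set E} (hCO : C ⊆ Om) (hC : IsPreconnected C)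
    (hgood : ∀ z ∈ C, ∃ m, 0 < m ∧ z ∈ good G m) {n : ℕ} {z0 : E} (hz0 : z0 ∈ C)
    (hn : z0 ∈ good G n) : C ⊆ good G n := by
  refine hC.subset_of_closure_inter_subset (isOpen_good G n) ⟨z0, hz0, hn⟩ ?_
  rintro f ⟨hf1, hf2⟩
  have hfO := hCO hf2
  obtain ⟨m, hm0, hfm⟩ := hgood f hf2
  have hct : ContinuousAt G^[n] f :=
    ((contDiffOn_iterate hG hm n).continuousOn).continuousAt (hOm.mem_nhds hfO)
  have hfix : G^[n] f = f := fix_of_closure hct hf1 (fun y hy => good_eq hy)
  have hD := fderiv_of_closure hOm hG hm hfO hf1 (n := n) subset_rfl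
  have hnear := near_of_closure hOm hG hm hfO hfix hD hm0
  show ∀ᶠ y in 𝓝 f, G^[n] y = y
  filter_upwards [hnear, hfm] with a ha1 ha2
  exact ha1 (iterate_mul_eq ha2)


/-- a linear map of a plane with positive determinant, a fixed vector and finite order is the identity -/
theorem linear_id [FiniteDimensional ℝ E] (h2 : Module.finrank ℝ E = 2) (L : E →ₗ[ℝ] E) {v : E}
    (hv : v ≠ 0) (hLv : L v = v) {m : ℕ} (hm0 : 0 < m) (hLm : L ^ m = 1)
    (hdet : 0 < LinearMap.det L) : L = 1 := by
  have hd1 : LinearMap.det L = 1 := by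
    have h : (LinearMap.det L) ^ m = 1 := by rw [← map_pow, hLm, map_one]
    exact (pow_eq_one_iff_of_nonneg hdet.le hm0.ne').1 h
  have hdeg : L.charpoly.natDegree = 2 := by rw [LinearMap.charpoly_natDegree, h2]
  have hmon := L.charpoly_monic
  have hc0 : L.charpoly.coeff 0 = 1 := by
    have := LinearMap.det_eq_sign_charpoly_coeff L
    rw [hd1, h2] at this
    simpa using this.symm
  have hc2 : L.charpoly.coeff 2 = 1 := by
    have := hmon.coeff_natDegree
    rwa [hdeg] at this
  have hroot : L.charpoly.IsRoot 1 := by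
    rw [← Module.End.hasEigenvalue_iff_isRoot_charpoly]
    refine Module.End.hasEigenvalue_of_hasEigenvector (x := v) ?_
    refine ⟨?_, hv⟩
    rw [Module.End.mem_eigenspace_iff]
    simpa using hLv
  have hpoly : L.charpoly = Polynomial.C (L.charpoly.coeff 2) * Polynomial.X ^ 2
      + Polynomial.C (L.charpoly.coeff 1) * Polynomial.X + Polynomial.C (L.charpoly.coeff 0) := by
    refine Polynomial.eq_quadratic_of_degree_le_two ?_
    exact Polynomial.degree_le_of_natDegree_le hdeg.le
  have hc1 : L.charpoly.coeff 1 = -2 := by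
    have h := hroot
    rw [Polynomial.IsRoot, hpoly, hc0, hc2] at h
    simp at h
    linarith
  have hch := L.aeval_self_charpoly
  rw [hpoly, hc0, hc1, hc2] at hch
  simp only [map_one, one_mul, map_add, map_pow, Polynomial.aeval_X, map_mul, Polynomial.aeval_C]
    at hch
  set N : E →ₗ[ℝ] E := L - 1 with hN
  have hN2 : N * N = 0 := by
    have : N * N = L ^ 2 + (algebraMap ℝ (Module.End ℝ E)) (-2) * L + 1 := by
      have h5 : (algebraMap ℝ (Module.End ℝ E)) (-2) * L = -L - L := by
        rw [Algebra.algebraMap_eq_smul_one, smul_mul_assoc, one_mul, neg_smul, two_smul]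
        abel
      rw [h5, hN, pow_two]
      noncomm_ring
    rw [this]
    exact hch
  have hL : L = 1 + N := by rw [hN]; abel
  have hpow : ∀ k : ℕ, (1 + N) ^ k = 1 + (k : ℝ) • N := by
    intro k
    induction k with
    | zero => simp
    | succ k ih =>
      rw [pow_succ, ih, mul_add, mul_one, add_mul, one_mul, smul_mul_assoc, hN2, smul_zero,
        add_zero, Nat.cast_succ, add_smul, one_smul, add_assoc]
  rw [hL] at hLm
  rw [hpow m] at hLm
  have h3 : (m : ℝ) • N = 0 := by simpa using hLm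
  have h4 : N = 0 := by
    rcases smul_eq_zero.1 h3 with h | h
    · exact absurd (by exact_mod_cast h) hm0.ne'
    · exact h
  rw [hL, h4, add_zero]

/-- punctured balls are preconnected -/
theorem punctured (h2 : Module.finrank ℝ E = 2) (f : E) (r : ℝ) :
    IsPreconnected (Metric.ball f r \ {f}) := by
  have hrank : 1 < Module.rank ℝ E := by
    have h := Module.lt_rank_of_lt_finrank (R := ℝ) (M := E) (n := 1) (by rw [h2]; norm_num)
    simpa using h
  have himg : Metric.ball f r \ {f} = (fun p : E × ℝ => f + p.2 • p.1) ''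
      (Metric.sphere (0 : E) 1 ×ˢ Ioo 0 r) := by
    ext x
    constructor
    · rintro ⟨hx, hxf⟩
      have hne : x - f ≠ 0 := sub_ne_zero.2 hxf
      have hpos : 0 < ‖x - f‖ := norm_pos_iff.2 hne
      refine ⟨(‖x - f‖⁻¹ • (x - f), ‖x - f‖), ⟨?_, hpos, ?_⟩, ?_⟩
      · simp [norm_smul, hpos.ne']
      · simpa [dist_eq_norm] using hx
      · simp [smul_smul, hpos.ne']
    · rintro ⟨⟨s, t⟩, ⟨hs, ht1, ht2⟩, rfl⟩
      have hs' : ‖s‖ = 1 := by simpa using hs
      refine ⟨?_, ?_⟩
      · simp [dist_eq_norm, norm_smul, hs', abs_of_pos ht1, ht2]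
      · simp only [mem_singleton_iff, add_eq_left, smul_eq_zero, not_or]
        refine ⟨ht1.ne', ?_⟩
        intro h
        rw [h, norm_zero] at hs'
        exact zero_ne_one hs'
  rw [himg]
  refine IsPreconnected.image ?_ _ ?_
  · exact (isPreconnected_sphere hrank 0 1).prod isPreconnected_Ioo
  · fun_prop


/-- Baire category step -/
theorem baire [FiniteDimensional ℝ E] (hOm : IsOpen Om) (hG : ContDiffOn ℝ 1 G Om)
    (hm : MapsTo G Om Om) (hper : ∀ z ∈ Om, ∃ n, 0 < n ∧ G^[n] z = z) {K : Set E}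
    (hKO : K ⊆ Om) (hK : IsLocallyClosed K) (hne : K.Nonempty) :
    ∃ n, 0 < n ∧ ∃ x ∈ K, ∃ r, 0 < r ∧ Metric.ball x r ⊆ Om ∧
      ∀ y ∈ K, y ∈ Metric.ball x r → G^[n] y = y := by
  have : ProperSpace E := FiniteDimensional.proper_real E
  have : LocallyCompactSpace K := hK.locallyCompactSpace
  have : Nonempty K := hne.to_subtype
  have hcl : ∀ n : ℕ, IsClosed {y : K | G^[n + 1] y.1 = y.1} := by
    intro n
    refine isClosed_eq ?_ continuous_subtype_val
    have h1 : ContinuousOn G^[n + 1] K := (contDiffOn_iterate hG hm (n + 1)).continuousOn.mono hKO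
    exact continuousOn_iff_continuous_domRestrict.1 h1
  have hU : ⋃ n : ℕ, {y : K | G^[n + 1] y.1 = y.1} = univ := by
    ext y
    simp only [mem_iUnion, mem_ofPred_eq, mem_univ, iff_true]
    obtain ⟨n, hn0, hn⟩ := hper y.1 (hKO y.2)
    exact ⟨n - 1, by rwa [Nat.sub_add_cancel hn0]⟩
  obtain ⟨n, x, hx⟩ := nonempty_interior_of_iUnion_of_closed hcl hU
  obtain ⟨O, hOsub, hOopen, hxO⟩ := mem_interior.1 hx
  obtain ⟨V, hV, hVO⟩ := isOpen_induced_iff.1 hOopen
  have hxV : x.1 ∈ V := by
    have : x ∈ Subtype.val ⁻¹' V := by rw [hVO]; exact hxO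
    exact this
  have hmem : V ∩ Om ∈ 𝓝 x.1 := (hV.inter hOm).mem_nhds ⟨hxV, hKO x.2⟩
  obtain ⟨r, hr, hball⟩ := Metric.mem_nhds_iff.1 hmem
  refine ⟨n + 1, Nat.succ_pos n, x.1, x.2, r, hr, fun y hy => (hball hy).2, ?_⟩
  intro y hyK hyb
  have h1 : (⟨y, hyK⟩ : K) ∈ O := by
    rw [← hVO]
    exact (hball hyb).1
  exact hOsub h1

/-- a non-isolated zero of S - id gives a fixed vector of the derivative -/
theorem fixed_vector [FiniteDimensional ℝ E] {S : E → E} {L : E →L[ℝ] E} {f : E}
    (hS : HasFDerivAt S L f) (hfr : ∃ᶠ y in 𝓝[≠] f, S y = y) : ∃ v, v ≠ 0 ∧ L v = v := by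
  by_contra hcon
  push Not at hcon
  have hD : HasFDerivAt (fun y => S y - y) (L - 1) f := hS.sub (hasFDerivAt_id f)
  have hinj : Injective ((L - 1 : E →L[ℝ] E) : E →ₗ[ℝ] E) := by
    rw [← LinearMap.ker_eq_bot, LinearMap.ker_eq_bot']
    intro v hv
    by_contra hne
    apply hcon v hne
    have : L v - v = 0 := by simpa using hv
    exact sub_eq_zero.1 this
  obtain ⟨c, -, hc⟩ := (LinearMap.injective_iff_antilipschitz _).1 hinj
  have hev := hD.eventually_ne (c := (0 : E)) ⟨c, hc⟩
  obtain ⟨y, hy1, hy2⟩ := (hfr.and_eventually hev).exists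
  exact hy2 (sub_eq_zero.2 hy1)

/-- **Lemma (4)**: a C^1 map of a connected open set of a real plane into itself all of whose
points are periodic is periodic. -/
theorem main (h2 : Module.finrank ℝ E = 2) (hOm : IsOpen Om) (hc : IsPreconnected Om)
    (hG : ContDiffOn ℝ 1 G Om) (hm : MapsTo G Om Om)
    (hper : ∀ z ∈ Om, ∃ n, 0 < n ∧ G^[n] z = z) : ∃ n, 0 < n ∧ ∀ z ∈ Om, G^[n] z = z := by
  have hfd : FiniteDimensional ℝ E := Module.finite_of_finrank_pos (by rw [h2]; norm_num)
  have hnt : Nontrivial E := Module.nontrivial_of_finrank_pos (R := ℝ) (by rw [h2]; norm_num)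
  have hcont : ∀ n : ℕ, ∀ f ∈ Om, ContinuousAt G^[n] f := fun n f hf =>
    ((contDiffOn_iterate hG hm n).continuousOn).continuousAt (hOm.mem_nhds hf)
  set U : Set E := {z | z ∈ Om ∧ ∃ n, 0 < n ∧ z ∈ good G n} with hUdef
  have hUopen : IsOpen U := by
    have : U = Om ∩ ⋃ n : ℕ, ⋃ _ : 0 < n, good G n := by
      ext z
      simp [hUdef]
    rw [this]
    exact hOm.inter (isOpen_iUnion fun n => isOpen_iUnion fun _ => isOpen_good G n)
  have hUO : U ⊆ Om := fun z hz => hz.1
  -- density
  have hdense : ∀ W : Set E, IsOpen W → W ⊆ Om → W.Nonempty → (W ∩ U).Nonempty := by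
    intro W hW hWO hWne
    obtain ⟨n, hn, x, hx, r, hr, -, h⟩ := baire hOm hG hm hper hWO hW.isLocallyClosed hWne
    refine ⟨x, hx, hWO hx, n, hn, ?_⟩
    show ∀ᶠ y in 𝓝 x, G^[n] y = y
    filter_upwards [hW.mem_nhds hx, Metric.ball_mem_nhds x hr] with y hy1 hy2
    exact h y hy1 hy2
  have key : Om ⊆ U := by
    by_contra hnot
    have hKne : (Om ∩ Uᶜ).Nonempty := by
      obtain ⟨z, hz1, hz2⟩ := not_subset.1 hnot
      exact ⟨z, hz1, hz2⟩
    obtain ⟨n, hn, x, hx, r, hr, hVO, hfix⟩ := baire hOm hG hm hper (K := Om ∩ Uᶜ)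
      inter_subset_left (hOm.isLocallyClosed.inter hUopen.isClosed_compl.isLocallyClosed) hKne
    set V := Metric.ball x r with hV
    have hVopen : IsOpen V := Metric.isOpen_ball
    have hxV : x ∈ V := Metric.mem_ball_self hr
    -- points of K in V are not isolated
    have hacc : ∀ f ∈ V, f ∉ U → ∃ᶠ y in 𝓝[≠] f, G^[n] y = y := by
      intro f hfV hfU
      by_contra hnf
      rw [not_frequently] at hnf
      have hfO : f ∈ Om := hVO hfV
      have hev : ∀ᶠ y in 𝓝[≠] f, y ∈ V ∧ y ∈ U := by
        have h1 : ∀ᶠ y in 𝓝[≠] f, y ∈ V := mem_nhdsWithin_of_mem_nhds (hVopen.mem_nhds hfV)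
        filter_upwards [hnf, h1] with y hy1 hy2
        refine ⟨hy2, ?_⟩
        by_contra hyU
        exact hy1 (hfix y ⟨hVO hy2, hyU⟩ hy2)
      obtain ⟨e, he, hball⟩ := Metric.mem_nhdsWithin_iff.1 hev
      have hP : Metric.ball f e \ {f} ⊆ U := by
        rintro y ⟨hy1, hy2⟩
        exact (hball ⟨hy1, hy2⟩).2
      have hPcl : f ∈ closure (Metric.ball f e \ {f}) := by
        rw [mem_closure_iff_nhdsWithin_neBot]
        have h3 : 𝓝[Metric.ball f e \ {f}] f = 𝓝[≠] f := by
          have h4 : Metric.ball f e \ {f} = {f}ᶜ ∩ Metric.ball f e := by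
            ext y; simp [and_comm]
          rw [h4]
          exact nhdsWithin_inter_of_mem' (mem_nhdsWithin_of_mem_nhds (Metric.ball_mem_nhds f he))
        rw [h3]
        exact Module.punctured_nhds_neBot ℝ E f
      obtain ⟨z0, hz0⟩ : (Metric.ball f e \ {f}).Nonempty := by
        rw [← closure_nonempty_iff]
        exact ⟨f, hPcl⟩
      obtain ⟨-, m, hm0, hgm⟩ := hP hz0
      have hsub := propagate hOm hG hm (C := Metric.ball f e \ {f}) (fun y hy => (hP hy).1)
        (punctured h2 f e) (fun y hy => (hP hy).2) hz0 hgm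
      have hff : G^[m] f = f := fix_of_closure (hcont m f hfO) hPcl (fun y hy => good_eq (hsub hy))
      apply hfU
      refine ⟨hfO, m, hm0, ?_⟩
      show ∀ᶠ y in 𝓝 f, G^[m] y = y
      filter_upwards [Metric.ball_mem_nhds f he] with y hy
      by_cases hyf : y = f
      · rw [hyf]; exact hff
      · exact good_eq (hsub ⟨hy, hyf⟩)
    -- every point of U in V is good for 2 n
    have hcomp : ∀ z ∈ V, z ∈ U → z ∈ good G (n * 2) := by
      intro z hzV hzU
      set C := connectedComponentIn U z with hC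
      have hCopen : IsOpen C := hUopen.connectedComponentIn
      have hCpre : IsPreconnected C := isPreconnected_connectedComponentIn
      have hCU : C ⊆ U := connectedComponentIn_subset U z
      have hzC : z ∈ C := mem_connectedComponentIn hzU
      obtain ⟨-, m, hm0, hgm⟩ := hCU hzC
      have hCm : C ⊆ good G m := propagate hOm hG hm (fun y hy => hUO (hCU hy)) hCpre
        (fun y hy => (hCU hy).2) hzC hgm
      obtain ⟨f, hfV, hfC, hfnC⟩ : ∃ f, f ∈ V ∧ f ∈ closure C ∧ f ∉ C := by
        by_contra hno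
        push Not at hno
        have hVC : V ⊆ C := by
          refine IsPreconnected.subset_of_closure_inter_subset
            (convex_ball x r).isPreconnected hCopen ⟨z, hzV, hzC⟩ ?_
          rintro f ⟨hf1, hf2⟩
          exact hno f hf2 hf1
        exact hx.2 (hCU (hVC hxV))
      have hfU : f ∉ U := by
        intro hfU
        apply hfnC
        have hpre : IsPreconnected (insert f C) :=
          hCpre.subset_closure (subset_insert f C) (insert_subset hfC subset_closure)
        exact hpre.subset_connectedComponentIn (mem_insert_of_mem f hzC)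
          (insert_subset hfU hCU) (mem_insert f C)
      have hfO : f ∈ Om := hVO hfV
      have hSf : G^[n] f = f := hfix f ⟨hfO, hfU⟩ hfV
      set L := fderiv ℝ G^[n] f with hL
      have hSd : HasStrictFDerivAt G^[n] L f := hasStrict hOm hG hm n hfO
      obtain ⟨v, hv0, hLv⟩ := fixed_vector hSd.hasFDerivAt (hacc f hfV hfU)
      have hLm : L ^ m = 1 := by
        have h1 : fderiv ℝ G^[n * m] f = 1 := by
          refine fderiv_of_closure hOm hG hm hfO hfC ?_
          intro y hy
          show ∀ᶠ b in 𝓝 y, G^[n * m] b = b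
          filter_upwards [hCm hy] with b hb
          rw [iterate_mul]
          exact iterate_mul_eq hb
        have h3 := (hSd.iterate hSf m).hasFDerivAt.fderiv
        rw [← iterate_mul, h1] at h3
        exact h3.symm
      have hTd : HasStrictFDerivAt G^[n * 2] (L ^ 2) f := by
        have h3 := hSd.iterate hSf 2
        rwa [← iterate_mul] at h3
      have hTf : G^[n * 2] f = f := by
        rw [iterate_mul]
        exact IsFixedPt.iterate hSf 2
      have hLin : ((L ^ 2 : E →L[ℝ] E) : E →ₗ[ℝ] E) = 1 := by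
        have hco : ∀ k : ℕ, ((L ^ k : E →L[ℝ] E) : E →ₗ[ℝ] E) = (L : E →ₗ[ℝ] E) ^ k := by
          intro k
          induction k with
          | zero => rfl
          | succ k ih => rw [pow_succ, pow_succ, ← ih]; rfl
        have hdetm : LinearMap.det (L : E →ₗ[ℝ] E) ^ m = 1 := by
          rw [← map_pow, ← hco, hLm]
          exact map_one _
        have hdet0 : LinearMap.det (L : E →ₗ[ℝ] E) ≠ 0 := by
          intro h0
          rw [h0, zero_pow hm0.ne'] at hdetm
          exact zero_ne_one hdetm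
        refine linear_id h2 _ hv0 (m := m) ?_ hm0 ?_ ?_
        · show (L ^ 2) v = v
          rw [pow_two]
          show L (L v) = v
          rw [hLv, hLv]
        · rw [hco, ← pow_mul, mul_comm 2 m, pow_mul, ← hco, hLm]
          exact one_pow 2
        · rw [hco, map_pow]
          positivity
      have hL2 : L ^ 2 = 1 := by
        refine ContinuousLinearMap.ext fun w => ?_
        have h7 := congrArg (fun F : E →ₗ[ℝ] E => F w) hLin
        exact h7
      have hTD : fderiv ℝ G^[n * 2] f = 1 := by rw [hTd.hasFDerivAt.fderiv, hL2]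
      have hnear := near_of_closure hOm hG hm hfO hTf hTD hm0
      have hfreq : ∃ᶠ a in 𝓝 f, a ∈ C := mem_closure_iff_frequently.1 hfC
      obtain ⟨a, haC, ha⟩ := (hfreq.and_eventually hnear.eventually_nhds).exists
      have hga : a ∈ good G (n * 2) := by
        show ∀ᶠ b in 𝓝 a, G^[n * 2] b = b
        filter_upwards [ha, hCm haC] with b hb1 hb2
        exact hb1 (iterate_mul_eq hb2)
      exact propagate hOm hG hm (fun y hy => hUO (hCU hy)) hCpre (fun y hy => (hCU hy).2) haC hga hzC
    -- conclusion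
    have hall : ∀ y ∈ V, G^[n * 2] y = y := by
      intro y hy
      have hcl : y ∈ closure (V ∩ U) := by
        rw [mem_closure_iff]
        intro W hW hyW
        obtain ⟨b, ⟨hb1, hb2⟩, hb3⟩ := hdense (W ∩ V) (hW.inter hVopen)
          (fun b hb => hVO hb.2) ⟨y, hyW, hy⟩
        exact ⟨b, hb1, hb2, hb3⟩
      exact fix_of_closure (hcont (n * 2) y (hVO hy)) hcl
        (fun b hb => good_eq (hcomp b hb.1 hb.2))
    apply hx.2
    refine ⟨hVO hxV, n * 2, by omega, ?_⟩
    show ∀ᶠ y in 𝓝 x, G^[n * 2] y = y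
    filter_upwards [hVopen.mem_nhds hxV] with y hy
    exact hall y hy
  rcases Om.eq_empty_or_nonempty with hemp | ⟨z0, hz0⟩
  · exact ⟨1, one_pos, fun z hz => by rw [hemp] at hz; exact absurd hz (notMem_empty z)⟩
  · obtain ⟨-, n, hn, hgn⟩ := key hz0
    have hsub := propagate hOm hG hm subset_rfl hc (fun z hz => (key hz).2) hz0 hgn
    exact ⟨n, hn, fun z hz => good_eq (hsub hz)⟩

end dom

end P85.Per
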