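import Pool.Agent.P85.Defs

/-!
# The measure on the frames: Gram-Schmidt on two random vectors
-/

set_option autoImplicit false

open MeasureTheory Metric
open scoped RealInnerProductSpace

namespace Pool.Agent.P85.R3

lemma cr_0 (u v : E3) : cr u v 0 = u 1 * v 2 - u 2 * v 1 := rfl
lemma cr_1 (u v : E3) : cr u v 1 = u 2 * v 0 - u 0 * v 2 := rfl
lemma cr_2 (u v : E3) : cr u v 2 = u 0 * v 1 - u 1 * v 0 := rfl

lemma ext3 {u v : E3} (h0 : u 0 = v 0) (h1 : u 1 = v 1) (h2 : u 2 = v 2) : u = v := by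
  ext i
  fin_cases i
  · exact h0
  · exact h1
  · exact h2

/-- the first vector of the Gram-Schmidt basis -/
noncomputable def gs1 (z : Fr) : E3 := ‖z.1‖⁻¹ • z.1

/-- the orthogonal component -/
noncomputable def gsy (z : Fr) : E3 := z.2 - ⟪gs1 z, z.2⟫ • gs1 z

/-- the second vector of the Gram-Schmidt basis -/
noncomputable def gs2 (z : Fr) : E3 := ‖gsy z‖⁻¹ • gsy z

/-- the frame of two vectors -/
noncomputable def fr (z : Fr) : Fr := (gs1 z, gs2 z)

/-- the product of two balls -/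
def B2 : Set Fr := ball 0 1 ×ˢ ball 0 1

/-- the normalised measure on the product of two balls -/
noncomputable def mu0 : Measure Fr := (volume B2)⁻¹ • volume.restrict B2

/-- the measure on the frames -/
noncomputable def mu : Measure Fr := mu0.map fr

lemma isOpen_B2 : IsOpen B2 := isOpen_ball.prod isOpen_ball

lemma volume_B2_ne_zero : volume B2 ≠ 0 := by
  refine (isOpen_B2.measure_pos volume ⟨(0, 0), ?_⟩).ne'
  exact ⟨mem_ball_self one_pos, mem_ball_self one_pos⟩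

lemma volume_B2_ne_top : volume B2 ≠ ⊤ := by
  have h : Bornology.IsBounded B2 := isBounded_ball.prod isBounded_ball
  exact h.measure_lt_top.ne

instance : IsProbabilityMeasure mu0 := by
  constructor
  rw [mu0, Measure.smul_apply, Measure.restrict_apply_univ, smul_eq_mul,
    ENNReal.inv_mul_cancel volume_B2_ne_zero volume_B2_ne_top]

/-! ### The frame of two vectors -/

/-- Lagrange's identity -/
lemma norm_cr_sq (u v : E3) : ‖cr u v‖ ^ 2 = ‖u‖ ^ 2 * ‖v‖ ^ 2 - ⟪u, v⟫ ^ 2 := by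
  rw [norm_sq_eq, norm_sq_eq, norm_sq_eq, inner_eq, cr_0, cr_1, cr_2]
  ring

lemma norm_gs1 {z : Fr} (h : z.1 ≠ 0) : ‖gs1 z‖ = 1 := by
  rw [gs1, norm_smul, norm_inv, norm_norm]
  exact inv_mul_cancel₀ (norm_ne_zero_iff.2 h)

lemma norm_gs2 {z : Fr} (h : gsy z ≠ 0) : ‖gs2 z‖ = 1 := by
  rw [gs2, norm_smul, norm_inv, norm_norm]
  exact inv_mul_cancel₀ (norm_ne_zero_iff.2 h)

lemma inner_gs {z : Fr} (h : z.1 ≠ 0) : ⟪gs1 z, gs2 z⟫ = 0 := by
  have h1 : ⟪gs1 z, gs1 z⟫ = 1 := by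
    rw [real_inner_self_eq_norm_sq, norm_gs1 h, one_pow]
  rw [gs2, real_inner_smul_right, gsy, inner_sub_right, real_inner_smul_right, h1, mul_one, sub_self,
    mul_zero]

/-- the pairs for which the frame is orthonormal -/
def Gd : Set Fr := {z | z.1 ≠ 0 ∧ gsy z ≠ 0}

lemma fr_mem {z : Fr} (h : z ∈ Gd) : fr z ∈ St :=
  ⟨norm_gs1 h.1, norm_gs2 h.2, inner_gs h.1⟩

lemma measurable_gs1 : Measurable gs1 := by
  unfold gs1
  fun_prop

lemma measurable_gsy : Measurable gsy := by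
  unfold gsy
  have h1 : Measurable fun z : Fr => ⟪gs1 z, z.2⟫ := measurable_gs1.inner measurable_snd
  exact measurable_snd.sub (h1.smul measurable_gs1)

lemma measurable_gs2 : Measurable gs2 := by
  unfold gs2
  exact (measurable_gsy.norm.inv).smul measurable_gsy

lemma measurable_fr : Measurable fr := measurable_gs1.prodMk measurable_gs2

lemma isClosed_St : IsClosed St := by
  have h1 : IsClosed {M : Fr | ‖M.1‖ = 1} := isClosed_eq (by fun_prop) continuous_const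
  have h2 : IsClosed {M : Fr | ‖M.2‖ = 1} := isClosed_eq (by fun_prop) continuous_const
  have h3 : IsClosed {M : Fr | ⟪M.1, M.2⟫ = 0} := isClosed_eq (by fun_prop) continuous_const
  exact h1.inter (h2.inter h3)

lemma measurableSet_St : MeasurableSet St := isClosed_St.measurableSet

lemma norm_le_of_mem_St {M : Fr} (h : M ∈ St) : ‖M‖ ≤ 1 := by
  rw [Prod.norm_def, h.1, h.2.1, max_self]

lemma isCompact_St : IsCompact St := by
  refine (isCompact_closedBall (0 : Fr) 1).of_isClosed_subset isClosed_St fun M hM => ?_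
  rw [mem_closedBall_zero_iff]
  exact norm_le_of_mem_St hM

/-! ### Almost all pairs have an orthonormal frame -/

/-- the pairs of dependent vectors -/
lemma volume_dep : volume {z : Fr | ⟪z.1, z.1⟫ * ⟪z.2, z.2⟫ - ⟪z.1, z.2⟫ ^ 2 = 0} = 0 := by
  have hm : MeasurableSet {z : Fr | ⟪z.1, z.1⟫ * ⟪z.2, z.2⟫ - ⟪z.1, z.2⟫ ^ 2 = 0} :=
    (isClosed_eq (by fun_prop) continuous_const).measurableSet
  rw [Measure.volume_eq_prod, Measure.measure_prod_null hm]
  have h0 : volume ({0} : Set E3) = 0 := measure_singleton _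
  filter_upwards [measure_eq_zero_iff_ae_notMem.1 h0] with x hx
  have hx0 : x ≠ 0 := fun h => hx (by rw [h]; rfl)
  -- the vectors on the line of `x`
  have h1 : (Prod.mk x ⁻¹' {z : Fr | ⟪z.1, z.1⟫ * ⟪z.2, z.2⟫ - ⟪z.1, z.2⟫ ^ 2 = 0}) ⊆
      (Submodule.span ℝ {x} : Submodule ℝ E3) := by
    intro y hy
    have hy' : ⟪x, x⟫ * ⟪y, y⟫ - ⟪x, y⟫ ^ 2 = 0 := hy
    have h3 : ‖⟪x, x⟫ • y - ⟪x, y⟫ • x‖ ^ 2 = 0 := by
      rw [← real_inner_self_eq_norm_sq, inner_sub_left, inner_sub_right, inner_sub_right]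
      have hc : ⟪y, x⟫ = ⟪x, y⟫ := real_inner_comm _ _
      simp only [real_inner_smul_left, real_inner_smul_right, hc]
      linear_combination ⟪x, x⟫ * hy'
    have h4 : ⟪x, x⟫ • y - ⟪x, y⟫ • x = 0 := by
      rw [← norm_eq_zero]
      exact pow_eq_zero_iff (two_ne_zero) |>.1 h3
    have h5 : ⟪x, x⟫ ≠ 0 := inner_self_ne_zero.2 hx0
    refine Submodule.mem_span_singleton.2 ⟨⟪x, x⟫⁻¹ * ⟪x, y⟫, ?_⟩
    rw [mul_smul, ← sub_eq_zero.1 h4, smul_smul, inv_mul_cancel₀ h5, one_smul]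
  have h6 : (Submodule.span ℝ {x} : Submodule ℝ E3) ≠ ⊤ := by
    intro h
    have h7 := finrank_span_singleton (K := ℝ) hx0
    rw [h, finrank_top, finrank_euclideanSpace, Fintype.card_fin] at h7
    omega
  exact measure_mono_null h1 (Measure.addHaar_submodule volume _ h6)

lemma gd_of_not_dep {z : Fr} (h : ⟪z.1, z.1⟫ * ⟪z.2, z.2⟫ - ⟪z.1, z.2⟫ ^ 2 ≠ 0) :
    z ∈ Gd := by
  have hx : z.1 ≠ 0 := by
    intro h0
    rw [h0] at h
    apply h
    simp
  refine ⟨hx, fun h1 => h ?_⟩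
  have h2 : z.2 = ⟪gs1 z, z.2⟫ • gs1 z := sub_eq_zero.1 h1
  have h3 : z.2 = (⟪gs1 z, z.2⟫ * ‖z.1‖⁻¹) • z.1 := by
    conv_lhs => rw [h2]
    rw [mul_smul]
    rfl
  set c := ⟪gs1 z, z.2⟫ * ‖z.1‖⁻¹ with hc
  rw [h3]
  simp only [real_inner_smul_left, real_inner_smul_right]
  ring

lemma ae_gd : ∀ᵐ z ∂mu0, z ∈ Gd := by
  have h1 : ∀ᵐ z : Fr, ⟪z.1, z.1⟫ * ⟪z.2, z.2⟫ - ⟪z.1, z.2⟫ ^ 2 ≠ 0 :=
    measure_eq_zero_iff_ae_notMem.1 volume_dep
  have h2 : ∀ᵐ z ∂(volume.restrict B2), z ∈ Gd :=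
    ae_restrict_of_ae (h1.mono fun z hz => gd_of_not_dep hz)
  exact Measure.ae_smul_measure h2 _

lemma ae_fr : ∀ᵐ z ∂mu0, fr z ∈ St := ae_gd.mono fun _ hz => fr_mem hz

instance : IsProbabilityMeasure mu := Measure.isProbabilityMeasure_map measurable_fr.aemeasurable

lemma ae_mem : ∀ᵐ M ∂mu, M ∈ St :=
  (ae_map_iff measurable_fr.aemeasurable measurableSet_St).2 ae_fr

/-! ### Left invariance -/

/-- measure preserving maps of the pairs -/
lemma mp_of_equiv {T T' : Fr → Fr} (hT : MeasurePreserving T volume volume)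
    (hB : T ⁻¹' B2 = B2) (hT' : Measurable T') (h : ∀ z, fr (T z) = T' (fr z)) :
    MeasurePreserving T' mu mu := by
  have h1 : MeasurePreserving T mu0 mu0 := by
    have h2 := hT.restrict_preimage (s := B2) isOpen_B2.measurableSet
    rw [hB] at h2
    refine ⟨hT.measurable, ?_⟩
    rw [mu0, Measure.map_smul, h2.map_eq]
  refine ⟨hT', ?_⟩
  have h3 : (mu0.map T).map fr = mu0.map fr := by rw [h1.map_eq]
  rw [Measure.map_map measurable_fr hT.measurable] at h3
  rw [mu, Measure.map_map hT' measurable_fr]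
  refine Eq.trans ?_ h3
  have h4 : T' ∘ fr = fr ∘ T := funext fun z => (h z).symm
  rw [h4]

/-- a linear isometry on the vectors of the frame -/
noncomputable def rot (R : E3 ≃ₗᵢ[ℝ] E3) (M : Fr) : Fr := (R M.1, R M.2)

lemma fr_rot (R : E3 ≃ₗᵢ[ℝ] E3) (z : Fr) : fr (R z.1, R z.2) = rot R (fr z) := by
  have h1 : gs1 (R z.1, R z.2) = R (gs1 z) := by
    rw [gs1, gs1, R.norm_map, map_smul]
  have h2 : gsy (R z.1, R z.2) = R (gsy z) := by
    rw [gsy, gsy, h1, R.inner_map_map, map_sub, map_smul]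
  have h3 : gs2 (R z.1, R z.2) = R (gs2 z) := by
    rw [gs2, gs2, h2, R.norm_map, map_smul]
  rw [fr, rot, h1, h3]
  rfl

lemma rot_mem (R : E3 ≃ₗᵢ[ℝ] E3) {M : Fr} (hM : M ∈ St) : rot R M ∈ St := by
  refine ⟨?_, ?_, ?_⟩
  · show ‖R M.1‖ = 1
    rw [R.norm_map]
    exact hM.1
  · show ‖R M.2‖ = 1
    rw [R.norm_map]
    exact hM.2.1
  · show ⟪R M.1, R M.2⟫ = 0
    rw [R.inner_map_map]
    exact hM.2.2

/-- **Left invariance.** -/
theorem mp_rot (R : E3 ≃ₗᵢ[ℝ] E3) : MeasurePreserving (rot R) mu mu := by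
  refine mp_of_equiv (T := fun z : Fr => (R z.1, R z.2))
    (R.measurePreserving.prod R.measurePreserving) ?_
    ((R.continuous.measurable.comp measurable_fst).prodMk
      (R.continuous.measurable.comp measurable_snd)) (fr_rot R)
  ext z
  show R z.1 ∈ ball (0 : E3) 1 ∧ R z.2 ∈ ball (0 : E3) 1 ↔ _
  rw [mem_ball_zero_iff, mem_ball_zero_iff, R.norm_map, R.norm_map, ← mem_ball_zero_iff,
    ← mem_ball_zero_iff (a := z.2)]
  rfl

theorem mp_s1 : MeasurePreserving (fun M : Fr => (-M.1, M.2)) mu mu := by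
  refine mp_of_equiv (T := fun z : Fr => (-z.1, z.2))
    ((LinearIsometryEquiv.neg ℝ (E := E3)).measurePreserving.prod (MeasurePreserving.id _)) ?_
    (measurable_fst.neg.prodMk measurable_snd) fun z => ?_
  · ext z
    show -z.1 ∈ ball (0 : E3) 1 ∧ z.2 ∈ ball (0 : E3) 1 ↔ _
    rw [mem_ball_zero_iff, norm_neg, ← mem_ball_zero_iff]
    rfl
  · have h1 : gs1 (-z.1, z.2) = -gs1 z := by
      rw [gs1, gs1, norm_neg, smul_neg]
    have h2 : gsy (-z.1, z.2) = gsy z := by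
      rw [gsy, gsy, h1, inner_neg_left, neg_smul_neg]
    have h3 : gs2 (-z.1, z.2) = gs2 z := by
      rw [gs2, gs2, h2]
    rw [fr, fr, h1, h3]

theorem mp_s2 : MeasurePreserving (fun M : Fr => (M.1, -M.2)) mu mu := by
  refine mp_of_equiv (T := fun z : Fr => (z.1, -z.2))
    ((MeasurePreserving.id _).prod (LinearIsometryEquiv.neg ℝ (E := E3)).measurePreserving) ?_
    (measurable_fst.prodMk measurable_snd.neg) fun z => ?_
  · ext z
    show z.1 ∈ ball (0 : E3) 1 ∧ -z.2 ∈ ball (0 : E3) 1 ↔ _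
    rw [mem_ball_zero_iff (a := -z.2), norm_neg, ← mem_ball_zero_iff]
    rfl
  · have h1 : gs1 (z.1, -z.2) = gs1 z := rfl
    have h2 : gsy (z.1, -z.2) = -gsy z := by
      rw [gsy, gsy, h1, inner_neg_right, neg_smul, neg_sub, neg_sub_neg]
    have h3 : gs2 (z.1, -z.2) = -gs2 z := by
      rw [gs2, gs2, h2, norm_neg, smul_neg]
    rw [fr, fr, h1, h3]

/-! ### The null set -/

lemma null_fst : mu {M | M.1 2 = 0} = 0 := by
  have hm : MeasurableSet {M : Fr | M.1 2 = 0} :=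
    (isClosed_eq (by fun_prop) continuous_const).measurableSet
  rw [mu, Measure.map_apply measurable_fr hm]
  have h1 : volume {z : Fr | z.1 2 = 0} = 0 := by
    have h2 : {z : Fr | z.1 2 = 0} = {x : E3 | x 2 = 0} ×ˢ (Set.univ : Set E3) := by
      ext z
      simp
    have h3 : volume {x : E3 | x 2 = 0} = 0 := by
      have h4 : ((EuclideanSpace.proj (2 : Fin 3) : E3 →L[ℝ] ℝ).ker : Submodule ℝ E3) ≠ ⊤ := by
        intro h
        have h5 : (pt 0 0 1 : E3) ∈ (EuclideanSpace.proj (2 : Fin 3) : E3 →L[ℝ] ℝ).ker := by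
          rw [h]
          trivial
        have h6 : (pt 0 0 1 : E3) 2 = 0 := h5
        rw [pt_two] at h6
        exact one_ne_zero h6
      exact Measure.addHaar_submodule volume _ h4
    rw [h2, Measure.volume_eq_prod, Measure.prod_prod, h3, zero_mul]
  have h2 : mu0 {z : Fr | z.1 2 = 0} = 0 := by
    rw [mu0, Measure.smul_apply, smul_eq_mul]
    have h3 : (volume.restrict B2) {z : Fr | z.1 2 = 0} = 0 :=
      le_antisymm ((Measure.restrict_apply_le _ _).trans h1.le) bot_le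
    rw [h3, mul_zero]
  have h3 : mu0 {z : Fr | z.1 = 0} = 0 := measure_mono_null (fun z hz => by
    have hz' : z.1 = 0 := hz
    show z.1 2 = 0
    rw [hz']
    rfl) h2
  refine measure_mono_null (fun z hz => ?_) (measure_union_null h2 h3)
  have hz' : ‖z.1‖⁻¹ * z.1 2 = 0 := hz
  rcases mul_eq_zero.1 hz' with h | h
  · right
    exact norm_eq_zero.1 (inv_eq_zero.1 h)
  · left
    exact h

/-! ### Positivity -/

lemma continuousAt_fr {z : Fr} (hz : z ∈ Gd) : ContinuousAt fr z := by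
  have h1 : ContinuousAt gs1 z := by
    unfold gs1
    exact (continuous_fst.norm.continuousAt.inv₀ (norm_ne_zero_iff.2 hz.1)).smul
      continuous_fst.continuousAt
  have h2 : ContinuousAt gsy z := by
    unfold gsy
    have h3 : ContinuousAt (fun z : Fr => ⟪gs1 z, z.2⟫) z :=
      h1.inner (𝕜 := ℝ) continuous_snd.continuousAt
    exact continuous_snd.continuousAt.sub (h3.smul h1)
  have h3 : ContinuousAt gs2 z := by
    unfold gs2
    exact (h2.norm.inv₀ (norm_ne_zero_iff.2 hz.2)).smul h2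
  exact h1.prodMk h3

lemma gd_nhds {z : Fr} (hz : z ∈ Gd) : ∀ᶠ y in nhds z, y ∈ Gd := by
  have h1 : ContinuousAt gs1 z := by
    unfold gs1
    exact (continuous_fst.norm.continuousAt.inv₀ (norm_ne_zero_iff.2 hz.1)).smul
      continuous_fst.continuousAt
  have h2 : ContinuousAt gsy z := by
    unfold gsy
    have h3 : ContinuousAt (fun z : Fr => ⟪gs1 z, z.2⟫) z :=
      h1.inner (𝕜 := ℝ) continuous_snd.continuousAt
    exact continuous_snd.continuousAt.sub (h3.smul h1)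
  exact (continuous_fst.continuousAt.eventually_ne hz.1).and (h2.eventually_ne hz.2)

lemma gs_half {M : Fr} (hM : M ∈ St) : gs1 ((1 / 2 : ℝ) • M) = M.1 ∧
    gsy ((1 / 2 : ℝ) • M) = (1 / 2 : ℝ) • M.2 := by
  have h1 : gs1 ((1 / 2 : ℝ) • M) = M.1 := by
    show ‖(1 / 2 : ℝ) • M.1‖⁻¹ • ((1 / 2 : ℝ) • M.1) = M.1
    rw [norm_smul, hM.1, smul_smul, Real.norm_eq_abs, abs_of_pos (by norm_num)]
    norm_num
  refine ⟨h1, ?_⟩
  show (1 / 2 : ℝ) • M.2 - ⟪gs1 ((1 / 2 : ℝ) • M), (1 / 2 : ℝ) • M.2⟫ • gs1 ((1 / 2 : ℝ) • M) = _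
  rw [h1, real_inner_smul_right, hM.2.2, mul_zero, zero_smul, sub_zero]

lemma fr_half {M : Fr} (hM : M ∈ St) : fr ((1 / 2 : ℝ) • M) = M := by
  obtain ⟨h1, h2⟩ := gs_half hM
  have h3 : gs2 ((1 / 2 : ℝ) • M) = M.2 := by
    rw [gs2, h2, norm_smul, hM.2.1, smul_smul, Real.norm_eq_abs, abs_of_pos (by norm_num)]
    norm_num
  rw [fr, h1, h3]

lemma half_mem {M : Fr} (hM : M ∈ St) : (1 / 2 : ℝ) • M ∈ Gd ∩ B2 := by
  obtain ⟨h1, h2⟩ := gs_half hM
  have hM1 : M.1 ≠ 0 := fun h => by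
    have := hM.1
    rw [h, norm_zero] at this
    exact zero_ne_one this
  have hM2 : M.2 ≠ 0 := fun h => by
    have := hM.2.1
    rw [h, norm_zero] at this
    exact zero_ne_one this
  refine ⟨⟨?_, ?_⟩, ?_, ?_⟩
  · show (1 / 2 : ℝ) • M.1 ≠ 0
    exact smul_ne_zero (by norm_num) hM1
  · rw [h2]
    exact smul_ne_zero (by norm_num) hM2
  · show (1 / 2 : ℝ) • M.1 ∈ ball (0 : E3) 1
    rw [mem_ball_zero_iff, norm_smul, hM.1, Real.norm_eq_abs, abs_of_pos (by norm_num)]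
    norm_num
  · show (1 / 2 : ℝ) • M.2 ∈ ball (0 : E3) 1
    rw [mem_ball_zero_iff, norm_smul, hM.2.1, Real.norm_eq_abs, abs_of_pos (by norm_num)]
    norm_num

/-! ### Integrals of continuous functions -/

section General

variable {μ : Measure Fr}

lemma aesm_of (hst : ∀ᵐ M ∂μ, M ∈ St) {F : Fr → ℝ} (hF : ContinuousOn F St) :
    AEStronglyMeasurable F μ := by
  have h1 : μ.restrict St = μ := Measure.restrict_eq_self_of_ae_mem hst
  rw [← h1]
  exact hF.aestronglyMeasurable measurableSet_St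

lemma integrable_of [IsFiniteMeasure μ] (hst : ∀ᵐ M ∂μ, M ∈ St) {F : Fr → ℝ}
    (hF : ContinuousOn F St) : Integrable F μ := by
  obtain ⟨C, hC⟩ := isCompact_St.exists_bound_of_continuousOn hF
  exact Integrable.of_bound (aesm_of hst hF) C (hst.mono fun z hz => hC _ hz)

end General

theorem pos {F : Fr → ℝ} (hF : ContinuousOn F St) (h0 : ∀ M ∈ St, 0 ≤ F M)
    (hi : ∫ M, F M ∂mu = 0) {M : Fr} (hM : M ∈ St) : F M = 0 := by
  by_contra hne
  have hpos : 0 < F M := lt_of_le_of_ne (h0 M hM) (Ne.symm hne)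
  have h1 : F =ᵐ[mu] 0 :=
    (integral_eq_zero_iff_of_nonneg_ae (ae_mem.mono fun M hM => h0 M hM)
      (integrable_of ae_mem hF)).1 hi
  have h2 : ∀ᵐ z ∂mu0, F (fr z) = 0 := ae_of_ae_map measurable_fr.aemeasurable h1
  have h3 : ∀ᵐ z ∂(volume.restrict B2), F (fr z) = 0 := by
    have h4 : mu0 {z | ¬ F (fr z) = 0} = 0 := h2
    rw [mu0, Measure.smul_apply, smul_eq_mul] at h4
    rcases mul_eq_zero.1 h4 with h | h
    · exact absurd h (ENNReal.inv_ne_zero.2 volume_B2_ne_top)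
    · exact h
  obtain ⟨hz, hzB⟩ := half_mem hM
  have h4 : Filter.Tendsto fr (nhds ((1 / 2 : ℝ) • M)) (nhdsWithin M St) := by
    refine tendsto_nhdsWithin_iff.2 ⟨?_, (gd_nhds hz).mono fun y hy => fr_mem hy⟩
    have h5 := (continuousAt_fr hz).tendsto
    rwa [fr_half hM] at h5
  have h5 : ∀ᶠ z in nhds ((1 / 2 : ℝ) • M), 0 < F (fr z) :=
    h4.eventually ((hF M hM).eventually (lt_mem_nhds hpos))
  obtain ⟨U, hU, hUo, hzU⟩ := _root_.eventually_nhds_iff.1 (h5.and (isOpen_B2.mem_nhds hzB))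
  have h6 : volume U = 0 := by
    have h7 : (volume.restrict B2) U = 0 := by
      refine measure_mono_null (fun y hy => ?_) h3
      exact (hU y hy).1.ne'
    have h8 : U ∩ B2 = U := Set.inter_eq_left.2 fun y hy => (hU y hy).2
    rwa [Measure.restrict_apply hUo.measurableSet, h8] at h7
  exact (hUo.measure_pos volume ⟨_, hzU⟩).ne' h6

end Pool.Agent.P85.R3
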