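import Pool.Agent.P85.Defs

/-!
# Rotating the body, so that a given unit vector becomes the third axis
-/

set_option autoImplicit false
open scoped ContDiff
open Real Set

namespace Pool.Agent.P85

variable {K : Set E3} {f : E3 → ℝ} {w c : ℝ}

theorem norm_nu : ‖nu‖ = 1 := by
  have h : ‖nu‖ ^ 2 = 1 := by
    rw [norm_sq_eq]
    simp [nu]
  exact (pow_eq_one_iff_of_nonneg (norm_nonneg _) two_ne_zero).mp h

/-- A linear isometry taking the third axis to a given unit vector. -/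
theorem exists_isometry {v : E3} (hv : ‖v‖ = 1) : ∃ g : E3 ≃ₗᵢ[ℝ] E3, g nu = v := by
  have h : ‖nu‖ = ‖v‖ := by rw [norm_nu, hv]
  exact ⟨(ℝ ∙ (nu - v))ᗮ.reflection, Submodule.reflection_sub h⟩

theorem gradient_comp (hf : Differentiable ℝ f) (g : E3 ≃ₗᵢ[ℝ] E3) (x : E3) :
    g (gradient (fun y => f (g y)) x) = gradient f (g x) := by
  have h1 : HasFDerivAt (fun y => g y) (g : E3 →L[ℝ] E3) x := (g : E3 →L[ℝ] E3).hasFDerivAt
  have h2 : HasFDerivAt (fun y => f (g y)) ((fderiv ℝ f (g x)).comp (g : E3 →L[ℝ] E3)) x :=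
    (hf (g x)).hasFDerivAt.comp x h1
  apply ext_inner_right ℝ
  intro y
  rw [inner_gradient_left, ← g.symm.inner_map_map, g.symm_apply_apply, inner_gradient_left,
    h2.fderiv]
  simp

theorem sSup_rot (g : E3 ≃ₗᵢ[ℝ] E3) (u : E3) :
    sSup ((fun x => (inner ℝ x u : ℝ)) '' {x | g x ∈ K}) =
      sSup ((fun x => (inner ℝ x (g u) : ℝ)) '' K) := by
  congr 1
  ext r
  constructor
  · rintro ⟨x, hx, rfl⟩
    exact ⟨g x, hx, g.inner_map_map x u⟩
  · rintro ⟨y, hy, rfl⟩
    refine ⟨g.symm y, by simpa using hy, ?_⟩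
    change (inner ℝ (g.symm y) u : ℝ) = inner ℝ y (g u)
    rw [← g.inner_map_map (g.symm y) u, g.apply_symm_apply]

theorem hyp_rot (h : Hyp K f w) (g : E3 ≃ₗᵢ[ℝ] E3) :
    Hyp {x | g x ∈ K} (fun x => f (g x)) w := by
  have hT : Continuous (fun x : E3 => g x) := g.continuous
  refine ⟨?_, ?_, ?_, ?_, ?_, ?_, h.wpos, ?_⟩
  · exact h.smooth.comp g.contDiff
  · rw [h.eq]
    rfl
  · intro x hx h0
    apply h.reg _ hx
    rw [← gradient_comp (h.smooth.differentiable (by simp)) g x, h0, map_zero]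
  · intro x hx y hy a b ha hb hab
    have h2 := h.conv hx hy ha hb hab
    change g (a • x + b • y) ∈ K
    rw [map_add, map_smul, map_smul]
    exact h2
  · have h1 : {x | g x ∈ K} = (fun y => g.symm y) '' K := by
      ext x
      constructor
      · intro hx
        exact ⟨g x, hx, by simp⟩
      · rintro ⟨y, hy, rfl⟩
        simpa using hy
    rw [h1]
    exact h.cpt.image g.symm.continuous
  · obtain ⟨y, hy⟩ := h.int
    refine ⟨g.symm y, ?_⟩
    have h1 : IsOpen ((fun x : E3 => g x) ⁻¹' interior K) := isOpen_interior.preimage hT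
    have hsub : (fun x : E3 => g x) ⁻¹' interior K ⊆ {x | g x ∈ K} :=
      fun x (hx : g x ∈ interior K) => (interior_subset hx : g x ∈ K)
    refine interior_maximal hsub h1 ?_
    rw [mem_preimage, g.apply_symm_apply]
    exact hy
  · intro u hu
    have h1 := h.width (g u) (by rw [g.norm_map, hu])
    rw [sSup_rot g u, sSup_rot g (-u), map_neg]
    exact h1

theorem allClosed_rot (h : Hyp K f w) (hcl : AllClosed f) (g : E3 ≃ₗᵢ[ℝ] E3) :
    AllClosed (fun x => f (g x)) := by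
  intro γ hγ h0 h1 h2
  have hd1 : deriv (fun t => g (γ t)) = fun t => g (deriv γ t) := by
    funext t
    have hγd : HasDerivAt γ (deriv γ t) t := (hγ.differentiable (by simp) t).hasDerivAt
    exact ((g : E3 →L[ℝ] E3).hasFDerivAt.comp_hasDerivAt t hγd).deriv
  have hγ1 : ContDiff ℝ ∞ (deriv γ) := by
    have := hγ.iterate_deriv 1
    simpa using this
  have hd2 : deriv (fun t => g (deriv γ t)) = fun t => g (deriv (deriv γ) t) := by
    funext t
    have hγd : HasDerivAt (deriv γ) (deriv (deriv γ) t) t :=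
      (hγ1.differentiable (by simp) t).hasDerivAt
    exact ((g : E3 →L[ℝ] E3).hasFDerivAt.comp_hasDerivAt t hγd).deriv
  obtain ⟨T, hT, hper⟩ := hcl (fun t => g (γ t)) (g.contDiff.comp hγ) h0
    (by intro t; rw [hd1]; simp only [g.norm_map]; exact h1 t)
    (by
      intro t
      obtain ⟨l, hl⟩ := h2 t
      refine ⟨l, ?_⟩
      rw [iteratedDeriv_succ, iteratedDeriv_one] at hl ⊢
      rw [hd1, hd2]
      simp only
      rw [hl, map_smul, gradient_comp (h.smooth.differentiable (by simp))])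
  exact ⟨T, hT, fun t => g.injective (hper t)⟩

theorem orthPlane_rot (h : Hyp K f w) {v : E3} (ho : OrthPlane f v c) (g : E3 ≃ₗᵢ[ℝ] E3)
    (hg : g nu = v) : OrthPlane (fun x => f (g x)) nu c := by
  obtain ⟨⟨x₀, h1, h2⟩, h3⟩ := ho
  refine ⟨⟨g.symm x₀, by simpa using h1, ?_⟩, ?_⟩
  · rw [← g.inner_map_map, g.apply_symm_apply, hg]
    exact h2
  · intro x hx hxc
    rw [← g.inner_map_map, gradient_comp (h.smooth.differentiable (by simp)), hg]
    apply h3 _ hx
    rw [← hg, g.inner_map_map]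
    exact hxc

/-- R8d: the direction of the plane may be taken to be the third axis. -/
theorem wlog_nu
    (P : ∀ (K : Set E3) (f : E3 → ℝ) (w c : ℝ), Hyp K f w → AllClosed f → OrthPlane f nu c →
      ∃ (p : E3) (r : ℝ), K = Metric.closedBall p r)
    (h : Hyp K f w) (hcl : AllClosed f) {v : E3} (hv : ‖v‖ = 1) (ho : OrthPlane f v c) :
    ∃ (p : E3) (r : ℝ), K = Metric.closedBall p r := by
  obtain ⟨g, hg⟩ := exists_isometry hv
  obtain ⟨p, r, hpr⟩ := P _ _ w c (hyp_rot h g) (allClosed_rot h hcl g) (orthPlane_rot h ho g hg)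
  refine ⟨g p, r, ?_⟩
  ext y
  have h1 : g.symm y ∈ {x | g x ∈ K} ↔ g.symm y ∈ Metric.closedBall p r := by
    rw [hpr]
  simp only [mem_ofPred_eq, g.apply_symm_apply] at h1
  rw [h1, mem_closedBall_iff_norm, mem_closedBall_iff_norm, ← g.norm_map, map_sub,
    g.apply_symm_apply]

/-- The same from the hypotheses in the form of the problem. -/
theorem wlog_nu'
    (P : ∀ (K : Set E3) (f : E3 → ℝ) (w c : ℝ), Hyp K f w → AllClosed f → OrthPlane f nu c →
      ∃ (p : E3) (r : ℝ), K = Metric.closedBall p r)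
    (hsm : ContDiff ℝ ∞ f) (heq : K = {x | f x ≤ 0})
    (hreg : ∀ x, f x = 0 → gradient f x ≠ 0) (hconv : Convex ℝ K) (hcpt : IsCompact K)
    (hint : (interior K).Nonempty)
    (hwidth : ∃ w : ℝ, 0 < w ∧ ∀ u : E3, ‖u‖ = 1 →
      sSup ((fun x => inner ℝ x u) '' K) + sSup ((fun x => inner ℝ x (-u)) '' K) = w)
    (hcl : AllClosed f) (ho : ∃ (v : E3) (c : ℝ), ‖v‖ = 1 ∧ OrthPlane f v c) :
    ∃ (p : E3) (r : ℝ), K = Metric.closedBall p r := by
  obtain ⟨w, hw, hwid⟩ := hwidth
  obtain ⟨v, c, hv, h⟩ := ho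
  exact wlog_nu P (w := w) ⟨hsm, heq, hreg, hconv, hcpt, hint, hw, hwid⟩ hcl hv h

end Pool.Agent.P85
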