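import Pool.Agent.P85.Nor

/-!
The inverse normal map `Xf` and the support function `Hf` of a convex body of constant width.
-/

set_option autoImplicit false
open scoped ContDiff Topology
open Real Set

namespace Pool.Agent.P85.Sp

variable {K : Set E3} {f : E3 → ℝ} {w : ℝ}

theorem nor_strong (hB : Hyp K f w) {p u q : E3} (h : Nor K p u) (hq : q ∈ K) :
    ‖q - p‖ ^ 2 ≤ 2 * w * inner ℝ (p - q) u := by
  have h1 := diam_le hB hq (nor_opp hB h).1
  have h2 : ‖q - (p - w • u)‖ ^ 2 ≤ w ^ 2 := by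
    have := norm_nonneg (q - (p - w • u)); nlinarith [hB.wpos]
  have e : q - (p - w • u) = (q - p) + w • u := by abel
  rw [e, norm_add_sq_real, real_inner_smul_right, norm_smul, h.2.1, mul_one,
    Real.norm_of_nonneg hB.wpos.le] at h2
  have e2 : (inner ℝ (p - q) u : ℝ) = - inner ℝ (q - p) u := by rw [← inner_neg_left, neg_sub]
  rw [e2]; linarith

theorem grad_smooth (hB : Hyp K f w) : ContDiff ℝ ∞ (gradient f) := by
  have h : ContDiff ℝ ∞ (fderiv ℝ f) := hB.smooth.fderiv_right (m := ∞) (by simp)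
  exact ((InnerProductSpace.toDual ℝ E3).symm.contDiff).comp h

theorem hasDeriv_comp (hB : Hyp K f w) {γ : ℝ → E3} {γ' : E3} {t : ℝ} (h : HasDerivAt γ γ' t) :
    HasDerivAt (fun s => f (γ s)) (inner ℝ (gradient f (γ t)) γ') t := by
  have h1 : DifferentiableAt ℝ f (γ t) := (hB.smooth.differentiable (by simp)) _
  have h2 := h1.hasGradientAt.hasFDerivAt
  have h5 : HasDerivAt (fun s => f (γ s))
      ((InnerProductSpace.toDual ℝ E3 (gradient f (γ t))) γ') t := h2.comp_hasDerivAt t h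
  rwa [InnerProductSpace.toDual_apply_apply] at h5

theorem second_order (hB : Hyp K f w) {p u : E3} (h : Nor K p u) {v : E3}
    (hv : inner ℝ u v = (0 : ℝ)) :
    ‖gradient f p‖ * ‖v‖ ^ 2 / w ≤ inner ℝ (fderiv ℝ (gradient f) p v) v := by
  by_cases hv0 : v = 0
  · simp [hv0]
  obtain ⟨hp0, hg⟩ := nor_grad hB h
  have hgn : 0 < ‖gradient f p‖ := norm_pos_iff.2 (hB.reg p hp0)
  have hwp := hB.wpos
  have huu : (inner ℝ u u : ℝ) = 1 := by rw [real_inner_self_eq_norm_sq, h.2.1]; norm_num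
  have hgu : (inner ℝ (gradient f p) u : ℝ) = ‖gradient f p‖ := by
    conv_lhs => rw [hg]
    rw [real_inner_smul_left, huu, mul_one]
  have hgv : (inner ℝ (gradient f p) v : ℝ) = 0 := by
    rw [hg, real_inner_smul_left, hv, mul_zero]
  by_contra hcon
  push Not at hcon
  set g : ℝ := ‖gradient f p‖ with hgdef
  set c : ℝ := inner ℝ (fderiv ℝ (gradient f) p v) v with hc
  have hlt : c / (2 * g) < ‖v‖ ^ 2 / (2 * w) := by
    rw [div_lt_div_iff₀ (by positivity) (by positivity)]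
    rw [lt_div_iff₀ hwp] at hcon
    nlinarith
  obtain ⟨α, hα1, hα2⟩ := exists_between hlt
  rw [div_lt_iff₀ (by positivity)] at hα1
  rw [lt_div_iff₀ (by positivity)] at hα2
  set γ : ℝ → E3 := fun t => p + t • v - (α * t ^ 2) • u with hγ
  have hγ' : ∀ t : ℝ, HasDerivAt γ (v - (2 * α * t) • u) t := by
    intro t
    have a1 : HasDerivAt (fun t : ℝ => p + t • v) v t := by
      have := ((hasDerivAt_id t).smul_const v).const_add p
      simpa using this
    have a2 : HasDerivAt (fun t : ℝ => (α * t ^ 2) • u) ((2 * α * t) • u) t := by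
      have : HasDerivAt (fun t : ℝ => α * t ^ 2) (2 * α * t) t := by
        refine ((hasDerivAt_pow 2 t).const_mul α).congr_deriv ?_
        norm_num
        ring
      exact this.smul_const u
    exact a1.sub a2
  have hγ0 : γ 0 = p := by simp [hγ]
  have hφ : ∀ t : ℝ, HasDerivAt (fun s => f (γ s))
      (inner ℝ (gradient f (γ t)) (v - (2 * α * t) • u)) t := fun t => hasDeriv_comp hB (hγ' t)
  set ψ : ℝ → ℝ := fun t => inner ℝ (gradient f (γ t)) (v - (2 * α * t) • u) with hψ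
  have hψ0 : ψ 0 = 0 := by
    show inner ℝ (gradient f (γ 0)) (v - (2 * α * 0) • u) = (0 : ℝ)
    rw [hγ0, mul_zero, zero_smul, sub_zero, hgv]
  have hψ' : HasDerivAt ψ (c - 2 * α * g) 0 := by
    have b1 : HasDerivAt (fun t => gradient f (γ t)) (fderiv ℝ (gradient f) p v) 0 := by
      have d : HasFDerivAt (gradient f) (fderiv ℝ (gradient f) (γ 0)) (γ 0) :=
        ((grad_smooth hB).differentiable (by simp) _).hasFDerivAt
      have := d.comp_hasDerivAt (0 : ℝ) (hγ' 0)
      rw [hγ0, mul_zero, zero_smul, sub_zero] at this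
      exact this
    have b2 : HasDerivAt (fun t : ℝ => v - (2 * α * t) • u) (-((2 * α) • u)) 0 := by
      have : HasDerivAt (fun t : ℝ => 2 * α * t) (2 * α) 0 := by
        simpa using (hasDerivAt_id (0 : ℝ)).const_mul (2 * α)
      exact (this.smul_const u).const_sub v
    refine (b1.inner ℝ b2).congr_deriv ?_
    rw [hγ0, mul_zero, zero_smul, sub_zero, inner_neg_right, real_inner_smul_right, hgu]
    ring
  have hneg : c - 2 * α * g < 0 := by linarith
  have h1 : ∀ᶠ t in nhdsWithin (0 : ℝ) (Ioi 0), slope ψ 0 t < 0 :=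
    (hasDerivAt_iff_tendsto_slope.1 hψ').mono_left
      (nhdsWithin_mono _ (by intro x hx; exact ne_of_gt hx)) |>.eventually
      (gt_mem_nhds hneg)
  have h2 : ∀ᶠ t in nhdsWithin (0 : ℝ) (Ioi 0), ψ t < 0 := by
    filter_upwards [h1, self_mem_nhdsWithin] with t ht ht0
    have ht0' : (0 : ℝ) < t := ht0
    rw [slope_def_field, hψ0, sub_zero, sub_zero] at ht
    rcases div_neg_iff.1 ht with ⟨_, h2⟩ | ⟨h2, _⟩
    · linarith
    · exact h2
  obtain ⟨δ, hδ0, hδ⟩ := mem_nhdsGT_iff_exists_Ioo_subset.1 h2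
  have hδ0' : (0 : ℝ) < δ := hδ0
  have hanti : StrictAntiOn (fun s => f (γ s)) (Icc 0 (δ / 2)) := by
    refine strictAntiOn_of_deriv_neg (convex_Icc _ _)
      (fun t _ => (hφ t).continuousAt.continuousWithinAt) ?_
    intro t ht
    rw [interior_Icc] at ht
    rw [(hφ t).deriv]
    exact hδ ⟨ht.1, by linarith [ht.2]⟩
  have h3 := hanti (left_mem_Icc.2 (by positivity)) (right_mem_Icc.2 (by positivity))
    (show (0 : ℝ) < δ / 2 by positivity)
  simp only [hγ0, hp0] at h3
  have hmem : γ (δ / 2) ∈ K := by rw [hB.eq]; exact h3.le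
  have h4 := nor_strong hB h hmem
  have e1 : γ (δ / 2) - p = (δ / 2) • v - (α * (δ / 2) ^ 2) • u := by
    simp only [hγ]; abel
  have e2 : p - γ (δ / 2) = -((δ / 2) • v - (α * (δ / 2) ^ 2) • u) := by
    rw [← e1, neg_sub]
  have hvu : (inner ℝ v u : ℝ) = 0 := by rw [real_inner_comm]; exact hv
  rw [e1, e2, inner_neg_left, inner_sub_left, real_inner_smul_left, real_inner_smul_left, hvu,
    huu, norm_sub_sq_real, norm_smul, real_inner_smul_left, real_inner_smul_right, hvu] at h4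
  have e3 : (‖δ / 2‖ * ‖v‖) ^ 2 = (δ / 2) ^ 2 * ‖v‖ ^ 2 := by
    rw [mul_pow, Real.norm_eq_abs, sq_abs]
  rw [e3] at h4
  have h5 := sq_nonneg ‖(α * (δ / 2) ^ 2) • u‖
  have h6 : 0 < (δ / 2) ^ 2 := by positivity
  have h7 : (δ / 2) ^ 2 * ‖v‖ ^ 2 ≤ (δ / 2) ^ 2 * (α * (2 * w)) := by nlinarith
  have h8 := le_of_mul_le_mul_left h7 h6
  linarith

/-- the normalised gradient -/
noncomputable def Nn (f : E3 → ℝ) (x : E3) : E3 := ‖gradient f x‖⁻¹ • gradient f x

/-- an extension of the normal map which is a local diffeomorphism along the surface -/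
noncomputable def Psi (f : E3 → ℝ) (x : E3) : E3 := (1 + f x) • Nn f x

theorem invnorm_smooth (hB : Hyp K f w) {x : E3} (hx : gradient f x ≠ 0) :
    ContDiffAt ℝ ∞ (fun y => ‖gradient f y‖⁻¹) x :=
  ((grad_smooth hB).contDiffAt.norm ℝ hx).inv (norm_ne_zero_iff.2 hx)

theorem Nn_smooth (hB : Hyp K f w) {x : E3} (hx : gradient f x ≠ 0) : ContDiffAt ℝ ∞ (Nn f) x :=
  (invnorm_smooth hB hx).smul (grad_smooth hB).contDiffAt

theorem Psi_smooth (hB : Hyp K f w) {x : E3} (hx : gradient f x ≠ 0) : ContDiffAt ℝ ∞ (Psi f) x :=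
  (contDiffAt_const.add hB.smooth.contDiffAt).smul (Nn_smooth hB hx)

theorem Nn_norm {x : E3} (hx : gradient f x ≠ 0) : ‖Nn f x‖ = 1 := by
  rw [Nn, norm_smul, norm_inv, norm_norm, inv_mul_cancel₀ (norm_ne_zero_iff.2 hx)]

theorem Nn_deriv (hB : Hyp K f w) {x : E3} (hx : gradient f x ≠ 0) :
    ∃ L : E3 → ℝ, ∀ v, fderiv ℝ (Nn f) x v =
      ‖gradient f x‖⁻¹ • fderiv ℝ (gradient f) x v + L v • gradient f x := by
  refine ⟨fun v => fderiv ℝ (fun y => ‖gradient f y‖⁻¹) x v, fun v => ?_⟩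
  have h1 : HasFDerivAt (fun y => ‖gradient f y‖⁻¹)
      (fderiv ℝ (fun y => ‖gradient f y‖⁻¹) x) x :=
    ((invnorm_smooth hB hx).differentiableAt (by simp)).hasFDerivAt
  have h2 : HasFDerivAt (gradient f) (fderiv ℝ (gradient f) x) x :=
    ((grad_smooth hB).differentiable (by simp) x).hasFDerivAt
  have h3 : HasFDerivAt (Nn f) _ x := h1.smul h2
  rw [h3.fderiv]
  rfl

theorem Nn_perp (hB : Hyp K f w) {x : E3} (hx : gradient f x ≠ 0) (v : E3) :
    inner ℝ (fderiv ℝ (Nn f) x v) (Nn f x) = (0 : ℝ) := by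
  have h1 : HasFDerivAt (Nn f) (fderiv ℝ (Nn f) x) x :=
    ((Nn_smooth hB hx).differentiableAt (by simp)).hasFDerivAt
  have h2 := h1.inner ℝ h1
  have h3 : (fun y => (inner ℝ (Nn f y) (Nn f y) : ℝ)) =ᶠ[𝓝 x] fun _ => (1 : ℝ) := by
    have : ∀ᶠ y in 𝓝 x, gradient f y ≠ 0 :=
      ((grad_smooth hB).continuous.continuousAt).eventually_ne hx
    filter_upwards [this] with y hy
    rw [real_inner_self_eq_norm_sq, Nn_norm hy]; norm_num
  have h4 := h3.fderiv_eq (𝕜 := ℝ)
  rw [h2.fderiv] at h4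
  have h5 := DFunLike.congr_fun h4 v
  rw [fderiv_fun_const] at h5
  simp only [ContinuousLinearMap.comp_apply, ContinuousLinearMap.prod_apply,
    fderivInnerCLM_apply, Pi.zero_apply, ContinuousLinearMap.zero_apply] at h5
  rw [real_inner_comm] at h5
  rw [real_inner_comm] at h5
  have h6 : (inner ℝ (fderiv ℝ (Nn f) x v) (Nn f x) : ℝ) = inner ℝ (Nn f x) (fderiv ℝ (Nn f) x v) :=
    real_inner_comm _ _
  linarith

theorem Psi_inj (hB : Hyp K f w) {p u : E3} (h : Nor K p u) :
    Function.Injective (fderiv ℝ (Psi f) p) := by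
  obtain ⟨hp0, hg⟩ := nor_grad hB h
  have hx := hB.reg p hp0
  have hgn : 0 < ‖gradient f p‖ := norm_pos_iff.2 hx
  have hNu : Nn f p = u := by
    rw [Nn]; conv_lhs => rw [hg]
    rw [smul_smul, norm_smul, norm_norm, h.2.1, mul_one, inv_mul_cancel₀ hgn.ne', one_smul]
  rw [injective_iff_map_eq_zero]
  intro v hv
  have h1 : HasFDerivAt (Nn f) (fderiv ℝ (Nn f) p) p :=
    ((Nn_smooth hB hx).differentiableAt (by simp)).hasFDerivAt
  have h2 : HasFDerivAt f (fderiv ℝ f p) p :=
    (hB.smooth.differentiable (by simp) p).hasFDerivAt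
  have h3 : HasFDerivAt (Psi f) _ p := (h2.const_add 1).smul h1
  rw [h3.fderiv] at hv
  simp only [ContinuousLinearMap.add_apply, ContinuousLinearMap.smul_apply,
    ContinuousLinearMap.smulRight_apply, hp0, add_zero, one_smul] at hv
  have h4 := congrArg (fun z => (inner ℝ z (Nn f p) : ℝ)) hv
  simp only [inner_add_left, real_inner_smul_left, inner_zero_left] at h4
  rw [Nn_perp hB hx v, real_inner_self_eq_norm_sq, Nn_norm hx] at h4
  have h5 : fderiv ℝ f p v = 0 := by linarith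
  have h6 : (inner ℝ (gradient f p) v : ℝ) = 0 := by
    rw [gradient, InnerProductSpace.toDual_symm_apply]; exact h5
  have h7 : (inner ℝ u v : ℝ) = 0 := by
    rw [hg, real_inner_smul_left] at h6
    exact (mul_eq_zero.1 h6).resolve_left hgn.ne'
  rw [h5, zero_smul, add_zero] at hv
  obtain ⟨L, hL⟩ := Nn_deriv hB hx
  rw [hL v] at hv
  have h8 := congrArg (fun z => (inner ℝ z v : ℝ)) hv
  simp only [inner_add_left, real_inner_smul_left, inner_zero_left] at h8
  rw [h6, mul_zero, add_zero] at h8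
  have h9 : (inner ℝ (fderiv ℝ (gradient f) p v) v : ℝ) = 0 :=
    (mul_eq_zero.1 h8).resolve_left (inv_ne_zero hgn.ne')
  have h10 := second_order hB h h7
  rw [h9] at h10
  by_contra hv0
  have : 0 < ‖v‖ := norm_pos_iff.2 hv0
  have : 0 < ‖gradient f p‖ * ‖v‖ ^ 2 / w := by
    have := hB.wpos
    positivity
  linarith

/-- the inverse of the normal map is smooth: there is a smooth local extension -/
theorem local_inv (hB : Hyp K f w) {p u : E3} (h : Nor K p u) :
    ∃ Th : E3 → E3, ContDiffAt ℝ ∞ Th u ∧ ∀ᶠ y in 𝓝 u, ‖y‖ = 1 → Nor K (Th y) y := by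
  obtain ⟨hp0, hg⟩ := nor_grad hB h
  have hx := hB.reg p hp0
  have hgn : 0 < ‖gradient f p‖ := norm_pos_iff.2 hx
  have hNu : Nn f p = u := by
    rw [Nn]; conv_lhs => rw [hg]
    rw [smul_smul, norm_smul, norm_norm, h.2.1, mul_one, inv_mul_cancel₀ hgn.ne', one_smul]
  have hPu : Psi f p = u := by rw [Psi, hp0, add_zero, one_smul, hNu]
  set e : E3 ≃L[ℝ] E3 :=
    (LinearEquiv.ofInjectiveEndo ((fderiv ℝ (Psi f) p) : E3 →ₗ[ℝ] E3)
      (Psi_inj hB h)).toContinuousLinearEquiv with he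
  have hcoe : (e : E3 →L[ℝ] E3) = fderiv ℝ (Psi f) p := by
    ext v : 1
    rfl
  have hd : HasFDerivAt (Psi f) (e : E3 →L[ℝ] E3) p := by
    rw [hcoe]
    exact ((Psi_smooth hB hx).differentiableAt (by simp)).hasFDerivAt
  have hs := Psi_smooth hB hx
  have hn : (∞ : WithTop ℕ∞) ≠ 0 := by simp
  have hst := hs.hasStrictFDerivAt' hd hn
  have h1 := hs.to_localInverse hd hn
  have h2 : hs.localInverse hd hn (Psi f p) = p := hs.localInverse_apply_image hd hn
  have h3 : ∀ᶠ y in 𝓝 (Psi f p), Psi f (hs.localInverse hd hn y) = y :=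
    hst.eventually_right_inverse
  rw [hPu] at h1 h2 h3
  refine ⟨hs.localInverse hd hn, h1, ?_⟩
  have h4 : ContinuousAt (hs.localInverse hd hn) u := h1.continuousAt
  have h5 : ∀ᶠ y in 𝓝 u, gradient f (hs.localInverse hd hn y) ≠ 0 := by
    have : ContinuousAt ((gradient f) ∘ (hs.localInverse hd hn)) u :=
      ContinuousAt.comp (g := gradient f) (grad_smooth hB).continuous.continuousAt h4
    exact this.eventually_ne (by
      show gradient f (hs.localInverse hd hn u) ≠ 0
      rw [h2]; exact hx)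
  have h6 : ∀ᶠ y in 𝓝 u, -1 < f (hs.localInverse hd hn y) := by
    have : ContinuousAt (f ∘ (hs.localInverse hd hn)) u :=
      ContinuousAt.comp (g := f) hB.smooth.continuous.continuousAt h4
    exact this.eventually (lt_mem_nhds (by
      show -1 < f (hs.localInverse hd hn u)
      rw [h2, hp0]; norm_num))
  filter_upwards [h3, h5, h6] with y h3 h5 h6 hy
  have h7 : ‖Psi f (hs.localInverse hd hn y)‖ = 1 := by rw [h3, hy]
  rw [Psi, norm_smul, Nn_norm h5, mul_one, Real.norm_of_nonneg (by linarith)] at h7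
  have h8 : f (hs.localInverse hd hn y) = 0 := by linarith
  have h9 := grad_nor hB h8
  have h10 : Nn f (hs.localInverse hd hn y) = y := by
    rw [Psi, h8, add_zero, one_smul] at h3
    exact h3
  rw [Nn] at h10
  rwa [h10] at h9

end Pool.Agent.P85.Sp
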