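import Pool.Agent.P85.Defs
import Pool.Agent.P85.Wind

/-!
# The winding number of the frames
-/

set_option autoImplicit false
open scoped ContDiff
open Real Set MeasureTheory

namespace Pool.Agent.P85.Wd

section Cross

lemma cr_apply_zero (a b : E3) : cr a b 0 = a 1 * b 2 - a 2 * b 1 := rfl
lemma cr_apply_one (a b : E3) : cr a b 1 = a 2 * b 0 - a 0 * b 2 := rfl
lemma cr_apply_two (a b : E3) : cr a b 2 = a 0 * b 1 - a 1 * b 0 := rfl

lemma wcr_cr (a b : E3) : cr (cr a b) a = inner ℝ a a • b - inner ℝ a b • a := by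
  ext i
  fin_cases i
  · simp only [Fin.zero_eta, PiLp.sub_apply, PiLp.smul_apply, smul_eq_mul, cr_apply_zero,
      cr_apply_one, cr_apply_two, inner_eq]
    ring
  · simp only [Fin.mk_one, PiLp.sub_apply, PiLp.smul_apply, smul_eq_mul, cr_apply_zero,
      cr_apply_one, cr_apply_two, inner_eq]
    ring
  · simp only [Fin.reduceFinMk, PiLp.sub_apply, PiLp.smul_apply, smul_eq_mul, cr_apply_zero,
      cr_apply_one, cr_apply_two, inner_eq]
    ring

lemma wcr_cr' (a b : E3) : cr a (cr b a) = inner ℝ a a • b - inner ℝ a b • a := by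
  ext i
  fin_cases i
  · simp only [Fin.zero_eta, PiLp.sub_apply, PiLp.smul_apply, smul_eq_mul, cr_apply_zero,
      cr_apply_one, cr_apply_two, inner_eq]
    ring
  · simp only [Fin.mk_one, PiLp.sub_apply, PiLp.smul_apply, smul_eq_mul, cr_apply_zero,
      cr_apply_one, cr_apply_two, inner_eq]
    ring
  · simp only [Fin.reduceFinMk, PiLp.sub_apply, PiLp.smul_apply, smul_eq_mul, cr_apply_zero,
      cr_apply_one, cr_apply_two, inner_eq]
    ring

lemma winner_cr_left (a b : E3) : inner ℝ a (cr a b) = 0 := by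
  rw [inner_eq, cr_apply_zero, cr_apply_one, cr_apply_two]
  ring

lemma winner_cr_right (a b : E3) : inner ℝ b (cr a b) = 0 := by
  rw [inner_eq, cr_apply_zero, cr_apply_one, cr_apply_two]
  ring

lemma wnorm_cr_sq (a b : E3) : ‖cr a b‖ ^ 2 = ‖a‖ ^ 2 * ‖b‖ ^ 2 - inner ℝ a b ^ 2 := by
  rw [norm_sq_eq, norm_sq_eq, norm_sq_eq, inner_eq, cr_apply_zero, cr_apply_one, cr_apply_two]
  ring

lemma wnorm_cr {a b : E3} (ha : ‖a‖ = 1) (hb : ‖b‖ = 1) (hab : inner ℝ a b = 0) : ‖cr a b‖ = 1 := by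
  have h := wnorm_cr_sq a b
  rw [ha, hb, hab] at h
  have h1 : ‖cr a b‖ ^ 2 = 1 := by rw [h]; norm_num
  exact (pow_eq_one_iff_of_nonneg (norm_nonneg _) two_ne_zero).1 h1

end Cross

section Path

/-- the path of frames -/
noncomputable def pb (M : Fr) (s : ℝ) : E3 :=
  ‖(1 - s) • bb M + s • nu‖⁻¹ • ((1 - s) • bb M + s • nu)

noncomputable def pu (M : Fr) (s : ℝ) : E3 :=
  M.1 - (inner ℝ M.1 (pb M s) / (1 + inner ℝ (bb M) (pb M s))) • (bb M + pb M s)

noncomputable def pth (M : Fr) (s : ℝ) : Fr := (pu M s, cr (pb M s) (pu M s))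

variable {M : Fr}

lemma norm_nu : ‖nu‖ = 1 := by
  have h : ‖nu‖ ^ 2 = 1 := by rw [norm_sq_eq]; simp [nu]
  exact (pow_eq_one_iff_of_nonneg (norm_nonneg _) two_ne_zero).1 h

lemma inner_nu (x : E3) : inner ℝ x nu = x 2 := by rw [inner_eq]; simp [nu]

lemma norm_bb (hM : M ∈ St) : ‖bb M‖ = 1 := wnorm_cr hM.1 hM.2.1 hM.2.2

lemma path_aux (hM : M ∈ St) (hb : -1 < bb M 2) (s : ℝ) :
    0 < ‖(1 - s) • bb M + s • nu‖ ∧ -1 < pb M s 2 ∧ 0 < 1 + inner ℝ (bb M) (pb M s) := by
  have hbb := norm_bb hM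
  set c : E3 := (1 - s) • bb M + s • nu with hc
  have e1 : inner ℝ c nu = (1 - s) * bb M 2 + s := by
    rw [hc, inner_add_left, real_inner_smul_left, real_inner_smul_left, inner_nu,
      real_inner_self_eq_norm_sq, norm_nu]
    ring
  have e2 : inner ℝ (bb M) c = (1 - s) + s * bb M 2 := by
    rw [hc, inner_add_right, real_inner_smul_right, real_inner_smul_right, inner_nu,
      real_inner_self_eq_norm_sq, hbb]
    ring
  have i1 : (1 - s) * bb M 2 + s ≤ ‖c‖ := by
    have := real_inner_le_norm c nu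
    rwa [e1, norm_nu, mul_one] at this
  have i2 : (1 - s) + s * bb M 2 ≤ ‖c‖ := by
    have := real_inner_le_norm (bb M) c
    rwa [e2, hbb, one_mul] at this
  have hpos : 0 < ‖c‖ := by nlinarith
  have hp : pb M s = ‖c‖⁻¹ • c := rfl
  refine ⟨hpos, ?_, ?_⟩
  · have e3 : pb M s 2 = ‖c‖⁻¹ * ((1 - s) * bb M 2 + s) := by
      rw [← inner_nu, hp, real_inner_smul_left, e1]
    rw [e3, inv_mul_eq_div, lt_div_iff₀ hpos]
    nlinarith
  · rw [hp, real_inner_smul_right, e2]
    have : -1 < ‖c‖⁻¹ * (1 - s + s * bb M 2) := by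
      rw [inv_mul_eq_div, lt_div_iff₀ hpos]
      nlinarith
    linarith

lemma norm_pb (hM : M ∈ St) (hb : -1 < bb M 2) (s : ℝ) :
    ‖pb M s‖ = 1 := by
  have h := (path_aux hM hb s).1
  rw [pb, norm_smul, norm_inv, norm_norm, inv_mul_cancel₀ h.ne']

lemma pth_mem (hM : M ∈ St) (hb : -1 < bb M 2) (s : ℝ) :
    pth M s ∈ St ∧ bb (pth M s) = pb M s := by
  have hbb := norm_bb hM
  have hpb := norm_pb hM hb s
  have hpos := (path_aux hM hb s).2.2
  have hub : inner ℝ M.1 (bb M) = 0 := winner_cr_left _ _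
  have horth : inner ℝ (pu M s) (pb M s) = 0 := by
    rw [pu, inner_sub_left, real_inner_smul_left, inner_add_left, real_inner_self_eq_norm_sq, hpb]
    field_simp
    ring
  have hnorm : ‖pu M s‖ = 1 := by
    have h : ‖pu M s‖ ^ 2 = 1 := by
      rw [pu, norm_sub_sq_real, real_inner_smul_right, inner_add_right, hub, norm_smul, mul_pow,
        norm_add_sq_real, hbb, hpb, hM.1, Real.norm_eq_abs, sq_abs]
      field_simp
      ring
    exact (pow_eq_one_iff_of_nonneg (norm_nonneg _) two_ne_zero).1 h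
  refine ⟨⟨hnorm, ?_, ?_⟩, ?_⟩
  · exact wnorm_cr hpb hnorm (by rw [real_inner_comm]; exact horth)
  · exact winner_cr_right _ _
  · show cr (pu M s) (cr (pb M s) (pu M s)) = pb M s
    rw [wcr_cr', real_inner_self_eq_norm_sq, hnorm, horth]
    simp

lemma pb_zero (hM : M ∈ St) : pb M 0 = bb M := by
  simp [pb, norm_bb hM]

lemma pth_zero (hM : M ∈ St) : pth M 0 = M := by
  have hub : inner ℝ M.1 (bb M) = 0 := winner_cr_left _ _
  have h1 : pu M 0 = M.1 := by
    rw [pu, pb_zero hM, hub, zero_div, zero_smul, sub_zero]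
  have h2 : cr (pb M 0) (pu M 0) = M.2 := by
    rw [h1, pb_zero hM, bb, wcr_cr, real_inner_self_eq_norm_sq, hM.1, hM.2.2]
    simp
  exact Prod.ext h1 h2

lemma pb_one : pb M 1 2 = 1 := by
  have h : pb M 1 = nu := by simp [pb, norm_nu]
  rw [h]
  rfl

lemma continuous_cr : Continuous fun p : E3 × E3 => cr p.1 p.2 := by
  unfold cr pt
  fun_prop

lemma continuous_bb : Continuous bb := continuous_cr

lemma continuous_pb (hM : M ∈ St) (hb : -1 < bb M 2) : Continuous (pb M) := by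
  have hc : Continuous fun s : ℝ => (1 - s) • bb M + s • nu := by fun_prop
  exact (hc.norm.inv₀ fun s => (path_aux hM hb s).1.ne').smul hc

lemma continuous_pth (hM : M ∈ St) (hb : -1 < bb M 2) : Continuous (pth M) := by
  have h1 := continuous_pb hM hb
  have h2 : Continuous (pu M) := by
    have h3 : Continuous (fun s => inner ℝ M.1 (pb M s) / (1 + inner ℝ (bb M) (pb M s))) :=
      Continuous.div (Continuous.inner continuous_const h1)
        (continuous_const.add (Continuous.inner continuous_const h1))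
        fun s => (path_aux hM hb s).2.2.ne'
    have h4 : Continuous (fun s => bb M + pb M s) := continuous_const.add h1
    exact continuous_const.sub (h3.smul h4)
  exact h2.prodMk (continuous_cr.comp (h1.prodMk h2))

end Path

section Analysis

variable {H : E3 → ℝ} {w c : ℝ} {φ : ℝ → Fr → Fr} {M : Fr}

lemma row3 (hM : M ∈ St) : M.1 2 ^ 2 + M.2 2 ^ 2 + bb M 2 ^ 2 = 1 := by
  have h1 : M.1 0 ^ 2 + M.1 1 ^ 2 + M.1 2 ^ 2 = 1 := by rw [← norm_sq_eq, hM.1]; norm_num
  have h2 : M.2 0 ^ 2 + M.2 1 ^ 2 + M.2 2 ^ 2 = 1 := by rw [← norm_sq_eq, hM.2.1]; norm_num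
  have h3 : M.1 0 * M.2 0 + M.1 1 * M.2 1 + M.1 2 * M.2 2 = 0 := by rw [← inner_eq, hM.2.2]
  exact row_three h1 h2 h3 rfl

lemma neg_one_lt (hM : M ∈ St) (hb : bb M 2 ≠ -1) : -1 < bb M 2 := by
  have h := row3 hM
  rcases lt_or_gt_of_ne hb with h1 | h1
  · nlinarith [sq_nonneg (M.1 2), sq_nonneg (M.2 2)]
  · exact h1

lemma continuous_St_fst : ContinuousOn (fun M : Fr => M.1) St := continuous_fst.continuousOn

lemma St_fst_ne (hM : M ∈ St) : M.1 ≠ 0 := by
  intro h
  have := hM.1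
  rw [h, norm_zero] at this
  norm_num at this

lemma continuousOn_D2 (hS : Supp H w) : ContinuousOn (fun x => fderiv ℝ (fderiv ℝ H) x) {0}ᶜ := by
  have h1 : ContDiffOn ℝ ∞ (fderiv ℝ H) {0}ᶜ :=
    hS.smooth.fderiv_of_isOpen isOpen_compl_singleton (by simp)
  have h2 : ContDiffOn ℝ ∞ (fderiv ℝ (fderiv ℝ H)) {0}ᶜ :=
    h1.fderiv_of_isOpen isOpen_compl_singleton (by simp)
  exact h2.continuousOn

lemma wcont_D2 (hS : Supp H w) {a b : Fr → E3} (ha : Continuous a) (hb : Continuous b) :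
    ContinuousOn (fun M : Fr => D2 H M.1 (a M) (b M)) St := by
  have h1 : ContinuousOn (fun M : Fr => fderiv ℝ (fderiv ℝ H) M.1) St :=
    (continuousOn_D2 hS).comp continuous_fst.continuousOn fun M hM => St_fst_ne hM
  exact (h1.clm_apply ha.continuousOn).clm_apply hb.continuousOn

lemma wcont_Ree (hS : Supp H w) : ContinuousOn (Ree H) St :=
  wcont_D2 hS continuous_snd continuous_snd

lemma wcont_Reb (hS : Supp H w) : ContinuousOn (Reb H) St :=
  wcont_D2 hS continuous_snd continuous_bb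

lemma wcont_Rbb (hS : Supp H w) : ContinuousOn (Rbb H) St :=
  wcont_D2 hS continuous_bb continuous_bb

lemma wcont_Dn (hS : Supp H w) : ContinuousOn (Dn H) St :=
  ((wcont_Ree hS).mul (wcont_Rbb hS)).sub ((wcont_Reb hS).pow 2)

lemma wD2_symm (hS : Supp H w) {u : E3} (hu : u ≠ 0) (v v' : E3) : D2 H u v v' = D2 H u v' v := by
  have h1 : ContDiffAt ℝ ∞ H u := hS.smooth.contDiffAt (isOpen_compl_singleton.mem_nhds hu)
  have h2 : (2 : WithTop ℕ∞) ≤ ∞ := by
    rw [show (2 : WithTop ℕ∞) = ((2 : ℕ∞) : WithTop ℕ∞) from rfl]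
    exact WithTop.coe_le_coe.2 le_top
  exact (h1.isSymmSndFDerivAt (by simpa using h2)).eq v v'

lemma wDn_pos (hS : Supp H w) (hM : M ∈ St) : 0 < Dn H M := by
  have hbb := norm_bb hM
  have hub : inner ℝ M.1 (bb M) = 0 := winner_cr_left _ _
  have heb : inner ℝ M.2 (bb M) = 0 := winner_cr_right _ _
  have h1 : 0 < Ree H M := hS.pos M.1 M.2 hM.1 hM.2.2 (by
    intro h
    have := hM.2.1
    rw [h, norm_zero] at this
    norm_num at this)
  have h2 : 0 < D2 H M.1 (-(Reb H M / Ree H M) • M.2 + bb M) (-(Reb H M / Ree H M) • M.2 + bb M) := by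
    refine hS.pos M.1 _ hM.1 ?_ ?_
    · rw [inner_add_right, real_inner_smul_right, hM.2.2, hub]
      ring
    · intro h
      have h3 : inner ℝ (-(Reb H M / Ree H M) • M.2 + bb M) (bb M) = 0 := by rw [h, inner_zero_left]
      rw [inner_add_left, real_inner_smul_left, heb, real_inner_self_eq_norm_sq, hbb] at h3
      norm_num at h3
  have h4 : D2 H M.1 (-(Reb H M / Ree H M) • M.2 + bb M) (-(Reb H M / Ree H M) • M.2 + bb M) =
      (Reb H M / Ree H M) ^ 2 * Ree H M - 2 * (Reb H M / Ree H M) * Reb H M + Rbb H M := by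
    have hs := wD2_symm hS (St_fst_ne hM) (bb M) M.2
    simp only [D2, map_add, map_smul, _root_.add_apply, _root_.smul_apply,
      smul_eq_mul, Ree, Reb, Rbb] at hs ⊢
    rw [hs]
    ring
  rw [h4] at h2
  have h5 : (Reb H M / Ree H M) ^ 2 * Ree H M - 2 * (Reb H M / Ree H M) * Reb H M + Rbb H M =
      Dn H M / Ree H M := by
    rw [Dn]
    field_simp
    ring
  rw [h5] at h2
  exact (div_pos_iff_of_pos_right h1).1 h2

lemma wcont_kap (hS : Supp H w) : ContinuousOn (kap H) St :=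
  (wcont_Rbb hS).div (wcont_Dn hS) fun _ hM => (wDn_pos hS hM).ne'

lemma wcont_tau (hS : Supp H w) : ContinuousOn (tau H) St :=
  (wcont_Reb hS).neg.div (wcont_Dn hS) fun _ hM => (wDn_pos hS hM).ne'

lemma isCompact_St : IsCompact St := by
  have hcl : IsClosed St := by
    have h1 : IsClosed {M : Fr | ‖M.1‖ = 1} := isClosed_eq continuous_fst.norm continuous_const
    have h2 : IsClosed {M : Fr | ‖M.2‖ = 1} := isClosed_eq continuous_snd.norm continuous_const
    have h3 : IsClosed {M : Fr | inner ℝ M.1 M.2 = 0} :=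
      isClosed_eq (Continuous.inner continuous_fst continuous_snd) continuous_const
    exact h1.inter (h2.inter h3)
  refine Metric.isCompact_of_isClosed_isBounded hcl ?_
  refine (Metric.isBounded_closedBall (x := (0 : Fr)) (r := 1)).subset fun M hM => ?_
  rw [mem_closedBall_zero_iff, Prod.norm_def, hM.1, hM.2.1]
  norm_num

theorem _root_.Pool.Agent.P85.om_cont (hS : Supp H w) : ContinuousOn (om H) (St ∩ {M | bb M 2 ≠ -1}) := by
  have h1 : ContinuousOn (kap H) (St ∩ {M | bb M 2 ≠ -1}) := (wcont_kap hS).mono inter_subset_left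
  have h2 : ContinuousOn (tau H) (St ∩ {M | bb M 2 ≠ -1}) := (wcont_tau hS).mono inter_subset_left
  have h3 : Continuous fun M : Fr => M.2 2 := by fun_prop
  have h4 : Continuous fun M : Fr => 1 + bb M 2 := by
    have h5 : Continuous fun M : Fr => bb M 2 := (EuclideanSpace.proj (2 : Fin 3)).continuous.comp continuous_bb
    exact continuous_const.add h5
  refine h1.sub ((h2.mul h3.continuousOn).div h4.continuousOn ?_)
  rintro M ⟨-, hM⟩ h
  exact hM (by linarith)

/-- a continuous function with values in `2πℤ` is constant -/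
lemma const_of_int {k : ℝ → ℝ} (hk : Continuous k) (h : ∀ s, ∃ n : ℤ, k s = 2 * π * n) (a b : ℝ) :
    k a = k b := by
  have key : ∀ x y : ℝ, ¬ k x < k y := by
    intro x y hxy
    obtain ⟨n, hn⟩ := h x
    obtain ⟨m, hm⟩ := h y
    have hpi := Real.pi_pos
    have h1 : n + 1 ≤ m := by
      have h2 : (n : ℝ) < m := by
        rw [hn, hm] at hxy
        exact lt_of_mul_lt_mul_left hxy (by positivity)
      exact_mod_cast h2
    have h3 : ((n : ℝ) + 1) ≤ m := by exact_mod_cast h1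
    obtain ⟨z, hz⟩ : k x + π ∈ Set.range k := by
      refine intermediate_value_univ x y hk ⟨by linarith, ?_⟩
      rw [hn, hm]
      nlinarith
    obtain ⟨l, hl⟩ := h z
    have h4 : 2 * π * (l : ℝ) = 2 * π * n + π := by rw [← hl, hz, hn]
    have h5 : (2 * (l : ℝ)) = 2 * n + 1 := by
      have : π * (2 * (l : ℝ)) = π * (2 * n + 1) := by linarith
      exact mul_left_cancel₀ hpi.ne' this
    have h6 : 2 * l = 2 * n + 1 := by exact_mod_cast h5
    omega
  rcases lt_trichotomy (k a) (k b) with h1 | h1 | h1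
  · exact absurd h1 (key a b)
  · exact h1
  · exact absurd h1 (key b a)

theorem om_bound_of (hS : Supp H w) {C : ℝ} (hC : 0 ≤ C)
    (ht : ∀ M ∈ St, |tau H M| ≤ C * √(1 + bb M 2)) : ∃ C : ℝ, ∀ M ∈ St, bb M 2 ≠ -1 →
    |om H M| ≤ C := by
  obtain ⟨C1, hC1⟩ := isCompact_St.exists_bound_of_continuousOn (wcont_kap hS)
  refine ⟨C1 + C * √2, fun M hM hb => ?_⟩
  have hb' := neg_one_lt hM hb
  have hrow := row3 hM
  have hpos : 0 < 1 + bb M 2 := by linarith
  have h1 : |M.2 2| ≤ √2 * √(1 + bb M 2) := by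
    rw [← Real.sqrt_mul (by norm_num), ← Real.sqrt_sq_eq_abs]
    apply Real.sqrt_le_sqrt
    nlinarith [sq_nonneg (M.1 2)]
  have h2 : |tau H M * M.2 2 / (1 + bb M 2)| ≤ C * √2 := by
    rw [abs_div, abs_mul, abs_of_pos hpos, div_le_iff₀ hpos]
    calc |tau H M| * |M.2 2| ≤ (C * √(1 + bb M 2)) * (√2 * √(1 + bb M 2)) :=
          mul_le_mul (ht M hM) h1 (abs_nonneg _) (by positivity)
      _ = C * √2 * (√(1 + bb M 2) * √(1 + bb M 2)) := by ring
      _ = C * √2 * (1 + bb M 2) := by rw [Real.mul_self_sqrt hpos.le]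
  have h3 := hC1 M hM
  rw [Real.norm_eq_abs] at h3
  rw [om]
  exact (abs_sub _ _).trans (add_le_add h3 h2)

/-- the integral of the angular velocity over a period is an integral multiple of `2π` -/
theorem om_integral_int (hS : Supp H w) (hΦ : Flow H φ) {L : ℝ} (hM : M ∈ St)
    (hb : ∀ t, bb (φ t M) 2 ≠ -1) (hper : φ L M = M) :
    ∃ n : ℤ, ∫ t in (0 : ℝ)..L, om H (φ t M) = 2 * π * n := by
  have hst : ∀ t, φ t M ∈ St := fun t => hΦ.st t M hM
  have hode := fun t => hΦ.ode t M hM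
  have hc : Continuous fun t => φ t M := continuous_iff_continuousAt.2 fun t => (hode t).continuousAt
  -- coordinates
  have hu : ∀ (i : Fin 3) t, HasDerivAt (fun t => (φ t M).1 i)
      (kap H (φ t M) * (φ t M).2 i + tau H (φ t M) * bb (φ t M) i) t := by
    intro i t
    have h1 := ((EuclideanSpace.proj (𝕜 := ℝ) i).comp
      (ContinuousLinearMap.fst ℝ E3 E3)).hasFDerivAt.comp_hasDerivAt t (hode t)
    exact h1
  have he : ∀ (i : Fin 3) t, HasDerivAt (fun t => (φ t M).2 i)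
      (-(kap H (φ t M) * (φ t M).1 i)) t := by
    intro i t
    have h1 := ((EuclideanSpace.proj (𝕜 := ℝ) i).comp
      (ContinuousLinearMap.snd ℝ E3 E3)).hasFDerivAt.comp_hasDerivAt t (hode t)
    exact h1
  have hrows : ∀ t, (φ t M).1 0 ^ 2 + (φ t M).1 1 ^ 2 + (φ t M).1 2 ^ 2 = 1 ∧
      (φ t M).2 0 ^ 2 + (φ t M).2 1 ^ 2 + (φ t M).2 2 ^ 2 = 1 ∧
      (φ t M).1 0 * (φ t M).2 0 + (φ t M).1 1 * (φ t M).2 1 + (φ t M).1 2 * (φ t M).2 2 = 0 := by
    intro t
    obtain ⟨h1, h2, h3⟩ := hst t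
    refine ⟨?_, ?_, ?_⟩
    · rw [← norm_sq_eq, h1]; norm_num
    · rw [← norm_sq_eq, h2]; norm_num
    · rw [← inner_eq, h3]
  set V : ℝ → ℂ := fun t => VV ((φ t M).1 0) ((φ t M).1 1) ((φ t M).2 0) ((φ t M).2 1) with hV
  set W : ℝ → ℂ := fun t => Complex.I * (kap H (φ t M) : ℝ) +
    ((tau H (φ t M) / (1 + bb (φ t M) 2) : ℝ) : ℂ) * ((-(φ t M).1 2 : ℝ) +
      (-(φ t M).2 2 : ℝ) * Complex.I) with hW
  have hpos : ∀ t, (1 + bb (φ t M) 2) ≠ 0 := fun t h => hb t (by linarith)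
  have hVd : ∀ t, HasDerivAt V (W t * V t) t := by
    intro t
    have hx := ((hu 0 t).add (he 1 t)).ofReal_comp
    have hy := ((hu 1 t).sub (he 0 t)).ofReal_comp
    have h1 : HasDerivAt (fun t => (((φ t M).1 0 + (φ t M).2 1 : ℝ) : ℂ) +
        (((φ t M).1 1 - (φ t M).2 0 : ℝ) : ℂ) * Complex.I) _ t := hx.add (hy.mul_const Complex.I)
    have h2 : V = fun t => (((φ t M).1 0 + (φ t M).2 1 : ℝ) : ℂ) +
        (((φ t M).1 1 - (φ t M).2 0 : ℝ) : ℂ) * Complex.I := by
      funext t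
      exact Complex.mk_eq_add_mul_I _ _
    rw [h2]
    refine h1.congr_deriv ?_
    obtain ⟨r1, r2, r3⟩ := hrows t
    have h3 := VV_b r1 r2 r3 (b1 := bb (φ t M) 0) (b2 := bb (φ t M) 1) (b3 := bb (φ t M) 2)
      rfl rfl rfl
    rw [VV, Complex.mk_eq_add_mul_I, Complex.mk_eq_add_mul_I, Complex.mk_eq_add_mul_I] at h3
    have h4 : ((1 + bb (φ t M) 2 : ℝ) : ℂ) ≠ 0 := Complex.ofReal_ne_zero.2 (hpos t)
    have h5 : ((tau H (φ t M) / (1 + bb (φ t M) 2) : ℝ) : ℂ) =
        (tau H (φ t M) : ℂ) / ((1 + bb (φ t M) 2 : ℝ) : ℂ) := Complex.ofReal_div _ _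
    simp only [hW]
    rw [h5, add_mul, div_mul_eq_mul_div, div_mul_eq_mul_div, mul_assoc (tau H (φ t M) : ℂ), ← h3,
      mul_comm ((1 + bb (φ t M) 2 : ℝ) : ℂ), ← mul_assoc, mul_div_assoc, div_self h4, mul_one]
    push_cast
    linear_combination (-(kap H (φ t M) : ℂ) * ((φ t M).1 1 - (φ t M).2 0)) * Complex.I_sq
  have hVne : V 0 ≠ 0 := by
    obtain ⟨r1, r2, r3⟩ := hrows 0
    exact VV_ne_zero (b3 := bb (φ 0 M) 2) r1 r2 r3 rfl (hb 0)
  have hVL : V L = V 0 := by
    simp only [hV, hper, hΦ.zero M]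
  have hmem : ∀ t, φ t M ∈ St ∩ {M | bb M 2 ≠ -1} := fun t => ⟨hst t, hb t⟩
  have hkc : Continuous fun t => kap H (φ t M) := (wcont_kap hS).comp_continuous hc hst
  have htc : Continuous fun t => tau H (φ t M) := (wcont_tau hS).comp_continuous hc hst
  have hbc : Continuous fun t => bb (φ t M) 2 :=
    ((EuclideanSpace.proj (𝕜 := ℝ) (2 : Fin 3)).continuous.comp continuous_bb).comp hc
  have hu2 : Continuous fun t => (φ t M).1 2 :=
    continuous_iff_continuousAt.2 fun t => (hu 2 t).continuousAt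
  have he2 : Continuous fun t => (φ t M).2 2 :=
    continuous_iff_continuousAt.2 fun t => (he 2 t).continuousAt
  have hWc : Continuous W := by
    have h6 : Continuous fun t => tau H (φ t M) / (1 + bb (φ t M) 2) :=
      htc.div (continuous_const.add hbc) hpos
    exact (continuous_const.mul (Complex.continuous_ofReal.comp hkc)).add
      ((Complex.continuous_ofReal.comp h6).mul ((Complex.continuous_ofReal.comp hu2.neg).add
        ((Complex.continuous_ofReal.comp he2.neg).mul continuous_const)))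
  obtain ⟨n, hn⟩ := integral_log_deriv hVd hWc hVne hVL
  refine ⟨n, ?_⟩
  have h7 : ∀ t, (W t).im = om H (φ t M) := by
    intro t
    simp only [hW, om, Complex.add_im, Complex.mul_im, Complex.add_re, Complex.mul_re,
      Complex.I_re, Complex.I_im, Complex.ofReal_re, Complex.ofReal_im]
    ring
  have h8 : (∫ t in (0 : ℝ)..L, W t).im = ∫ t in (0 : ℝ)..L, (W t).im :=
    (Complex.imCLM.intervalIntegral_comp_comm (hWc.intervalIntegrable _ _)).symm
  have h9 : (∫ t in (0 : ℝ)..L, W t).im = 2 * π * n := by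
    rw [hn]
    simp
    ring
  rw [← h9, h8]
  exact intervalIntegral.integral_congr fun t _ => (h7 t).symm

/-- on the closed plane geodesic the angular velocity is the curvature -/
lemma om_eq_kap (hM : M ∈ St) (hb : bb M 2 = 1) : om H M = kap H M := by
  have h := row3 hM
  have h1 : M.2 2 = 0 := by
    have : M.2 2 ^ 2 = 0 := by nlinarith [sq_nonneg (M.1 2), sq_nonneg (M.2 2)]
    exact pow_eq_zero_iff two_ne_zero |>.1 this
  rw [om, h1, mul_zero, zero_div, sub_zero]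

theorem winding_of (hS : Supp H w) (hΦ : Flow H φ) {L : ℝ}
    (hper : ∀ M ∈ St, φ L M = M)
    (hnn : ∀ M ∈ St, bb M 2 ≠ -1 → ∀ t, bb (φ t M) 2 ≠ -1)
    (htot : ∀ M ∈ St, bb M 2 = 1 → ∫ t in (0 : ℝ)..L, om H (φ t M) = 2 * L / w)
    (hM : M ∈ St) (hb : bb M 2 ≠ -1) :
    ∫ t in (0 : ℝ)..L, om H (φ t M) = 2 * L / w := by
  have hb' := neg_one_lt hM hb
  have hγ := continuous_pth hM hb'
  have hγm : ∀ s, pth M s ∈ St ∧ bb (pth M s) 2 ≠ -1 := by
    intro s
    obtain ⟨h1, h2⟩ := pth_mem hM hb' s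
    refine ⟨h1, ?_⟩
    rw [h2]
    exact (path_aux hM hb' s).2.1.ne'
  have hF : Continuous fun p : ℝ × ℝ => om H (φ p.2 (pth M p.1)) := by
    have h3 : Continuous fun p : ℝ × ℝ => φ p.2 (pth M p.1) :=
      hΦ.smooth.continuous.comp (continuous_snd.prodMk (hγ.comp continuous_fst))
    exact (om_cont hS).comp_continuous h3 fun p =>
      ⟨hΦ.st _ _ (hγm p.1).1, hnn _ (hγm p.1).1 (hγm p.1).2 _⟩
  have hk : Continuous fun s => ∫ t in (0 : ℝ)..L, om H (φ t (pth M s)) :=
    intervalIntegral.continuous_parametric_intervalIntegral_of_continuous' hF 0 L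
  have hint : ∀ s, ∃ n : ℤ, ∫ t in (0 : ℝ)..L, om H (φ t (pth M s)) = 2 * π * n := fun s =>
    om_integral_int hS hΦ (hγm s).1 (hnn _ (hγm s).1 (hγm s).2) (hper _ (hγm s).1)
  have hconst : ∫ t in (0 : ℝ)..L, om H (φ t (pth M 0)) = ∫ t in (0 : ℝ)..L, om H (φ t (pth M 1)) :=
    const_of_int hk hint 0 1
  have h1 : bb (pth M 1) 2 = 1 := by
    rw [(pth_mem hM hb' 1).2]
    exact pb_one
  rw [pth_zero hM] at hconst
  rw [hconst]
  exact htot _ (hγm 1).1 h1

theorem winding_of' (hS : Supp H w) (hΦ : Flow H φ) {L : ℝ}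
    (hper : ∀ M ∈ St, φ L M = M)
    (hnn : ∀ M ∈ St, bb M 2 ≠ -1 → ∀ t, bb (φ t M) 2 ≠ -1)
    (hnp : ∀ M ∈ St, bb M 2 ≠ 1 → ∀ t, bb (φ t M) 2 ≠ 1)
    (htot : ∀ M ∈ St, bb M 2 = 1 → ∫ t in (0 : ℝ)..L, kap H (φ t M) = 2 * L / w)
    (hM : M ∈ St) (hb : bb M 2 ≠ -1) :
    ∫ t in (0 : ℝ)..L, om H (φ t M) = 2 * L / w := by
  refine winding_of hS hΦ hper hnn (fun M hM h1 => ?_) hM hb
  rw [← htot M hM h1]
  refine intervalIntegral.integral_congr fun t _ => ?_
  refine om_eq_kap (hΦ.st t M hM) ?_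
  by_contra h2
  have h3 := hnp _ (hΦ.st t M hM) h2 (-t)
  rw [← hΦ.add, neg_add_cancel, hΦ.zero] at h3
  exact h3 h1

end Analysis

end Pool.Agent.P85.Wd
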