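import Pool.Agent.Helper16.Buoy.A1

/-!
# Row R4, part 1: Wirtinger's inequality for antiperiodic functions
-/

set_option autoImplicit false

open MeasureTheory Set Real

namespace P85

/-- An antiperiodic continuous function has a zero in `[0, π]`. -/
theorem exists_zero_of_anti {f : ℝ → ℝ} (hf : Continuous f) (ha : ∀ s, f (s + π) = -f s) :
    ∃ s, f s = 0 := by
  have h1 : f π = - f 0 := by simpa using ha 0
  rcases le_total (f 0) 0 with h | h
  · obtain ⟨s, -, hs⟩ := intermediate_value_Icc pi_pos.le hf.continuousOn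
      (show (0 : ℝ) ∈ Icc (f 0) (f π) from ⟨h, by rw [h1]; linarith⟩)
    exact ⟨s, hs⟩
  · obtain ⟨s, -, hs⟩ := intermediate_value_Icc' pi_pos.le hf.continuousOn
      (show (0 : ℝ) ∈ Icc (f π) (f 0) from ⟨by rw [h1]; linarith, h⟩)
    exact ⟨s, hs⟩

theorem anti_shift {f f' : ℝ → ℝ} (hf : ∀ s, HasDerivAt f (f' s) s)
    (ha : ∀ s, f (s + π) = -f s) : ∀ s, f' (s + π) = -f' s := by
  intro s
  have h1 : HasDerivAt (fun x => f (x + π)) (f' (s + π)) s := (hf (s + π)).comp_add_const s π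
  have h2 : HasDerivAt (fun x => - f x) (- f' s) s := (hf s).neg
  have h3 : (fun x => f (x + π)) = fun x => - f x := funext ha
  rw [h3] at h1
  exact h1.unique h2

/-- Wirtinger's inequality for antiperiodic functions. -/
theorem wirt_anti {f f' : ℝ → ℝ} (hf : ∀ s, HasDerivAt f (f' s) s) (hf' : Continuous f')
    (ha : ∀ s, f (s + π) = -f s) : 0 ≤ ∫ s in (0 : ℝ)..π, (f' s ^ 2 - f s ^ 2) := by
  have hfc : Continuous f := continuous_iff_continuousAt.2 fun x => (hf x).continuousAt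
  have ha' := anti_shift hf ha
  obtain ⟨s₀, hs₀⟩ := exists_zero_of_anti hfc ha
  have hper : Function.Periodic (fun s => f' s ^ 2 - f s ^ 2) π := by
    intro s
    simp only [ha s, ha' s]
    ring
  have h1 : ∫ s in (0 : ℝ)..π, (f' s ^ 2 - f s ^ 2) =
      ∫ s in s₀..(s₀ + π), (f' s ^ 2 - f s ^ 2) := by
    have := hper.intervalIntegral_add_eq 0 s₀
    simpa using this
  have h2 : ∫ s in s₀..(s₀ + π), (f' s ^ 2 - f s ^ 2) =
      ∫ s in (0 : ℝ)..π, (f' (s₀ + s) ^ 2 - f (s₀ + s) ^ 2) := by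
    rw [intervalIntegral.integral_comp_add_left (fun s => f' s ^ 2 - f s ^ 2) s₀, add_zero]
  rw [h1, h2]
  have h3 := Pool.Agent.Helper16.Buoy.wirtinger_le (g := fun s => f (s₀ + s))
    (g' := fun s => f' (s₀ + s)) (fun θ => (hf (s₀ + θ)).comp_const_add s₀ θ)
    (by fun_prop) (by simpa using hs₀) (by simp [ha s₀, hs₀])
  have h4 : ∫ s in (0 : ℝ)..π, (f' (s₀ + s) ^ 2 - f (s₀ + s) ^ 2) =
      - ∫ s in (0 : ℝ)..π, (f (s₀ + s) ^ 2 - f' (s₀ + s) ^ 2) := by
    rw [← intervalIntegral.integral_neg]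
    congr 1
    ext x
    ring
  rw [h4]
  linarith

/-- Equality in Wirtinger's inequality for antiperiodic functions. -/
theorem wirt_anti_eq {f f' f'' : ℝ → ℝ} (hf : ∀ s, HasDerivAt f (f' s) s)
    (hf' : ∀ s, HasDerivAt f' (f'' s) s) (hf'' : Continuous f'')
    (ha : ∀ s, f (s + π) = -f s) (he : ∫ s in (0 : ℝ)..π, (f' s ^ 2 - f s ^ 2) = 0) :
    ∀ s, f'' s + f s = 0 := by
  have hfc : Continuous f := continuous_iff_continuousAt.2 fun x => (hf x).continuousAt
  have hfc' : Continuous f' := continuous_iff_continuousAt.2 fun x => (hf' x).continuousAt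
  have ha' := anti_shift hf ha
  have ha'' := anti_shift hf' ha'
  -- the quadratic form on `f + t h`, `h = f'' + f`, needs `h` to be differentiable; we use
  -- instead the explicit equality case
  obtain ⟨s₀, hs₀⟩ := exists_zero_of_anti hfc ha
  have hper : Function.Periodic (fun s => f' s ^ 2 - f s ^ 2) π := by
    intro s
    simp only [ha s, ha' s]
    ring
  have h1 : ∫ s in (0 : ℝ)..π, (f' s ^ 2 - f s ^ 2) =
      ∫ s in s₀..(s₀ + π), (f' s ^ 2 - f s ^ 2) := by
    have := hper.intervalIntegral_add_eq 0 s₀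
    simpa using this
  have h2 : ∫ s in s₀..(s₀ + π), (f' s ^ 2 - f s ^ 2) =
      ∫ s in (0 : ℝ)..π, (f' (s₀ + s) ^ 2 - f (s₀ + s) ^ 2) := by
    rw [intervalIntegral.integral_comp_add_left (fun s => f' s ^ 2 - f s ^ 2) s₀, add_zero]
  have h4 : ∫ s in (0 : ℝ)..π, (f (s₀ + s) ^ 2 - f' (s₀ + s) ^ 2) =
      - ∫ s in (0 : ℝ)..π, (f' (s₀ + s) ^ 2 - f (s₀ + s) ^ 2) := by
    rw [← intervalIntegral.integral_neg]
    congr 1
    ext x
    ring
  obtain ⟨c, hc⟩ := Pool.Agent.Helper16.Buoy.wirtinger_eq (g := fun s => f (s₀ + s))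
    (g' := fun s => f' (s₀ + s)) (fun θ => (hf (s₀ + θ)).comp_const_add s₀ θ)
    (by fun_prop) (by simpa using hs₀) (by simp [ha s₀, hs₀])
    (by rw [h4, ← h2, ← h1, he]; simp)
  -- on the open interval `f'' + f = 0`
  have hopen : ∀ x ∈ Ioo (0 : ℝ) π, f'' (s₀ + x) + f (s₀ + x) = 0 := by
    intro x hx
    have hd1 : ∀ y ∈ Ioo (0 : ℝ) π, f' (s₀ + y) = c * cos y := by
      intro y hy
      have e1 : HasDerivAt (fun s => f (s₀ + s)) (f' (s₀ + y)) y :=
        (hf (s₀ + y)).comp_const_add s₀ y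
      have e2 : HasDerivAt (fun s => c * sin s) (c * cos y) y := (hasDerivAt_sin y).const_mul c
      have e3 : (fun s => f (s₀ + s)) =ᶠ[nhds y] fun s => c * sin s := by
        filter_upwards [isOpen_Ioo.mem_nhds hy] with s hs
        exact hc s ⟨hs.1.le, hs.2.le⟩
      exact (e1.congr_of_eventuallyEq e3.symm).unique e2
    have e1 : HasDerivAt (fun s => f' (s₀ + s)) (f'' (s₀ + x)) x :=
      (hf' (s₀ + x)).comp_const_add s₀ x
    have e2 : HasDerivAt (fun s => c * cos s) (c * (- sin x)) x := (hasDerivAt_cos x).const_mul c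
    have e3 : (fun s => f' (s₀ + s)) =ᶠ[nhds x] fun s => c * cos s := by
      filter_upwards [isOpen_Ioo.mem_nhds hx] with s hs
      exact hd1 s hs
    have e4 := (e1.congr_of_eventuallyEq e3.symm).unique e2
    have e5 : f (s₀ + x) = c * sin x := hc x ⟨hx.1.le, hx.2.le⟩
    rw [e4, e5]
    ring
  -- closed interval by continuity
  have hclosed : ∀ x ∈ Icc (0 : ℝ) π, f'' (s₀ + x) + f (s₀ + x) = 0 := by
    have hcl : closure (Ioo (0 : ℝ) π) = Icc 0 π := closure_Ioo pi_pos.ne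
    have hcc : IsClosed {x : ℝ | f'' (s₀ + x) + f (s₀ + x) = 0} :=
      isClosed_eq (by fun_prop) continuous_const
    intro x hx
    have : closure (Ioo (0 : ℝ) π) ⊆ {x : ℝ | f'' (s₀ + x) + f (s₀ + x) = 0} :=
      hcc.closure_subset_iff.2 hopen
    rw [hcl] at this
    exact this hx
  -- all s : periodicity up to sign
  have hper2 : Function.Periodic (fun s => (f'' s + f s) ^ 2) π := by
    intro s
    simp only [ha s, ha'' s]
    ring
  intro s
  obtain ⟨y, hy, hy2⟩ := hper2.exists_mem_Ico pi_pos s s₀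
  have h5 : f'' y + f y = 0 := by
    have := hclosed (y - s₀) ⟨by linarith [hy.1], by linarith [hy.2]⟩
    simpa using this
  have h6 : (f'' s + f s) ^ 2 = 0 := by
    have : (f'' s + f s) ^ 2 = (f'' y + f y) ^ 2 := hy2
    rw [this, h5]
    ring
  exact pow_eq_zero_iff (two_ne_zero) |>.1 h6

end P85
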