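import Pool.Agent.P85.Defs
import Pool.Agent.P85.Wirt1

/-!
# Row R4, part 2: homogeneous odd functions
-/

set_option autoImplicit false
open scoped ContDiff
open Real Set MeasureTheory

namespace Pool.Agent.P85

section Hom

variable {g : E3 → ℝ}

lemma hom_cda (hg : ContDiffOn ℝ ∞ g {0}ᶜ) {x : E3} (hx : x ≠ 0) : ContDiffAt ℝ ∞ g x :=
  (hg x hx).contDiffAt (isOpen_compl_singleton.mem_nhds hx)

lemma hom_cda1 (hg : ContDiffOn ℝ ∞ g {0}ᶜ) {x : E3} (hx : x ≠ 0) :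
    ContDiffAt ℝ ∞ (fderiv ℝ g) x :=
  (hom_cda hg hx).fderiv_right (by norm_num)

lemma hom_cda2 (hg : ContDiffOn ℝ ∞ g {0}ᶜ) {x : E3} (hx : x ≠ 0) :
    ContDiffAt ℝ ∞ (fderiv ℝ (fderiv ℝ g)) x :=
  (hom_cda1 hg hx).fderiv_right (by norm_num)

lemma hom_hd (hg : ContDiffOn ℝ ∞ g {0}ᶜ) {x : E3} (hx : x ≠ 0) :
    HasFDerivAt g (fderiv ℝ g x) x :=
  ((hom_cda hg hx).differentiableAt (by norm_num)).hasFDerivAt

lemma hom_hd1 (hg : ContDiffOn ℝ ∞ g {0}ᶜ) {x : E3} (hx : x ≠ 0) :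
    HasFDerivAt (fderiv ℝ g) (fderiv ℝ (fderiv ℝ g) x) x :=
  ((hom_cda1 hg hx).differentiableAt (by norm_num)).hasFDerivAt

lemma hom_hd2 (hg : ContDiffOn ℝ ∞ g {0}ᶜ) {x : E3} (hx : x ≠ 0) :
    HasFDerivAt (fderiv ℝ (fderiv ℝ g)) (fderiv ℝ (fderiv ℝ (fderiv ℝ g)) x) x :=
  ((hom_cda2 hg hx).differentiableAt (by norm_num)).hasFDerivAt

/-- The gradient of a 1-homogeneous function is 0-homogeneous. -/
lemma hom_A (hg : ContDiffOn ℝ ∞ g {0}ᶜ) (hh : ∀ t : ℝ, 0 < t → ∀ x, g (t • x) = t * g x)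
    {t : ℝ} (ht : 0 < t) {x : E3} (hx : x ≠ 0) : fderiv ℝ g (t • x) = fderiv ℝ g x := by
  have htx : t • x ≠ 0 := smul_ne_zero ht.ne' hx
  have h1 : HasFDerivAt (fun y : E3 => g (t • y))
      ((fderiv ℝ g (t • x)).comp (t • ContinuousLinearMap.id ℝ E3)) x :=
    (hom_hd hg htx).comp x ((hasFDerivAt_id x).const_smul t)
  have h2 : HasFDerivAt (fun y : E3 => t * g y) (t • fderiv ℝ g x) x :=
    (hom_hd hg hx).const_mul t
  have h3 : (fun y : E3 => g (t • y)) = fun y => t * g y := funext (hh t ht)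
  rw [h3] at h1
  have h4 := h1.unique h2
  ext v
  have h5 := congrArg (fun L : E3 →L[ℝ] ℝ => L v) h4
  simp only [ContinuousLinearMap.comp_smul, ContinuousLinearMap.comp_id,
    smul_apply, smul_eq_mul] at h5
  exact mul_left_cancel₀ ht.ne' h5

/-- The second derivative of a 1-homogeneous function is homogeneous of degree `-1`. -/
lemma hom_B (hg : ContDiffOn ℝ ∞ g {0}ᶜ) (hh : ∀ t : ℝ, 0 < t → ∀ x, g (t • x) = t * g x)
    {t : ℝ} (ht : 0 < t) {x : E3} (hx : x ≠ 0) :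
    t • fderiv ℝ (fderiv ℝ g) (t • x) = fderiv ℝ (fderiv ℝ g) x := by
  have htx : t • x ≠ 0 := smul_ne_zero ht.ne' hx
  have h1 : HasFDerivAt (fun y : E3 => fderiv ℝ g (t • y))
      ((fderiv ℝ (fderiv ℝ g) (t • x)).comp (t • ContinuousLinearMap.id ℝ E3)) x :=
    (hom_hd1 hg htx).comp x ((hasFDerivAt_id x).const_smul t)
  have h3 : (fun y : E3 => fderiv ℝ g (t • y)) =ᶠ[nhds x] fun y => fderiv ℝ g y := by
    filter_upwards [isOpen_compl_singleton.mem_nhds hx] with y hy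
    exact hom_A hg hh ht hy
  have h4 := (h1.congr_of_eventuallyEq h3.symm).unique (hom_hd1 hg hx)
  rw [← h4, ContinuousLinearMap.comp_smul, ContinuousLinearMap.comp_id]

lemma hom_euler (hg : ContDiffOn ℝ ∞ g {0}ᶜ) (hh : ∀ t : ℝ, 0 < t → ∀ x, g (t • x) = t * g x)
    {x : E3} (hx : x ≠ 0) : fderiv ℝ g x x = g x := by
  have h0 : HasDerivAt (fun t : ℝ => t • x) x 1 := by
    simpa using (hasDerivAt_id (1 : ℝ)).smul_const x
  have h1 : HasDerivAt (fun t : ℝ => g (t • x)) (fderiv ℝ g x x) 1 := by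
    have := (show HasFDerivAt g (fderiv ℝ g x) ((1 : ℝ) • x) by
      rw [one_smul]; exact hom_hd hg hx).comp_hasDerivAt (1 : ℝ) h0
    exact this
  have h2 : HasDerivAt (fun t : ℝ => t * g x) (g x) 1 := by
    simpa using (hasDerivAt_id (1 : ℝ)).mul_const (g x)
  have h3 : (fun t : ℝ => g (t • x)) =ᶠ[nhds 1] fun t => t * g x := by
    filter_upwards [isOpen_Ioi.mem_nhds (show (1 : ℝ) ∈ Ioi (0 : ℝ) by simp)] with t ht
    exact hh t ht x
  exact (h1.congr_of_eventuallyEq h3.symm).unique h2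

lemma hom_radial (hg : ContDiffOn ℝ ∞ g {0}ᶜ) (hh : ∀ t : ℝ, 0 < t → ∀ x, g (t • x) = t * g x)
    {x : E3} (hx : x ≠ 0) : fderiv ℝ (fderiv ℝ g) x x = 0 := by
  have h0 : HasDerivAt (fun t : ℝ => t • x) x 1 := by
    simpa using (hasDerivAt_id (1 : ℝ)).smul_const x
  have h1 : HasDerivAt (fun t : ℝ => fderiv ℝ g (t • x)) (fderiv ℝ (fderiv ℝ g) x x) 1 := by
    have := (show HasFDerivAt (fderiv ℝ g) (fderiv ℝ (fderiv ℝ g) x) ((1 : ℝ) • x) by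
      rw [one_smul]; exact hom_hd1 hg hx).comp_hasDerivAt (1 : ℝ) h0
    exact this
  have h2 : HasDerivAt (fun _ : ℝ => fderiv ℝ g x) 0 1 := hasDerivAt_const _ _
  have h3 : (fun t : ℝ => fderiv ℝ g (t • x)) =ᶠ[nhds 1] fun _ => fderiv ℝ g x := by
    filter_upwards [isOpen_Ioi.mem_nhds (show (1 : ℝ) ∈ Ioi (0 : ℝ) by simp)] with t ht
    exact hom_A hg hh ht hx
  exact (h1.congr_of_eventuallyEq h3.symm).unique h2

lemma hom_symm (hg : ContDiffOn ℝ ∞ g {0}ᶜ) {x : E3} (hx : x ≠ 0) (v v' : E3) :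
    fderiv ℝ (fderiv ℝ g) x v v' = fderiv ℝ (fderiv ℝ g) x v' v :=
  ((hom_cda hg hx).isSymmSndFDerivAt (by
    rw [minSmoothness_of_isRCLikeNormedField]
    exact WithTop.coe_le_coe.2 (le_top : (2 : ℕ∞) ≤ ⊤))) v v'

lemma hom_symm3 (hg : ContDiffOn ℝ ∞ g {0}ᶜ) {x : E3} (hx : x ≠ 0) (v v' : E3) :
    fderiv ℝ (fderiv ℝ (fderiv ℝ g)) x v v' = fderiv ℝ (fderiv ℝ (fderiv ℝ g)) x v' v :=
  ((hom_cda1 hg hx).isSymmSndFDerivAt (by
    rw [minSmoothness_of_isRCLikeNormedField]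
    exact WithTop.coe_le_coe.2 (le_top : (2 : ℕ∞) ≤ ⊤))) v v'

lemma hom_radial' (hg : ContDiffOn ℝ ∞ g {0}ᶜ) (hh : ∀ t : ℝ, 0 < t → ∀ x, g (t • x) = t * g x)
    {x : E3} (hx : x ≠ 0) (v : E3) : fderiv ℝ (fderiv ℝ g) x v x = 0 := by
  rw [hom_symm hg hx, hom_radial hg hh hx]; rfl

lemma odd_A (hg : ContDiffOn ℝ ∞ g {0}ᶜ) (ho : ∀ x, g (-x) = - g x) {x : E3} (hx : x ≠ 0) :
    fderiv ℝ g (-x) = fderiv ℝ g x := by
  have hnx : -x ≠ 0 := neg_ne_zero.2 hx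
  have h1 : HasFDerivAt (fun y : E3 => g (-y))
      ((fderiv ℝ g (-x)).comp (-ContinuousLinearMap.id ℝ E3)) x :=
    (hom_hd hg hnx).comp x (hasFDerivAt_id x).neg
  have h2 : HasFDerivAt (fun y : E3 => - g y) (- fderiv ℝ g x) x := (hom_hd hg hx).neg
  have h3 : (fun y : E3 => g (-y)) = fun y => - g y := funext ho
  rw [h3] at h1
  have h4 := h1.unique h2
  ext v
  have h5 := congrArg (fun L : E3 →L[ℝ] ℝ => L v) h4
  simp at h5
  exact h5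

lemma odd_B (hg : ContDiffOn ℝ ∞ g {0}ᶜ) (ho : ∀ x, g (-x) = - g x) {x : E3} (hx : x ≠ 0) :
    fderiv ℝ (fderiv ℝ g) (-x) = - fderiv ℝ (fderiv ℝ g) x := by
  have hnx : -x ≠ 0 := neg_ne_zero.2 hx
  have h1 : HasFDerivAt (fun y : E3 => fderiv ℝ g (-y))
      ((fderiv ℝ (fderiv ℝ g) (-x)).comp (-ContinuousLinearMap.id ℝ E3)) x :=
    (hom_hd1 hg hnx).comp x (hasFDerivAt_id x).neg
  have h3 : (fun y : E3 => fderiv ℝ g (-y)) =ᶠ[nhds x] fun y => fderiv ℝ g y := by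
    filter_upwards [isOpen_compl_singleton.mem_nhds hx] with y hy
    exact odd_A hg ho hy
  have h4 := (h1.congr_of_eventuallyEq h3.symm).unique (hom_hd1 hg hx)
  rw [← h4, ContinuousLinearMap.comp_neg, ContinuousLinearMap.comp_id, neg_neg]

end Hom

end Pool.Agent.P85
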