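import Pool.Agent.P85.Wirt2

/-!
# Row R4, part 3: frames, derivatives of frame functions, the Minkowski identity
-/

set_option autoImplicit false
set_option maxSynthPendingDepth 3
open scoped ContDiff
open Real Set MeasureTheory

namespace Pool.Agent.P85.W4

open Pool.Agent.P85

variable {H : E3 → ℝ} {w : ℝ} {μ : Measure Fr}

/-! ### The cross product -/

lemma pt_decomp (x y z : ℝ) : pt x y z = x • pt 1 0 0 + y • pt 0 1 0 + z • pt 0 0 1 := by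
  ext i; fin_cases i <;> simp [pt]

lemma hasDerivAt_pt {x y z : ℝ → ℝ} {x' y' z' s : ℝ} (hx : HasDerivAt x x' s)
    (hy : HasDerivAt y y' s) (hz : HasDerivAt z z' s) :
    HasDerivAt (fun t => pt (x t) (y t) (z t)) (pt x' y' z') s := by
  have h := ((hx.smul_const (pt 1 0 0)).add (hy.smul_const (pt 0 1 0))).add
    (hz.smul_const (pt 0 0 1))
  rw [pt_decomp x' y' z']
  refine h.congr_of_eventuallyEq (Filter.Eventually.of_forall fun t => ?_)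
  exact pt_decomp (x t) (y t) (z t)

lemma hasDerivAt_coord {u : ℝ → E3} {u' : E3} {s : ℝ} (hu : HasDerivAt u u' s) (i : Fin 3) :
    HasDerivAt (fun t => u t i) (u' i) s :=
  (EuclideanSpace.proj i : E3 →L[ℝ] ℝ).hasFDerivAt.comp_hasDerivAt s hu

lemma hasDerivAt_cr {u e : ℝ → E3} {u' e' : E3} {s : ℝ} (hu : HasDerivAt u u' s)
    (he : HasDerivAt e e' s) :
    HasDerivAt (fun t => cr (u t) (e t)) (cr u' (e s) + cr (u s) e') s := by
  have hu0 := hasDerivAt_coord hu 0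
  have hu1 := hasDerivAt_coord hu 1
  have hu2 := hasDerivAt_coord hu 2
  have he0 := hasDerivAt_coord he 0
  have he1 := hasDerivAt_coord he 1
  have he2 := hasDerivAt_coord he 2
  have h := hasDerivAt_pt ((hu1.mul he2).sub (hu2.mul he1)) ((hu2.mul he0).sub (hu0.mul he2))
    ((hu0.mul he1).sub (hu1.mul he0))
  refine h.congr_deriv ?_
  ext i; fin_cases i <;> simp [cr] <;> ring

lemma contDiff_coord {n : WithTop ℕ∞} (i : Fin 3) : ContDiff ℝ n (fun x : E3 => x i) :=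
  (EuclideanSpace.proj i : E3 →L[ℝ] ℝ).contDiff

lemma contDiff_bb {n : WithTop ℕ∞} : ContDiff ℝ n bb := by
  have h : (bb : Fr → E3) = fun M => (M.1 1 * M.2 2 - M.1 2 * M.2 1) • pt 1 0 0 +
      (M.1 2 * M.2 0 - M.1 0 * M.2 2) • pt 0 1 0 + (M.1 0 * M.2 1 - M.1 1 * M.2 0) • pt 0 0 1 := by
    funext M
    exact pt_decomp _ _ _
  rw [h]
  have h1 : ∀ i, ContDiff ℝ n (fun M : Fr => M.1 i) := fun i => (contDiff_coord i).comp contDiff_fst
  have h2 : ∀ i, ContDiff ℝ n (fun M : Fr => M.2 i) := fun i => (contDiff_coord i).comp contDiff_snd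
  exact (((((h1 1).mul (h2 2)).sub ((h1 2).mul (h2 1))).smul contDiff_const).add
    ((((h1 2).mul (h2 0)).sub ((h1 0).mul (h2 2))).smul contDiff_const)).add
    ((((h1 0).mul (h2 1)).sub ((h1 1).mul (h2 0))).smul contDiff_const)

lemma st_coords {M : Fr} (hM : M ∈ St) :
    M.1 0 ^ 2 + M.1 1 ^ 2 + M.1 2 ^ 2 = 1 ∧ M.2 0 ^ 2 + M.2 1 ^ 2 + M.2 2 ^ 2 = 1 ∧
      M.1 0 * M.2 0 + M.1 1 * M.2 1 + M.1 2 * M.2 2 = 0 := by
  obtain ⟨h1, h2, h3⟩ := hM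
  refine ⟨?_, ?_, ?_⟩
  · rw [← norm_sq_eq, h1]; norm_num
  · rw [← norm_sq_eq, h2]; norm_num
  · rw [← inner_eq, h3]

lemma st_ne {M : Fr} (hM : M ∈ St) : M.1 ≠ 0 := by
  intro h
  have := hM.1
  rw [h, norm_zero] at this
  norm_num at this

/-- `b × e = -u`. -/
lemma cr_bb {M : Fr} (hM : M ∈ St) : cr (bb M) M.2 = -M.1 := by
  obtain ⟨-, h2, h3⟩ := st_coords hM
  ext i; fin_cases i
  · show (bb M) 1 * M.2 2 - (bb M) 2 * M.2 1 = - M.1 0
    simp only [bb, cr, pt_one, pt_two]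
    linear_combination (-M.1 0) * h2 + M.2 0 * h3
  · show (bb M) 2 * M.2 0 - (bb M) 0 * M.2 2 = - M.1 1
    simp only [bb, cr, pt_zero, pt_two]
    linear_combination (-M.1 1) * h2 + M.2 1 * h3
  · show (bb M) 0 * M.2 1 - (bb M) 1 * M.2 0 = - M.1 2
    simp only [bb, cr, pt_zero, pt_one]
    linear_combination (-M.1 2) * h2 + M.2 2 * h3

lemma bb_norm {M : Fr} (hM : M ∈ St) : ‖bb M‖ = 1 := by
  obtain ⟨h1, h2, h3⟩ := st_coords hM
  have h : ‖bb M‖ ^ 2 = 1 := by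
    rw [norm_sq_eq]
    simp only [bb, cr, pt_zero, pt_one, pt_two]
    linear_combination (M.2 0 ^ 2 + M.2 1 ^ 2 + M.2 2 ^ 2) * h1 + h2 -
      (M.1 0 * M.2 0 + M.1 1 * M.2 1 + M.1 2 * M.2 2) * h3
  have h0 : 0 ≤ ‖bb M‖ := norm_nonneg _
  nlinarith [sq_nonneg (‖bb M‖ - 1)]

lemma inner_bb {M : Fr} : inner ℝ M.1 (bb M) = 0 := by
  rw [inner_eq]
  simp only [bb, cr, pt_zero, pt_one, pt_two]
  ring

lemma inner_bb' {M : Fr} : inner ℝ (bb M) M.2 = 0 := by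
  rw [inner_eq]
  simp only [bb, cr, pt_zero, pt_one, pt_two]
  ring

lemma cr_self (u : E3) : cr u u = 0 := by
  ext i; fin_cases i <;> simp [cr] <;> ring

lemma cr_neg_right (u v : E3) : cr u (-v) = - cr u v := by
  ext i; fin_cases i <;> simp [cr] <;> ring

lemma cr_zero_right (u : E3) : cr u 0 = 0 := by
  ext i; fin_cases i <;> simp [cr]

/-! ### Integrability -/

lemma isCompact_St : IsCompact St := by
  have hc : IsClosed St := by
    have h1 : IsClosed {M : Fr | ‖M.1‖ = 1} := isClosed_eq (by fun_prop) continuous_const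
    have h2 : IsClosed {M : Fr | ‖M.2‖ = 1} := isClosed_eq (by fun_prop) continuous_const
    have h3 : IsClosed {M : Fr | inner ℝ M.1 M.2 = (0 : ℝ)} :=
      isClosed_eq (continuous_fst.inner continuous_snd) continuous_const
    have : St = {M : Fr | ‖M.1‖ = 1} ∩ ({M : Fr | ‖M.2‖ = 1} ∩ {M : Fr | inner ℝ M.1 M.2 = (0 : ℝ)}) := by
      ext M; rfl
    rw [this]
    exact h1.inter (h2.inter h3)
  refine Metric.isCompact_of_isClosed_isBounded hc ?_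
  refine (Metric.isBounded_closedBall (x := (0 : Fr)) (r := 1)).subset fun M hM => ?_
  rw [mem_closedBall_zero_iff, Prod.norm_def]
  exact max_le hM.1.le hM.2.1.le

lemma integ (hμ : Inv μ) {F : Fr → ℝ} (hF : ContinuousOn F St) : Integrable F μ := by
  have := hμ.prob
  have h := hF.integrableOn_compact (μ := μ) isCompact_St
  rwa [IntegrableOn, Measure.restrict_eq_self_of_ae_mem hμ.st] at h

lemma integral_congr_St (hμ : Inv μ) {F G : Fr → ℝ} (h : ∀ M ∈ St, F M = G M) :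
    ∫ M, F M ∂μ = ∫ M, G M ∂μ := by
  refine integral_congr_ae ?_
  filter_upwards [hμ.st] with M hM
  exact h M hM

lemma integral_mp (hμ : Inv μ) {T : Fr → Fr} (hT : MeasurePreserving T μ μ) {F : Fr → ℝ}
    (hF : ContinuousOn F St) : ∫ M, F (T M) ∂μ = ∫ M, F M ∂μ := by
  have h1 := integral_map (μ := μ) hT.measurable.aemeasurable
    (f := F) (by rw [hT.map_eq]; exact (integ hμ hF).aestronglyMeasurable)
  rw [hT.map_eq] at h1
  exact h1.symm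

/-! ### Derivatives along `L1` and `L2` -/

lemma fderiv_eq_of_curve {F : Fr → ℝ} {M d : Fr} {c : ℝ} (hF : DifferentiableAt ℝ F M)
    (h : HasDerivAt (fun s : ℝ => F (M + s • d)) c 0) : fderiv ℝ F M d = c := by
  have h0 : HasDerivAt (fun s : ℝ => M + s • d) d 0 := by
    simpa using ((hasDerivAt_id (0 : ℝ)).smul_const d).const_add M
  have h1 : HasDerivAt (fun s : ℝ => F (M + s • d)) (fderiv ℝ F M d) 0 := by
    have := (show HasFDerivAt F (fderiv ℝ F M) (M + (0 : ℝ) • d) by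
      rw [zero_smul, add_zero]; exact hF.hasFDerivAt).comp_hasDerivAt (0 : ℝ) h0
    exact this
  exact h1.unique h

lemma hd_fst {M d : Fr} : HasDerivAt (fun s : ℝ => (M + s • d).1) d.1 0 := by
  simpa using ((hasDerivAt_id (0 : ℝ)).smul_const d.1).const_add M.1

lemma hd_snd {M d : Fr} : HasDerivAt (fun s : ℝ => (M + s • d).2) d.2 0 := by
  simpa using ((hasDerivAt_id (0 : ℝ)).smul_const d.2).const_add M.2

lemma hd_bb {M d : Fr} : HasDerivAt (fun s : ℝ => bb (M + s • d)) (cr d.1 M.2 + cr M.1 d.2) 0 := by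
  have h := hasDerivAt_cr (hd_fst (M := M) (d := d)) (hd_snd (M := M) (d := d))
  exact h.congr_deriv (by simp)

lemma hd_H (hS : ContDiffOn ℝ ∞ H {0}ᶜ) {M d : Fr} (hM : M.1 ≠ 0) :
    HasDerivAt (fun s : ℝ => H (M + s • d).1) (fderiv ℝ H M.1 d.1) 0 := by
  have := (show HasFDerivAt H (fderiv ℝ H M.1) (M + (0 : ℝ) • d).1 by
      rw [zero_smul, add_zero]; exact hom_hd hS hM).comp_hasDerivAt (0 : ℝ)
      (hd_fst (M := M) (d := d))
  exact this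

lemma hd_A (hS : ContDiffOn ℝ ∞ H {0}ᶜ) {M d : Fr} (hM : M.1 ≠ 0) :
    HasDerivAt (fun s : ℝ => fderiv ℝ H (M + s • d).1) (fderiv ℝ (fderiv ℝ H) M.1 d.1) 0 := by
  have := (show HasFDerivAt (fderiv ℝ H) (fderiv ℝ (fderiv ℝ H) M.1) (M + (0 : ℝ) • d).1 by
      rw [zero_smul, add_zero]; exact hom_hd1 hS hM).comp_hasDerivAt (0 : ℝ)
      (hd_fst (M := M) (d := d))
  exact this

lemma gen_hd2 {E : Type*} [NormedAddCommGroup E] [NormedSpace ℝ E] {g : E → ℝ} {x d : E}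
    (h : ContDiffAt ℝ ∞ g x) :
    HasDerivAt (fun s : ℝ => fderiv ℝ (fderiv ℝ g) (x + s • d))
      (fderiv ℝ (fderiv ℝ (fderiv ℝ g)) x d) 0 := by
  have h1 : HasFDerivAt (fderiv ℝ (fderiv ℝ g)) (fderiv ℝ (fderiv ℝ (fderiv ℝ g)) x)
      (x + (0 : ℝ) • d) := by
    rw [zero_smul, add_zero]
    have h2 : ContDiffAt ℝ ∞ (fderiv ℝ g) x := h.fderiv_right (by norm_num)
    have h3 : ContDiffAt ℝ ∞ (fderiv ℝ (fderiv ℝ g)) x := h2.fderiv_right (by norm_num)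
    exact (h3.differentiableAt (by norm_num)).hasFDerivAt
  have h0 : HasDerivAt (fun s : ℝ => x + s • d) d 0 := by
    simpa using ((hasDerivAt_id (0 : ℝ)).smul_const d).const_add x
  exact h1.comp_hasDerivAt (0 : ℝ) h0

lemma gen_cda3 {E F : Type*} [NormedAddCommGroup E] [NormedSpace ℝ E] [NormedAddCommGroup F]
    [NormedSpace ℝ F] {g : E → ℝ} {u v z y : F → E} {M : F} (h : ContDiffAt ℝ ∞ g (u M))
    (hu : ContDiffAt ℝ ∞ u M) (hv : ContDiffAt ℝ ∞ v M) (hz : ContDiffAt ℝ ∞ z M)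
    (hy : ContDiffAt ℝ ∞ y M) :
    ContDiffAt ℝ ∞ (fun M => fderiv ℝ (fderiv ℝ (fderiv ℝ g)) (u M) (v M) (z M) (y M)) M := by
  have h2 : ContDiffAt ℝ ∞ (fderiv ℝ g) (u M) := h.fderiv_right (by norm_num)
  have h3 : ContDiffAt ℝ ∞ (fderiv ℝ (fderiv ℝ g)) (u M) := h2.fderiv_right (by norm_num)
  have h4 : ContDiffAt ℝ ∞ (fderiv ℝ (fderiv ℝ (fderiv ℝ g))) (u M) :=
    h3.fderiv_right (by norm_num)
  exact (((ContDiffAt.comp M h4 hu).clm_apply hv).clm_apply hz).clm_apply hy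

lemma hd_B (hS : ContDiffOn ℝ ∞ H {0}ᶜ) {M d : Fr} (hM : M.1 ≠ 0) :
    HasDerivAt (fun s : ℝ => fderiv ℝ (fderiv ℝ H) (M + s • d).1)
      (fderiv ℝ (fderiv ℝ (fderiv ℝ H)) M.1 d.1) 0 :=
  gen_hd2 (hom_cda hS hM)

/-- Derivative of `H_e`. -/
lemma hd_qe (hS : ContDiffOn ℝ ∞ H {0}ᶜ) {M d : Fr} (hM : M.1 ≠ 0) :
    HasDerivAt (fun s : ℝ => fderiv ℝ H (M + s • d).1 (M + s • d).2)
      (fderiv ℝ (fderiv ℝ H) M.1 d.1 M.2 + fderiv ℝ H M.1 d.2) 0 := by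
  have h := (hd_A hS (M := M) (d := d) hM).clm_apply (hd_snd (M := M) (d := d))
  simpa using h

/-- Derivative of `H_b`. -/
lemma hd_qb (hS : ContDiffOn ℝ ∞ H {0}ᶜ) {M d : Fr} (hM : M.1 ≠ 0) :
    HasDerivAt (fun s : ℝ => fderiv ℝ H (M + s • d).1 (bb (M + s • d)))
      (fderiv ℝ (fderiv ℝ H) M.1 d.1 (bb M) + fderiv ℝ H M.1 (cr d.1 M.2 + cr M.1 d.2)) 0 := by
  have h := (hd_A hS (M := M) (d := d) hM).clm_apply (hd_bb (M := M) (d := d))
  simpa using h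

/-- Derivative of `R_bb`. -/
lemma hd_Rbb (hS : ContDiffOn ℝ ∞ H {0}ᶜ) {M d : Fr} (hM : M.1 ≠ 0) :
    HasDerivAt (fun s : ℝ => Rbb H (M + s • d))
      (fderiv ℝ (fderiv ℝ (fderiv ℝ H)) M.1 d.1 (bb M) (bb M) +
        D2 H M.1 (cr d.1 M.2 + cr M.1 d.2) (bb M) +
        D2 H M.1 (bb M) (cr d.1 M.2 + cr M.1 d.2)) 0 := by
  have h := ((hd_B hS (M := M) (d := d) hM).clm_apply (hd_bb (M := M) (d := d))).clm_apply
    (hd_bb (M := M) (d := d))
  simpa [Rbb, D2] using h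

/-- Derivative of `R_eb`. -/
lemma hd_Reb (hS : ContDiffOn ℝ ∞ H {0}ᶜ) {M d : Fr} (hM : M.1 ≠ 0) :
    HasDerivAt (fun s : ℝ => Reb H (M + s • d))
      (fderiv ℝ (fderiv ℝ (fderiv ℝ H)) M.1 d.1 M.2 (bb M) +
        D2 H M.1 d.2 (bb M) +
        D2 H M.1 M.2 (cr d.1 M.2 + cr M.1 d.2)) 0 := by
  have h := ((hd_B hS (M := M) (d := d) hM).clm_apply (hd_snd (M := M) (d := d))).clm_apply
    (hd_bb (M := M) (d := d))
  simpa [Reb, D2] using h

/-! ### Smoothness of the frame functions -/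

lemma cda_fst {M : Fr} {n : WithTop ℕ∞} : ContDiffAt ℝ n (fun M : Fr => M.1) M := contDiffAt_fst

lemma cda_A (hS : ContDiffOn ℝ ∞ H {0}ᶜ) {M : Fr} (hM : M.1 ≠ 0) :
    ContDiffAt ℝ ∞ (fun M : Fr => fderiv ℝ H M.1) M :=
  ContDiffAt.comp M (hom_cda1 hS hM) contDiffAt_fst

lemma cda_B (hS : ContDiffOn ℝ ∞ H {0}ᶜ) {M : Fr} (hM : M.1 ≠ 0) :
    ContDiffAt ℝ ∞ (fun M : Fr => fderiv ℝ (fderiv ℝ H) M.1) M :=
  ContDiffAt.comp M (hom_cda2 hS hM) contDiffAt_fst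

lemma cda_H (hS : ContDiffOn ℝ ∞ H {0}ᶜ) {M : Fr} (hM : M.1 ≠ 0) :
    ContDiffAt ℝ ∞ (fun M : Fr => H M.1) M :=
  ContDiffAt.comp M (hom_cda hS hM) contDiffAt_fst

lemma cda_qe (hS : ContDiffOn ℝ ∞ H {0}ᶜ) {M : Fr} (hM : M.1 ≠ 0) :
    ContDiffAt ℝ ∞ (fun M : Fr => fderiv ℝ H M.1 M.2) M :=
  (cda_A hS hM).clm_apply contDiffAt_snd

lemma cda_qb (hS : ContDiffOn ℝ ∞ H {0}ᶜ) {M : Fr} (hM : M.1 ≠ 0) :
    ContDiffAt ℝ ∞ (fun M : Fr => fderiv ℝ H M.1 (bb M)) M :=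
  (cda_A hS hM).clm_apply contDiff_bb.contDiffAt

lemma cda_Ree (hS : ContDiffOn ℝ ∞ H {0}ᶜ) {M : Fr} (hM : M.1 ≠ 0) :
    ContDiffAt ℝ ∞ (Ree H) M :=
  ((cda_B hS hM).clm_apply contDiffAt_snd).clm_apply contDiffAt_snd

lemma cda_Reb (hS : ContDiffOn ℝ ∞ H {0}ᶜ) {M : Fr} (hM : M.1 ≠ 0) :
    ContDiffAt ℝ ∞ (Reb H) M :=
  ((cda_B hS hM).clm_apply contDiffAt_snd).clm_apply contDiff_bb.contDiffAt

lemma cda_Rbb (hS : ContDiffOn ℝ ∞ H {0}ᶜ) {M : Fr} (hM : M.1 ≠ 0) :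
    ContDiffAt ℝ ∞ (Rbb H) M :=
  ((cda_B hS hM).clm_apply contDiff_bb.contDiffAt).clm_apply contDiff_bb.contDiffAt

lemma co_of_cda {F : Fr → ℝ} (h : ∀ M : Fr, M.1 ≠ 0 → ContDiffAt ℝ ∞ F M) : ContinuousOn F St :=
  fun M hM => (h M (st_ne hM)).continuousAt.continuousWithinAt

/-! ### The identities -/

section Ident

variable (hS : ContDiffOn ℝ ∞ H {0}ᶜ) (hh : ∀ t : ℝ, 0 < t → ∀ x, H (t • x) = t * H x)
include hS hh

lemma L1_F1 {M : Fr} (hM : M ∈ St) :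
    fderiv ℝ (fun M : Fr => fderiv ℝ H M.1 M.2 * Rbb H M) M (M.2, -M.1) =
      (Ree H M - H M.1) * Rbb H M +
        fderiv ℝ H M.1 M.2 * fderiv ℝ (fderiv ℝ (fderiv ℝ H)) M.1 M.2 (bb M) (bb M) := by
  have hne := st_ne hM
  refine fderiv_eq_of_curve (((cda_qe hS hne).mul (cda_Rbb hS hne)).differentiableAt
    (by norm_num)) ?_
  have h := (hd_qe hS (M := M) (d := (M.2, -M.1)) hne).mul
    (hd_Rbb hS (M := M) (d := (M.2, -M.1)) hne)
  refine h.congr_deriv ?_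
  have e1 : cr M.2 M.2 + cr M.1 (-M.1) = 0 := by
    rw [cr_neg_right, cr_self, cr_self]; simp
  simp only [zero_smul, add_zero, e1, map_neg, hom_euler hS hh hne]
  simp only [D2, map_zero, zero_apply, add_zero, Ree]
  ring

lemma L2_F2 {M : Fr} (hM : M ∈ St) :
    fderiv ℝ (fun M : Fr => fderiv ℝ H M.1 M.2 * Reb H M) M (bb M, 0) =
      Reb H M ^ 2 +
        fderiv ℝ H M.1 M.2 * fderiv ℝ (fderiv ℝ (fderiv ℝ H)) M.1 M.2 (bb M) (bb M) := by
  have hne := st_ne hM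
  refine fderiv_eq_of_curve (((cda_qe hS hne).mul (cda_Reb hS hne)).differentiableAt
    (by norm_num)) ?_
  have h := (hd_qe hS (M := M) (d := (bb M, 0)) hne).mul
    (hd_Reb hS (M := M) (d := (bb M, 0)) hne)
  refine h.congr_deriv ?_
  have e1 : cr (bb M) M.2 + cr M.1 0 = -M.1 := by
    rw [cr_zero_right, cr_bb hM]; simp
  have e2 : D2 H M.1 M.2 (-M.1) = 0 := by
    rw [D2, map_neg, hom_radial' hS hh hne, neg_zero]
  have e3 : D2 H M.1 0 (bb M) = 0 := by simp [D2]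
  have e4 : fderiv ℝ (fderiv ℝ H) M.1 (bb M) M.2 = Reb H M := by
    rw [hom_symm hS hne]; rfl
  simp only [zero_smul, add_zero, e1, e2, e3, map_zero, e4]
  rw [hom_symm3 hS hne (bb M) M.2]
  ring

lemma L2_F3 {M : Fr} (hM : M ∈ St) :
    fderiv ℝ (fun M : Fr => H M.1 * fderiv ℝ H M.1 (bb M)) M (bb M, 0) =
      (fderiv ℝ H M.1 (bb M)) ^ 2 + H M.1 * (Rbb H M - H M.1) := by
  have hne := st_ne hM
  refine fderiv_eq_of_curve (((cda_H hS hne).mul (cda_qb hS hne)).differentiableAt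
    (by norm_num)) ?_
  have h := (hd_H hS (M := M) (d := (bb M, 0)) hne).mul
    (hd_qb hS (M := M) (d := (bb M, 0)) hne)
  refine h.congr_deriv ?_
  have e1 : cr (bb M) M.2 + cr M.1 0 = -M.1 := by
    rw [cr_zero_right, cr_bb hM]; simp
  simp only [zero_smul, add_zero, e1, map_neg, hom_euler hS hh hne]
  simp only [Rbb, D2]
  ring

/-- `E[det R] = E[H²] - E[H_b²]`. -/
lemma mink_ident (hμ : Inv μ) :
    ∫ M, Dn H M ∂μ = ∫ M, (H M.1 ^ 2 - (fderiv ℝ H M.1 (bb M)) ^ 2) ∂μ := by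
  have c1 : ContinuousOn (fun M : Fr => fderiv ℝ H M.1 M.2) St := co_of_cda fun M h => cda_qe hS h
  have c2 : ContinuousOn (fun M : Fr => fderiv ℝ H M.1 (bb M)) St :=
    co_of_cda fun M h => cda_qb hS h
  have c3 : ContinuousOn (fun M : Fr => H M.1) St := co_of_cda fun M h => cda_H hS h
  have c4 : ContinuousOn (Ree H) St := co_of_cda fun M h => cda_Ree hS h
  have c5 : ContinuousOn (Reb H) St := co_of_cda fun M h => cda_Reb hS h
  have c6 : ContinuousOn (Rbb H) St := co_of_cda fun M h => cda_Rbb hS h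
  have c7 : ContinuousOn (fun M : Fr =>
      fderiv ℝ (fderiv ℝ (fderiv ℝ H)) M.1 M.2 (bb M) (bb M)) St := by
    exact co_of_cda fun M h => gen_cda3 (u := fun M : Fr => M.1) (v := fun M : Fr => M.2)
      (z := bb) (y := bb) (hom_cda hS h) contDiffAt_fst contDiffAt_snd contDiff_bb.contDiffAt
      contDiff_bb.contDiffAt
  have i1 := hμ.l1 (fun M : Fr => fderiv ℝ H M.1 M.2 * Rbb H M) fun M hM =>
    ((cda_qe hS (st_ne hM)).mul (cda_Rbb hS (st_ne hM))).of_le (by norm_num)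
  have i2 := hμ.l2 (fun M : Fr => fderiv ℝ H M.1 M.2 * Reb H M) fun M hM =>
    ((cda_qe hS (st_ne hM)).mul (cda_Reb hS (st_ne hM))).of_le (by norm_num)
  have i3 := hμ.l2 (fun M : Fr => H M.1 * fderiv ℝ H M.1 (bb M)) fun M hM =>
    ((cda_H hS (st_ne hM)).mul (cda_qb hS (st_ne hM))).of_le (by norm_num)
  rw [integral_congr_St hμ (fun M hM => L1_F1 hS hh hM)] at i1
  rw [integral_congr_St hμ (fun M hM => L2_F2 hS hh hM)] at i2
  rw [integral_congr_St hμ (fun M hM => L2_F3 hS hh hM)] at i3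
  have j1 : Integrable (fun M : Fr => (Ree H M - H M.1) * Rbb H M +
      fderiv ℝ H M.1 M.2 * fderiv ℝ (fderiv ℝ (fderiv ℝ H)) M.1 M.2 (bb M) (bb M)) μ :=
    integ hμ (((c4.sub c3).mul c6).add (c1.mul c7))
  have j2 : Integrable (fun M : Fr => Reb H M ^ 2 +
      fderiv ℝ H M.1 M.2 * fderiv ℝ (fderiv ℝ (fderiv ℝ H)) M.1 M.2 (bb M) (bb M)) μ :=
    integ hμ ((c5.pow 2).add (c1.mul c7))
  have j3 : Integrable (fun M : Fr => (fderiv ℝ H M.1 (bb M)) ^ 2 + H M.1 * (Rbb H M - H M.1)) μ :=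
    integ hμ ((c2.pow 2).add (c3.mul (c6.sub c3)))
  have j4 : Integrable (fun M : Fr => H M.1 ^ 2 - (fderiv ℝ H M.1 (bb M)) ^ 2) μ :=
    integ hμ ((c3.pow 2).sub (c2.pow 2))
  have key : ∫ M, Dn H M ∂μ - ∫ M, (H M.1 ^ 2 - (fderiv ℝ H M.1 (bb M)) ^ 2) ∂μ =
      (∫ M, ((Ree H M - H M.1) * Rbb H M +
      fderiv ℝ H M.1 M.2 * fderiv ℝ (fderiv ℝ (fderiv ℝ H)) M.1 M.2 (bb M) (bb M)) ∂μ) -
      (∫ M, (Reb H M ^ 2 +
      fderiv ℝ H M.1 M.2 * fderiv ℝ (fderiv ℝ (fderiv ℝ H)) M.1 M.2 (bb M) (bb M)) ∂μ) +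
      ∫ M, ((fderiv ℝ H M.1 (bb M)) ^ 2 + H M.1 * (Rbb H M - H M.1)) ∂μ := by
    have j12 : Integrable (fun M : Fr => ((Ree H M - H M.1) * Rbb H M +
      fderiv ℝ H M.1 M.2 * fderiv ℝ (fderiv ℝ (fderiv ℝ H)) M.1 M.2 (bb M) (bb M)) -
      (Reb H M ^ 2 +
      fderiv ℝ H M.1 M.2 * fderiv ℝ (fderiv ℝ (fderiv ℝ H)) M.1 M.2 (bb M) (bb M))) μ :=
      j1.sub j2
    rw [← integral_sub (integ hμ ((c4.mul c6).sub (c5.pow 2)) : Integrable (Dn H) μ) j4,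
      ← integral_sub j1 j2, ← integral_add j12 j3]
    congr 1
    funext M
    simp only [Dn]
    ring
  rw [i1, i2, i3] at key
  linarith

end Ident

end Pool.Agent.P85.W4
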